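import Pool.Agent.Lib_helper41.HZF.Defs

/-! Block INF: archimedean identities. -/

namespace Pool.Agent.HZ

open NumberField NumberField.InfinitePlace NumberField.Units Complex MeasureTheory Filter Topology

variable {K : Type} [Field K] [NumberField K]

theorem inf_ne (w : InfinitePlace K) {a : K} (ha : a ≠ 0) : (w a : ℝ) ≠ 0 := by
  intro h
  exact ha (by simpa using (map_eq_zero w).1 h)

theorem psiInf_mul (κ : InfinitePlace K → ℤ) (lam : InfinitePlace K → ℝ) {a a' : K} (ha : a ≠ 0)
    (ha' : a' ≠ 0) : psiInf κ lam (a * a') = psiInf κ lam a * psiInf κ lam a' := by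
  unfold psiInf
  rw [← Finset.prod_mul_distrib]
  refine Finset.prod_congr rfl fun w _ => ?_
  have h1 : (w (a * a') : ℝ) = w a * w a' := map_mul w a a'
  have h2 : Real.log (w (a * a')) = Real.log (w a) + Real.log (w a') := by
    rw [h1, Real.log_mul (inf_ne w ha) (inf_ne w ha')]
  rw [h2, h1, map_mul]
  have h3 : (w.embedding a * w.embedding a' / (((w a * w a' : ℝ)) : ℂ)) =
      (w.embedding a / (w a : ℂ)) * (w.embedding a' / (w a' : ℂ)) := by
    push_cast
    rw [mul_div_mul_comm]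
  rw [h3, mul_zpow]
  have h4 : cexp (-((lam w * (Real.log (w a) + Real.log (w a')) : ℝ) : ℂ) * I) =
      cexp (-((lam w * Real.log (w a) : ℝ) : ℂ) * I) *
        cexp (-((lam w * Real.log (w a') : ℝ) : ℂ) * I) := by
    rw [← Complex.exp_add]
    congr 1
    push_cast
    ring
  rw [h4]
  ring

theorem inf_unit (w : InfinitePlace K) {a : K} (ha : a ≠ 0) :
    ‖(w.embedding a / (w a : ℂ))‖ = 1 := by
  rw [norm_div, norm_embedding_eq, Complex.norm_real, Real.norm_eq_abs,
    abs_of_nonneg (apply_nonneg w a), div_self (inf_ne w ha)]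

theorem psiInf_norm (κ : InfinitePlace K → ℤ) (lam : InfinitePlace K → ℝ) {a : K} (ha : a ≠ 0) :
    ‖psiInf κ lam a‖ = 1 := by
  unfold psiInf
  rw [norm_prod]
  apply Finset.prod_eq_one
  intro w _
  rw [norm_mul, norm_zpow, inf_unit w ha, one_zpow, one_mul, ← Complex.ofReal_neg,
    Complex.norm_exp_ofReal_mul_I]

theorem Gf_eq (κ : InfinitePlace K → ℤ) (lam : InfinitePlace K → ℝ) (y : InfinitePlace K → ℝ)
    (hy : ∀ w, 0 < y w) {a : K} (ha : a ≠ 0) :
    Gf κ lam (fun w => y w * w a) = (psiInf κ lam a)⁻¹ * Hf κ y a *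
      cexp (((∑ w, lam w * Real.log (y w) : ℝ) : ℂ) * I) := by
  have hE : cexp (((∑ w, lam w * Real.log (y w) : ℝ) : ℂ) * I) =
      ∏ w, cexp (((lam w * Real.log (y w) : ℝ) : ℂ) * I) := by
    rw [← Complex.exp_sum]
    congr 1
    push_cast
    rw [Finset.sum_mul]
  rw [hE]
  unfold Gf psiInf Hf
  rw [← Finset.prod_inv_distrib, ← Finset.prod_mul_distrib, ← Finset.prod_mul_distrib]
  refine Finset.prod_congr rfl fun w _ => ?_
  have hwa : 0 < w a := lt_of_le_of_ne (apply_nonneg w a) (inf_ne w ha).symm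
  have hyw := hy w
  have hn : ‖(y w : ℂ) * w.embedding a‖ = y w * w a := by
    rw [norm_mul, norm_embedding_eq, Complex.norm_real, Real.norm_eq_abs, abs_of_pos hyw]
  have hquo : ((y w : ℂ) * w.embedding a / ((y w * w a : ℝ) : ℂ)) = w.embedding a / (w a : ℂ) := by
    have : (y w : ℂ) ≠ 0 := by exact_mod_cast hyw.ne'
    push_cast
    rw [mul_div_mul_left _ _ this]
  have hu : (w.embedding a / (w a : ℂ)) ^ κ w ≠ 0 := by
    apply zpow_ne_zero
    intro h
    have := inf_unit w ha
    rw [h, norm_zero] at this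
    exact zero_ne_one this
  have hlog : Real.log (y w * w a) = Real.log (y w) + Real.log (w a) :=
    Real.log_mul hyw.ne' hwa.ne'
  unfold hloc
  rw [hn, hquo, hlog, mul_inv]
  have h4 : cexp (((lam w * (Real.log (y w) + Real.log (w a)) : ℝ) : ℂ) * I) =
      (cexp (-((lam w * Real.log (w a) : ℝ) : ℂ) * I))⁻¹ *
        cexp (((lam w * Real.log (y w) : ℝ) : ℂ) * I) := by
    rw [← Complex.exp_neg, ← Complex.exp_add]
    congr 1
    push_cast
    ring
  rw [h4]
  field_simp

end Pool.Agent.HZ
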