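import Pool.Agent.Lib_helper41.HZF.Defs

/-!
# Block YB: the unit coordinates
-/

namespace Pool.Agent.HZ

open NumberField NumberField.InfinitePlace NumberField.Units Complex MeasureTheory Filter Topology

variable {K : Type} [Field K] [NumberField K]

theorem yb_pos (i : Fin (rank K)) (w : InfinitePlace K) :
    0 < w ((fundSystem K i : 𝓞 K) : K) := by
  refine NumberField.InfinitePlace.pos_iff.mpr ?_
  exact NumberField.Units.coe_ne_zero _

theorem Yv_pos (u : ℝ) (x : Fin (rank K) → ℝ) (w : InfinitePlace K) : 0 < Yv K u x w := by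
  unfold Yv
  exact mul_pos (Real.exp_pos _) (Finset.prod_pos fun i _ => Real.rpow_pos_of_pos (yb_pos i w) _)

theorem Yv_add (u u' : ℝ) (x x' : Fin (rank K) → ℝ) (w : InfinitePlace K) :
    Yv K (u + u') (x + x') w = Yv K u x w * Yv K u' x' w := by
  unfold Yv
  rw [add_div, Real.exp_add]
  have : ∏ i, (w ((fundSystem K i : 𝓞 K) : K)) ^ ((x + x') i) =
      (∏ i, (w ((fundSystem K i : 𝓞 K) : K)) ^ (x i)) *
        ∏ i, (w ((fundSystem K i : 𝓞 K) : K)) ^ (x' i) := by
    rw [← Finset.prod_mul_distrib]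
    refine Finset.prod_congr rfl fun i _ => ?_
    rw [Pi.add_apply, Real.rpow_add (yb_pos i w)]
  rw [this]
  ring

theorem yb_prod_unit (i : Fin (rank K)) :
    ∏ w : InfinitePlace K, (w ((fundSystem K i : 𝓞 K) : K)) ^ w.mult = 1 := by
  rw [prod_eq_abs_norm]
  simp [NumberField.Units.norm]

theorem prod_Yv (u : ℝ) (x : Fin (rank K) → ℝ) : ∏ w, Yv K u x w ^ w.mult = Real.exp u := by
  unfold Yv
  simp_rw [mul_pow]
  rw [Finset.prod_mul_distrib]
  have h1 : ∏ w : InfinitePlace K, Real.exp (u / Module.finrank ℚ K) ^ w.mult = Real.exp u := by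
    rw [Finset.prod_pow_eq_pow_sum, sum_mult_eq, ← Real.exp_nat_mul]
    congr 1
    have : (Module.finrank ℚ K : ℝ) ≠ 0 := by
      exact_mod_cast Module.finrank_pos.ne'
    field_simp
  have h2 : ∏ w : InfinitePlace K, (∏ i, (w ((fundSystem K i : 𝓞 K) : K)) ^ (x i)) ^ w.mult = 1 := by
    simp_rw [← Finset.prod_pow]
    rw [Finset.prod_comm]
    refine Finset.prod_eq_one fun i _ => ?_
    have : ∀ w : InfinitePlace K, ((w ((fundSystem K i : 𝓞 K) : K)) ^ (x i)) ^ w.mult =
        ((w ((fundSystem K i : 𝓞 K) : K)) ^ w.mult) ^ (x i) := by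
      intro w
      rw [← Real.rpow_natCast, ← Real.rpow_natCast, ← Real.rpow_mul (yb_pos i w).le,
        ← Real.rpow_mul (yb_pos i w).le, mul_comm]
    simp_rw [this]
    rw [Real.finsetProd_rpow _ _ (fun w _ => pow_nonneg (yb_pos i w).le _), yb_prod_unit,
      Real.one_rpow]
  rw [h1, h2, mul_one]

theorem Yv_unit (m : Fin (rank K) → ℤ) (w : InfinitePlace K) :
    Yv K 0 (fun i => (m i : ℝ)) w =
      w (((∏ i, fundSystem K i ^ m i : (𝓞 K)ˣ) : 𝓞 K) : K) := by
  unfold Yv
  rw [zero_div, Real.exp_zero, one_mul]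
  have : (((∏ i, fundSystem K i ^ m i : (𝓞 K)ˣ) : 𝓞 K) : K) =
      ∏ i, ((fundSystem K i : 𝓞 K) : K) ^ m i := by
    rw [Units.coe_prod]
    refine (map_prod (algebraMap (𝓞 K) K) _ _).trans ?_
    refine Finset.prod_congr rfl fun i _ => ?_
    exact NumberField.Units.coe_zpow _ _
  rw [this, map_prod]
  refine Finset.prod_congr rfl fun i _ => ?_
  rw [map_zpow₀, Real.rpow_intCast]


/-- The logarithms `log |η_i|_w`. -/
noncomputable def ybl (K : Type) [Field K] [NumberField K] (i : Fin (rank K))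
    (w : InfinitePlace K) : ℝ := Real.log (w ((fundSystem K i : 𝓞 K) : K))

theorem yb_log (u : ℝ) (x : Fin (rank K) → ℝ) (w : InfinitePlace K) :
    Real.log (Yv K u x w) = u / Module.finrank ℚ K + ∑ i, x i * ybl K i w := by
  unfold Yv ybl
  rw [Real.log_mul (Real.exp_pos _).ne' (Finset.prod_pos fun i _ =>
    Real.rpow_pos_of_pos (yb_pos i w) _).ne', Real.log_exp, Real.log_prod]
  · congr 1
    refine Finset.sum_congr rfl fun i _ => ?_
    rw [Real.log_rpow (yb_pos i w)]
  · intro i _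
    exact (Real.rpow_pos_of_pos (yb_pos i w) _).ne'

theorem yb_exp (u : ℝ) (x : Fin (rank K) → ℝ) (w : InfinitePlace K) :
    Yv K u x w = Real.exp (u / Module.finrank ℚ K + ∑ i, x i * ybl K i w) := by
  rw [← yb_log, Real.exp_log (Yv_pos u x w)]

theorem yb_sum_log (i : Fin (rank K)) : ∑ w : InfinitePlace K, (w.mult : ℝ) * ybl K i w = 0 := by
  have h := yb_prod_unit (K := K) i
  have h2 := congrArg Real.log h
  rw [Real.log_prod (fun w _ => pow_ne_zero _ (yb_pos i w).ne'), Real.log_one] at h2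
  rw [← h2]
  refine Finset.sum_congr rfl fun w _ => ?_
  rw [Real.log_pow]
  rfl

/-- The linear map `(u, x) ↦ log Y(u, x)`. -/
noncomputable def ybL (K : Type) [Field K] [NumberField K] :
    (ℝ × (Fin (rank K) → ℝ)) →ₗ[ℝ] (InfinitePlace K → ℝ) where
  toFun p w := p.1 / Module.finrank ℚ K + ∑ i, p.2 i * ybl K i w
  map_add' p q := by
    ext w
    simp only [Prod.fst_add, Prod.snd_add, Pi.add_apply, add_mul, Finset.sum_add_distrib, add_div]
    ring
  map_smul' c p := by
    ext w
    simp only [Prod.smul_fst, Prod.smul_snd, Pi.smul_apply, smul_eq_mul, RingHom.id_apply, mul_add,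
      Finset.mul_sum, mul_assoc, mul_div_assoc]

theorem ybL_inj : Function.Injective (ybL K) := by
  classical
  rw [injective_iff_map_eq_zero]
  intro p hp
  have hp' : ∀ w : InfinitePlace K, p.1 / Module.finrank ℚ K + ∑ i, p.2 i * ybl K i w = 0 :=
    fun w => congrFun hp w
  have hn : (Module.finrank ℚ K : ℝ) ≠ 0 := by exact_mod_cast Module.finrank_pos.ne'
  let z : InfinitePlace K → ℝ := fun w => if h : w = dirichletUnitTheorem.w₀ then
    p.1 / Module.finrank ℚ K else p.2 (mixedEmbedding.fundamentalCone.equivFinRank.symm ⟨w, h⟩)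
  have hli := mixedEmbedding.fundamentalCone.linearIndependent_completeFamily K
  rw [Fintype.linearIndependent_iff] at hli
  have hz : ∑ w, z w • mixedEmbedding.fundamentalCone.completeFamily K w = 0 := by
    ext v
    rw [Finset.sum_apply, Fintype.sum_eq_add_sum_subtype_ne _ dirichletUnitTheorem.w₀]
    rw [← mixedEmbedding.fundamentalCone.equivFinRank.sum_comp]
    have h0 : (z dirichletUnitTheorem.w₀ •
        mixedEmbedding.fundamentalCone.completeFamily K dirichletUnitTheorem.w₀) v =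
        (v.mult : ℝ) * (p.1 / Module.finrank ℚ K) := by
      simp [z, mixedEmbedding.fundamentalCone.completeFamily, mul_comm]
    have h1 : ∀ i : Fin (rank K),
        (z (mixedEmbedding.fundamentalCone.equivFinRank i : InfinitePlace K) •
        mixedEmbedding.fundamentalCone.completeFamily K
          (mixedEmbedding.fundamentalCone.equivFinRank i : InfinitePlace K)) v =
        (v.mult : ℝ) * (p.2 i * ybl K i v) := by
      intro i
      have hne := (mixedEmbedding.fundamentalCone.equivFinRank (K := K) i).2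
      simp only [z, mixedEmbedding.fundamentalCone.completeFamily, dif_neg hne, Pi.smul_apply,
        Subtype.coe_eta, Equiv.symm_apply_apply, smul_eq_mul,
        mixedEmbedding.fundamentalCone.expMap_symm_apply,
        mixedEmbedding.normAtAllPlaces_mixedEmbedding, ybl]
      ring
    rw [h0]
    simp_rw [h1]
    rw [← Finset.mul_sum, ← mul_add, hp' v]
    simp
  have hz0 := hli z hz
  have e1 : p.1 = 0 := by
    have := hz0 dirichletUnitTheorem.w₀
    simp only [z, dif_pos] at this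
    rcases div_eq_zero_iff.mp this with h | h
    · exact h
    · exact absurd h hn
  have e2 : p.2 = 0 := by
    ext i
    have hne := (mixedEmbedding.fundamentalCone.equivFinRank (K := K) i).2
    have := hz0 (mixedEmbedding.fundamentalCone.equivFinRank i : InfinitePlace K)
    simpa only [z, dif_neg hne, Subtype.coe_eta, Equiv.symm_apply_apply, Prod.snd_zero,
      Pi.zero_apply] using this
  exact Prod.ext e1 e2

theorem yb_finrank : Module.finrank ℝ (ℝ × (Fin (rank K) → ℝ)) =
    Module.finrank ℝ (InfinitePlace K → ℝ) := by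
  rw [Module.finrank_prod, Module.finrank_self, Module.finrank_fintype_fun_eq_card,
    Module.finrank_fintype_fun_eq_card, Fintype.card_fin, rank]
  have : 0 < Fintype.card (InfinitePlace K) := Fintype.card_pos
  omega

theorem Yv_log : ∃ T : (ℝ × (Fin (rank K) → ℝ)) ≃L[ℝ] (InfinitePlace K → ℝ),
    ∀ p w, T p w = Real.log (Yv K p.1 p.2 w) := by
  refine ⟨(LinearEquiv.ofInjectiveOfFinrankEq (ybL K) ybL_inj yb_finrank).toContinuousLinearEquiv,
    fun p w => ?_⟩
  rw [yb_log]
  rfl

theorem exists_Yv (y : InfinitePlace K → ℝ) (hy : ∀ w, 0 < y w) :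
    ∃ x : Fin (rank K) → ℝ, ∀ w, y w = Yv K (Real.log (∏ w, y w ^ w.mult)) x w := by
  obtain ⟨T, hT⟩ := Yv_log (K := K)
  obtain ⟨p, hp⟩ := T.surjective (fun w => Real.log (y w))
  have h1 : ∀ w, y w = Yv K p.1 p.2 w := by
    intro w
    have h2 := congrFun hp w
    rw [hT] at h2
    exact (Real.log_injOn_pos (Set.mem_Ioi.mpr (Yv_pos p.1 p.2 w))
      (Set.mem_Ioi.mpr (hy w)) h2).symm
  refine ⟨p.2, fun w => ?_⟩
  have h3 : Real.log (∏ w, y w ^ w.mult) = p.1 := by
    simp_rw [h1]
    rw [prod_Yv, Real.log_exp]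
  rw [h3]
  exact h1 w

theorem yb_lower : ∃ c : ℝ, 0 < c ∧ ∀ (x : Fin (rank K) → ℝ),
    ∃ w : InfinitePlace K, c * ‖x‖ ≤ ∑ i, x i * ybl K i w := by
  classical
  have hn : (0 : ℝ) < Module.finrank ℚ K := by exact_mod_cast Module.finrank_pos
  obtain ⟨C, hC, hCx⟩ : ∃ C : ℝ, 0 < C ∧ ∀ x : Fin (rank K) → ℝ,
      ‖x‖ ≤ C * ‖fun w : InfinitePlace K => ∑ i, x i * ybl K i w‖ := by
    have hinj := ybL_inj (K := K)
    obtain ⟨C, hC⟩ := (LinearMap.toContinuousLinearMap (ybL K)).exists_antilipschitzWith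
      (LinearMap.ker_eq_bot.mpr hinj)
    refine ⟨C, by exact_mod_cast hC.1, fun x => ?_⟩
    have h := (LinearMap.toContinuousLinearMap (ybL K)).bound_of_antilipschitz hC.2 ((0 : ℝ), x)
    have h2 : (LinearMap.toContinuousLinearMap (ybL K)) ((0 : ℝ), x) =
        fun w : InfinitePlace K => ∑ i, x i * ybl K i w := by
      ext w
      change (0 : ℝ) / _ + _ = _
      rw [zero_div, zero_add]
    rw [h2] at h
    refine le_trans ?_ h
    rw [Prod.norm_def]
    exact le_max_right _ _
  refine ⟨(C * Module.finrank ℚ K)⁻¹, by positivity, fun x => ?_⟩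
  set l : InfinitePlace K → ℝ := fun w => ∑ i, x i * ybl K i w with hl
  have hsum : ∑ w, (w.mult : ℝ) * l w = 0 := by
    simp_rw [hl, Finset.mul_sum]
    rw [Finset.sum_comm]
    refine Finset.sum_eq_zero fun i _ => ?_
    have := yb_sum_log (K := K) i
    calc ∑ w : InfinitePlace K, (w.mult : ℝ) * (x i * ybl K i w)
        = x i * ∑ w : InfinitePlace K, (w.mult : ℝ) * ybl K i w := by
          rw [Finset.mul_sum]; exact Finset.sum_congr rfl fun w _ => by ring
      _ = 0 := by rw [this, mul_zero]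
  obtain ⟨v, -, hv⟩ := Finset.exists_max_image (Finset.univ : Finset (InfinitePlace K)) l
    Finset.univ_nonempty
  have hv' : ∀ w, l w ≤ l v := fun w => hv w (Finset.mem_univ _)
  refine ⟨v, ?_⟩
  have hlv0 : 0 ≤ l v := by
    by_contra hneg
    push Not at hneg
    have : ∑ w, (w.mult : ℝ) * l w < 0 := by
      refine Finset.sum_neg (fun w _ => ?_) Finset.univ_nonempty
      exact mul_neg_of_pos_of_neg (by exact_mod_cast mult_pos) (lt_of_le_of_lt (hv' w) hneg)
    linarith
  have hbound : ∀ w, |l w| ≤ Module.finrank ℚ K * l v := by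
    intro w
    have h1 : (1 : ℝ) ≤ Module.finrank ℚ K := by exact_mod_cast Module.finrank_pos
    rw [abs_le]
    constructor
    · -- lower bound
      have h2 : (w.mult : ℝ) * l w + ∑ w' ∈ Finset.univ.erase w, (w'.mult : ℝ) * l w' = 0 := by
        rw [Finset.add_sum_erase _ (fun w : InfinitePlace K => (w.mult : ℝ) * l w)
          (Finset.mem_univ w)]
        exact hsum
      have h3 : ∑ w' ∈ Finset.univ.erase w, (w'.mult : ℝ) * l w' ≤
          ∑ w' ∈ Finset.univ.erase w, (w'.mult : ℝ) * l v := by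
        refine Finset.sum_le_sum fun w' _ => ?_
        exact mul_le_mul_of_nonneg_left (hv' w') (Nat.cast_nonneg _)
      have h4 : (w.mult : ℝ) * l v + ∑ w' ∈ Finset.univ.erase w, (w'.mult : ℝ) * l v =
          Module.finrank ℚ K * l v := by
        rw [Finset.add_sum_erase _ (fun w : InfinitePlace K => (w.mult : ℝ) * l v)
          (Finset.mem_univ w), ← Finset.sum_mul]
        congr 1
        rw [← sum_mult_eq (K := K)]
        push_cast
        rfl
      have h5 : (1 : ℝ) ≤ w.mult := by exact_mod_cast one_le_mult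
      nlinarith [mul_nonneg (by linarith : (0 : ℝ) ≤ w.mult) hlv0, hv' w]
    · nlinarith [hv' w]
  have hnorm : ‖l‖ ≤ Module.finrank ℚ K * l v := by
    rw [pi_norm_le_iff_of_nonneg (by positivity)]
    exact hbound
  have h6 := hCx x
  rw [inv_mul_le_iff₀ (by positivity)]
  calc ‖x‖ ≤ C * ‖l‖ := h6
    _ ≤ C * (Module.finrank ℚ K * l v) := by gcongr
    _ = C * Module.finrank ℚ K * l v := by ring

theorem Yv_coercive : ∃ c : ℝ, 0 < c ∧ ∀ (u : ℝ) (x : Fin (rank K) → ℝ),
    Real.exp (2 * u / Module.finrank ℚ K + c * ‖x‖) ≤ qn (Yv K u x) := by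
  obtain ⟨c, hc, h⟩ := yb_lower (K := K)
  refine ⟨2 * c, by positivity, fun u x => ?_⟩
  obtain ⟨w, hw⟩ := h x
  have h1 : Real.exp (2 * u / Module.finrank ℚ K + 2 * c * ‖x‖) ≤ Yv K u x w ^ 2 := by
    rw [yb_exp, ← Real.exp_nat_mul]
    refine Real.exp_le_exp.mpr ?_
    push_cast
    have : 2 * u / (Module.finrank ℚ K : ℝ) = 2 * (u / Module.finrank ℚ K) := by ring
    rw [this]
    nlinarith
  refine h1.trans ?_
  unfold qn
  have h2 : Yv K u x w ^ 2 ≤ (w.mult : ℝ) * Yv K u x w ^ 2 := by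
    have h5 : (1 : ℝ) ≤ w.mult := by exact_mod_cast one_le_mult
    nlinarith [sq_nonneg (Yv K u x w)]
  refine h2.trans ?_
  exact Finset.single_le_sum (f := fun w : InfinitePlace K => (w.mult : ℝ) * Yv K u x w ^ 2)
    (fun w _ => by positivity) (Finset.mem_univ w)

theorem Yv_cube : ∃ C : ℝ, 1 ≤ C ∧ ∀ (u : ℝ), ∀ x ∈ Set.Icc (-1 : Fin (rank K) → ℝ) 1,
    ∀ w, C⁻¹ * Real.exp (u / Module.finrank ℚ K) ≤ Yv K u x w ∧
      Yv K u x w ≤ C * Real.exp (u / Module.finrank ℚ K) := by
  set M : ℝ := ∑ w : InfinitePlace K, ∑ i, |ybl K i w| with hM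
  have hM0 : 0 ≤ M := Finset.sum_nonneg fun w _ => Finset.sum_nonneg fun i _ => abs_nonneg _
  refine ⟨Real.exp M, Real.one_le_exp hM0, fun u x hx w => ?_⟩
  have hb : |∑ i, x i * ybl K i w| ≤ M := by
    calc |∑ i, x i * ybl K i w| ≤ ∑ i, |x i * ybl K i w| := Finset.abs_sum_le_sum_abs _ _
      _ ≤ ∑ i, |ybl K i w| := by
          refine Finset.sum_le_sum fun i _ => ?_
          rw [abs_mul]
          have : |x i| ≤ 1 := abs_le.mpr ⟨hx.1 i, hx.2 i⟩
          nlinarith [abs_nonneg (ybl K i w)]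
      _ ≤ M := Finset.single_le_sum (f := fun w : InfinitePlace K => ∑ i, |ybl K i w|)
          (fun w _ => Finset.sum_nonneg fun i _ => abs_nonneg _) (Finset.mem_univ w)
  rw [yb_exp, ← Real.exp_neg, ← Real.exp_add, ← Real.exp_add]
  have := abs_le.mp hb
  exact ⟨Real.exp_le_exp.mpr (by linarith), Real.exp_le_exp.mpr (by linarith)⟩

end Pool.Agent.HZ
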