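import Pool.Agent.Lib_helper41.HZF.Defs
import Pool.Agent.Lib_helper41.HZF.YB

/-!
# Block LAM1: the Mellin transform of the kernel
-/

namespace Pool.Agent.HZ

open NumberField NumberField.InfinitePlace NumberField.Units Complex MeasureTheory Filter Topology

variable {K : Type} [Field K] [NumberField K]

theorem lam1_image : (fun t : ℝ => Real.exp (2 * t)) '' Set.univ = Set.Ioi 0 := by
  ext x
  constructor
  · rintro ⟨t, _, rfl⟩
    exact Real.exp_pos _
  · intro hx
    refine ⟨Real.log x / 2, trivial, ?_⟩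
    show Real.exp (2 * (Real.log x / 2)) = x
    rw [mul_div_cancel₀ _ (two_ne_zero), Real.exp_log hx]

theorem lam1_gamma {z : ℂ} (hz : 0 < z.re) {b : ℝ} (hb : 0 < b) :
    ∫ t : ℝ, cexp (2 * z * t) * cexp (-((b * Real.exp (2 * t) : ℝ) : ℂ)) =
      1 / 2 * ((b : ℂ) ^ (-z) * Gamma z) := by
  have h1 := integral_cpow_mul_exp_neg_mul_Ioi hz hb
  have hd : ∀ x ∈ (Set.univ : Set ℝ), HasDerivWithinAt (fun t : ℝ => Real.exp (2 * t))
      (Real.exp (2 * x) * (2 * 1)) Set.univ x := fun x _ =>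
    (((hasDerivAt_id x).const_mul 2).exp).hasDerivWithinAt
  have hinj : Set.InjOn (fun t : ℝ => Real.exp (2 * t)) Set.univ := by
    intro a _ c _ h
    have := Real.exp_injective h
    linarith
  rw [← lam1_image, integral_image_eq_integral_abs_deriv_smul MeasurableSet.univ hd hinj] at h1
  have h2 : ∀ t : ℝ, |Real.exp (2 * t) * (2 * 1)| •
      (((Real.exp (2 * t) : ℝ) : ℂ) ^ (z - 1) * cexp (-(b * ((Real.exp (2 * t) : ℝ) : ℂ)))) =
      2 * (cexp (2 * z * t) * cexp (-((b * Real.exp (2 * t) : ℝ) : ℂ))) := by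
    intro t
    have e1 : |Real.exp (2 * t) * (2 * 1)| = 2 * Real.exp (2 * t) := by
      rw [abs_of_nonneg (by positivity)]
      ring
    have e2 : ((Real.exp (2 * t) : ℝ) : ℂ) ^ (z - 1) = cexp ((2 * t : ℝ) * (z - 1)) := by
      rw [cpow_def_of_ne_zero (by exact_mod_cast (Real.exp_pos _).ne'),
        ← Complex.ofReal_log (Real.exp_pos _).le, Real.log_exp]
    have e3 : cexp (2 * z * t) = ((Real.exp (2 * t) : ℝ) : ℂ) * cexp ((2 * t : ℝ) * (z - 1)) := by
      rw [Complex.ofReal_exp, ← Complex.exp_add]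
      congr 1
      push_cast
      ring
    rw [e1, e2, e3, Complex.real_smul, Complex.ofReal_mul, Complex.ofReal_mul]
    push_cast
    ring
  simp_rw [h2] at h1
  rw [setIntegral_univ, integral_const_mul] at h1
  have h3 : ((1 / b : ℂ)) ^ z = (b : ℂ) ^ (-z) := by
    rw [one_div, inv_cpow _ _ (by
      rw [Complex.arg_ofReal_of_nonneg hb.le]; exact Real.pi_pos.ne), Complex.cpow_neg]
  rw [h3] at h1
  linear_combination h1 / 2

/-- the local factor in the logarithmic variable -/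
noncomputable def lam1_g (m k : ℕ) (l : ℝ) (s : ℂ) (t : ℝ) : ℂ :=
  ((Real.exp t : ℝ) : ℂ) ^ k * cexp (((l * t : ℝ) : ℂ) * I) *
    cexp (-((Real.pi * m * Real.exp t ^ 2 : ℝ) : ℂ)) * cexp (s * (m * t))

theorem lam1_g_eq (m k : ℕ) (l : ℝ) (s : ℂ) (t : ℝ) :
    lam1_g m k l s t = cexp (2 * ((k + l * I + m * s) / 2) * t) *
      cexp (-((Real.pi * m * Real.exp (2 * t) : ℝ) : ℂ)) := by
  unfold lam1_g
  have e1 : ((Real.exp t : ℝ) : ℂ) ^ k = cexp (k * t) := by
    rw [Complex.ofReal_exp, ← Complex.exp_nat_mul]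
  have e2 : Real.exp t ^ 2 = Real.exp (2 * t) := by
    rw [← Real.exp_nat_mul]
    norm_num
  rw [e1, e2]
  have e3 : cexp (2 * ((k + l * I + m * s) / 2) * t) =
      cexp (k * t) * cexp (((l * t : ℝ) : ℂ) * I) * cexp (s * (m * t)) := by
    rw [← Complex.exp_add, ← Complex.exp_add]
    congr 1
    push_cast
    ring
  rw [e3]
  ring

theorem lam1_g_re {m : ℕ} (hm : 0 < m) (k : ℕ) (l : ℝ) {s : ℂ} (hs : 0 < s.re) :
    0 < ((k + l * I + m * s) / 2 : ℂ).re := by
  have hm' : (0 : ℝ) < m := by exact_mod_cast hm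
  have hk : (0 : ℝ) ≤ k := Nat.cast_nonneg k
  have : ((k + l * I + m * s) / 2 : ℂ).re = (k + m * s.re) / 2 := by
    simp
  rw [this]
  positivity

theorem lam1_g_int {m : ℕ} (hm : 0 < m) (k : ℕ) (l : ℝ) {s : ℂ} (hs : 0 < s.re) :
    ∫ t : ℝ, lam1_g m k l s t = 1 / 2 * (((Real.pi * m : ℝ) : ℂ) ^ (-((k + l * I + m * s) / 2)) *
      Gamma ((k + l * I + m * s) / 2)) := by
  simp_rw [lam1_g_eq]
  have hm' : (0 : ℝ) < m := by exact_mod_cast hm
  exact lam1_gamma (lam1_g_re hm k l hs) (by positivity)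

theorem lam1_g_integrable {m : ℕ} (hm : 0 < m) (k : ℕ) (l : ℝ) {s : ℂ} (hs : 0 < s.re) :
    Integrable (lam1_g m k l s) := by
  by_contra h
  have h1 := lam1_g_int hm k l hs
  have h2 : ∫ t : ℝ, lam1_g m k l s t = 0 := integral_undef h
  rw [h2] at h1
  have hm' : (0 : ℝ) < m := by exact_mod_cast hm
  have h3 : Gamma ((k + l * I + m * s) / 2) ≠ 0 := Gamma_ne_zero_of_re_pos (lam1_g_re hm k l hs)
  have h4 : ((Real.pi * m : ℝ) : ℂ) ^ (-((k + l * I + m * s) / 2)) ≠ 0 := by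
    rw [Complex.cpow_ne_zero_iff]
    left
    exact_mod_cast (by positivity : (Real.pi * m : ℝ) ≠ 0)
  have h5 : (1 / 2 : ℂ) * (((Real.pi * m : ℝ) : ℂ) ^ (-((k + l * I + m * s) / 2)) *
      Gamma ((k + l * I + m * s) / 2)) ≠ 0 := mul_ne_zero (by norm_num) (mul_ne_zero h4 h3)
  exact h5 h1.symm

open scoped Classical in
omit [NumberField K] in
theorem lam1_g_gam (w : InfinitePlace K) (k : ℤ) (l : ℝ) {s : ℂ} (hs : 0 < s.re) :
    ∫ t : ℝ, lam1_g w.mult k.natAbs l s t = ((if w.IsReal then 1 / 2 else 1 / 4 : ℝ) : ℂ) *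
      (if w.IsReal then Gammaℝ (s + |k| + l * I) else Gammaℂ (s + |k| / 2 + l / 2 * I)) := by
  rw [lam1_g_int mult_pos _ _ hs]
  have hk : ((k.natAbs : ℕ) : ℂ) = ((|k| : ℤ) : ℂ) := by
    rw [Nat.cast_natAbs]
  rw [hk]
  by_cases hw : w.IsReal
  · rw [if_pos hw, if_pos hw, hw.mult_eq_one, Gammaℝ_def]
    have e1 : ((|k| : ℤ) + l * I + ((1 : ℕ) : ℂ) * s) / 2 = (s + (|k| : ℤ) + l * I) / 2 := by
      push_cast
      ring
    rw [e1]
    have e2 : -((s + (|k| : ℤ) + l * I) / 2) = -(s + (|k| : ℤ) + l * I) / 2 := by ring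
    rw [e2]
    push_cast
    rw [mul_one]
  · have hw' : w.IsComplex := not_isReal_iff_isComplex.1 hw
    rw [if_neg hw, if_neg hw, hw'.mult_eq_two, Gammaℂ_def]
    have e1 : ((|k| : ℤ) + l * I + ((2 : ℕ) : ℂ) * s) / 2 =
        s + (|k| : ℤ) / 2 + l / 2 * I := by
      push_cast
      ring
    rw [e1]
    have e3 : ((Real.pi * (2 : ℕ) : ℝ) : ℂ) = 2 * Real.pi := by
      push_cast
      ring
    rw [e3]
    push_cast
    ring

theorem mellin_kint : ∃ C₀ : ℝ, 0 < C₀ ∧ ∀ (κ : InfinitePlace K → ℤ)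
    (lam : InfinitePlace K → ℝ)
    (s : ℂ), 0 < s.re → Integrable (fun u : ℝ => kint K (Gf κ lam) u * cexp (s * u)) ∧
      ∫ u : ℝ, kint K (Gf κ lam) u * cexp (s * u) = C₀ * gam κ lam s := by
  classical
  obtain ⟨T, hT⟩ := Yv_log (K := K)
  set μ : Measure (InfinitePlace K → ℝ) :=
    (volume : Measure (ℝ × (Fin (rank K) → ℝ))).map T with hμ
  have hV : (volume : Measure (ℝ × (Fin (rank K) → ℝ))).IsAddHaarMeasure := by
    rw [Measure.volume_eq_prod]
    infer_instance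
  have hH : μ.IsAddHaarMeasure := T.isAddHaarMeasure_map _
  set c : NNReal := Measure.addHaarScalarFactor μ volume with hc
  have hc0 : 0 < c := Measure.addHaarScalarFactor_pos_of_isAddHaarMeasure _ _
  have hμc : μ = c • volume := Measure.isAddLeftInvariant_eq_smul _ _
  set P : ℝ := ∏ w : InfinitePlace K, (if w.IsReal then 1 / 2 else 1 / 4 : ℝ) with hP
  have hP0 : 0 < P := Finset.prod_pos fun w _ => by split_ifs <;> norm_num
  refine ⟨c * P, mul_pos (by exact_mod_cast hc0) hP0, fun κ lam s hs => ?_⟩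
  set F : (InfinitePlace K → ℝ) → ℂ := fun y =>
    ∏ w : InfinitePlace K, lam1_g w.mult (κ w).natAbs (lam w) s (y w) with hF
  have hFint : Integrable F := Integrable.fintype_prod fun w =>
    lam1_g_integrable mult_pos _ _ hs
  have hFμ : Integrable F μ := by
    rw [hμc]
    exact hFint.smul_measure_nnreal
  have hTe : MeasurableEmbedding T := T.toHomeomorph.measurableEmbedding
  have hFT : Integrable (F ∘ T) := (hTe.integrable_map_iff).1 hFμ
  have hFTeq : ∀ p : ℝ × (Fin (rank K) → ℝ), F (T p) =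
      Gf κ lam (Yv K p.1 p.2) * cexp (s * p.1) := by
    intro p
    have hexp : ∀ w, Real.exp (T p w) = Yv K p.1 p.2 w := fun w => by
      rw [hT, Real.exp_log (Yv_pos _ _ _)]
    have hlog : p.1 = ∑ w : InfinitePlace K, (w.mult : ℝ) * T p w := by
      have h1 := congrArg Real.log (prod_Yv p.1 p.2)
      rw [Real.log_exp, Real.log_prod (fun w _ => (pow_pos (Yv_pos _ _ _) _).ne')] at h1
      rw [← h1]
      exact Finset.sum_congr rfl fun w _ => by rw [Real.log_pow, hT]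
    have hsum : cexp (s * p.1) = ∏ w : InfinitePlace K, cexp (s * (w.mult * T p w)) := by
      rw [← Complex.exp_sum, ← Finset.mul_sum]
      congr 2
      rw [hlog]
      push_cast
      rfl
    rw [hsum]
    unfold Gf
    rw [← Finset.prod_mul_distrib]
    refine Finset.prod_congr rfl fun w _ => ?_
    unfold lam1_g
    rw [hexp, hT]
  have hFT' : Integrable (fun p : ℝ × (Fin (rank K) → ℝ) =>
      Gf κ lam (Yv K p.1 p.2) * cexp (s * p.1)) (volume.prod volume) := by
    have := hFT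
    refine this.congr (Filter.Eventually.of_forall fun p => hFTeq p)
  have hfun : (fun u : ℝ => kint K (Gf κ lam) u * cexp (s * u)) = fun u : ℝ =>
      ∫ x : Fin (rank K) → ℝ, Gf κ lam (Yv K u x) * cexp (s * u) := by
    funext u
    unfold kint
    rw [integral_mul_const]
  rw [hfun]
  refine ⟨hFT'.integral_prod_left, ?_⟩
  rw [← integral_prod (f := fun p : ℝ × (Fin (rank K) → ℝ) =>
    Gf κ lam (Yv K p.1 p.2) * cexp (s * p.1)) hFT']
  have h1 : ∫ p : ℝ × (Fin (rank K) → ℝ), Gf κ lam (Yv K p.1 p.2) * cexp (s * p.1)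
      ∂(volume.prod volume) = ∫ p : ℝ × (Fin (rank K) → ℝ), F (T p) :=
    integral_congr_ae (Filter.Eventually.of_forall fun p => (hFTeq p).symm)
  have h2 : ∫ p : ℝ × (Fin (rank K) → ℝ), F (T p) = ∫ y, F y ∂μ :=
    (hTe.integral_map F).symm
  rw [h1, h2, hμc, integral_smul_nnreal_measure]
  have h3 : ∫ y : InfinitePlace K → ℝ, F y = ∏ w : InfinitePlace K,
      ∫ t : ℝ, lam1_g w.mult (κ w).natAbs (lam w) s t :=
    integral_fintype_prod_volume_eq_prod
      (fun (w : InfinitePlace K) (t : ℝ) => lam1_g w.mult (κ w).natAbs (lam w) s t)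
  rw [h3, Finset.prod_congr rfl fun w _ => lam1_g_gam w (κ w) (lam w) hs,
    Finset.prod_mul_distrib]
  unfold gam
  rw [hP]
  push_cast
  rw [NNReal.smul_def, Complex.real_smul]
  ring

end Pool.Agent.HZ
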