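import Pool.Agent.Lib_helper41.HZF.Defs
import Pool.Agent.Lib_helper41.HZF.YB

/-!
# Block KG: bounds for `kint` and `kg`
-/

namespace Pool.Agent.HZ

open NumberField NumberField.InfinitePlace NumberField.Units Complex MeasureTheory Filter Topology

variable {K : Type} [Field K] [NumberField K]

/-- `exp(-cX) ≤ (M/c)^M X^{-M}` -/
theorem kgb_exp {c M X : ℝ} (hc : 0 < c) (hM : 0 < M) (hX : 0 < X) :
    Real.exp (-c * X) ≤ (M / c) ^ M * X ^ (-M) := by
  have h1 : Real.log (c * X / M) ≤ c * X / M - 1 := Real.log_le_sub_one_of_pos (by positivity)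
  have h2 : (M / c) ^ M * X ^ (-M) = Real.exp (-(M * Real.log (c * X / M))) := by
    rw [Real.rpow_def_of_pos (by positivity), Real.rpow_def_of_pos hX, ← Real.exp_add]
    congr 1
    rw [Real.log_div hM.ne' hc.ne', Real.log_div (by positivity) hM.ne',
      Real.log_mul hc.ne' hX.ne']
    ring
  rw [h2]
  refine Real.exp_le_exp.mpr ?_
  have h3 : M * Real.log (c * X / M) ≤ M * (c * X / M - 1) := by gcongr
  have h4 : M * (c * X / M - 1) = c * X - M := by field_simp
  linarith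

theorem kgb_integrable_exp {r : ℕ} {a : ℝ} (ha : 0 < a) :
    Integrable (fun x : Fin r → ℝ => Real.exp (-a * ‖x‖)) := by
  have h1 : Integrable (fun x : Fin r → ℝ => (1 + ‖x‖) ^ (-((r : ℝ) + 1))) := by
    refine integrable_one_add_norm ?_
    rw [Module.finrank_fintype_fun_eq_card, Fintype.card_fin]
    linarith
  refine (h1.const_mul (Real.exp a * ((((r : ℝ) + 1) / a) ^ ((r : ℝ) + 1)))).mono'
    (by fun_prop) (ae_of_all _ fun x => ?_)
  rw [Real.norm_of_nonneg (Real.exp_pos _).le]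
  have h2 := kgb_exp (c := a) (M := (r : ℝ) + 1) (X := 1 + ‖x‖) ha (by positivity) (by positivity)
  calc Real.exp (-a * ‖x‖) = Real.exp a * Real.exp (-a * (1 + ‖x‖)) := by
        rw [← Real.exp_add]; congr 1; ring
    _ ≤ Real.exp a * ((((r : ℝ) + 1) / a) ^ ((r : ℝ) + 1) * (1 + ‖x‖) ^ (-((r : ℝ) + 1))) := by
        gcongr
    _ = _ := by ring

theorem kgb_main : ∃ c' : ℝ, 0 < c' ∧ ∀ c : ℝ, 0 < c → ∀ M : ℝ, 0 < M → ∀ (u : ℝ)
    (x : Fin (rank K) → ℝ), Real.exp (-c * qn (Yv K u x)) ≤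
      ((M / c) ^ M * Real.exp (-(M * (2 * u / Module.finrank ℚ K)))) *
        Real.exp (-(M * c') * ‖x‖) := by
  obtain ⟨c', hc', h⟩ := Yv_coercive (K := K)
  refine ⟨c', hc', fun c hc M hM u x => ?_⟩
  have h1 : Real.exp (-c * qn (Yv K u x)) ≤
      Real.exp (-c * Real.exp (2 * u / Module.finrank ℚ K + c' * ‖x‖)) := by
    refine Real.exp_le_exp.mpr ?_
    have := mul_le_mul_of_nonneg_left (h u x) hc.le
    linarith
  refine (h1.trans (kgb_exp hc hM (Real.exp_pos _))).trans (le_of_eq ?_)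
  rw [← Real.exp_mul, mul_assoc, ← Real.exp_add]
  congr 2
  ring

theorem kgb_cont_joint : Continuous (fun p : ℝ × (Fin (rank K) → ℝ) => Yv K p.1 p.2) := by
  refine continuous_pi fun w => ?_
  simp_rw [yb_exp]
  fun_prop

theorem kgb_cont_x (u : ℝ) : Continuous (fun x : Fin (rank K) → ℝ => Yv K u x) :=
  kgb_cont_joint.comp (by fun_prop : Continuous fun x : Fin (rank K) → ℝ => (u, x))

theorem kgb_cont_u (x : Fin (rank K) → ℝ) : Continuous (fun u : ℝ => Yv K u x) :=
  kgb_cont_joint.comp (by fun_prop : Continuous fun u : ℝ => (u, x))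

theorem kgb_qn_cont : Continuous (qn : (InfinitePlace K → ℝ) → ℝ) := by
  unfold qn
  fun_prop

theorem kgb_gen_int {E : Type} [NormedAddCommGroup E] {G : (InfinitePlace K → ℝ) → E} {C c : ℝ}
    (hC : 0 ≤ C) (hc : 0 < c) (hG : ContinuousOn G {y | ∀ w, 0 < y w})
    (hb : ∀ y : InfinitePlace K → ℝ, (∀ w, 0 < y w) → ‖G y‖ ≤ C * Real.exp (-c * qn y)) (u : ℝ) :
    Integrable (fun x : Fin (rank K) → ℝ => G (Yv K u x)) := by
  obtain ⟨c', hc', h⟩ := kgb_main (K := K)
  have hcont : Continuous (fun x : Fin (rank K) → ℝ => G (Yv K u x)) :=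
    hG.comp_continuous (kgb_cont_x u) fun x w => Yv_pos u x w
  refine ((kgb_integrable_exp (r := rank K) (a := 1 * c') (by positivity)).const_mul
    (C * ((1 / c) ^ (1 : ℝ) * Real.exp (-(1 * (2 * u / Module.finrank ℚ K)))))).mono'
    hcont.aestronglyMeasurable (ae_of_all _ fun x => ?_)
  refine (hb _ (Yv_pos u x)).trans ?_
  rw [mul_assoc C]
  exact mul_le_mul_of_nonneg_left (h c hc 1 one_pos u x) hC

theorem kgb_gen_cont {E : Type} [NormedAddCommGroup E] [NormedSpace ℝ E]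
    {G : (InfinitePlace K → ℝ) → E} {C c : ℝ}
    (hC : 0 ≤ C) (hc : 0 < c) (hG : ContinuousOn G {y | ∀ w, 0 < y w})
    (hb : ∀ y : InfinitePlace K → ℝ, (∀ w, 0 < y w) → ‖G y‖ ≤ C * Real.exp (-c * qn y)) :
    Continuous (fun u : ℝ => ∫ x : Fin (rank K) → ℝ, G (Yv K u x)) := by
  obtain ⟨c', hc', h⟩ := kgb_main (K := K)
  have hn : (0 : ℝ) < Module.finrank ℚ K := by exact_mod_cast Module.finrank_pos
  rw [continuous_iff_continuousAt]
  intro u₀
  refine continuousAt_of_dominated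
    (bound := fun x => (C * ((1 / c) ^ (1 : ℝ) *
      Real.exp (-(1 * (2 * (u₀ - 1) / Module.finrank ℚ K))))) * Real.exp (-(1 * c') * ‖x‖))
    ?_ ?_ ?_ ?_
  · refine Eventually.of_forall fun u => ?_
    exact (hG.comp_continuous (kgb_cont_x u) fun x w => Yv_pos u x w).aestronglyMeasurable
  · filter_upwards [lt_mem_nhds (show u₀ - 1 < u₀ by linarith)] with u hu
    refine ae_of_all _ fun x => ?_
    refine (hb _ (Yv_pos u x)).trans ?_
    rw [mul_assoc C]
    refine mul_le_mul_of_nonneg_left ((h c hc 1 one_pos u x).trans ?_) hC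
    gcongr
  · exact (kgb_integrable_exp (r := rank K) (a := 1 * c') (by positivity)).const_mul _
  · refine ae_of_all _ fun x => ?_
    exact (hG.comp_continuous (kgb_cont_u x) fun u w => Yv_pos u x w).continuousAt

theorem kg_integrable {c : ℝ} (hc : 0 < c) (u : ℝ) :
    Integrable (fun x : Fin (rank K) → ℝ => Real.exp (-c * qn (Yv K u x))) := by
  refine kgb_gen_int (K := K) (G := fun y => Real.exp (-c * qn y)) (C := 1) (c := c) zero_le_one hc
    ?_ ?_ u
  · exact (Real.continuous_exp.comp (continuous_const.mul kgb_qn_cont)).continuousOn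
  · intro y _
    rw [one_mul, Real.norm_of_nonneg (Real.exp_pos _).le]

theorem kg_le {c : ℝ} (hc : 0 < c) {A : ℝ} (hA : 0 < A) : ∃ C : ℝ, 0 ≤ C ∧ ∀ u : ℝ,
    kg K c u ≤ C * Real.exp (-(A * u)) := by
  obtain ⟨c', hc', h⟩ := kgb_main (K := K)
  have hn : (0 : ℝ) < Module.finrank ℚ K := by exact_mod_cast Module.finrank_pos
  set M : ℝ := Module.finrank ℚ K * A / 2 with hM
  have hM0 : 0 < M := by positivity
  refine ⟨(M / c) ^ M * ∫ x : Fin (rank K) → ℝ, Real.exp (-(M * c') * ‖x‖), ?_, fun u => ?_⟩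
  · exact mul_nonneg (Real.rpow_nonneg (by positivity) _)
      (integral_nonneg fun x => (Real.exp_pos _).le)
  · unfold kg
    calc ∫ x : Fin (rank K) → ℝ, Real.exp (-c * qn (Yv K u x))
        ≤ ∫ x : Fin (rank K) → ℝ, ((M / c) ^ M * Real.exp (-(M * (2 * u / Module.finrank ℚ K)))) *
          Real.exp (-(M * c') * ‖x‖) := by
          refine integral_mono (kg_integrable hc u) ?_ fun x => h c hc M hM0 u x
          exact (kgb_integrable_exp (by positivity)).const_mul _
      _ = _ := by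
          rw [integral_const_mul]
          have : M * (2 * u / Module.finrank ℚ K) = A * u := by
            rw [hM]; field_simp
          rw [this]
          ring

theorem kg_continuous {c : ℝ} (hc : 0 < c) : Continuous (kg K c) := by
  refine kgb_gen_cont (K := K) (G := fun y => Real.exp (-c * qn y)) (C := 1) (c := c) zero_le_one hc
    ?_ ?_
  · exact (Real.continuous_exp.comp (continuous_const.mul kgb_qn_cont)).continuousOn
  · intro y _
    rw [one_mul, Real.norm_of_nonneg (Real.exp_pos _).le]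

theorem kint_integrable {F : (InfinitePlace K → ℝ) → ℂ} {C c : ℝ} (hF : GoodF F C c) (u : ℝ) :
    Integrable (fun x : Fin (rank K) → ℝ => F (Yv K u x)) :=
  kgb_gen_int hF.1 hF.2.1 hF.2.2.1 hF.2.2.2 u

theorem kint_le {F : (InfinitePlace K → ℝ) → ℂ} {C c : ℝ} (hF : GoodF F C c) (u : ℝ) :
    ‖kint K F u‖ ≤ C * kg K c u := by
  unfold kint kg
  rw [← integral_const_mul]
  refine norm_integral_le_of_norm_le ((kg_integrable hF.2.1 u).const_mul C)
    (ae_of_all _ fun x => ?_)
  exact hF.2.2.2 _ (Yv_pos u x)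

theorem kint_continuous {F : (InfinitePlace K → ℝ) → ℂ} {C c : ℝ} (hF : GoodF F C c) :
    Continuous (kint K F) :=
  kgb_gen_cont hF.1 hF.2.1 hF.2.2.1 hF.2.2.2

theorem kgb_pow_le (k m : ℕ) (hm' : (1 : ℝ) ≤ m) {y : ℝ} (hy : 0 ≤ y) :
    y ^ k * Real.exp (-(Real.pi * m * y ^ 2)) ≤
      (k.factorial * Real.exp 1) * Real.exp (-(Real.pi / 2) * (m * y ^ 2)) := by
  have h1 : y ^ k ≤ k.factorial * Real.exp y := by
    have := Real.pow_div_factorial_le_exp y hy k
    rwa [div_le_iff₀ (by positivity), mul_comm] at this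
  have hpi : 2 ≤ Real.pi := Real.two_le_pi
  have h2 : y ≤ 1 + Real.pi / 2 * (m * y ^ 2) := by
    have h3 : y ≤ 1 + y ^ 2 := by nlinarith [sq_nonneg (y - 1)]
    have h4 : y ^ 2 ≤ m * y ^ 2 := by nlinarith [sq_nonneg y]
    have h5 : m * y ^ 2 ≤ Real.pi / 2 * (m * y ^ 2) := by
      have : 0 ≤ m * y ^ 2 := by positivity
      nlinarith
    linarith
  calc y ^ k * Real.exp (-(Real.pi * m * y ^ 2))
      ≤ (k.factorial * Real.exp (1 + Real.pi / 2 * (m * y ^ 2))) *
          Real.exp (-(Real.pi * m * y ^ 2)) := by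
        gcongr
        exact h1.trans (by gcongr)
    _ = _ := by
        rw [mul_assoc (k.factorial : ℝ), mul_assoc (k.factorial : ℝ), ← Real.exp_add,
          ← Real.exp_add]
        congr 2
        ring

theorem Gf_good (κ : InfinitePlace K → ℤ) : ∃ C : ℝ, ∀ lam : InfinitePlace K → ℝ,
    GoodF (Gf κ lam) C (Real.pi / 2) := by
  refine ⟨∏ w : InfinitePlace K, ((κ w).natAbs.factorial * Real.exp 1), fun lam =>
    ⟨Finset.prod_nonneg fun w _ => by positivity, by positivity, ?_, ?_⟩⟩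
  · unfold Gf
    refine continuousOn_finsetProd _ fun w _ => ?_
    have hw : ContinuousOn (fun y : InfinitePlace K → ℝ => Real.log (y w)) {y | ∀ w, 0 < y w} :=
      ContinuousOn.log (by fun_prop) fun y hy => (hy w).ne'
    refine ContinuousOn.mul (ContinuousOn.mul (by fun_prop) ?_) (by fun_prop)
    refine ContinuousOn.cexp (ContinuousOn.mul ?_ continuousOn_const)
    exact Complex.continuous_ofReal.comp_continuousOn (continuousOn_const.mul hw)
  · intro y hy
    unfold Gf qn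
    rw [norm_prod, Finset.mul_sum, Real.exp_sum, ← Finset.prod_mul_distrib]
    refine Finset.prod_le_prod (fun w _ => norm_nonneg _) fun w _ => ?_
    rw [norm_mul, norm_mul, Complex.norm_exp_ofReal_mul_I, mul_one, norm_pow, Complex.norm_real,
      Real.norm_of_nonneg (hy w).le, ← Complex.ofReal_neg, Complex.norm_exp_ofReal]
    exact kgb_pow_le _ _ one_le_mult (hy w).le

theorem kgb_hloc_le (m : ℕ) (κ : ℤ) (z : ℂ) :
    ‖hloc m κ z‖ ≤ ‖z‖ ^ κ.natAbs * Real.exp (-(Real.pi * m * ‖z‖ ^ 2)) := by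
  unfold hloc
  rw [norm_mul, norm_mul, norm_pow, Complex.norm_real, norm_norm, ← Complex.ofReal_neg,
    Complex.norm_exp_ofReal, norm_zpow, norm_div, Complex.norm_real, norm_norm]
  have h1 : (‖z‖ / ‖z‖) ^ κ ≤ 1 := by
    by_cases hz : ‖z‖ = 0
    · rw [hz, div_zero]
      by_cases hk : κ = 0
      · rw [hk, zpow_zero]
      · rw [zero_zpow _ hk]; exact zero_le_one
    · rw [div_self hz, one_zpow]
  have h2 : 0 ≤ (‖z‖ / ‖z‖) ^ κ := zpow_nonneg (by positivity) _
  have h3 : ‖z‖ ^ κ.natAbs * (‖z‖ / ‖z‖) ^ κ ≤ ‖z‖ ^ κ.natAbs * 1 := by gcongr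
  rw [mul_one] at h3
  gcongr

theorem Hf_le (κ : InfinitePlace K → ℤ) : ∃ C : ℝ, 0 ≤ C ∧
    ∀ (y : InfinitePlace K → ℝ) (a : K), (∀ w, 0 < y w) →
      ‖Hf κ y a‖ ≤ C * Real.exp (-(Real.pi / 2) * qn (fun w => y w * w a)) := by
  refine ⟨∏ w : InfinitePlace K, ((κ w).natAbs.factorial * Real.exp 1),
    Finset.prod_nonneg fun w _ => by positivity, fun y a hy => ?_⟩
  unfold Hf qn
  rw [norm_prod, Finset.mul_sum, Real.exp_sum, ← Finset.prod_mul_distrib]
  refine Finset.prod_le_prod (fun w _ => norm_nonneg _) fun w _ => ?_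
  have hz : ‖(y w : ℂ) * w.embedding a‖ = y w * w a := by
    rw [norm_mul, Complex.norm_real, Real.norm_of_nonneg (hy w).le, norm_embedding_eq]
  refine (kgb_hloc_le _ _ _).trans ?_
  rw [hz]
  exact kgb_pow_le _ _ one_le_mult (mul_nonneg (hy w).le (apply_nonneg _ _))

end Pool.Agent.HZ
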