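import Pool.Agent.Lib_helper41.HZF.Defs
import Pool.Agent.Lib_helper41.HZF.KG

namespace Pool.Agent.HZ

open NumberField NumberField.InfinitePlace NumberField.Units Complex MeasureTheory Filter Topology

variable {K : Type} [Field K] [NumberField K]

variable (K) in
theorem sum_tendsto_card : ∃ l : ℝ, Tendsto (fun n : ℕ =>
    (∑ k ∈ Finset.Icc 1 n, (Nat.card {I : Ideal (𝓞 K) // Ideal.absNorm I = k} : ℝ)) / n) atTop
      (𝓝 l) := by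
  refine ⟨_, ((NumberField.Ideal.tendsto_norm_le_div_atTop₀ K).comp
    tendsto_natCast_atTop_atTop).congr fun n => ?_⟩
  simp only [Function.comp_apply, Nat.cast_le, ← Nat.cast_sum]
  congr
  rw [← add_left_inj 1, ← Ideal.card_norm_le_eq_card_norm_le_add_one,
    show Finset.Icc 1 n = Finset.Ioc 0 n from Finset.Icc_succ_left_eq_Ioc _ _,
    show 1 = Nat.card {I : Ideal (𝓞 K) // Ideal.absNorm I = 0} by
      simp [Ideal.absNorm_eq_zero_iff],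
    Finset.sum_Ioc_add_eq_sum_Icc (n.zero_le),
    ← Finset.card_preimage_eq_sum_card_image_eq
      (fun k _ => Ideal.finite_setOfPred_absNorm_eq k)]
  simp [Set.coe_eq_subtype]

theorem ideal_summable {A : ℝ} (hA : 1 < A) :
    Summable (fun 𝔠 : Ideal (𝓞 K) => (Ideal.absNorm 𝔠 : ℝ) ^ (-A)) := by
  obtain ⟨l, hl⟩ := sum_tendsto_card K
  set a : ℕ → ℝ := fun k => (Nat.card {I : Ideal (𝓞 K) // Ideal.absNorm I = k} : ℝ) with ha
  have hO : (fun n : ℕ => ∑ k ∈ Finset.Icc 1 n, a k) =O[atTop] fun n => (n : ℝ) ^ (1 : ℝ) := by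
    have h1 := hl.isBigO_one ℝ
    have h2 : (fun n : ℕ => (∑ k ∈ Finset.Icc 1 n, a k) / (n : ℝ) * (n : ℝ)) =O[atTop]
        fun n => (1 : ℝ) * (n : ℝ) := h1.mul (Asymptotics.isBigO_refl _ _)
    refine (h2.congr' ?_ ?_)
    · filter_upwards [eventually_gt_atTop 0] with n hn
      field_simp
    · filter_upwards with n
      simp
  have hS : LSeriesSummable (fun n => ((a n : ℝ) : ℂ)) (A : ℂ) :=
    LSeriesSummable_of_sum_norm_bigO_and_nonneg hO (fun n => Nat.cast_nonneg _) zero_le_one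
      (by simpa using hA)
  have hA0 : -A ≠ 0 := by linarith
  have hS2 : Summable (fun n : ℕ => a n * (n : ℝ) ^ (-A)) := by
    refine hS.norm.congr fun n => ?_
    rw [LSeries.norm_term_eq]
    by_cases hn : n = 0
    · subst hn
      simp [Real.zero_rpow hA0]
    · rw [if_neg hn, Complex.norm_real, Real.norm_of_nonneg (Nat.cast_nonneg _), Complex.ofReal_re,
        Real.rpow_neg (Nat.cast_nonneg _), div_eq_mul_inv]
  have e := Equiv.sigmaFiberEquiv (fun I : Ideal (𝓞 K) => Ideal.absNorm I)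
  rw [← (Equiv.sigmaFiberEquiv (fun I : Ideal (𝓞 K) => Ideal.absNorm I)).summable_iff]
  rw [summable_sigma_of_nonneg (fun x => by
    simp only [Function.comp_apply]
    positivity)]
  refine ⟨fun n => ?_, ?_⟩
  · have : Finite {I : Ideal (𝓞 K) // Ideal.absNorm I = n} := Ideal.finite_setOfPred_absNorm_eq n
    exact Summable.of_finite
  · refine hS2.congr fun n => ?_
    have h : ∀ y : {I : Ideal (𝓞 K) // Ideal.absNorm I = n},
        ((fun 𝔠 : Ideal (𝓞 K) => (Ideal.absNorm 𝔠 : ℝ) ^ (-A)) ∘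
          (Equiv.sigmaFiberEquiv (fun I : Ideal (𝓞 K) => Ideal.absNorm I))) ⟨n, y⟩ =
            (n : ℝ) ^ (-A) := by
      intro y
      simp [Equiv.sigmaFiberEquiv, y.2]
    simp_rw [h, tsum_const, nsmul_eq_mul]
    rfl

theorem sum_kg_nonneg (c u : ℝ) : 0 ≤ kg K c u := by
  unfold kg
  exact integral_nonneg fun x => (Real.exp_pos _).le

/-- the common bound for the terms -/
theorem sum_term_le {c : ℝ} (hc : 0 < c) {A : ℝ} (hA : 0 < A) : ∃ C : ℝ, 0 ≤ C ∧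
    ∀ (b : Ideal (𝓞 K) → ℝ) (β : ℝ), (∀ 𝔠, 0 ≤ b 𝔠) → (∀ 𝔠, b 𝔠 ≤ β) → b ⊥ = 0 →
      ∀ (u : ℝ) (𝔠 : Ideal (𝓞 K)), b 𝔠 * kg K c (u + Real.log (Ideal.absNorm 𝔠)) ≤
        β * (C * Real.exp (-(A * u))) * (Ideal.absNorm 𝔠 : ℝ) ^ (-A) := by
  obtain ⟨C, hC, h⟩ := kg_le (K := K) hc hA
  refine ⟨C, hC, fun b β hb hβ hb0 u 𝔠 => ?_⟩
  have hβ0 : 0 ≤ β := (hb ⊥).trans (hβ ⊥)
  by_cases h𝔠 : 𝔠 = ⊥
  · subst h𝔠
    rw [hb0, zero_mul]
    positivity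
  · have hN : 0 < (Ideal.absNorm 𝔠 : ℝ) := by
      rw [Nat.cast_pos, Nat.pos_iff_ne_zero, Ne, Ideal.absNorm_eq_zero_iff]
      exact h𝔠
    have h1 : Real.exp (-(A * (u + Real.log (Ideal.absNorm 𝔠)))) =
        Real.exp (-(A * u)) * (Ideal.absNorm 𝔠 : ℝ) ^ (-A) := by
      rw [Real.rpow_def_of_pos hN, ← Real.exp_add]
      congr 1
      ring
    calc b 𝔠 * kg K c (u + Real.log (Ideal.absNorm 𝔠)) ≤
        β * (C * Real.exp (-(A * (u + Real.log (Ideal.absNorm 𝔠))))) :=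
          mul_le_mul (hβ 𝔠) (h _) (sum_kg_nonneg _ _) hβ0
      _ = _ := by rw [h1]; ring

theorem sum_kg_le {c : ℝ} (hc : 0 < c) {A : ℝ} (hA : 1 < A) : ∃ C : ℝ, 0 ≤ C ∧
    ∀ (b : Ideal (𝓞 K) → ℝ) (β : ℝ), (∀ 𝔠, 0 ≤ b 𝔠) → (∀ 𝔠, b 𝔠 ≤ β) → b ⊥ = 0 → ∀ u : ℝ,
      Summable (fun 𝔠 => b 𝔠 * kg K c (u + Real.log (Ideal.absNorm 𝔠))) ∧
      ∑' 𝔠, b 𝔠 * kg K c (u + Real.log (Ideal.absNorm 𝔠)) ≤ β * (C * Real.exp (-(A * u))) := by
  obtain ⟨C, hC, h⟩ := sum_term_le (K := K) hc (zero_lt_one.trans hA)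
  have hs := ideal_summable (K := K) hA
  refine ⟨C * ∑' 𝔠 : Ideal (𝓞 K), (Ideal.absNorm 𝔠 : ℝ) ^ (-A),
    mul_nonneg hC (tsum_nonneg fun 𝔠 => by positivity), fun b β hb hβ hb0 u => ?_⟩
  have h2 : Summable (fun 𝔠 : Ideal (𝓞 K) =>
      β * (C * Real.exp (-(A * u))) * (Ideal.absNorm 𝔠 : ℝ) ^ (-A)) := hs.mul_left _
  have h3 : Summable (fun 𝔠 => b 𝔠 * kg K c (u + Real.log (Ideal.absNorm 𝔠))) :=
    Summable.of_nonneg_of_le (fun 𝔠 => mul_nonneg (hb 𝔠) (sum_kg_nonneg _ _))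
      (h b β hb hβ hb0 u) h2
  refine ⟨h3, (h3.tsum_le_tsum (h b β hb hβ hb0 u) h2).trans (le_of_eq ?_)⟩
  rw [tsum_mul_left]
  ring

theorem sum_norm_le {F : (InfinitePlace K → ℝ) → ℂ} {C c : ℝ} (hF : GoodF F C c)
    (b : Ideal (𝓞 K) → ℂ) (u : ℝ) (𝔠 : Ideal (𝓞 K)) :
    ‖b 𝔠 * kint K F (u + Real.log (Ideal.absNorm 𝔠))‖ ≤
      C * (‖b 𝔠‖ * kg K c (u + Real.log (Ideal.absNorm 𝔠))) := by
  rw [norm_mul]
  calc ‖b 𝔠‖ * ‖kint K F (u + Real.log (Ideal.absNorm 𝔠))‖ ≤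
      ‖b 𝔠‖ * (C * kg K c (u + Real.log (Ideal.absNorm 𝔠))) :=
        mul_le_mul_of_nonneg_left (kint_le hF _) (norm_nonneg _)
    _ = _ := by ring

theorem Dser_summable {F : (InfinitePlace K → ℝ) → ℂ} {C c : ℝ} (hF : GoodF F C c)
    {b : Ideal (𝓞 K) → ℂ} {β : ℝ} (hb : ∀ 𝔠, ‖b 𝔠‖ ≤ β) (hb0 : b ⊥ = 0) (u : ℝ) :
    Summable (fun 𝔠 : Ideal (𝓞 K) => b 𝔠 * kint K F (u + Real.log (Ideal.absNorm 𝔠))) := by
  obtain ⟨C₁, -, h⟩ := sum_kg_le (K := K) hF.2.1 (A := 2) one_lt_two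
  have h1 := (h (fun 𝔠 => ‖b 𝔠‖) β (fun _ => norm_nonneg _) hb (by simp [hb0]) u).1
  exact Summable.of_norm_bounded (h1.mul_left C) (sum_norm_le hF b u)

theorem Dser_le {F : (InfinitePlace K → ℝ) → ℂ} {C c : ℝ} (hF : GoodF F C c)
    {b : Ideal (𝓞 K) → ℂ} {β : ℝ} (hb : ∀ 𝔠, ‖b 𝔠‖ ≤ β) (hb0 : b ⊥ = 0) {A : ℝ} (hA : 1 / 2 < A) :
    ∃ C' : ℝ, 0 ≤ C' ∧ ∀ u : ℝ, ‖Dser b F u‖ ≤ C' * Real.exp (-(A * u)) := by
  obtain ⟨C₁, hC₁, h⟩ := sum_kg_le (K := K) hF.2.1 (A := A + 1 / 2) (by linarith)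
  have hβ0 : 0 ≤ β := (norm_nonneg _).trans (hb ⊥)
  refine ⟨C * (β * C₁), mul_nonneg hF.1 (mul_nonneg hβ0 hC₁), fun u => ?_⟩
  obtain ⟨h1, h2⟩ := h (fun 𝔠 => ‖b 𝔠‖) β (fun _ => norm_nonneg _) hb (by simp [hb0]) u
  unfold Dser
  rw [norm_mul, Complex.norm_real, Real.norm_of_nonneg (Real.exp_pos _).le]
  have h3 : ‖∑' 𝔠 : Ideal (𝓞 K), b 𝔠 * kint K F (u + Real.log (Ideal.absNorm 𝔠))‖ ≤
      C * ∑' 𝔠 : Ideal (𝓞 K), ‖b 𝔠‖ * kg K c (u + Real.log (Ideal.absNorm 𝔠)) := by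
    rw [← tsum_mul_left]
    exact tsum_of_norm_bounded (h1.mul_left C).hasSum (sum_norm_le hF b u)
  calc Real.exp (u / 2) * ‖∑' 𝔠 : Ideal (𝓞 K), b 𝔠 * kint K F (u + Real.log (Ideal.absNorm 𝔠))‖ ≤
      Real.exp (u / 2) * (C * (β * (C₁ * Real.exp (-((A + 1 / 2) * u))))) :=
        mul_le_mul_of_nonneg_left (h3.trans (mul_le_mul_of_nonneg_left h2 hF.1))
          (Real.exp_pos _).le
    _ = C * (β * C₁) * (Real.exp (u / 2) * Real.exp (-((A + 1 / 2) * u))) := by ring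
    _ = _ := by
      rw [← Real.exp_add]
      congr 2
      ring

theorem Dser_continuous {F : (InfinitePlace K → ℝ) → ℂ} {C c : ℝ} (hF : GoodF F C c)
    {b : Ideal (𝓞 K) → ℂ} {β : ℝ} (hb : ∀ 𝔠, ‖b 𝔠‖ ≤ β) (hb0 : b ⊥ = 0) :
    Continuous (Dser b F) := by
  unfold Dser
  refine (Complex.continuous_ofReal.comp (by fun_prop)).mul ?_
  obtain ⟨C₁, hC₁, h⟩ := sum_term_le (K := K) hF.2.1 (A := 2) two_pos
  have hβ0 : 0 ≤ β := (norm_nonneg _).trans (hb ⊥)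
  have hs := ideal_summable (K := K) (A := 2) one_lt_two
  rw [continuous_iff_continuousAt]
  intro u₀
  have hon : ContinuousOn (fun u : ℝ => ∑' 𝔠 : Ideal (𝓞 K),
      b 𝔠 * kint K F (u + Real.log (Ideal.absNorm 𝔠))) (Set.Ioi (u₀ - 1)) := by
    refine continuousOn_tsum (u := fun 𝔠 : Ideal (𝓞 K) =>
      C * (β * (C₁ * Real.exp (-(2 * (u₀ - 1)))) * (Ideal.absNorm 𝔠 : ℝ) ^ (-2 : ℝ))) ?_
      ((hs.mul_left _).mul_left _) ?_
    · intro 𝔠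
      refine (continuous_const.mul ((kint_continuous hF).comp ?_)).continuousOn
      exact continuous_id.add continuous_const
    · intro 𝔠 u hu
      refine (sum_norm_le hF b u 𝔠).trans (mul_le_mul_of_nonneg_left ?_ hF.1)
      refine (h (fun 𝔠 => ‖b 𝔠‖) β (fun _ => norm_nonneg _) hb (by simp [hb0]) u 𝔠).trans ?_
      have hu' : u₀ - 1 < u := hu
      gcongr
  exact hon.continuousAt (Ioi_mem_nhds (by linarith))

end Pool.Agent.HZ
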