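import Pool.Agent.Lib_helper41.HZF.Defs
import Pool.Agent.Lib_helper41.HZF.LAM1
import Pool.Agent.Lib_helper41.HZF.SUM

namespace Pool.Agent.HZ

open NumberField NumberField.InfinitePlace NumberField.Units Complex MeasureTheory Filter Topology

variable {K : Type} [Field K] [NumberField K]

theorem lam2_countable : Countable (Ideal (𝓞 K)) := by
  rw [← Set.countable_univ_iff]
  have h : (Set.univ : Set (Ideal (𝓞 K))) = ⋃ n : ℕ, {I : Ideal (𝓞 K) | Ideal.absNorm I ≤ n} := by
    ext I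
    simp only [Set.mem_univ, Set.mem_iUnion, Set.mem_setOf_eq, true_iff]
    exact ⟨Ideal.absNorm I, le_refl _⟩
  rw [h]
  exact Set.countable_iUnion (fun n => (Ideal.finite_setOfPred_absNorm_le (S := 𝓞 K) n).countable)

theorem lam2_shift {f : ℝ → ℂ} (s : ℂ) (hf : Integrable (fun u : ℝ => f u * cexp (s * u))) (N : ℝ)
    (hN : 0 < N) (a : ℂ) :
    Integrable (fun u : ℝ => a * f (u + Real.log N) * cexp (s * u)) ∧
      ∫ u : ℝ, a * f (u + Real.log N) * cexp (s * u) =
        a * (N : ℂ) ^ (-s) * ∫ u : ℝ, f u * cexp (s * u) := by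
  have hNs : (N : ℂ) ^ (-s) = cexp (-(s * (Real.log N : ℝ))) := by
    rw [Complex.cpow_def_of_ne_zero (by exact_mod_cast hN.ne'), ← Complex.ofReal_log hN.le]
    congr 1
    ring
  have heq : (fun u : ℝ => a * f (u + Real.log N) * cexp (s * u)) =
      fun u : ℝ => (a * (N : ℂ) ^ (-s)) *
        (fun v : ℝ => f v * cexp (s * v)) (u + Real.log N) := by
    funext u
    rw [hNs]
    have : cexp (s * u) = cexp (-(s * (Real.log N : ℝ))) * cexp (s * ((u + Real.log N : ℝ) : ℂ)) := by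
      rw [← Complex.exp_add]
      congr 1
      push_cast
      ring
    rw [this]
    ring
  rw [heq]
  refine ⟨(hf.comp_add_right (Real.log N)).const_mul _, ?_⟩
  rw [integral_const_mul, integral_add_right_eq_self (fun v : ℝ => f v * cexp (s * v))]

theorem mellin_Dser {κ : InfinitePlace K → ℤ} {lam : InfinitePlace K → ℝ} {ψ : Ideal (𝓞 K) →* ℂ}
    (hψ : ∀ 𝔞, ‖ψ 𝔞‖ ≤ 1) (hψ0 : ψ ⊥ = 0) {s : ℂ} (hs : 1 < s.re) :
    ∫ u : ℝ, Dser ψ (Gf κ lam) u * cexp ((s - 1 / 2) * u) =
      (∫ u : ℝ, kint K (Gf κ lam) u * cexp (s * u)) *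
        ∑' 𝔞 : Ideal (𝓞 K), ψ 𝔞 * (Ideal.absNorm 𝔞 : ℂ) ^ (-s) := by
  haveI : Countable (Ideal (𝓞 K)) := lam2_countable
  obtain ⟨C₀, -, hC₀⟩ := mellin_kint (K := K)
  have hint : Integrable (fun u : ℝ => kint K (Gf κ lam) u * cexp (s * u)) :=
    (hC₀ κ lam s (by linarith)).1
  set J : ℂ := ∫ u : ℝ, kint K (Gf κ lam) u * cexp (s * u) with hJ
  set F : Ideal (𝓞 K) → ℝ → ℂ := fun 𝔠 u =>
    ψ 𝔠 * kint K (Gf κ lam) (u + Real.log (Ideal.absNorm 𝔠)) * cexp (s * u) with hF
  have hs0 : s ≠ 0 := by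
    intro h
    rw [h] at hs
    simp at hs
    linarith
  -- each term
  have hterm : ∀ 𝔠 : Ideal (𝓞 K), Integrable (F 𝔠) ∧
      ∫ u, F 𝔠 u = ψ 𝔠 * (Ideal.absNorm 𝔠 : ℂ) ^ (-s) * J := by
    intro 𝔠
    by_cases h0 : 𝔠 = ⊥
    · subst h0
      have : F ⊥ = fun _ => 0 := by
        funext u
        simp [hF, hψ0]
      rw [this]
      refine ⟨integrable_zero _ _ _, ?_⟩
      simp [hψ0]
    · have hpos : (0 : ℝ) < (Ideal.absNorm 𝔠 : ℝ) := by
        have : Ideal.absNorm 𝔠 ≠ 0 := by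
          rw [Ne, Ideal.absNorm_eq_zero_iff]
          exact h0
        exact_mod_cast Nat.pos_of_ne_zero this
      have h := lam2_shift s hint (Ideal.absNorm 𝔠 : ℝ) hpos (ψ 𝔠)
      refine ⟨h.1, ?_⟩
      rw [hF]
      simpa using h.2
  -- norms
  have hint' : Integrable (fun u : ℝ => (fun v : ℝ => ((‖kint K (Gf κ lam) v‖ : ℝ) : ℂ)) u *
      cexp ((s.re : ℂ) * u)) := by
    have := hint.norm.ofReal (𝕜 := ℂ)
    refine this.congr (Eventually.of_forall fun u => ?_)
    simp only [norm_mul, Complex.norm_exp]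
    push_cast
    congr 1
    simp
  set M : ℝ := ∫ u : ℝ, ‖kint K (Gf κ lam) u * cexp (s * u)‖ with hM
  have hnorm : ∀ 𝔠 : Ideal (𝓞 K), ∫ u, ‖F 𝔠 u‖ = ‖ψ 𝔠‖ * (Ideal.absNorm 𝔠 : ℝ) ^ (-s.re) * M := by
    intro 𝔠
    by_cases h0 : 𝔠 = ⊥
    · subst h0
      simp [hF, hψ0]
    · have hpos : (0 : ℝ) < (Ideal.absNorm 𝔠 : ℝ) := by
        have : Ideal.absNorm 𝔠 ≠ 0 := by
          rw [Ne, Ideal.absNorm_eq_zero_iff]
          exact h0
        exact_mod_cast Nat.pos_of_ne_zero this
      set N : ℝ := (Ideal.absNorm 𝔠 : ℝ) with hN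
      have heq : (fun u : ℝ => ‖F 𝔠 u‖) = fun u : ℝ => (‖ψ 𝔠‖ * N ^ (-s.re)) *
          (fun v : ℝ => ‖kint K (Gf κ lam) v * cexp (s * v)‖) (u + Real.log N) := by
        funext u
        have hNr : N ^ (-s.re) = Real.exp (-(s.re * Real.log N)) := by
          rw [Real.rpow_def_of_pos hpos]
          congr 1
          ring
        simp only [hF, norm_mul, Complex.norm_exp, hNr]
        have e1 : (s * (u : ℂ)).re = s.re * u := by simp
        have e2 : (s * ((u + Real.log N : ℝ) : ℂ)).re = s.re * (u + Real.log N) := by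
          rw [Complex.mul_re, Complex.ofReal_re, Complex.ofReal_im]
          ring
        rw [e1, e2]
        have : Real.exp (s.re * u) =
            Real.exp (-(s.re * Real.log N)) * Real.exp (s.re * (u + Real.log N)) := by
          rw [← Real.exp_add]
          congr 1
          ring
        rw [this]
        ring
      rw [heq, integral_const_mul,
        integral_add_right_eq_self (fun v : ℝ => ‖kint K (Gf κ lam) v * cexp (s * v)‖)]
  have hM0 : 0 ≤ M := integral_nonneg (fun u => norm_nonneg _)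
  have hsum : Summable (fun 𝔠 : Ideal (𝓞 K) => ∫ u, ‖F 𝔠 u‖) := by
    refine Summable.of_nonneg_of_le (fun 𝔠 => integral_nonneg (fun u => norm_nonneg _)) ?_
      ((ideal_summable (K := K) hs).mul_right M)
    intro 𝔠
    rw [hnorm]
    refine mul_le_mul_of_nonneg_right ?_ hM0
    calc ‖ψ 𝔠‖ * (Ideal.absNorm 𝔠 : ℝ) ^ (-s.re) ≤ 1 * (Ideal.absNorm 𝔠 : ℝ) ^ (-s.re) :=
          mul_le_mul_of_nonneg_right (hψ 𝔠) (by positivity)
      _ = _ := one_mul _
  have key := integral_tsum_of_summable_integral_norm (fun 𝔠 => (hterm 𝔠).1) hsum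
  have hL : (fun u : ℝ => Dser ψ (Gf κ lam) u * cexp ((s - 1 / 2) * u)) =
      fun u : ℝ => ∑' 𝔠, F 𝔠 u := by
    funext u
    simp only [Dser, hF]
    rw [tsum_mul_right]
    have : cexp ((s - 1 / 2) * u) * ((Real.exp (u / 2) : ℝ) : ℂ) = cexp (s * u) := by
      rw [Complex.ofReal_exp, ← Complex.exp_add]
      congr 1
      push_cast
      ring
    rw [← this]
    ring
  rw [hL, ← key]
  rw [tsum_congr (fun 𝔠 => (hterm 𝔠).2), tsum_mul_right]
  ring

theorem lam2_int_exp : Integrable (fun u : ℝ => Real.exp (-|u|)) := by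
  have h := exp_neg_integrableOn_Ioi 0 (b := 1) one_pos
  rw [← integrableOn_univ, ← Set.Iic_union_Ioi (a := (0 : ℝ))]
  refine IntegrableOn.union ?_ ?_
  · refine (integrableOn_exp_Iic 0).congr_fun (fun u hu => ?_) measurableSet_Iic
    simp only [abs_of_nonpos (Set.mem_Iic.mp hu), neg_neg]
  · refine h.congr_fun (fun u hu => ?_) measurableSet_Ioi
    simp only [abs_of_pos (Set.mem_Ioi.mp hu)]
    congr 1
    ring

theorem entire_of_decay {D : ℝ → ℂ} (hD : Continuous D)
    (hdec : ∀ A : ℝ, ∃ C : ℝ, ∀ u : ℝ, ‖D u‖ ≤ C * Real.exp (-(A * |u|))) :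
    Differentiable ℂ (fun s : ℂ => ∫ u : ℝ, D u * cexp ((s - 1 / 2) * u)) := by
  intro s₀
  obtain ⟨C, hC⟩ := hdec (|s₀.re| + 4)
  have hcont : ∀ s : ℂ, Continuous (fun u : ℝ => D u * cexp ((s - 1 / 2) * u)) := by
    intro s
    fun_prop
  have hexp : ∀ s ∈ Metric.ball s₀ 1, ∀ u : ℝ, ‖cexp ((s - 1 / 2) * u)‖ ≤
      Real.exp ((|s₀.re| + 2) * |u|) := by
    intro s hs u
    rw [Complex.norm_exp]
    apply Real.exp_le_exp.mpr
    have h1 : ((s - 1 / 2) * (u : ℂ)).re = (s.re - 1 / 2) * u := by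
      rw [Complex.mul_re, Complex.ofReal_re, Complex.ofReal_im]
      simp
    rw [h1]
    calc (s.re - 1 / 2) * u ≤ |(s.re - 1 / 2) * u| := le_abs_self _
      _ = |s.re - 1 / 2| * |u| := abs_mul _ _
      _ ≤ (|s₀.re| + 2) * |u| := by
          refine mul_le_mul_of_nonneg_right ?_ (abs_nonneg _)
          have h2 : |s.re - s₀.re| ≤ 1 := by
            have : |(s - s₀).re| ≤ ‖s - s₀‖ := Complex.abs_re_le_norm _
            rw [Complex.sub_re] at this
            rw [Metric.mem_ball, dist_eq_norm] at hs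
            linarith
          have h3 : |s.re - 1 / 2| ≤ |s.re - s₀.re| + |s₀.re| + 1 / 2 := by
            rw [abs_le] at h2 ⊢
            have h4 := le_abs_self s₀.re
            have h5 := neg_abs_le s₀.re
            have h6 := le_abs_self (s.re - s₀.re)
            have h7 := neg_abs_le (s.re - s₀.re)
            constructor <;> linarith
          linarith
  have hu : ∀ u : ℝ, |u| ≤ Real.exp |u| := fun u => by
    have := Real.add_one_le_exp |u|
    linarith
  have hbd : ∀ s ∈ Metric.ball s₀ 1, ∀ u : ℝ, ‖D u * (cexp ((s - 1 / 2) * u) * u)‖ ≤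
      C * Real.exp (-|u|) := by
    intro s hs u
    rw [norm_mul, norm_mul, Complex.norm_real, Real.norm_eq_abs]
    have hC0 : 0 ≤ C * Real.exp (-((|s₀.re| + 4) * |u|)) := le_trans (norm_nonneg _) (hC u)
    calc ‖D u‖ * (‖cexp ((s - 1 / 2) * u)‖ * |u|)
        ≤ (C * Real.exp (-((|s₀.re| + 4) * |u|))) *
          (Real.exp ((|s₀.re| + 2) * |u|) * Real.exp |u|) := by
          refine mul_le_mul (hC u) ?_ (by positivity) hC0
          exact mul_le_mul (hexp s hs u) (hu u) (abs_nonneg _) (by positivity)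
      _ = C * Real.exp (-|u|) := by
          rw [mul_assoc, ← Real.exp_add, ← Real.exp_add]
          congr 2
          ring
  have hbd0 : ∀ u : ℝ, ‖D u * cexp ((s₀ - 1 / 2) * u)‖ ≤ C * Real.exp (-|u|) := by
    intro u
    rw [norm_mul]
    have hC0 : 0 ≤ C * Real.exp (-((|s₀.re| + 4) * |u|)) := le_trans (norm_nonneg _) (hC u)
    calc ‖D u‖ * ‖cexp ((s₀ - 1 / 2) * u)‖
        ≤ (C * Real.exp (-((|s₀.re| + 4) * |u|))) *
          (Real.exp ((|s₀.re| + 2) * |u|) * Real.exp |u|) := by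
          refine mul_le_mul (hC u) ?_ (by positivity) hC0
          refine le_trans (hexp s₀ (Metric.mem_ball_self one_pos) u) ?_
          exact le_mul_of_one_le_right (by positivity) (Real.one_le_exp (abs_nonneg _))
      _ = C * Real.exp (-|u|) := by
          rw [mul_assoc, ← Real.exp_add, ← Real.exp_add]
          congr 2
          ring
  have hint : Integrable (fun u : ℝ => C * Real.exp (-|u|)) := lam2_int_exp.const_mul C
  have h := hasDerivAt_integral_of_dominated_loc_of_deriv_le (μ := volume)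
    (F := fun (s : ℂ) (u : ℝ) => D u * cexp ((s - 1 / 2) * u))
    (F' := fun (s : ℂ) (u : ℝ) => D u * (cexp ((s - 1 / 2) * u) * u))
    (x₀ := s₀) (s := Metric.ball s₀ 1) (bound := fun u => C * Real.exp (-|u|))
    (Metric.ball_mem_nhds s₀ one_pos)
    (Eventually.of_forall fun s => (hcont s).aestronglyMeasurable)
    (hint.mono' (hcont s₀).aestronglyMeasurable (Eventually.of_forall hbd0))
    (by
      apply Continuous.aestronglyMeasurable
      fun_prop)
    (Eventually.of_forall fun u s hs => hbd s hs u) hint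
    (Eventually.of_forall fun u s _ => by
      have h1 : HasDerivAt (fun s : ℂ => (s - 1 / 2) * (u : ℂ)) (u : ℂ) s := by
        have := ((hasDerivAt_id s).sub_const (1 / 2 : ℂ)).mul_const (u : ℂ)
        simpa using this
      exact (h1.cexp).const_mul (D u))
  exact h.2.differentiableAt

end Pool.Agent.HZ
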