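import Pool.Agent.Lib_helper41.HZF.Defs
import Pool.Agent.Lib_helper41.HZF.SUM

namespace Pool.Agent.HZ

open NumberField NumberField.InfinitePlace NumberField.Units Complex MeasureTheory Filter Topology

variable {K : Type} [Field K] [NumberField K]

theorem cls_principal_iff {𝔟 𝔠 : Ideal (𝓞 K)} (h : 𝔟 ≠ ⊥) (h' : 𝔠 ≠ ⊥) :
    (𝔟 * 𝔠).IsPrincipal ↔ ClassGroup.mk0 ⟨𝔟, mem_nonZeroDivisors_of_ne_zero h⟩ *
      ClassGroup.mk0 ⟨𝔠, mem_nonZeroDivisors_of_ne_zero h'⟩ = 1 := by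
  rw [← map_mul]
  exact (ClassGroup.mk0_eq_one_iff _).symm

theorem Scl_congr (𝔟 𝔟' : Ideal (𝓞 K)) (h : 𝔟 ≠ ⊥) (h' : 𝔟' ≠ ⊥)
    (hc : ClassGroup.mk0 ⟨𝔟, mem_nonZeroDivisors_of_ne_zero h⟩ =
      ClassGroup.mk0 ⟨𝔟', mem_nonZeroDivisors_of_ne_zero h'⟩)
    (b : Ideal (𝓞 K) → ℂ) (F : (InfinitePlace K → ℝ) → ℂ) (u : ℝ) (hb0 : b ⊥ = 0) :
    Scl 𝔟 b F u = Scl 𝔟' b F u := by
  unfold Scl
  refine tsum_congr fun 𝔠 => ?_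
  by_cases h𝔠 : 𝔠 = ⊥
  · subst h𝔠
    simp [hb0]
  · have h1 : (𝔟 * 𝔠).IsPrincipal ↔ (𝔟' * 𝔠).IsPrincipal := by
      rw [cls_principal_iff h h𝔠, cls_principal_iff h' h𝔠, hc]
    by_cases h2 : (𝔟 * 𝔠).IsPrincipal
    · rw [if_pos h2, if_pos (h1.mp h2)]
    · rw [if_neg h2, if_neg (fun h3 => h2 (h1.mpr h3))]

open scoped Classical in
theorem Dser_classes (rep : ClassGroup (𝓞 K) → Ideal (𝓞 K)) (h0 : ∀ c, rep c ≠ ⊥)
    (hrep : ∀ c, ClassGroup.mk0 ⟨rep c, mem_nonZeroDivisors_of_ne_zero (h0 c)⟩ = c)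
    {F : (InfinitePlace K → ℝ) → ℂ} {C c : ℝ} (hF : GoodF F C c)
    {b : Ideal (𝓞 K) → ℂ} {β : ℝ} (hb : ∀ 𝔠, ‖b 𝔠‖ ≤ β) (hb0 : b ⊥ = 0) (u : ℝ) :
    Dser b F u = (Real.exp (u / 2) : ℂ) * ∑ c, Scl (rep c) b F u := by
  unfold Dser
  congr 1
  have hs := Dser_summable hF hb hb0 u
  unfold Scl
  rw [← Summable.tsum_finsetSum]
  · refine tsum_congr fun 𝔠 => ?_
    by_cases h𝔠 : 𝔠 = ⊥
    · subst h𝔠
      simp [hb0]
    · have h1 : ∀ c : ClassGroup (𝓞 K), (rep c * 𝔠).IsPrincipal ↔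
          c = (ClassGroup.mk0 ⟨𝔠, mem_nonZeroDivisors_of_ne_zero h𝔠⟩)⁻¹ := by
        intro c
        rw [cls_principal_iff (h0 c) h𝔠, hrep, mul_eq_one_iff_eq_inv]
      rw [Finset.sum_congr rfl (fun c _ => by
        rw [if_congr (h1 c) rfl rfl])]
      rw [Finset.sum_ite_eq']
      simp
  · intro c _
    refine Summable.of_norm_bounded hs.norm fun 𝔠 => ?_
    split_ifs
    · exact le_rfl
    · rw [norm_zero]
      exact norm_nonneg _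

end Pool.Agent.HZ
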