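import Pool.Agent.Lib_helper41.HZF.Defs

/-!
# Block UNF1: `cube_unfold` and the summation lemmas used in UNF2
-/

namespace Pool.Agent.HZ

open NumberField NumberField.InfinitePlace NumberField.Units Complex MeasureTheory Filter Topology

/-- Integrability of a series of integrable functions. -/
theorem unf_integrable_tsum {α J E : Type*} [MeasurableSpace α] {μ : Measure α} [Countable J]
    [NormedAddCommGroup E] [NormedSpace ℝ E] [CompleteSpace E]
    {F : J → α → E} (hF : ∀ j, Integrable (F j) μ) (hs : Summable fun j => ∫ x, ‖F j x‖ ∂μ) :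
    Integrable (fun x => ∑' j, F j x) μ := by
  have h1 : ∑' j, ∫⁻ x, ‖F j x‖ₑ ∂μ ≠ ⊤ := by
    have (j : J) : ∫⁻ x, ‖F j x‖ₑ ∂μ = ENNReal.ofReal (∫ x, ‖F j x‖ ∂μ) := by
      rw [ofReal_integral_norm_eq_lintegral_enorm (hF j)]
    simp_rw [this]
    exact hs.tsum_ofReal_ne_top
  have h2 : ∫⁻ x, ∑' j, ‖F j x‖ₑ ∂μ ≠ ⊤ := by
    rw [lintegral_tsum (fun j => (hF j).1.enorm)]
    exact h1
  have h3 : ∀ᵐ x ∂μ, Summable (fun j => F j x) := by
    have := ae_lt_top' (AEMeasurable.ennreal_tsum (fun j => (hF j).1.enorm)) h2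
    filter_upwards [this] with x hx
    have : Summable (fun j => ‖F j x‖) := by
      have h4 := ENNReal.tsum_coe_ne_top_iff_summable.1
        (show ∑' j, ((‖F j x‖₊ : NNReal) : ENNReal) ≠ ⊤ from hx.ne)
      exact NNReal.summable_coe.2 h4
    exact this.of_norm
  refine ⟨aestronglyMeasurable_of_tendsto_ae (atTop : Filter (Finset J))
    (f := fun s x => ∑ j ∈ s, F j x) (fun s => ?_) ?_, ?_⟩
  · exact Finset.aestronglyMeasurable_fun_sum s (fun j _ => (hF j).1)
  · filter_upwards [h3] with x hx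
    exact hx.hasSum
  · refine lt_of_le_of_lt (lintegral_mono (fun x => enorm_tsum_le_tsum_enorm)) h2.lt_top

/-- The translates of the half-open unit cube. -/
theorem unf_sum {ι E : Type*} [Fintype ι] [NormedAddCommGroup E] [NormedSpace ℝ E]
    (g : (ι → ℝ) → E) (hg : Integrable g) :
    HasSum (fun m : ι → ℤ => ∫ x in Set.Icc (0 : ι → ℝ) 1, g (fun i => x i + m i)) (∫ x, g x) := by
  set s : (ι → ℤ) → Set (ι → ℝ) := fun m => Set.pi Set.univ (fun i => Set.Ico (m i : ℝ) (m i + 1))
    with hs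
  have hmeas : ∀ m, MeasurableSet (s m) := fun m =>
    MeasurableSet.univ_pi (fun i => measurableSet_Ico)
  have hmem : ∀ m x, x ∈ s m ↔ ∀ i, ⌊x i⌋ = m i := by
    intro m x
    simp only [hs, Set.mem_pi, Set.mem_univ, true_implies, Set.mem_Ico, Int.floor_eq_iff]
  have hdisj : Pairwise (Function.onFun Disjoint s) := by
    intro m m' hmm
    rw [Function.onFun, Set.disjoint_left]
    intro x hx hx'
    rw [hmem] at hx hx'
    exact hmm (funext fun i => (hx i).symm.trans (hx' i))
  have hun : ⋃ m, s m = Set.univ := by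
    rw [Set.eq_univ_iff_forall]
    intro x
    rw [Set.mem_iUnion]
    exact ⟨fun i => ⌊x i⌋, (hmem _ _).2 fun i => rfl⟩
  have h1 := hasSum_integral_iUnion (μ := volume) (f := g) hmeas hdisj (by
    rw [hun]; exact hg.integrableOn)
  rw [hun, setIntegral_univ] at h1
  have h2 : ∀ m : ι → ℤ, ∫ x in Set.Icc (0 : ι → ℝ) 1, g (fun i => x i + m i) =
      ∫ x in s m, g x := by
    intro m
    have h3 : (Set.pi Set.univ (fun i : ι => Set.Ico ((0 : ι → ℝ) i) ((1 : ι → ℝ) i))) =ᵐ[volume]
        Set.Icc (0 : ι → ℝ) 1 := Measure.univ_pi_Ico_ae_eq_Icc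
    rw [← setIntegral_congr_set h3]
    have h4 : MeasurePreserving (fun x : ι → ℝ => x + (fun i => (m i : ℝ))) volume volume :=
      measurePreserving_add_right volume _
    have h5 : MeasurableEmbedding (fun x : ι → ℝ => x + (fun i => (m i : ℝ))) :=
      measurableEmbedding_addRight _
    have h6 := h4.setIntegral_preimage_emb h5 g (s m)
    rw [← h6]
    have h7 : (fun x : ι → ℝ => x + (fun i => (m i : ℝ))) ⁻¹' (s m) =
        Set.pi Set.univ (fun i : ι => Set.Ico ((0 : ι → ℝ) i) ((1 : ι → ℝ) i)) := by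
      ext x
      simp only [hs, Set.mem_preimage, Set.mem_pi, Set.mem_univ, true_implies, Set.mem_Ico,
        Pi.add_apply, Pi.zero_apply, Pi.one_apply]
      refine forall_congr' fun i => ?_
      constructor
      · rintro ⟨ha, hb⟩
        exact ⟨by linarith, by linarith⟩
      · rintro ⟨ha, hb⟩
        exact ⟨by linarith, by linarith⟩
    rw [h7]
    rfl
  simp_rw [h2]
  exact h1

/-- Both signs. -/
theorem unf_sum_sign {ι E : Type*} [Fintype ι] [NormedAddCommGroup E] [NormedSpace ℝ E]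
    (g : (ι → ℝ) → E) (hg : Integrable g) (ε : ℝ) (hε : ε = 1 ∨ ε = -1) :
    HasSum (fun m : ι → ℤ => ∫ x in Set.Icc (0 : ι → ℝ) 1, g (fun i => ε * x i + m i))
      (∫ x, g x) := by
  rcases hε with rfl | rfl
  · simpa using unf_sum g hg
  · have h1 := unf_sum (fun x => g (-x)) hg.comp_neg
    rw [integral_neg_eq_self g volume] at h1
    rw [← (Equiv.neg (ι → ℤ)).hasSum_iff] at h1
    convert h1 using 1
    funext m
    simp only [Function.comp_apply, Equiv.neg_apply, Pi.neg_apply]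
    congr 1
    funext x
    congr 1
    funext i
    simp only [Pi.neg_apply]
    push_cast
    ring

theorem unf_comp_integrable {ι E : Type*} [Fintype ι] [NormedAddCommGroup E]
    (g : (ι → ℝ) → E) (hg : Integrable g) (ε : ℝ) (hε : ε = 1 ∨ ε = -1) (a : ι → ℝ) :
    Integrable (fun x : ι → ℝ => g (fun i => ε * x i + a i)) := by
  have h1 : Integrable (fun x : ι → ℝ => g (x + a)) := hg.comp_add_right a
  rcases hε with rfl | rfl
  · simpa [Pi.add_def] using h1
  · have h2 := h1.comp_neg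
    convert h2 using 1
    funext x
    congr 1
    funext i
    simp

theorem unf_summable_norm {ι E : Type*} [Fintype ι] [NormedAddCommGroup E] [NormedSpace ℝ E]
    (g : (ι → ℝ) → E) (hg : Integrable g) (ε : ℝ) (hε : ε = 1 ∨ ε = -1) :
    HasSum (fun m : ι → ℤ => ∫ x in Set.Icc (0 : ι → ℝ) 1, ‖g (fun i => ε * x i + m i)‖)
      (∫ x, ‖g x‖) :=
  unf_sum_sign (fun x => ‖g x‖) hg.norm ε hε

theorem cube_unfold {ι : Type} [Fintype ι] (g : (ι → ℝ) → ℂ) (hg : Integrable g) (ε : ℝ)
    (hε : ε = 1 ∨ ε = -1) :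
    IntegrableOn (fun x : ι → ℝ => ∑' m : ι → ℤ, g (fun i => ε * x i + m i)) (Set.Icc 0 1) ∧
    ∫ x in Set.Icc (0 : ι → ℝ) 1, ∑' m : ι → ℤ, g (fun i => ε * x i + m i) = ∫ x, g x := by
  have h1 : ∀ m : ι → ℤ, IntegrableOn (fun x : ι → ℝ => g (fun i => ε * x i + m i))
      (Set.Icc 0 1) := fun m => (unf_comp_integrable g hg ε hε (fun i => (m i : ℝ))).integrableOn
  have h2 := unf_summable_norm g hg ε hε
  have h3 := unf_sum_sign g hg ε hε
  refine ⟨unf_integrable_tsum h1 h2.summable, ?_⟩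
  rw [← integral_tsum_of_summable_integral_norm h1 h2.summable]
  exact h3.tsum_eq

end Pool.Agent.HZ
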