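import Pool.Agent.Lib_helper41.HZF.Defs
import Pool.Agent.Lib_helper41.HZF.KG
import Pool.Agent.Lib_helper41.HZF.SUM
import Pool.Agent.Lib_helper41.HZF.UNF1
import Pool.Agent.Lib_helper41.HZF.YB

/-!
# Block UNF2: `quo_spec` and `unfold`
-/

namespace Pool.Agent.HZ

open NumberField NumberField.InfinitePlace NumberField.Units Complex MeasureTheory Filter Topology

variable {K : Type} [Field K] [NumberField K]

theorem quo_spec {𝔟 : Ideal (𝓞 K)} {α : 𝓞 K} (hα : α ∈ 𝔟) (h0 : α ≠ 0) :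
    𝔟 * quo 𝔟 α = Ideal.span {α} := by
  have hd : 𝔟 ∣ Ideal.span {α} := Ideal.dvd_span_singleton.2 hα
  have h : α ≠ 0 ∧ 𝔟 ∣ Ideal.span {α} := ⟨h0, hd⟩
  rw [quo, dif_pos h]
  exact h.2.choose_spec.symm

theorem unf_quo_zero (𝔟 : Ideal (𝓞 K)) : quo 𝔟 0 = ⊥ := by
  rw [quo, dif_neg]
  rintro ⟨h, -⟩
  exact h rfl

theorem unf_quo_eq {𝔟 𝔠 : Ideal (𝓞 K)} (h𝔟 : 𝔟 ≠ ⊥) {α : 𝓞 K} (h0 : α ≠ 0)
    (h : 𝔟 * 𝔠 = Ideal.span {α}) : quo 𝔟 α = 𝔠 := by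
  have hα : α ∈ 𝔟 := by
    have h1 : α ∈ 𝔟 * 𝔠 := by rw [h]; exact Ideal.mem_span_singleton_self α
    have h2 : 𝔟 * 𝔠 ≤ 𝔟 := Ideal.mul_le_left
    exact h2 h1
  have h1 := quo_spec hα h0
  rw [← h] at h1
  exact mul_left_cancel₀ (by simpa using h𝔟) h1

/-- The ideals `𝔠 ≠ 0` such that `𝔟𝔠` is principal. -/
def UnfP (𝔟 : Ideal (𝓞 K)) : Type := {𝔠 : Ideal (𝓞 K) // 𝔠 ≠ ⊥ ∧ (𝔟 * 𝔠).IsPrincipal}

/-- A generator of `𝔟𝔠`. -/
noncomputable def unfGen {𝔟 : Ideal (𝓞 K)} (p : UnfP 𝔟) : 𝓞 K := p.2.2.principal.choose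

theorem unfGen_spec {𝔟 : Ideal (𝓞 K)} (p : UnfP 𝔟) : 𝔟 * p.1 = Ideal.span {unfGen p} :=
  p.2.2.principal.choose_spec

theorem unfGen_ne {𝔟 : Ideal (𝓞 K)} (h𝔟 : 𝔟 ≠ ⊥) (p : UnfP 𝔟) : unfGen p ≠ 0 := by
  intro h
  have h1 := unfGen_spec p
  rw [h, Ideal.span_singleton_eq_bot.2 rfl] at h1
  rcases mul_eq_zero.1 (show 𝔟 * p.1 = 0 from h1) with h2 | h2
  · exact h𝔟 h2
  · exact p.2.1 h2

theorem unfGen_mem {𝔟 : Ideal (𝓞 K)} (p : UnfP 𝔟) : unfGen p ∈ 𝔟 := by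
  have h1 : unfGen p ∈ 𝔟 * p.1 := by
    rw [unfGen_spec p]; exact Ideal.mem_span_singleton_self _
  have h2 : 𝔟 * p.1 ≤ 𝔟 := Ideal.mul_le_left
  exact h2 h1

variable (K) in
/-- The unit with coordinates `(ζ, m)`. -/
noncomputable def unfU (z : torsion K × (Fin (rank K) → ℤ)) : (𝓞 K)ˣ :=
  (z.1 : (𝓞 K)ˣ) * ∏ i, (fundSystem K i) ^ (z.2 i)

theorem unfU_bij : Function.Bijective (unfU K) := by
  constructor
  · intro z z' h
    obtain ⟨y, -, hy⟩ := exist_unique_eq_mul_prod K (unfU K z)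
    rw [hy z rfl, hy z' h]
  · intro η
    obtain ⟨y, hy, -⟩ := exist_unique_eq_mul_prod K η
    exact ⟨y, hy.symm⟩

/-- The parametrization of the nonzero elements of `𝔟`. -/
noncomputable def unfE (𝔟 : Ideal (𝓞 K)) (j : UnfP 𝔟 × (torsion K × (Fin (rank K) → ℤ))) : 𝔟 :=
  ⟨(unfU K j.2 : 𝓞 K) * unfGen j.1, 𝔟.mul_mem_left _ (unfGen_mem j.1)⟩

theorem unfE_span {𝔟 : Ideal (𝓞 K)} (j : UnfP 𝔟 × (torsion K × (Fin (rank K) → ℤ))) :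
    Ideal.span {((unfE 𝔟 j : 𝔟) : 𝓞 K)} = 𝔟 * j.1.1 := by
  rw [unfGen_spec, unfE]
  exact Ideal.span_singleton_mul_left_unit (unfU K j.2).isUnit _

theorem unfE_ne {𝔟 : Ideal (𝓞 K)} (h𝔟 : 𝔟 ≠ ⊥)
    (j : UnfP 𝔟 × (torsion K × (Fin (rank K) → ℤ))) : ((unfE 𝔟 j : 𝔟) : 𝓞 K) ≠ 0 :=
  mul_ne_zero (Units.ne_zero _) (unfGen_ne h𝔟 _)

theorem unfE_quo {𝔟 : Ideal (𝓞 K)} (h𝔟 : 𝔟 ≠ ⊥)
    (j : UnfP 𝔟 × (torsion K × (Fin (rank K) → ℤ))) : quo 𝔟 ((unfE 𝔟 j : 𝔟) : 𝓞 K) = j.1.1 :=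
  unf_quo_eq h𝔟 (unfE_ne h𝔟 j) (unfE_span j).symm

theorem unfE_inj {𝔟 : Ideal (𝓞 K)} (h𝔟 : 𝔟 ≠ ⊥) : Function.Injective (unfE 𝔟) := by
  rintro ⟨p, z⟩ ⟨p', z'⟩ h
  have h1 : p = p' := by
    have h2 := unfE_quo h𝔟 (p, z)
    rw [h, unfE_quo h𝔟 (p', z')] at h2
    exact Subtype.ext h2.symm
  subst h1
  have h3 : (unfU K z : 𝓞 K) * unfGen p = (unfU K z' : 𝓞 K) * unfGen p := congrArg Subtype.val h
  have h4 := mul_right_cancel₀ (unfGen_ne h𝔟 p) h3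
  rw [unfU_bij.1 (Units.ext h4)]

theorem unfE_surj {𝔟 : Ideal (𝓞 K)} (α : 𝔟) (h0 : (α : 𝓞 K) ≠ 0) :
    ∃ j, unfE 𝔟 j = α := by
  have h1 := quo_spec α.2 h0
  have h2 : quo 𝔟 (α : 𝓞 K) ≠ ⊥ := by
    intro h
    rw [h, Ideal.mul_bot] at h1
    exact h0 (Ideal.span_singleton_eq_bot.1 h1.symm)
  set p : UnfP 𝔟 := ⟨quo 𝔟 (α : 𝓞 K), h2, ⟨⟨(α : 𝓞 K), h1⟩⟩⟩ with hp
  have h3 := unfGen_spec p
  have h4 : Ideal.span {unfGen p} = Ideal.span {(α : 𝓞 K)} := by rw [← h3, ← h1]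
  obtain ⟨η, hη⟩ := Ideal.span_singleton_eq_span_singleton.1 h4
  obtain ⟨z, hz⟩ := unfU_bij.2 η
  refine ⟨(p, z), ?_⟩
  apply Subtype.ext
  show (unfU K z : 𝓞 K) * unfGen p = α
  rw [hz, ← hη, mul_comm]

theorem unf_norm {𝔟 : Ideal (𝓞 K)} (h𝔟 : 𝔟 ≠ ⊥) (p : UnfP 𝔟) :
    Real.log (∏ w : InfinitePlace K, w ((unfGen p : 𝓞 K) : K) ^ w.mult) =
      Real.log (Ideal.absNorm 𝔟) + Real.log (Ideal.absNorm p.1) := by
  have h1 : Ideal.absNorm (𝔟 * p.1) = (Algebra.norm ℤ (unfGen p)).natAbs := by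
    rw [unfGen_spec, Ideal.absNorm_span_singleton]
  rw [map_mul] at h1
  have h2 : (Ideal.absNorm 𝔟 : ℝ) ≠ 0 := by
    rw [Nat.cast_ne_zero, ne_eq, Ideal.absNorm_eq_zero_iff]; exact h𝔟
  have h3 : (Ideal.absNorm p.1 : ℝ) ≠ 0 := by
    rw [Nat.cast_ne_zero, ne_eq, Ideal.absNorm_eq_zero_iff]; exact p.2.1
  rw [← Real.log_mul h2 h3, prod_eq_abs_norm, ← Nat.cast_mul, h1]
  congr 1
  have h4 : (Algebra.norm ℚ ((unfGen p : 𝓞 K) : K)) = ((Algebra.norm ℤ (unfGen p) : ℤ) : ℚ) := by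
    rw [Algebra.coe_norm_int]
  rw [h4, Nat.cast_natAbs]
  push_cast
  rfl

theorem unf_exists_xi {𝔟 : Ideal (𝓞 K)} (h𝔟 : 𝔟 ≠ ⊥) (p : UnfP 𝔟) :
    ∃ ξ : Fin (rank K) → ℝ, ∀ w : InfinitePlace K, w ((unfGen p : 𝓞 K) : K) =
      Yv K (Real.log (Ideal.absNorm 𝔟) + Real.log (Ideal.absNorm p.1)) ξ w := by
  have hy : ∀ w : InfinitePlace K, 0 < w ((unfGen p : 𝓞 K) : K) := by
    intro w
    rw [InfinitePlace.pos_iff]
    exact RingOfIntegers.coe_ne_zero_iff.2 (unfGen_ne h𝔟 p)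
  obtain ⟨ξ, hξ⟩ := exists_Yv (fun w => w ((unfGen p : 𝓞 K) : K)) hy
  refine ⟨ξ, fun w => ?_⟩
  rw [hξ w, unf_norm h𝔟 p]

/-- The shift. -/
noncomputable def unfXi {𝔟 : Ideal (𝓞 K)} (h𝔟 : 𝔟 ≠ ⊥) (p : UnfP 𝔟) : Fin (rank K) → ℝ :=
  (unf_exists_xi h𝔟 p).choose

/-- `L_p = log N𝔟 + log N𝔠`. -/
noncomputable def unfL {𝔟 : Ideal (𝓞 K)} (p : UnfP 𝔟) : ℝ :=
  Real.log (Ideal.absNorm 𝔟) + Real.log (Ideal.absNorm p.1)

theorem unf_val {𝔟 : Ideal (𝓞 K)} (h𝔟 : 𝔟 ≠ ⊥)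
    (j : UnfP 𝔟 × (torsion K × (Fin (rank K) → ℤ))) (u : ℝ) (x : Fin (rank K) → ℝ)
    (w : InfinitePlace K) :
    Yv K u x w * w ((((unfE 𝔟 j : 𝔟) : 𝓞 K)) : K) =
      Yv K (u + unfL j.1) ((fun i => x i + (j.2.2 i : ℝ)) + unfXi h𝔟 j.1) w := by
  have h1 : w ((((unfE 𝔟 j : 𝔟) : 𝓞 K)) : K) =
      Yv K 0 (fun i => (j.2.2 i : ℝ)) w * Yv K (unfL j.1) (unfXi h𝔟 j.1) w := by
    rw [Yv_unit, unfL, unfXi, ← (unf_exists_xi h𝔟 j.1).choose_spec w]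
    have h2 : w (((j.2.1 : (𝓞 K)ˣ) : 𝓞 K) : K) = 1 := (mem_torsion K).1 j.2.1.2 w
    have h3 : (((unfE 𝔟 j : 𝔟) : 𝓞 K) : K) = (((j.2.1 : (𝓞 K)ˣ) : 𝓞 K) : K) *
        (((∏ i, (fundSystem K i) ^ (j.2.2 i) : (𝓞 K)ˣ) : 𝓞 K) : K) * ((unfGen j.1 : 𝓞 K) : K) := by
      have h4 : ((unfE 𝔟 j : 𝔟) : 𝓞 K) = ((j.2.1 : (𝓞 K)ˣ) : 𝓞 K) *
        ((∏ i, (fundSystem K i) ^ (j.2.2 i) : (𝓞 K)ˣ) : 𝓞 K) * unfGen j.1 := by
        rw [← Units.val_mul]; rfl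
      rw [h4]
      rfl
    rw [h3, map_mul, map_mul, h2, one_mul]
  rw [h1, ← mul_assoc, ← Yv_add, ← Yv_add, add_zero]
  rfl

theorem unf_countable_O : Countable (𝓞 K) := by
  exact (RingOfIntegers.basis K).equivFun.toEquiv.injective.countable

theorem unf_countable {𝔟 : Ideal (𝓞 K)} (h𝔟 : 𝔟 ≠ ⊥) : Countable (UnfP 𝔟) := by
  have : Countable (𝓞 K) := unf_countable_O
  have h : Function.Injective (fun p : UnfP 𝔟 => unfGen p) := by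
    intro p p' h
    have h1 := unfGen_spec p
    have h2 : unfGen p = unfGen p' := h
    rw [h2, ← unfGen_spec p'] at h1
    exact Subtype.ext (mul_left_cancel₀ (by simpa using h𝔟) h1)
  exact h.countable

/-- The function `g_p`. -/
noncomputable def unfG {𝔟 : Ideal (𝓞 K)} (h𝔟 : 𝔟 ≠ ⊥) (F : (InfinitePlace K → ℝ) → ℂ) (u : ℝ)
    (p : UnfP 𝔟) (x : Fin (rank K) → ℝ) : ℂ :=
  F (Yv K (u + unfL p) (x + unfXi h𝔟 p))

theorem unfG_integrable {𝔟 : Ideal (𝓞 K)} (h𝔟 : 𝔟 ≠ ⊥) {F : (InfinitePlace K → ℝ) → ℂ} {C c : ℝ}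
    (hF : GoodF F C c) (u : ℝ) (p : UnfP 𝔟) : Integrable (unfG h𝔟 F u p) :=
  (kint_integrable hF (u + unfL p)).comp_add_right (unfXi h𝔟 p)

theorem unfG_integral {𝔟 : Ideal (𝓞 K)} (h𝔟 : 𝔟 ≠ ⊥) (F : (InfinitePlace K → ℝ) → ℂ) (u : ℝ)
    (p : UnfP 𝔟) : ∫ x, unfG h𝔟 F u p x = kint K F (u + unfL p) :=
  integral_add_right_eq_self (fun x => F (Yv K (u + unfL p) x)) (unfXi h𝔟 p)

theorem unfG_norm {𝔟 : Ideal (𝓞 K)} (h𝔟 : 𝔟 ≠ ⊥) {F : (InfinitePlace K → ℝ) → ℂ} {C c : ℝ}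
    (hF : GoodF F C c) (u : ℝ) (p : UnfP 𝔟) :
    ∫ x, ‖unfG h𝔟 F u p x‖ ≤ C * kg K c (u + unfL p) := by
  have h1 : ∫ x, ‖unfG h𝔟 F u p x‖ = ∫ x : Fin (rank K) → ℝ, ‖F (Yv K (u + unfL p) x)‖ :=
    integral_add_right_eq_self (fun x => ‖F (Yv K (u + unfL p) x)‖) (unfXi h𝔟 p)
  rw [h1, kg, ← integral_const_mul]
  refine integral_mono (kint_integrable hF (u + unfL p)).norm
    ((kg_integrable hF.2.1 (u + unfL p)).const_mul C) ?_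
  intro x
  exact hF.2.2.2 _ (fun w => Yv_pos _ _ _)

theorem unfold_units {𝔟 : Ideal (𝓞 K)} (h𝔟 : 𝔟 ≠ ⊥) {F : (InfinitePlace K → ℝ) → ℂ} {C c : ℝ}
    (hF : GoodF F C c) {b : Ideal (𝓞 K) → ℂ} {β : ℝ} (hb : ∀ 𝔠, ‖b 𝔠‖ ≤ β) (hb0 : b ⊥ = 0)
    (ε : ℝ) (hε : ε = 1 ∨ ε = -1) (u : ℝ) :
    IntegrableOn (fun x : Fin (rank K) → ℝ => ∑' α : 𝔟, b (quo 𝔟 α) *
        F (fun w => Yv K u (ε • x) w * w ((α : 𝓞 K) : K))) (Set.Icc 0 1) ∧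
    ∫ x in Set.Icc (0 : Fin (rank K) → ℝ) 1, ∑' α : 𝔟, b (quo 𝔟 α) *
        F (fun w => Yv K u (ε • x) w * w ((α : 𝓞 K) : K)) =
      (torsionOrder K : ℂ) * Scl 𝔟 b F (u + Real.log (Ideal.absNorm 𝔟)) := by
  classical
  have : Countable (UnfP 𝔟) := unf_countable h𝔟
  have : Countable (torsion K) := Finite.to_countable
  let _ : Fintype (torsion K) := Fintype.ofFinite _
  have htor : torsionOrder K = Fintype.card (torsion K) := by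
    rw [torsionOrder, Nat.card_eq_fintype_card]
  set J := UnfP 𝔟 × (torsion K × (Fin (rank K) → ℤ)) with hJ
  set G : J → (Fin (rank K) → ℝ) → ℂ := fun j x =>
    b j.1.1 * unfG h𝔟 F u j.1 (fun i => ε * x i + (j.2.2 i : ℝ)) with hG
  -- the sum over `𝔟` is the sum over `J`
  have hsum : ∀ x : Fin (rank K) → ℝ, ∑' α : 𝔟, b (quo 𝔟 α) *
        F (fun w => Yv K u (ε • x) w * w ((α : 𝓞 K) : K)) = ∑' j : J, G j x := by
    intro x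
    rw [← (unfE_inj h𝔟).tsum_eq]
    · refine tsum_congr fun j => ?_
      rw [unfE_quo h𝔟 j, hG]
      simp only
      congr 1
      rw [unfG]
      congr 1
      funext w
      exact unf_val h𝔟 j u (ε • x) w
    · intro α hα
      by_cases h0 : (α : 𝓞 K) = 0
      · exfalso
        apply hα
        simp only [h0, unf_quo_zero, hb0, zero_mul]
      · obtain ⟨j, hj⟩ := unfE_surj α h0
        exact ⟨j, hj⟩
  have hGi : ∀ j, IntegrableOn (G j) (Set.Icc 0 1) := fun j =>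
    ((unf_comp_integrable _ (unfG_integrable h𝔟 hF u j.1) ε hε
      (fun i => (j.2.2 i : ℝ))).const_mul _).integrableOn
  have hn := fun p : UnfP 𝔟 => unf_summable_norm _ (unfG_integrable h𝔟 hF u p) ε hε
  have hs := fun p : UnfP 𝔟 => unf_sum_sign _ (unfG_integrable h𝔟 hF u p) ε hε
  have hval : ∀ j : J, ∫ x in Set.Icc (0 : Fin (rank K) → ℝ) 1, ‖G j x‖ =
      ‖b j.1.1‖ * ∫ x in Set.Icc (0 : Fin (rank K) → ℝ) 1,
        ‖unfG h𝔟 F u j.1 (fun i => ε * x i + (j.2.2 i : ℝ))‖ := by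
    intro j
    rw [← integral_const_mul]
    refine integral_congr_ae (ae_of_all _ fun x => ?_)
    simp only [hG, norm_mul]
  have hin : ∀ p : UnfP 𝔟, Summable (fun z : torsion K × (Fin (rank K) → ℤ) =>
      ∫ x in Set.Icc (0 : Fin (rank K) → ℝ) 1, ‖G (p, z) x‖) := by
    intro p
    simp_rw [hval]
    apply Summable.mul_left
    rw [summable_prod_of_nonneg (fun z => integral_nonneg fun x => norm_nonneg _)]
    exact ⟨fun ζ => (hn p).summable, (hasSum_fintype _).summable⟩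
  have htot : Summable (fun j : J => ∫ x in Set.Icc (0 : Fin (rank K) → ℝ) 1, ‖G j x‖) := by
    rw [summable_prod_of_nonneg (fun j => integral_nonneg fun x => norm_nonneg _)]
    refine ⟨hin, ?_⟩
    have h1 : ∀ p : UnfP 𝔟, ∑' z : torsion K × (Fin (rank K) → ℤ),
        ∫ x in Set.Icc (0 : Fin (rank K) → ℝ) 1, ‖G (p, z) x‖ =
        (torsionOrder K : ℝ) * (‖b p.1‖ * ∫ x, ‖unfG h𝔟 F u p x‖) := by
      intro p
      rw [(hin p).tsum_prod]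
      have h2 : ∀ ζ : torsion K, ∑' m : Fin (rank K) → ℤ,
          ∫ x in Set.Icc (0 : Fin (rank K) → ℝ) 1, ‖G (p, (ζ, m)) x‖ =
          ‖b p.1‖ * ∫ x, ‖unfG h𝔟 F u p x‖ := by
        intro ζ
        simp_rw [hval]
        rw [tsum_mul_left, (hn p).tsum_eq]
      simp_rw [h2]
      rw [tsum_fintype, Finset.sum_const, Finset.card_univ, nsmul_eq_mul, htor]
    simp_rw [h1]
    apply Summable.mul_left
    obtain ⟨C', -, hC'⟩ := sum_kg_le (K := K) hF.2.1 (A := 2) (by norm_num)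
    have h3 := (hC' (fun 𝔠 => ‖b 𝔠‖) β (fun _ => norm_nonneg _) hb (by rw [hb0, norm_zero])
      (u + Real.log (Ideal.absNorm 𝔟))).1
    have h4 : Summable (fun p : UnfP 𝔟 => ‖b p.1‖ * kg K c (u + Real.log (Ideal.absNorm 𝔟) +
        Real.log (Ideal.absNorm p.1))) := h3.comp_injective Subtype.val_injective
    refine Summable.of_nonneg_of_le (fun p => ?_) (fun p => ?_) (h4.mul_left C)
    · exact mul_nonneg (norm_nonneg _) (integral_nonneg fun x => norm_nonneg _)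
    · have h5 := unfG_norm h𝔟 hF u p
      rw [unfL, ← add_assoc] at h5
      calc ‖b p.1‖ * ∫ x, ‖unfG h𝔟 F u p x‖ ≤ ‖b p.1‖ * (C * kg K c
            (u + Real.log (Ideal.absNorm 𝔟) + Real.log (Ideal.absNorm p.1))) :=
            mul_le_mul_of_nonneg_left h5 (norm_nonneg _)
        _ = _ := by ring
  simp_rw [hsum]
  refine ⟨unf_integrable_tsum hGi htot, ?_⟩
  rw [← integral_tsum_of_summable_integral_norm hGi htot]
  have hci : Summable (fun j : J => ∫ x in Set.Icc (0 : Fin (rank K) → ℝ) 1, G j x) :=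
    Summable.of_norm_bounded htot (fun j => norm_integral_le_integral_norm _)
  rw [hci.tsum_prod]
  have hval2 : ∀ j : J, ∫ x in Set.Icc (0 : Fin (rank K) → ℝ) 1, G j x =
      b j.1.1 * ∫ x in Set.Icc (0 : Fin (rank K) → ℝ) 1,
        unfG h𝔟 F u j.1 (fun i => ε * x i + (j.2.2 i : ℝ)) := by
    intro j
    rw [← integral_const_mul]
  have h6 : ∀ p : UnfP 𝔟, ∑' z : torsion K × (Fin (rank K) → ℤ),
      ∫ x in Set.Icc (0 : Fin (rank K) → ℝ) 1, G (p, z) x =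
      (torsionOrder K : ℂ) * (b p.1 * kint K F (u + unfL p)) := by
    intro p
    have hcp : Summable (fun z : torsion K × (Fin (rank K) → ℤ) =>
        ∫ x in Set.Icc (0 : Fin (rank K) → ℝ) 1, G (p, z) x) :=
      Summable.of_norm_bounded (hin p) (fun z => norm_integral_le_integral_norm _)
    rw [hcp.tsum_prod]
    have h2 : ∀ ζ : torsion K, ∑' m : Fin (rank K) → ℤ,
        ∫ x in Set.Icc (0 : Fin (rank K) → ℝ) 1, G (p, (ζ, m)) x =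
        b p.1 * kint K F (u + unfL p) := by
      intro ζ
      simp_rw [hval2]
      rw [tsum_mul_left, (hs p).tsum_eq, unfG_integral]
    simp_rw [h2]
    rw [tsum_fintype, Finset.sum_const, Finset.card_univ, nsmul_eq_mul, htor]
  simp_rw [h6]
  rw [tsum_mul_left, Scl]
  congr 1
  have hinj : Function.Injective (fun p : UnfP 𝔟 => p.1) := Subtype.val_injective
  rw [← hinj.tsum_eq]
  · refine tsum_congr fun p => ?_
    rw [if_pos p.2.2, unfL, ← add_assoc]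
  · intro 𝔠 h𝔠
    by_cases h7 : (𝔟 * 𝔠).IsPrincipal
    · by_cases h8 : 𝔠 = ⊥
      · exfalso
        apply h𝔠
        simp only [h8, hb0, zero_mul, ite_self]
      · exact ⟨⟨𝔠, h8, h7⟩, rfl⟩
    · exfalso
      apply h𝔠
      simp only [h7, if_false]

end Pool.Agent.HZ
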