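import Pool.Agent.Lib_helper41.HZF.Defs
import Pool.Agent.Lib_helper41.HZF.INF
import Pool.Agent.Lib_helper41.HZF.UNF2

/-!
# Block RES: residues and the function `tw`
-/

namespace Pool.Agent.HZ

open NumberField NumberField.InfinitePlace NumberField.Units Complex MeasureTheory Filter Topology

variable {K : Type} [Field K] [NumberField K]

theorem RES_mem_of_mul_mem {𝔮 𝔟 : Ideal (𝓞 K)} (h𝔟 : 𝔟 ≠ ⊥) {g : 𝓞 K} (hgb : g ∈ 𝔟) (hg0 : g ≠ 0)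
    (hc : IsCoprime (quo 𝔟 g) 𝔮) {c : 𝓞 K} (h : c * g ∈ 𝔮 * 𝔟) : c ∈ 𝔮 := by
  have h1 : 𝔮 * 𝔟 ∣ Ideal.span {c} * (𝔟 * quo 𝔟 g) := by
    rw [quo_spec hgb hg0, Ideal.span_singleton_mul_span_singleton, Ideal.dvd_span_singleton]
    exact h
  have h2 : 𝔮 ∣ Ideal.span {c} * quo 𝔟 g := by
    have : 𝔟 * 𝔮 ∣ 𝔟 * (Ideal.span {c} * quo 𝔟 g) := by
      have e1 : 𝔟 * 𝔮 = 𝔮 * 𝔟 := mul_comm _ _
      have e2 : 𝔟 * (Ideal.span {c} * quo 𝔟 g) = Ideal.span {c} * (𝔟 * quo 𝔟 g) := by ring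
      rw [e1, e2]
      exact h1
    exact (mul_dvd_mul_iff_left h𝔟).mp this
  have h3 : 𝔮 ∣ Ideal.span {c} := hc.symm.dvd_of_dvd_mul_right h2
  exact Ideal.dvd_span_singleton.mp h3

theorem exists_res {𝔮 𝔟 : Ideal (𝓞 K)} (h𝔮 : 𝔮 ≠ ⊥) (h𝔟 : 𝔟 ≠ ⊥) :
    ∃ (g : 𝓞 K) (ρ : 𝓞 K → 𝓞 K ⧸ 𝔮), g ∈ 𝔟 ∧ g ≠ 0 ∧ IsCoprime (quo 𝔟 g) 𝔮 ∧
      ∀ α ∈ 𝔟, ∀ a : 𝓞 K, ρ α = Ideal.Quotient.mk 𝔮 a ↔ α - a * g ∈ 𝔮 * 𝔟 := by
  classical
  obtain ⟨g, hg0, hgsup⟩ : ∃ g : 𝓞 K, g ≠ 0 ∧ 𝔮 * 𝔟 ⊔ Ideal.span {g} = 𝔟 := by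
    obtain ⟨a, ha⟩ := IsDedekindDomain.exists_sup_span_eq (I := 𝔮 * 𝔟) (J := 𝔟) Ideal.mul_le_right
      (mul_ne_zero h𝔮 h𝔟)
    by_cases h0 : a = 0
    · subst h0
      have h1 : 𝔮 * 𝔟 = 𝔟 := by simpa using ha
      obtain ⟨g, hg, hg0⟩ := Submodule.exists_mem_ne_zero_of_ne_bot h𝔟
      refine ⟨g, hg0, ?_⟩
      rw [h1]
      exact sup_eq_left.mpr ((Ideal.span_singleton_le_iff_mem 𝔟).mpr hg)
    · exact ⟨a, h0, ha⟩
  have hgb : g ∈ 𝔟 := by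
    rw [← hgsup]
    exact Ideal.mem_sup_right (Ideal.mem_span_singleton_self g)
  have hq := quo_spec hgb hg0
  have hcop : IsCoprime (quo 𝔟 g) 𝔮 := by
    rw [Ideal.isCoprime_iff_sup_eq]
    have : 𝔟 * (quo 𝔟 g ⊔ 𝔮) = 𝔟 * ⊤ := by
      rw [Ideal.mul_sup, hq, Ideal.mul_top, mul_comm 𝔟 𝔮, sup_comm]
      exact hgsup
    exact mul_left_cancel₀ h𝔟 this
  have hex : ∀ α ∈ 𝔟, ∃ a : 𝓞 K, α - a * g ∈ 𝔮 * 𝔟 := by
    intro α hα
    rw [← hgsup] at hα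
    obtain ⟨x, hx, y, hy, hxy⟩ := Submodule.mem_sup.mp hα
    obtain ⟨a, rfl⟩ := Ideal.mem_span_singleton'.mp hy
    refine ⟨a, ?_⟩
    rw [← hxy, add_sub_cancel_right]
    exact hx
  refine ⟨g, fun α => if h : ∃ a : 𝓞 K, α - a * g ∈ 𝔮 * 𝔟 then Ideal.Quotient.mk 𝔮 h.choose else 0,
    hgb, hg0, hcop, ?_⟩
  intro α hα a
  have h := hex α hα
  simp only [h, dif_pos]
  have hs := h.choose_spec
  rw [Ideal.Quotient.eq]
  constructor
  · intro h1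
    have e : α - a * g = (α - h.choose * g) + (h.choose - a) * g := by ring
    rw [e]
    exact Ideal.add_mem _ hs (Ideal.mul_mem_mul h1 hgb)
  · intro h1
    apply RES_mem_of_mul_mem h𝔟 hgb hg0 hcop
    have e : (h.choose - a) * g = (α - a * g) - (α - h.choose * g) := by ring
    rw [e]
    exact Ideal.sub_mem _ h1 hs

theorem tw_norm {𝔮 : Ideal (𝓞 K)} {κ : InfinitePlace K → ℤ} {lam : InfinitePlace K → ℝ}
    {χ : MulChar (𝓞 K ⧸ 𝔮) ℂ} {ψ : Ideal (𝓞 K) →* ℂ} (hψ : IsHecke 𝔮 κ lam χ ψ)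
    {𝔟 : Ideal (𝓞 K)} {g : 𝓞 K} (hg0 : g ≠ 0) (hgc : IsCoprime (quo 𝔟 g) 𝔮) :
    ‖tw κ lam ψ 𝔟 g‖ = 1 := by
  have h0 : (g : K) ≠ 0 := by simpa using hg0
  rw [tw, norm_mul, norm_inv, hψ.norm_eq_one _ hgc, psiInf_norm κ lam h0]
  simp

omit [NumberField K] in
theorem RES_isUnit_iff {𝔮 : Ideal (𝓞 K)} (a : 𝓞 K) :
    IsUnit (Ideal.Quotient.mk 𝔮 a) ↔ IsCoprime (Ideal.span {a}) 𝔮 := by
  rw [Ideal.isCoprime_iff_exists]
  constructor
  · intro h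
    obtain ⟨b, hb⟩ := h.exists_right_inv
    obtain ⟨b, rfl⟩ := Ideal.Quotient.mk_surjective b
    rw [← map_mul, ← map_one (Ideal.Quotient.mk 𝔮), Ideal.Quotient.eq] at hb
    refine ⟨a * b, Ideal.mul_mem_right _ _ (Ideal.mem_span_singleton_self a), -(a * b - 1),
      Ideal.neg_mem_iff _ |>.mpr hb, by ring⟩
  · rintro ⟨i, hi, j, hj, hij⟩
    obtain ⟨b, rfl⟩ := Ideal.mem_span_singleton'.mp hi
    apply IsUnit.of_mul_eq_one (Ideal.Quotient.mk 𝔮 b)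
    rw [← map_mul, ← map_one (Ideal.Quotient.mk 𝔮), Ideal.Quotient.eq]
    have : a * b - 1 = -j := by rw [← hij]; ring
    rw [this]
    exact Ideal.neg_mem_iff _ |>.mpr hj

theorem tw_eq {𝔮 : Ideal (𝓞 K)} (h𝔮 : 𝔮 ≠ ⊥) {κ : InfinitePlace K → ℤ}
    {lam : InfinitePlace K → ℝ}
    {χ : MulChar (𝓞 K ⧸ 𝔮) ℂ} {ψ : Ideal (𝓞 K) →* ℂ} (hψ : IsHecke 𝔮 κ lam χ ψ)
    {𝔟 : Ideal (𝓞 K)} (h𝔟 : 𝔟 ≠ ⊥) {g α a : 𝓞 K} (hg : g ∈ 𝔟) (hg0 : g ≠ 0)
    (hgc : IsCoprime (quo 𝔟 g) 𝔮) (hα : α ∈ 𝔟) (hα0 : α ≠ 0) (h : α - a * g ∈ 𝔮 * 𝔟) :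
    tw κ lam ψ 𝔟 α = χ (Ideal.Quotient.mk 𝔮 a) * tw κ lam ψ 𝔟 g := by
  classical
  have hqg := quo_spec hg hg0
  have hqα := quo_spec hα hα0
  -- quo α ⊔ 𝔮 = a quo g ⊔ 𝔮
  have hsup : quo 𝔟 α ⊔ 𝔮 = Ideal.span {a} * quo 𝔟 g ⊔ 𝔮 := by
    apply mul_left_cancel₀ h𝔟
    rw [Ideal.mul_sup, Ideal.mul_sup, hqα]
    have e : 𝔟 * (Ideal.span {a} * quo 𝔟 g) = Ideal.span {a * g} := by
      rw [← Ideal.span_singleton_mul_span_singleton, ← hqg]
      ring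
    rw [e, mul_comm 𝔟 𝔮]
    apply le_antisymm
    · apply sup_le _ le_sup_right
      rw [Ideal.span_singleton_le_iff_mem]
      have : α = a * g + (α - a * g) := by ring
      rw [this]
      exact Ideal.add_mem _ (Ideal.mem_sup_left (Ideal.mem_span_singleton_self _))
        (Ideal.mem_sup_right h)
    · apply sup_le _ le_sup_right
      rw [Ideal.span_singleton_le_iff_mem]
      have : a * g = α - (α - a * g) := by ring
      rw [this]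
      exact Ideal.sub_mem _ (Ideal.mem_sup_left (Ideal.mem_span_singleton_self _))
        (Ideal.mem_sup_right h)
  by_cases hu : IsUnit (Ideal.Quotient.mk 𝔮 a)
  · have hac : IsCoprime (Ideal.span {a}) 𝔮 := (RES_isUnit_iff a).mp hu
    have hαc : IsCoprime (quo 𝔟 α) 𝔮 := by
      rw [Ideal.isCoprime_iff_sup_eq, hsup, ← Ideal.isCoprime_iff_sup_eq]
      exact hac.mul_left hgc
    -- the auxiliary ideal
    have hcg0 : quo 𝔟 g ≠ ⊥ := by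
      intro h0
      rw [h0, Ideal.mul_bot] at hqg
      exact hg0 (Ideal.span_singleton_eq_bot.mp hqg.symm)
    obtain ⟨j, τ, hj0, hjc, hj⟩ : ∃ (j : Ideal (𝓞 K)) (τ : 𝓞 K), j ≠ ⊥ ∧ IsCoprime j 𝔮 ∧
        quo 𝔟 g * j = Ideal.span {τ} := by
      have hn : 0 < Fintype.card (ClassGroup (𝓞 K)) := Fintype.card_pos
      have h1 : (quo 𝔟 g ^ Fintype.card (ClassGroup (𝓞 K))).IsPrincipal := by
        rw [← ClassGroup.mk0_eq_one_iff
          (pow_mem (mem_nonZeroDivisors_of_ne_zero hcg0) _)]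
        have := pow_card_eq_one (x := ClassGroup.mk0
          ⟨quo 𝔟 g, mem_nonZeroDivisors_of_ne_zero hcg0⟩)
        rw [← map_pow] at this
        exact this
      obtain ⟨τ, hτ⟩ := h1
      refine ⟨quo 𝔟 g ^ (Fintype.card (ClassGroup (𝓞 K)) - 1), τ, pow_ne_zero _ hcg0,
        hgc.pow_left, ?_⟩
      rw [← pow_succ', Nat.sub_add_cancel hn, hτ]
    have hτ0 : τ ≠ 0 := by
      intro h0
      rw [h0, Ideal.span_singleton_eq_bot.mpr rfl] at hj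
      exact (mul_ne_zero (M₀ := Ideal (𝓞 K)) hcg0 hj0) hj
    -- σ
    have hσ1 : Ideal.span {g} * (quo 𝔟 α * j) = Ideal.span {α * τ} := by
      rw [← Ideal.span_singleton_mul_span_singleton, ← hj, ← hqα, ← hqg]
      ring
    obtain ⟨σ, hσ⟩ : g ∣ α * τ := by
      rw [← Ideal.span_singleton_le_span_singleton, ← hσ1]
      exact Ideal.mul_le_left (I := Ideal.span {g}) (J := quo 𝔟 α * j)
    have hσ2 : quo 𝔟 α * j = Ideal.span {σ} := by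
      have hg' : Ideal.span {g} ≠ (⊥ : Ideal (𝓞 K)) := by
        intro h0
        exact hg0 (Ideal.span_singleton_eq_bot.mp h0)
      apply mul_left_cancel₀ (M₀ := Ideal (𝓞 K)) hg'
      rw [hσ1, hσ, Ideal.span_singleton_mul_span_singleton]
    have hσ0 : σ ≠ 0 := by
      intro h0
      rw [h0, mul_zero] at hσ
      exact (mul_ne_zero hα0 hτ0) hσ
    have hτu : IsUnit (Ideal.Quotient.mk 𝔮 τ) := by
      rw [RES_isUnit_iff, ← hj]
      exact hgc.mul_left hjc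
    have hσu : IsUnit (Ideal.Quotient.mk 𝔮 σ) := by
      rw [RES_isUnit_iff, ← hσ2]
      exact hαc.mul_left hjc
    have hψτ := hψ.principal τ hτu
    have hψσ := hψ.principal σ hσu
    rw [← hj, map_mul] at hψτ
    rw [← hσ2, map_mul] at hψσ
    -- χ σ = χ a χ τ
    have hχ : Ideal.Quotient.mk 𝔮 σ = Ideal.Quotient.mk 𝔮 a * Ideal.Quotient.mk 𝔮 τ := by
      rw [← map_mul, Ideal.Quotient.eq]
      have h2 : (σ - a * τ) * g = (α - a * g) * τ := by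
        have : σ * g = α * τ := by rw [hσ]; ring
        linear_combination this
      have h3 : Ideal.span {g} * 𝔮 ∣ Ideal.span {g} * Ideal.span {σ - a * τ} := by
        rw [Ideal.span_singleton_mul_span_singleton, mul_comm g, h2,
          ← Ideal.span_singleton_mul_span_singleton, ← hj]
        have h4 : 𝔮 * 𝔟 ∣ Ideal.span {α - a * g} := Ideal.dvd_span_singleton.mpr h
        obtain ⟨X, hX⟩ := h4
        rw [hX, ← hqg]
        exact ⟨X * j, by ring⟩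
      have hg' : Ideal.span {g} ≠ (⊥ : Ideal (𝓞 K)) := by
        intro h0
        exact hg0 (Ideal.span_singleton_eq_bot.mp h0)
      exact Ideal.dvd_span_singleton.mp ((mul_dvd_mul_iff_left hg').mp h3)
    -- psiInf
    have hgK : (g : K) ≠ 0 := by simpa using hg0
    have hαK : (α : K) ≠ 0 := by simpa using hα0
    have hσK : (σ : K) ≠ 0 := by simpa using hσ0
    have hτK : (τ : K) ≠ 0 := by simpa using hτ0
    have hinf : psiInf κ lam (α : K) * psiInf κ lam (τ : K) =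
        psiInf κ lam (g : K) * psiInf κ lam (σ : K) := by
      rw [← psiInf_mul κ lam hαK hτK, ← psiInf_mul κ lam hgK hσK]
      congr 1
      have := congrArg (fun z : 𝓞 K => (z : K)) hσ
      simpa using this
    have hne : ∀ {z : K}, z ≠ 0 → psiInf κ lam z ≠ 0 := by
      intro z hz h0
      have := psiInf_norm κ lam hz
      rw [h0] at this
      simp at this
    have hψj : ψ j ≠ 0 := by
      intro h0
      have := hψ.norm_eq_one j hjc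
      rw [h0] at this
      simp at this
    rw [hχ, map_mul] at hψσ
    rw [tw, tw]
    have e1 := hne hgK
    have e2 := hne hαK
    have e3 := hne hσK
    have e4 := hne hτK
    have key : ψ (quo 𝔟 α) * psiInf κ lam (g : K) * ψ j =
        χ (Ideal.Quotient.mk 𝔮 a) * ψ (quo 𝔟 g) * psiInf κ lam (α : K) * ψ j := by
      have h5 : ψ (quo 𝔟 α) * psiInf κ lam (g : K) * ψ j =
          (ψ (quo 𝔟 α) * ψ j) * psiInf κ lam (g : K) := by ring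
      have h6 : χ (Ideal.Quotient.mk 𝔮 a) * ψ (quo 𝔟 g) * psiInf κ lam (α : K) * ψ j =
          χ (Ideal.Quotient.mk 𝔮 a) * (ψ (quo 𝔟 g) * ψ j) * psiInf κ lam (α : K) := by ring
      rw [h5, h6, hψσ, hψτ]
      linear_combination (-(χ (Ideal.Quotient.mk 𝔮 a) * χ (Ideal.Quotient.mk 𝔮 τ))) * hinf
    have key2 := mul_right_cancel₀ hψj key
    field_simp
    linear_combination key2
  · have h1 : ¬ IsCoprime (quo 𝔟 α) 𝔮 := by
      intro h2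
      apply hu
      rw [RES_isUnit_iff]
      rw [Ideal.isCoprime_iff_sup_eq, hsup, ← Ideal.isCoprime_iff_sup_eq] at h2
      exact h2.of_mul_left_left
    rw [MulChar.map_nonunit χ hu, tw, hψ.eq_zero _ h1]
    simp

end Pool.Agent.HZ
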