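import Pool.Agent.Lib_helper41.HZF.Defs
import Pool.Agent.Lib_helper41.HZF.INF
import Pool.Agent.Lib_helper41.HZF.RES
import Pool.Agent.Lib_helper41.HZF.UNF2

namespace Pool.Agent.HZ

open NumberField NumberField.InfinitePlace NumberField.Units Complex MeasureTheory Filter Topology

variable {K : Type} [Field K] [NumberField K]

/-- the additive character `x ↦ e(Tr x / N)` -/
noncomputable def gau_e (N : ℕ) (x : 𝓞 K) : ℂ :=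
  ee (((Algebra.trace ℚ K (x : K) : ℚ) : ℝ) / N)

theorem gau_ee_add (x y : ℝ) : ee (x + y) = ee x * ee y := by
  unfold ee
  rw [← Complex.exp_add]
  congr 1
  push_cast
  ring

theorem gau_ee_int (n : ℤ) : ee (n : ℝ) = 1 := by
  unfold ee
  rw [Complex.exp_eq_one_iff]
  exact ⟨n, by push_cast; ring⟩

theorem gau_e_add (N : ℕ) (x y : 𝓞 K) : gau_e N (x + y) = gau_e N x * gau_e N y := by
  unfold gau_e
  rw [← gau_ee_add]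
  congr 1
  push_cast
  rw [map_add]
  push_cast
  ring

/-- the trace is integral on `𝔮 𝔪 / N`. -/
theorem gau_e_one {I : Ideal (𝓞 K)} {N : ℕ} (hN : 0 < N)
    (hI : I * differentIdeal ℤ (𝓞 K) = Ideal.span {(N : 𝓞 K)}) {x : 𝓞 K} (hx : x ∈ I) :
    gau_e N x = 1 := by
  have hNK : ((N : ℕ) : K) ≠ 0 := by exact_mod_cast hN.ne'
  have hD : (differentIdeal ℤ (𝓞 K)) ≠ ⊥ := differentIdeal_ne_bot
  have hd := coeIdeal_differentIdeal ℤ ℚ K (𝓞 K)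
  have hd' : FractionalIdeal.dual ℤ ℚ (1 : FractionalIdeal (nonZeroDivisors (𝓞 K)) K) =
      ((differentIdeal ℤ (𝓞 K) : Ideal (𝓞 K)) :
        FractionalIdeal (nonZeroDivisors (𝓞 K)) K)⁻¹ := by
    rw [hd, inv_inv]
  have h0 : ((differentIdeal ℤ (𝓞 K) : Ideal (𝓞 K)) :
        FractionalIdeal (nonZeroDivisors (𝓞 K)) K) ≠ 0 := by
    rw [Ne, FractionalIdeal.coeIdeal_eq_zero]
    exact hD
  have hX : (x : K) / N ∈ FractionalIdeal.dual ℤ ℚ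
      (1 : FractionalIdeal (nonZeroDivisors (𝓞 K)) K) := by
    rw [hd', FractionalIdeal.mem_inv_iff h0]
    intro y hy
    rw [FractionalIdeal.mem_coeIdeal] at hy
    obtain ⟨d, hd1, rfl⟩ := hy
    have hxd : x * d ∈ Ideal.span {(N : 𝓞 K)} := by
      rw [← hI]; exact Ideal.mul_mem_mul hx hd1
    rw [Ideal.mem_span_singleton'] at hxd
    obtain ⟨r, hr⟩ := hxd
    rw [FractionalIdeal.mem_one_iff]
    refine ⟨r, ?_⟩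
    have h1 : (x : K) * (d : K) = (r : K) * (N : K) := by
      have := congrArg (fun z : 𝓞 K => (z : K)) hr
      push_cast at this
      rw [this]
    change (r : K) = (x : K) / N * (d : K)
    field_simp
    rw [← h1]
  have h10 : (1 : FractionalIdeal (nonZeroDivisors (𝓞 K)) K) ≠ 0 := one_ne_zero
  rw [FractionalIdeal.mem_dual h10] at hX
  have h1 := hX 1 (FractionalIdeal.one_mem_one _)
  rw [Algebra.traceForm_apply, mul_one] at h1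
  obtain ⟨n, hn⟩ := h1
  have h2 : Algebra.trace ℚ K ((x : K) / N) = Algebra.trace ℚ K (x : K) / N := by
    have : (x : K) / N = ((N : ℚ)⁻¹) • (x : K) := by
      rw [Algebra.smul_def]
      simp [div_eq_mul_inv, mul_comm]
    rw [this, map_smul, smul_eq_mul, div_eq_mul_inv, mul_comm]
  rw [h2] at hn
  unfold gau_e
  have h3 : (((Algebra.trace ℚ K (x : K) : ℚ) : ℝ) / N) = ((n : ℤ) : ℝ) := by
    have : (((Algebra.trace ℚ K (x : K) / N : ℚ)) : ℝ) = (((n : ℤ) : ℚ) : ℝ) := by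
      rw [← hn]; rfl
    push_cast at this
    exact this
  rw [h3, gau_ee_int]

theorem gau_e_congr {I : Ideal (𝓞 K)} {N : ℕ} (hN : 0 < N)
    (hI : I * differentIdeal ℤ (𝓞 K) = Ideal.span {(N : 𝓞 K)}) {x y : 𝓞 K} (hxy : x - y ∈ I) :
    gau_e N x = gau_e N y := by
  have : x = y + (x - y) := by ring
  rw [this, gau_e_add, gau_e_one hN hI hxy, mul_one]

/-- the multiplicative shift -/
theorem gau_shift {𝔮 𝔪 : Ideal (𝓞 K)} (h𝔮' : 𝔮 ≠ ⊤)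
    {χ : MulChar (𝓞 K ⧸ 𝔮) ℂ} (hχ : IsPrim 𝔮 χ) {N : ℕ} (hN : 0 < N)
    (hI : 𝔮 * 𝔪 * differentIdeal ℤ (𝓞 K) = Ideal.span {(N : 𝓞 K)})
    [Fintype (𝓞 K ⧸ 𝔮)] {γ : 𝓞 K} (hγ : γ ∈ 𝔪) (c : 𝓞 K) :
    ∑ a : 𝓞 K ⧸ 𝔮, χ a * gau_e N (Quotient.out a * c * γ) =
      starRingEnd ℂ (χ (Ideal.Quotient.mk 𝔮 c)) *
        ∑ a : 𝓞 K ⧸ 𝔮, χ a * gau_e N (Quotient.out a * γ) := by
  classical
  -- E depends only on the class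
  set E : (𝓞 K ⧸ 𝔮) → ℂ := fun a => gau_e N (Quotient.out a * γ) with hE
  have hout : ∀ a : 𝓞 K ⧸ 𝔮, Ideal.Quotient.mk 𝔮 (Quotient.out a) = a := fun a =>
    Quotient.out_eq a
  have hEmk : ∀ x : 𝓞 K, E (Ideal.Quotient.mk 𝔮 x) = gau_e N (x * γ) := by
    intro x
    apply gau_e_congr hN hI
    have : Quotient.out (Ideal.Quotient.mk 𝔮 x) * γ - x * γ =
        (Quotient.out (Ideal.Quotient.mk 𝔮 x) - x) * γ := by ring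
    rw [this]
    apply Ideal.mul_mem_mul _ hγ
    rw [← Ideal.Quotient.eq, hout]
  have hL : ∀ a : 𝓞 K ⧸ 𝔮, gau_e N (Quotient.out a * c * γ) =
      E (a * Ideal.Quotient.mk 𝔮 c) := by
    intro a
    conv_rhs => rw [← hout a]
    rw [← map_mul, hEmk]
  simp_rw [hL]
  have hnt : Nontrivial (𝓞 K ⧸ 𝔮) := Ideal.Quotient.nontrivial_iff.mpr h𝔮'
  by_cases hc : IsUnit (Ideal.Quotient.mk 𝔮 c)
  · obtain ⟨v, hv⟩ := hc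
    rw [← hv]
    have h1 : ∑ a : 𝓞 K ⧸ 𝔮, χ a * E (a * (v : 𝓞 K ⧸ 𝔮)) =
        ∑ a : 𝓞 K ⧸ 𝔮, χ (a * ((v⁻¹ : (𝓞 K ⧸ 𝔮)ˣ) : 𝓞 K ⧸ 𝔮)) * E a := by
      refine Fintype.sum_equiv (Units.mulRight v) _ _ ?_
      intro a
      simp [Units.mulRight]
    rw [h1]
    simp_rw [map_mul]
    have h2 : χ (((v⁻¹ : (𝓞 K ⧸ 𝔮)ˣ) : 𝓞 K ⧸ 𝔮)) = starRingEnd ℂ (χ (v : 𝓞 K ⧸ 𝔮)) := by
      have h3 := MulChar.star_apply' χ (v : 𝓞 K ⧸ 𝔮)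
      rw [MulChar.inv_apply_eq_inv'] at h3
      have h4 : χ (((v⁻¹ : (𝓞 K ⧸ 𝔮)ˣ) : 𝓞 K ⧸ 𝔮)) * χ (v : 𝓞 K ⧸ 𝔮) = 1 := by
        rw [← map_mul, Units.inv_mul, map_one]
      have h5 : (starRingEnd ℂ) (χ (v : 𝓞 K ⧸ 𝔮)) = (χ (v : 𝓞 K ⧸ 𝔮))⁻¹ := h3
      rw [h5]
      exact eq_inv_of_mul_eq_one_left h4
    rw [h2, Finset.mul_sum]
    exact Finset.sum_congr rfl fun a _ => by ring
  · rw [MulChar.map_nonunit χ hc, map_zero, zero_mul]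
    -- the colon ideal
    set J : Ideal (𝓞 K) := Submodule.comap (LinearMap.mulRight (𝓞 K) c) 𝔮 with hJ
    have hJmem : ∀ r : 𝓞 K, r ∈ J ↔ r * c ∈ 𝔮 := fun r => Iff.rfl
    have hlt : 𝔮 < J := by
      rw [lt_iff_le_and_ne]
      refine ⟨fun r hr => (hJmem r).mpr (𝔮.mul_mem_right c hr), ?_⟩
      intro heq
      apply hc
      have hinj : Function.Injective (fun a : 𝓞 K ⧸ 𝔮 => a * Ideal.Quotient.mk 𝔮 c) := by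
        intro a₁ a₂ ha
        rw [← sub_eq_zero]
        set a := a₁ - a₂ with ha12
        have ha' : a * Ideal.Quotient.mk 𝔮 c = 0 := by
          rw [ha12, sub_mul]
          exact sub_eq_zero.mpr ha
        rw [← hout a, ← map_mul, Ideal.Quotient.eq_zero_iff_mem, ← hJmem, ← heq] at ha'
        rw [← hout a, Ideal.Quotient.eq_zero_iff_mem]
        exact ha'
      have hsurj := Finite.surjective_of_injective hinj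
      obtain ⟨b, hb⟩ := hsurj 1
      exact IsUnit.of_mul_eq_one_right b hb
    obtain ⟨α, hα1, hα2, hα3⟩ := hχ J hlt
    have hαc : Ideal.Quotient.mk 𝔮 α * Ideal.Quotient.mk 𝔮 c = Ideal.Quotient.mk 𝔮 c := by
      rw [← map_mul, Ideal.Quotient.eq]
      have : α * c - c = (α - 1) * c := by ring
      rw [this]
      exact (hJmem _).mp hα1
    obtain ⟨v, hv⟩ := hα2
    have h1 : ∑ a : 𝓞 K ⧸ 𝔮, χ a * E (a * Ideal.Quotient.mk 𝔮 c) =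
        ∑ a : 𝓞 K ⧸ 𝔮, χ (a * (v : 𝓞 K ⧸ 𝔮)) * E (a * Ideal.Quotient.mk 𝔮 c) := by
      symm
      refine Fintype.sum_equiv (Units.mulRight v) _ _ ?_
      intro a
      simp only [Units.mulRight_apply]
      congr 2
      rw [mul_assoc, hv, hαc]
    simp_rw [map_mul, hv] at h1
    have h2 : ∑ a : 𝓞 K ⧸ 𝔮, χ a * E (a * Ideal.Quotient.mk 𝔮 c) =
        χ (Ideal.Quotient.mk 𝔮 α) * ∑ a : 𝓞 K ⧸ 𝔮, χ a * E (a * Ideal.Quotient.mk 𝔮 c) := by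
      conv_lhs => rw [h1]
      rw [Finset.mul_sum]
      exact Finset.sum_congr rfl fun a _ => by ring
    have h3 : (1 - χ (Ideal.Quotient.mk 𝔮 α)) *
        ∑ a : 𝓞 K ⧸ 𝔮, χ a * E (a * Ideal.Quotient.mk 𝔮 c) = 0 := by
      rw [sub_mul, one_mul, ← h2, sub_self]
    rcases mul_eq_zero.mp h3 with h | h
    · exact absurd (sub_eq_zero.mp h).symm hα3
    · exact h

theorem gau_quo_mul {𝔟 𝔟' : Ideal (𝓞 K)} {g g' : 𝓞 K} (hg : g ∈ 𝔟) (hg0 : g ≠ 0)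
    (hg' : g' ∈ 𝔟') (hg0' : g' ≠ 0) :
    quo (𝔟 * 𝔟') (g * g') = quo 𝔟 g * quo 𝔟' g' := by
  have h1 := quo_spec hg hg0
  have h2 := quo_spec hg' hg0'
  have h3 := quo_spec (Ideal.mul_mem_mul hg hg') (mul_ne_zero hg0 hg0')
  have hb : 𝔟 ≠ ⊥ := by rintro rfl; exact hg0 (by simpa using hg)
  have hb' : 𝔟' ≠ ⊥ := by rintro rfl; exact hg0' (by simpa using hg')
  have h4 : 𝔟 * 𝔟' ≠ 0 := mul_ne_zero hb hb'
  apply mul_left_cancel₀ h4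
  rw [h3, ← Ideal.span_singleton_mul_span_singleton, ← h1, ← h2]
  ring

theorem gau_tw_mul (κ : InfinitePlace K → ℤ) (lam : InfinitePlace K → ℝ) (ψ : Ideal (𝓞 K) →* ℂ)
    {𝔟 𝔟' : Ideal (𝓞 K)} {g g' : 𝓞 K} (hg : g ∈ 𝔟) (hg0 : g ≠ 0)
    (hg' : g' ∈ 𝔟') (hg0' : g' ≠ 0) :
    tw κ lam ψ (𝔟 * 𝔟') (g * g') = tw κ lam ψ 𝔟 g * tw κ lam ψ 𝔟' g' := by
  unfold tw
  rw [gau_quo_mul hg hg0 hg' hg0', map_mul]
  have h1 : ((g : 𝓞 K) : K) ≠ 0 := by simpa using hg0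
  have h2 : ((g' : 𝓞 K) : K) ≠ 0 := by simpa using hg0'
  have h3 : ((g * g' : 𝓞 K) : K) = (g : K) * (g' : K) := by push_cast; rfl
  rw [h3, psiInf_mul κ lam h1 h2, mul_inv]
  ring

theorem gau_tw_zero {𝔮 : Ideal (𝓞 K)} (h𝔮' : 𝔮 ≠ ⊤)
    {κ : InfinitePlace K → ℤ} {lam : InfinitePlace K → ℝ}
    {χ : MulChar (𝓞 K ⧸ 𝔮) ℂ} {ψ : Ideal (𝓞 K) →* ℂ}
    (hψ : IsHecke 𝔮 κ lam χ ψ) (𝔟 : Ideal (𝓞 K)) : tw κ lam ψ 𝔟 0 = 0 := by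
  unfold tw
  have h1 : quo 𝔟 (0 : 𝓞 K) = ⊥ := by
    unfold quo
    rw [dif_neg]
    simp
  rw [h1, hψ.eq_zero ⊥, zero_mul]
  rw [Ideal.isCoprime_iff_sup_eq]
  simpa using h𝔮'

theorem gauss {𝔮 : Ideal (𝓞 K)} (h𝔮 : 𝔮 ≠ ⊥) (h𝔮' : 𝔮 ≠ ⊤) {κ : InfinitePlace K → ℤ}
    {lam : InfinitePlace K → ℝ} {χ : MulChar (𝓞 K ⧸ 𝔮) ℂ} (hχ : IsPrim 𝔮 χ)
    {ψ : Ideal (𝓞 K) →* ℂ} (hψ : IsHecke 𝔮 κ lam χ ψ) {N : ℕ} (hN : 0 < N)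
    [Fintype (𝓞 K ⧸ 𝔮)] :
    ∃ W : ℂ, ∀ (𝔟 𝔟' : Ideal (𝓞 K)), 𝔮 * 𝔟 * 𝔟' * differentIdeal ℤ (𝓞 K) = Ideal.span {(N : 𝓞 K)} →
      ∀ g ∈ 𝔟, g ≠ 0 → IsCoprime (quo 𝔟 g) 𝔮 → ∀ β ∈ 𝔟',
      ∑ a : 𝓞 K ⧸ 𝔮, χ a * tw κ lam ψ 𝔟 g *
        ee (((Algebra.trace ℚ K ((Quotient.out a * g * β : 𝓞 K) : K) : ℚ) : ℝ) / N) =
      W * starRingEnd ℂ (tw κ lam ψ 𝔟' β) := by
  classical
  have hD : (differentIdeal ℤ (𝓞 K)) ≠ ⊥ := differentIdeal_ne_bot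
  have hNs : Ideal.span {(N : 𝓞 K)} ≠ ⊥ := by
    rw [Ne, Ideal.span_singleton_eq_bot]
    exact_mod_cast hN.ne'
  have hnt : Nontrivial (𝓞 K ⧸ 𝔮) := Ideal.Quotient.nontrivial_iff.mpr h𝔮'
  by_cases hex : ∃ 𝔪 : Ideal (𝓞 K), 𝔮 * 𝔪 * differentIdeal ℤ (𝓞 K) = Ideal.span {(N : 𝓞 K)}
  swap
  · refine ⟨0, fun 𝔟 𝔟' h => ?_⟩
    exact absurd ⟨𝔟 * 𝔟', by rw [← h]; ring⟩ hex
  obtain ⟨𝔪, h𝔪⟩ := hex
  have h𝔪0 : 𝔪 ≠ ⊥ := by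
    rintro rfl
    apply hNs
    rw [← h𝔪]; simp
  obtain ⟨γ₀, ρ₀, hγ₀, hγ₀0, hγ₀c, hρ₀⟩ := exists_res h𝔮 h𝔪0
  refine ⟨tw κ lam ψ 𝔪 γ₀ * ∑ a : 𝓞 K ⧸ 𝔮, χ a * gau_e N (Quotient.out a * γ₀), ?_⟩
  intro 𝔟 𝔟' hbb g hg hg0 hgc β hβ
  have hmm : 𝔟 * 𝔟' = 𝔪 := by
    have h1 : 𝔮 * (𝔟 * 𝔟') * differentIdeal ℤ (𝓞 K) = 𝔮 * 𝔪 * differentIdeal ℤ (𝓞 K) := by
      rw [h𝔪, ← hbb]; ring
    have h2 := mul_right_cancel₀ (show differentIdeal ℤ (𝓞 K) ≠ 0 from hD) h1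
    exact mul_left_cancel₀ (show 𝔮 ≠ 0 from h𝔮) h2
  have hb' : 𝔟' ≠ ⊥ := by
    rintro rfl
    apply h𝔪0
    rw [← hmm]; simp
  obtain ⟨g', ρ', hg', hg0', hgc', hρ'⟩ := exists_res h𝔮 hb'
  set γ : 𝓞 K := g * g' with hγdef
  have hγ : γ ∈ 𝔪 := by rw [← hmm]; exact Ideal.mul_mem_mul hg hg'
  have hγ0 : γ ≠ 0 := mul_ne_zero hg0 hg0'
  have hγc : IsCoprime (quo 𝔪 γ) 𝔮 := by
    rw [← hmm, hγdef, gau_quo_mul hg hg0 hg' hg0']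
    exact hgc.mul_left hgc'
  -- the class of β
  obtain ⟨c, hc⟩ := Ideal.Quotient.mk_surjective (ρ' β)
  have hβc : β - c * g' ∈ 𝔮 * 𝔟' := (hρ' β hβ c).mp hc.symm
  have hstep1 : ∀ a : 𝓞 K ⧸ 𝔮, gau_e N (Quotient.out a * g * β) =
      gau_e N (Quotient.out a * c * γ) := by
    intro a
    apply gau_e_congr hN h𝔪
    have : Quotient.out a * g * β - Quotient.out a * c * γ =
        Quotient.out a * (g * (β - c * g')) := by rw [hγdef]; ring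
    rw [this]
    apply Ideal.mul_mem_left
    have h1 := Ideal.mul_mem_mul hg hβc
    have h2 : 𝔟 * (𝔮 * 𝔟') = 𝔮 * 𝔪 := by rw [← hmm]; ring
    rwa [h2] at h1
  have hLHS : ∑ a : 𝓞 K ⧸ 𝔮, χ a * tw κ lam ψ 𝔟 g *
        ee (((Algebra.trace ℚ K ((Quotient.out a * g * β : 𝓞 K) : K) : ℚ) : ℝ) / N) =
      tw κ lam ψ 𝔟 g * (starRingEnd ℂ (χ (Ideal.Quotient.mk 𝔮 c)) *
        ∑ a : 𝓞 K ⧸ 𝔮, χ a * gau_e N (Quotient.out a * γ)) := by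
    rw [← gau_shift h𝔮' hχ hN h𝔪 hγ c, Finset.mul_sum]
    refine Finset.sum_congr rfl fun a _ => ?_
    rw [← hstep1 a]
    unfold gau_e
    ring
  rw [hLHS]
  -- change of generator
  obtain ⟨c₀, hc₀⟩ := Ideal.Quotient.mk_surjective (ρ₀ γ)
  have hγc₀ : γ - c₀ * γ₀ ∈ 𝔮 * 𝔪 := (hρ₀ γ hγ c₀).mp hc₀.symm
  have htwγ : tw κ lam ψ 𝔪 γ = χ (Ideal.Quotient.mk 𝔮 c₀) * tw κ lam ψ 𝔪 γ₀ :=
    tw_eq h𝔮 hψ h𝔪0 hγ₀ hγ₀0 hγ₀c hγ hγ0 hγc₀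
  have hsumγ : ∑ a : 𝓞 K ⧸ 𝔮, χ a * gau_e N (Quotient.out a * γ) =
      starRingEnd ℂ (χ (Ideal.Quotient.mk 𝔮 c₀)) *
        ∑ a : 𝓞 K ⧸ 𝔮, χ a * gau_e N (Quotient.out a * γ₀) := by
    rw [← gau_shift h𝔮' hχ hN h𝔪 hγ₀ c₀]
    refine Finset.sum_congr rfl fun a _ => ?_
    congr 1
    apply gau_e_congr hN h𝔪
    have : Quotient.out a * γ - Quotient.out a * c₀ * γ₀ =
        Quotient.out a * (γ - c₀ * γ₀) := by ring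
    rw [this]
    exact Ideal.mul_mem_left _ _ hγc₀
  have hn1 : ‖tw κ lam ψ 𝔪 γ‖ = 1 := tw_norm hψ hγ0 hγc
  have hn2 : ‖tw κ lam ψ 𝔪 γ₀‖ = 1 := tw_norm hψ hγ₀0 hγ₀c
  have hn3 : ‖χ (Ideal.Quotient.mk 𝔮 c₀)‖ = 1 := by
    rw [htwγ, norm_mul, hn2, mul_one] at hn1; exact hn1
  have hn4 : ‖tw κ lam ψ 𝔟' g'‖ = 1 := tw_norm hψ hg0' hgc'
  have hcc : χ (Ideal.Quotient.mk 𝔮 c₀) * starRingEnd ℂ (χ (Ideal.Quotient.mk 𝔮 c₀)) = 1 := by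
    rw [Complex.mul_conj, Complex.normSq_eq_norm_sq, hn3]; simp
  have hgg : tw κ lam ψ 𝔟' g' * starRingEnd ℂ (tw κ lam ψ 𝔟' g') = 1 := by
    rw [Complex.mul_conj, Complex.normSq_eq_norm_sq, hn4]; simp
  -- the twist of β
  have hβtw : tw κ lam ψ 𝔟' β = χ (Ideal.Quotient.mk 𝔮 c) * tw κ lam ψ 𝔟' g' := by
    by_cases hβ0 : β = 0
    · subst hβ0
      rw [gau_tw_zero h𝔮' hψ]
      have h1 : ρ' 0 = Ideal.Quotient.mk 𝔮 0 := (hρ' 0 hβ 0).mpr (by simp)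
      rw [hc, h1, map_zero, MulChar.map_zero, zero_mul]
    · exact tw_eq h𝔮 hψ hb' hg' hg0' hgc' hβ hβ0 hβc
  have htwγ2 : tw κ lam ψ 𝔪 γ = tw κ lam ψ 𝔟 g * tw κ lam ψ 𝔟' g' := by
    rw [← hmm, hγdef, gau_tw_mul κ lam ψ hg hg0 hg' hg0']
  rw [hsumγ, hβtw, map_mul]
  set X := ∑ a : 𝓞 K ⧸ 𝔮, χ a * gau_e N (Quotient.out a * γ₀) with hX
  set cc := starRingEnd ℂ (χ (Ideal.Quotient.mk 𝔮 c)) with hccdef
  have e1 : tw κ lam ψ 𝔟 g = tw κ lam ψ 𝔪 γ * starRingEnd ℂ (tw κ lam ψ 𝔟' g') := by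
    rw [htwγ2, mul_assoc, hgg, mul_one]
  rw [e1, htwγ]
  calc χ (Ideal.Quotient.mk 𝔮 c₀) * tw κ lam ψ 𝔪 γ₀ * starRingEnd ℂ (tw κ lam ψ 𝔟' g') *
        (cc * (starRingEnd ℂ (χ (Ideal.Quotient.mk 𝔮 c₀)) * X))
      = (χ (Ideal.Quotient.mk 𝔮 c₀) * starRingEnd ℂ (χ (Ideal.Quotient.mk 𝔮 c₀))) *
        (tw κ lam ψ 𝔪 γ₀ * X * (cc * starRingEnd ℂ (tw κ lam ψ 𝔟' g'))) := by ring
    _ = _ := by rw [hcc, one_mul]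

end Pool.Agent.HZ
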