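import Pool.Agent.Lib_helper41.HZF.Defs
import Pool.Agent.Lib_helper41.HZF.YB

/-! Block LAT: lattice sums (helper85). -/

namespace Pool.Agent.HZ

open NumberField NumberField.InfinitePlace NumberField.Units Complex MeasureTheory Filter Topology

variable {K : Type} [Field K] [NumberField K]

/-! ### One dimensional sums -/

theorem lat_term_le {t : ℝ} (ht : 0 < t) (m : ℕ) :
    Real.exp (-(t ^ 2 * ((m : ℝ) + 1) ^ 2)) ≤
      2 / t * ((1 + t * m)⁻¹ - (1 + t * (m + 1))⁻¹) := by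
  have hm : (0 : ℝ) ≤ m := Nat.cast_nonneg m
  have h1 : Real.exp (-(t ^ 2 * ((m : ℝ) + 1) ^ 2)) ≤ (1 + t ^ 2 * ((m : ℝ) + 1) ^ 2)⁻¹ := by
    rw [Real.exp_neg]
    refine inv_anti₀ (by positivity) ?_
    have := Real.add_one_le_exp (t ^ 2 * ((m : ℝ) + 1) ^ 2)
    linarith
  refine h1.trans ?_
  have h2 : 2 / t * ((1 + t * m)⁻¹ - (1 + t * (m + 1))⁻¹) =
      2 / ((1 + t * m) * (1 + t * (m + 1))) := by
    have : (1 + t * m) ≠ 0 := by positivity
    have : (1 + t * (m + 1)) ≠ 0 := by positivity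
    field_simp
    ring
  rw [h2, ← one_div, div_le_div_iff₀ (by positivity) (by positivity)]
  nlinarith [mul_nonneg ht.le hm, sq_nonneg (1 - t * (m + 1)), sq_nonneg (t * m)]

theorem lat_sum_range {t : ℝ} (ht : 0 < t) (N : ℕ) :
    ∑ m ∈ Finset.range N, Real.exp (-(t ^ 2 * ((m : ℝ) + 1) ^ 2)) ≤ 2 / t := by
  have h1 : ∑ m ∈ Finset.range N, Real.exp (-(t ^ 2 * ((m : ℝ) + 1) ^ 2)) ≤
      ∑ m ∈ Finset.range N, 2 / t * ((1 + t * m)⁻¹ - (1 + t * (m + 1))⁻¹) :=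
    Finset.sum_le_sum fun m _ => lat_term_le ht m
  refine h1.trans ?_
  rw [← Finset.mul_sum]
  have h2 : ∑ m ∈ Finset.range N, ((1 + t * (m : ℝ))⁻¹ - (1 + t * ((m : ℝ) + 1))⁻¹) =
      1 - (1 + t * N)⁻¹ := by
    clear h1
    induction N with
    | zero => simp
    | succ n ih =>
      rw [Finset.sum_range_succ, ih]
      push_cast
      ring
  rw [h2]
  have h3 : 0 < (1 + t * (N : ℝ))⁻¹ := by positivity
  have h4 : 0 < 2 / t := by positivity
  nlinarith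

theorem lat_summable_nat {t : ℝ} (ht : 0 < t) :
    Summable (fun m : ℕ => Real.exp (-(t ^ 2 * ((m : ℝ) + 1) ^ 2))) :=
  summable_of_sum_range_le (fun _ => (Real.exp_pos _).le) (lat_sum_range ht)

theorem lat_tsum_nat {t : ℝ} (ht : 0 < t) :
    ∑' m : ℕ, Real.exp (-(t ^ 2 * ((m : ℝ) + 1) ^ 2)) ≤ 2 / t :=
  Real.tsum_le_of_sum_range_le (fun _ => (Real.exp_pos _).le) (lat_sum_range ht)

theorem lat_int {t : ℝ} (ht : 0 < t) :
    Summable (fun m : ℤ => Real.exp (-(t ^ 2 * (m : ℝ) ^ 2))) ∧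
    ∑' m : ℤ, Real.exp (-(t ^ 2 * (m : ℝ) ^ 2)) ≤ 1 + 4 / t := by
  set f : ℤ → ℝ := fun m => Real.exp (-(t ^ 2 * (m : ℝ) ^ 2)) with hf
  have h1 : Summable (fun n : ℕ => f ((n + 1 : ℕ) : ℤ)) := by
    simpa [hf] using lat_summable_nat ht
  have h1' : Summable (fun n : ℕ => f (n : ℤ)) :=
    (summable_nat_add_iff (f := fun n : ℕ => f (n : ℤ)) 1).1 h1
  have h2 : Summable (fun n : ℕ => f (-((n : ℤ) + 1))) := by
    refine (lat_summable_nat ht).congr fun n => ?_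
    simp only [hf]
    push_cast
    congr 2
    ring
  refine ⟨Summable.of_nat_of_neg_add_one h1' h2, ?_⟩
  rw [tsum_of_nat_of_neg_add_one h1' h2, h1'.tsum_eq_zero_add]
  have h3 : ∑' n : ℕ, f ((n + 1 : ℕ) : ℤ) ≤ 2 / t := by
    have := lat_tsum_nat ht
    simpa [hf] using this
  have h4 : ∑' n : ℕ, f (-((n : ℤ) + 1)) ≤ 2 / t := by
    have h5 : (fun n : ℕ => f (-((n : ℤ) + 1))) =
        fun m : ℕ => Real.exp (-(t ^ 2 * ((m : ℝ) + 1) ^ 2)) := by
      funext n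
      simp only [hf]
      push_cast
      congr 2
      ring
    rw [h5]
    exact lat_tsum_nat ht
  have h0 : f ((0 : ℕ) : ℤ) = 1 := by simp [hf]
  have h6 : 4 / t = 2 / t + 2 / t := by ring
  rw [h0, h6]
  linarith

/-! ### Sums over `ℤ^ι` -/

theorem lat_pi {ι : Type} [Fintype ι] {t : ℝ} (ht : 0 < t) :
    Summable (fun m : ι → ℤ => Real.exp (-(t ^ 2 * ∑ i, (m i : ℝ) ^ 2))) ∧
    ∑' m : ι → ℤ, Real.exp (-(t ^ 2 * ∑ i, (m i : ℝ) ^ 2)) ≤ (1 + 4 / t) ^ Fintype.card ι := by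
  classical
  obtain ⟨hs, hle⟩ := lat_int ht
  have hb : ∀ s : Finset (ι → ℤ), ∑ m ∈ s, Real.exp (-(t ^ 2 * ∑ i, (m i : ℝ) ^ 2)) ≤
      (1 + 4 / t) ^ Fintype.card ι := by
    intro s
    have hsub : s ⊆ Fintype.piFinset (fun i => s.image (fun m => m i)) := by
      intro m hm
      rw [Fintype.mem_piFinset]
      intro i
      exact Finset.mem_image_of_mem (fun m : ι → ℤ => m i) hm
    refine (Finset.sum_le_sum_of_subset_of_nonneg hsub fun _ _ _ => (Real.exp_pos _).le).trans ?_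
    have h1 : ∀ m : ι → ℤ, Real.exp (-(t ^ 2 * ∑ i, (m i : ℝ) ^ 2)) =
        ∏ i, Real.exp (-(t ^ 2 * (m i : ℝ) ^ 2)) := by
      intro m
      rw [← Real.exp_sum, Finset.sum_neg_distrib, Finset.mul_sum]
    simp_rw [h1]
    rw [← Finset.prod_univ_sum (fun i => s.image (fun m => m i))
      (fun _ (k : ℤ) => Real.exp (-(t ^ 2 * (k : ℝ) ^ 2)))]
    calc ∏ i : ι, ∑ k ∈ s.image (fun m : ι → ℤ => m i), Real.exp (-(t ^ 2 * ((k : ℤ) : ℝ) ^ 2))
        ≤ ∏ _i : ι, (1 + 4 / t) := by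
          refine Finset.prod_le_prod (fun i _ => Finset.sum_nonneg fun _ _ => (Real.exp_pos _).le)
            fun i _ => ?_
          exact (hs.sum_le_tsum _ fun _ _ => (Real.exp_pos _).le).trans hle
      _ = (1 + 4 / t) ^ Fintype.card ι := by rw [Finset.prod_const, Finset.card_univ]
  exact ⟨summable_of_sum_le (fun _ => (Real.exp_pos _).le) hb,
    Real.tsum_le_of_sum_le (fun _ => (Real.exp_pos _).le) hb⟩

/-! ### The ring of integers -/

theorem lat_le_sqrt_qn (a : InfinitePlace K → ℝ) (w : InfinitePlace K) :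
    a w ≤ √(qn a) := by
  refine Real.le_sqrt_of_sq_le ?_
  unfold qn
  refine le_trans ?_ (Finset.single_le_sum (f := fun w : InfinitePlace K => (w.mult : ℝ) * a w ^ 2)
    (fun w _ => by positivity) (Finset.mem_univ w))
  have h1 : (1 : ℝ) ≤ w.mult := by exact_mod_cast one_le_mult
  nlinarith [sq_nonneg (a w)]

theorem lat_qn_nonneg (a : InfinitePlace K → ℝ) : 0 ≤ qn a := by
  unfold qn
  exact Finset.sum_nonneg fun w _ => by positivity

theorem lat_coord : ∃ c₀ : ℝ, 0 < c₀ ∧ ∀ α : 𝓞 K,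
    c₀ * ∑ i, (((RingOfIntegers.basis K).repr α i : ℤ) : ℝ) ^ 2 ≤
      qn (fun w : InfinitePlace K => w (α : K)) := by
  classical
  set L := (mixedEmbedding.latticeBasis K).equivFunL with hL
  set C : ℝ := ‖(L : mixedEmbedding.mixedSpace K →L[ℝ] (Module.Free.ChooseBasisIndex ℤ (𝓞 K) → ℝ))‖ + 1 with hC
  have hC0 : 0 < C := by positivity
  set n : ℝ := Fintype.card (Module.Free.ChooseBasisIndex ℤ (𝓞 K)) + 1 with hn
  have hn0 : 0 < n := by positivity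
  refine ⟨(n * C ^ 2)⁻¹, by positivity, fun α => ?_⟩
  set q := qn (fun w : InfinitePlace K => w (α : K)) with hq
  have hq0 : 0 ≤ q := lat_qn_nonneg _
  set v := mixedEmbedding K (α : K) with hv
  have hvn : ‖v‖ ≤ √q := by
    rw [mixedEmbedding.norm_eq_sup'_normAtPlace]
    refine Finset.sup'_le _ _ fun w _ => ?_
    rw [hv, mixedEmbedding.normAtPlace_apply]
    exact lat_le_sqrt_qn (fun w : InfinitePlace K => w (α : K)) w
  have hm : ∀ i, |(((RingOfIntegers.basis K).repr α i : ℤ) : ℝ)| ≤ C * √q := by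
    intro i
    have h1 : (((RingOfIntegers.basis K).repr α i : ℤ) : ℝ) = L v i := by
      rw [hL, hv]
      have h2 : (mixedEmbedding.latticeBasis K).equivFunL (mixedEmbedding K (α : K)) i =
          (mixedEmbedding.latticeBasis K).repr (mixedEmbedding K (α : K)) i := rfl
      rw [h2, mixedEmbedding.latticeBasis_repr_apply, integralBasis_repr_apply]
      simp
    rw [h1]
    calc |L v i| = ‖L v i‖ := (Real.norm_eq_abs _).symm
      _ ≤ ‖L v‖ := norm_le_pi_norm _ i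
      _ ≤ ‖(L : mixedEmbedding.mixedSpace K →L[ℝ] (Module.Free.ChooseBasisIndex ℤ (𝓞 K) → ℝ))‖ * ‖v‖ :=
          (L : mixedEmbedding.mixedSpace K →L[ℝ] (Module.Free.ChooseBasisIndex ℤ (𝓞 K) → ℝ)).le_opNorm v
      _ ≤ C * √q := by
          refine mul_le_mul (by simp [hC]) hvn (norm_nonneg _) hC0.le
  have hsum : ∑ i, (((RingOfIntegers.basis K).repr α i : ℤ) : ℝ) ^ 2 ≤ n * (C ^ 2 * q) := by
    calc ∑ i, (((RingOfIntegers.basis K).repr α i : ℤ) : ℝ) ^ 2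
        ≤ ∑ _i : Module.Free.ChooseBasisIndex ℤ (𝓞 K), C ^ 2 * q := by
          refine Finset.sum_le_sum fun i _ => ?_
          have h3 := hm i
          rw [← sq_abs]
          calc |(((RingOfIntegers.basis K).repr α i : ℤ) : ℝ)| ^ 2 ≤ (C * √q) ^ 2 :=
                pow_le_pow_left₀ (abs_nonneg _) h3 2
            _ = C ^ 2 * q := by rw [mul_pow, Real.sq_sqrt hq0]
      _ = Fintype.card (Module.Free.ChooseBasisIndex ℤ (𝓞 K)) * (C ^ 2 * q) := by
          rw [Finset.sum_const, Finset.card_univ, nsmul_eq_mul]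
      _ ≤ n * (C ^ 2 * q) := by
          refine mul_le_mul_of_nonneg_right (by simp [hn]) (by positivity)
  rw [inv_mul_le_iff₀ (by positivity)]
  linarith

theorem lat_ok {t : ℝ} (ht : 0 < t) :
    Summable (fun α : 𝓞 K => Real.exp
      (-(t ^ 2 * ∑ i, (((RingOfIntegers.basis K).repr α i : ℤ) : ℝ) ^ 2))) ∧
    ∑' α : 𝓞 K, Real.exp
      (-(t ^ 2 * ∑ i, (((RingOfIntegers.basis K).repr α i : ℤ) : ℝ) ^ 2)) ≤
      (1 + 4 / t) ^ Module.finrank ℚ K := by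
  classical
  obtain ⟨h1, h2⟩ := lat_pi (ι := Module.Free.ChooseBasisIndex ℤ (𝓞 K)) ht
  set e : 𝓞 K ≃ (Module.Free.ChooseBasisIndex ℤ (𝓞 K) → ℤ) :=
    (RingOfIntegers.basis K).equivFun.toEquiv with he
  have hcard : Fintype.card (Module.Free.ChooseBasisIndex ℤ (𝓞 K)) = Module.finrank ℚ K := by
    rw [← Module.finrank_eq_card_chooseBasisIndex, RingOfIntegers.rank]
  rw [hcard] at h2
  refine ⟨(e.summable_iff).2 h1, ?_⟩
  refine le_trans (le_of_eq ?_) h2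
  exact e.tsum_eq (fun m : Module.Free.ChooseBasisIndex ℤ (𝓞 K) → ℤ =>
    Real.exp (-(t ^ 2 * ∑ i, (m i : ℝ) ^ 2)))

theorem lat_qn_scale {d : ℝ} (hd : 0 ≤ d) {y a : InfinitePlace K → ℝ} (hy : ∀ w, d ≤ y w) :
    d ^ 2 * qn a ≤ qn (fun w => y w * a w) := by
  unfold qn
  rw [Finset.mul_sum]
  refine Finset.sum_le_sum fun w _ => ?_
  have h1 : d ^ 2 ≤ y w ^ 2 := pow_le_pow_left₀ hd (hy w) 2
  have h2 : (0 : ℝ) ≤ w.mult * a w ^ 2 := by positivity
  calc d ^ 2 * (w.mult * a w ^ 2) ≤ y w ^ 2 * (w.mult * a w ^ 2) :=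
        mul_le_mul_of_nonneg_right h1 h2
    _ = w.mult * (y w * a w) ^ 2 := by ring

set_option linter.unusedVariables false in
theorem lattice_sum {𝔟 : Ideal (𝓞 K)} (h𝔟 : 𝔟 ≠ ⊥) {c : ℝ} (hc : 0 < c) : ∃ C : ℝ, 0 ≤ C ∧
    ∀ (u : ℝ), ∀ x ∈ Set.Icc (-1 : Fin (rank K) → ℝ) 1,
      Summable (fun α : 𝔟 => Real.exp (-c * qn (fun w => Yv K u x w * w ((α : 𝓞 K) : K)))) ∧
      ∑' α : 𝔟, Real.exp (-c * qn (fun w => Yv K u x w * w ((α : 𝓞 K) : K))) ≤
        C * (1 + Real.exp (-u)) := by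
  obtain ⟨c₀, hc₀, hcoord⟩ := lat_coord (K := K)
  obtain ⟨C₁, hC₁, hcube⟩ := Yv_cube (K := K)
  set n : ℕ := Module.finrank ℚ K with hn
  have hnpos : 0 < n := Module.finrank_pos
  have hC₁0 : 0 < C₁ := by linarith
  set κ : ℝ := √(c * c₀) * C₁⁻¹ with hκ
  have hκ0 : 0 < κ := by positivity
  refine ⟨2 ^ (n - 1) * (1 + (4 / κ) ^ n), by positivity, fun u x hx => ?_⟩
  set t : ℝ := κ * Real.exp (u / n) with ht
  have ht0 : 0 < t := by positivity
  obtain ⟨hs, hle⟩ := lat_ok (K := K) ht0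
  set g : 𝓞 K → ℝ := fun α => Real.exp
      (-(t ^ 2 * ∑ i, (((RingOfIntegers.basis K).repr α i : ℤ) : ℝ) ^ 2)) with hg
  have hcmp : ∀ α : 𝔟, Real.exp (-c * qn (fun w => Yv K u x w * w ((α : 𝓞 K) : K))) ≤
      g (α : 𝓞 K) := by
    intro α
    refine Real.exp_le_exp.2 ?_
    rw [neg_mul, neg_le_neg_iff]
    have h1 : (C₁⁻¹ * Real.exp (u / n)) ^ 2 * qn (fun w : InfinitePlace K => w ((α : 𝓞 K) : K)) ≤
        qn (fun w => Yv K u x w * w ((α : 𝓞 K) : K)) :=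
      lat_qn_scale (by positivity) fun w => (hcube u x hx w).1
    have h2 := hcoord (α : 𝓞 K)
    have h3 : t ^ 2 = c * ((C₁⁻¹ * Real.exp (u / n)) ^ 2 * c₀) := by
      rw [ht, hκ, mul_pow, mul_pow, Real.sq_sqrt (by positivity)]
      ring
    rw [h3]
    have h4 : (C₁⁻¹ * Real.exp (u / n)) ^ 2 *
        (c₀ * ∑ i, (((RingOfIntegers.basis K).repr (α : 𝓞 K) i : ℤ) : ℝ) ^ 2) ≤
        qn (fun w => Yv K u x w * w ((α : 𝓞 K) : K)) :=
      (mul_le_mul_of_nonneg_left h2 (by positivity)).trans h1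
    have h5 := mul_le_mul_of_nonneg_left h4 hc.le
    calc _ = c * ((C₁⁻¹ * Real.exp (u / n)) ^ 2 *
        (c₀ * ∑ i, (((RingOfIntegers.basis K).repr (α : 𝓞 K) i : ℤ) : ℝ) ^ 2)) := by ring
      _ ≤ _ := h5
  have hgb : Summable (fun α : 𝔟 => g (α : 𝓞 K)) := hs.comp_injective Subtype.val_injective
  have hsum : Summable (fun α : 𝔟 => Real.exp (-c * qn (fun w => Yv K u x w *
      w ((α : 𝓞 K) : K)))) :=
    Summable.of_nonneg_of_le (fun _ => (Real.exp_pos _).le) hcmp hgb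
  refine ⟨hsum, ?_⟩
  have h6 : ∑' α : 𝔟, Real.exp (-c * qn (fun w => Yv K u x w * w ((α : 𝓞 K) : K))) ≤
      ∑' α : 𝔟, g (α : 𝓞 K) := hsum.tsum_le_tsum hcmp hgb
  have h7 : ∑' α : 𝔟, g (α : 𝓞 K) ≤ ∑' α : 𝓞 K, g α :=
    Summable.tsum_subtype_le g (𝔟 : Set (𝓞 K)) (fun _ => (Real.exp_pos _).le) hs
  refine (h6.trans (h7.trans hle)).trans ?_
  have h8 : (1 + 4 / t) ^ n ≤ 2 ^ (n - 1) * (1 ^ n + (4 / t) ^ n) :=
    add_pow_le zero_le_one (by positivity) n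
  refine h8.trans ?_
  have h9 : (4 / t) ^ n = (4 / κ) ^ n * Real.exp (-u) := by
    rw [ht, ← div_div, div_pow, ← Real.exp_nat_mul]
    have : (n : ℝ) * (u / n) = u := by
      have : (n : ℝ) ≠ 0 := by positivity
      field_simp
    rw [this, Real.exp_neg, div_eq_mul_inv]
  rw [one_pow, h9, mul_assoc]
  refine mul_le_mul_of_nonneg_left ?_ (by positivity)
  have h10 : 0 < (4 / κ) ^ n := by positivity
  have h11 := Real.exp_pos (-u)
  nlinarith

theorem lattice_summable (𝔟 : Ideal (𝓞 K)) {c : ℝ} (hc : 0 < c)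
    (y : InfinitePlace K → ℝ) (hy : ∀ w, 0 < y w) (a : 𝓞 K) :
    Summable (fun α : 𝔟 => Real.exp (-c * qn (fun w => y w * w ((a + (α : 𝓞 K) : 𝓞 K) : K)))) := by
  obtain ⟨c₀, hc₀, hcoord⟩ := lat_coord (K := K)
  obtain ⟨w₀, -, hw₀⟩ := Finset.exists_min_image (Finset.univ : Finset (InfinitePlace K)) y
    Finset.univ_nonempty
  set d : ℝ := y w₀ with hd
  have hd0 : 0 < d := hy w₀
  set t : ℝ := √(c * c₀) * d with ht
  have ht0 : 0 < t := by positivity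
  obtain ⟨hs, -⟩ := lat_ok (K := K) ht0
  have hinj : Function.Injective (fun α : 𝔟 => a + (α : 𝓞 K)) := by
    intro α β h
    have : (α : 𝓞 K) = β := add_left_cancel h
    exact Subtype.ext this
  refine Summable.of_nonneg_of_le (fun _ => (Real.exp_pos _).le) (fun α => ?_)
    (hs.comp_injective hinj)
  refine Real.exp_le_exp.2 ?_
  rw [neg_mul, neg_le_neg_iff]
  have h1 : d ^ 2 * qn (fun w : InfinitePlace K => w ((a + (α : 𝓞 K) : 𝓞 K) : K)) ≤
      qn (fun w => y w * w ((a + (α : 𝓞 K) : 𝓞 K) : K)) :=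
    lat_qn_scale hd0.le fun w => hw₀ w (Finset.mem_univ w)
  have h2 := hcoord (a + (α : 𝓞 K))
  have h3 : t ^ 2 = c * (d ^ 2 * c₀) := by
    rw [ht, mul_pow, Real.sq_sqrt (by positivity)]
    ring
  rw [h3]
  have h4 := mul_le_mul_of_nonneg_left
    ((mul_le_mul_of_nonneg_left h2 (by positivity : 0 ≤ d ^ 2)).trans h1) hc.le
  calc _ = c * (d ^ 2 * (c₀ * ∑ i, (((RingOfIntegers.basis K).repr (a + (α : 𝓞 K)) i : ℤ) : ℝ) ^ 2)) := by
        ring
    _ ≤ _ := h4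

/-! ### The arithmetic-geometric mean inequality -/

set_option linter.unusedVariables false in
theorem lat_norm_ge {𝔮 𝔟 : Ideal (𝓞 K)} (h𝔮 : 𝔮 ≠ ⊥) (h𝔟 : 𝔟 ≠ ⊥) {l : 𝓞 K} (hl : l ∈ 𝔮 * 𝔟)
    (hl0 : l ≠ 0) : (Ideal.absNorm 𝔮 : ℝ) ≤ ∏ w : InfinitePlace K, w (l : K) ^ w.mult := by
  have h1 : Ideal.absNorm (𝔮 * 𝔟) ∣ Ideal.absNorm (Ideal.span {l}) := by
    refine Ideal.absNorm_dvd_absNorm_of_le ?_
    rw [Ideal.span_singleton_le_iff_mem]
    exact hl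
  have h2 : Ideal.absNorm (Ideal.span {l}) ≠ 0 := by
    rw [Ne, Ideal.absNorm_eq_zero_iff]
    simpa using hl0
  have h3 : Ideal.absNorm (𝔮 * 𝔟) ≤ Ideal.absNorm (Ideal.span {l}) :=
    Nat.le_of_dvd (Nat.pos_of_ne_zero h2) h1
  have h4 : Ideal.absNorm 𝔮 ≤ Ideal.absNorm (𝔮 * 𝔟) := by
    rw [map_mul]
    refine Nat.le_mul_of_pos_right _ (Nat.pos_of_ne_zero ?_)
    rw [Ne, Ideal.absNorm_eq_zero_iff]
    exact h𝔟
  have h5 : ((Ideal.absNorm (Ideal.span {l}) : ℕ) : ℝ) =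
      ∏ w : InfinitePlace K, w (l : K) ^ w.mult := by
    rw [InfinitePlace.prod_eq_abs_norm, Ideal.absNorm_span_singleton, ← Algebra.coe_norm_int]
    simp [Nat.cast_natAbs]
  rw [← h5]
  exact_mod_cast h4.trans h3

theorem am_gm {𝔮 𝔟 : Ideal (𝓞 K)} (h𝔮 : 𝔮 ≠ ⊥) (h𝔟 : 𝔟 ≠ ⊥) {l : 𝓞 K} (hl : l ∈ 𝔮 * 𝔟)
    (hl0 : l ≠ 0) (u : ℝ) (x : Fin (rank K) → ℝ) :
    (Real.exp u * Ideal.absNorm 𝔮) ^ (2 / (Module.finrank ℚ K : ℝ)) ≤
      qn (fun w => Yv K u x w * w (l : K)) := by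
  set n : ℕ := Module.finrank ℚ K with hn
  have hnpos : 0 < n := Module.finrank_pos
  have hn0 : (0 : ℝ) < n := by exact_mod_cast hnpos
  have hn1 : (1 : ℝ) ≤ n := by exact_mod_cast hnpos
  set z : InfinitePlace K → ℝ := fun w => Yv K u x w * w (l : K) with hz
  have hz0 : ∀ w, 0 ≤ z w := fun w => mul_nonneg (Yv_pos u x w).le (apply_nonneg w _)
  have hsum : ∑ w : InfinitePlace K, (w.mult : ℝ) / n = 1 := by
    rw [← Finset.sum_div, div_eq_one_iff_eq hn0.ne']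
    exact_mod_cast InfinitePlace.sum_mult_eq
  have h1 := Real.geom_mean_le_arith_mean_weighted (Finset.univ : Finset (InfinitePlace K))
    (fun w => (w.mult : ℝ) / n) (fun w => z w ^ 2) (fun w _ => by positivity) hsum
    (fun w _ => by positivity)
  have h2 : ∏ w : InfinitePlace K, (z w ^ 2) ^ ((w.mult : ℝ) / n) =
      (∏ w : InfinitePlace K, z w ^ w.mult) ^ (2 / (n : ℝ)) := by
    rw [← Real.finsetProd_rpow _ _ fun w _ => pow_nonneg (hz0 w) _]
    refine Finset.prod_congr rfl fun w _ => ?_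
    rw [← Real.rpow_natCast (z w) 2, ← Real.rpow_natCast (z w) w.mult, ← Real.rpow_mul (hz0 w),
      ← Real.rpow_mul (hz0 w)]
    congr 1
    push_cast
    ring
  have h3 : ∑ w : InfinitePlace K, (w.mult : ℝ) / n * z w ^ 2 ≤ qn z := by
    unfold qn
    refine Finset.sum_le_sum fun w _ => ?_
    refine mul_le_mul_of_nonneg_right ?_ (sq_nonneg _)
    exact div_le_self (by positivity) hn1
  have h4 : ∏ w : InfinitePlace K, z w ^ w.mult =
      Real.exp u * ∏ w : InfinitePlace K, w (l : K) ^ w.mult := by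
    rw [← prod_Yv u x, ← Finset.prod_mul_distrib]
    refine Finset.prod_congr rfl fun w _ => ?_
    rw [hz, mul_pow]
  refine le_trans ?_ h3
  refine le_trans ?_ h1
  rw [h2, h4]
  refine Real.rpow_le_rpow (by positivity) ?_ (by positivity)
  exact mul_le_mul_of_nonneg_left (lat_norm_ge h𝔮 h𝔟 hl hl0) (Real.exp_pos _).le

end Pool.Agent.HZ
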