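import Pool.Agent.Lib_helper41.HZF.Defs

/-! Block FT: local Fourier transforms. -/

namespace Pool.Agent.HZ

open NumberField NumberField.InfinitePlace NumberField.Units Complex MeasureTheory Filter Topology

theorem ft_deriv {X : Type} [MeasurableSpace X] {μ : Measure X} {L g : X → ℂ}
    (hL : AEStronglyMeasurable L μ) (hg : AEStronglyMeasurable g μ)
    (hint : ∀ (k : ℕ) (R : ℝ), Integrable (fun x => ‖L x‖ ^ k * Real.exp (R * ‖L x‖) * ‖g x‖) μ)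
    (k : ℕ) (s : ℂ) :
    HasDerivAt (fun s : ℂ => ∫ x, L x ^ k * (cexp (s * L x) * g x) ∂μ)
      (∫ x, L x ^ (k + 1) * (cexp (s * L x) * g x) ∂μ) s := by
  have hm : ∀ (j : ℕ) (s' : ℂ),
      AEStronglyMeasurable (fun x => L x ^ j * (cexp (s' * L x) * g x)) μ := by
    intro j s'
    refine (hL.pow j).mul (AEStronglyMeasurable.mul ?_ hg)
    exact Complex.continuous_exp.comp_aestronglyMeasurable (hL.const_mul s')
  have hn : ∀ (j : ℕ) (s' : ℂ) (x : X), ‖L x ^ j * (cexp (s' * L x) * g x)‖ ≤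
      ‖L x‖ ^ j * Real.exp (‖s'‖ * ‖L x‖) * ‖g x‖ := by
    intro j s' x
    rw [norm_mul, norm_mul, norm_pow, mul_assoc]
    refine mul_le_mul_of_nonneg_left (mul_le_mul_of_nonneg_right ?_ (norm_nonneg _))
      (by positivity)
    rw [Complex.norm_exp]
    refine Real.exp_le_exp.mpr ?_
    rw [← norm_mul]
    exact Complex.re_le_norm _
  refine (hasDerivAt_integral_of_dominated_loc_of_deriv_le
    (F := fun s x => L x ^ k * (cexp (s * L x) * g x))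
    (F' := fun s x => L x ^ (k + 1) * (cexp (s * L x) * g x))
    (bound := fun x => ‖L x‖ ^ (k + 1) * Real.exp ((‖s‖ + 1) * ‖L x‖) * ‖g x‖)
    (Metric.ball_mem_nhds s one_pos) (Eventually.of_forall fun s' => hm k s') ?_ (hm (k + 1) s)
    ?_ (hint (k + 1) (‖s‖ + 1)) ?_).2
  · exact (hint k ‖s‖).mono' (hm k s) (Eventually.of_forall fun x => hn k s x)
  · refine Eventually.of_forall fun x s' hs' => (hn (k + 1) s' x).trans ?_
    have h1 : ‖s'‖ ≤ ‖s‖ + 1 := by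
      have h2 : ‖s' - s‖ < 1 := by simpa [dist_eq_norm] using hs'
      have h3 := norm_add_le (s' - s) s
      rw [sub_add_cancel] at h3
      linarith
    have h2 : ‖s'‖ * ‖L x‖ ≤ (‖s‖ + 1) * ‖L x‖ := mul_le_mul_of_nonneg_right h1 (norm_nonneg _)
    have h3 := Real.exp_le_exp.mpr h2
    gcongr
  · refine Eventually.of_forall fun x s' _ => ?_
    have h1 : HasDerivAt (fun s : ℂ => cexp (s * L x)) (cexp (s' * L x) * L x) s' := by
      have h2 : HasDerivAt (fun s : ℂ => s * L x) (1 * L x) s' := (hasDerivAt_id s').mul_const _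
      rw [one_mul] at h2
      exact h2.cexp
    have h2 := (h1.mul_const (g x)).const_mul (L x ^ k)
    refine h2.congr_deriv ?_
    ring

theorem ft_moment {X : Type} [MeasurableSpace X] {μ : Measure X} {L g : X → ℂ}
    (hL : AEStronglyMeasurable L μ) (hg : AEStronglyMeasurable g μ)
    (hint : ∀ (k : ℕ) (R : ℝ), Integrable (fun x => ‖L x‖ ^ k * Real.exp (R * ‖L x‖) * ‖g x‖) μ)
    {A α : ℂ} (h0 : ∀ s : ℂ, ∫ x, cexp (s * L x) * g x ∂μ = A * cexp (α * s)) (k : ℕ) :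
    ∀ s : ℂ, ∫ x, L x ^ k * (cexp (s * L x) * g x) ∂μ = α ^ k * (A * cexp (α * s)) := by
  induction k with
  | zero =>
    intro s
    simp only [pow_zero, one_mul]
    exact h0 s
  | succ k ih =>
    intro s
    have h1 := ft_deriv hL hg hint k s
    have h2 : HasDerivAt (fun s : ℂ => α ^ k * (A * cexp (α * s))) (α ^ (k + 1) * (A * cexp (α * s))) s := by
      have h3 : HasDerivAt (fun s : ℂ => cexp (α * s)) (cexp (α * s) * α) s := by
        have h4 : HasDerivAt (fun s : ℂ => α * s) (α * 1) s := (hasDerivAt_id s).const_mul α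
        rw [mul_one] at h4
        exact h4.cexp
      refine ((h3.const_mul A).const_mul (α ^ k)).congr_deriv ?_
      ring
    have h5 : (fun s : ℂ => ∫ x, L x ^ k * (cexp (s * L x) * g x) ∂μ) =
        fun s : ℂ => α ^ k * (A * cexp (α * s)) := funext ih
    rw [h5] at h1
    exact h1.unique h2

theorem ft_exp_bound (k : ℕ) (R : ℝ) {b : ℝ} (hb : 0 < b) : ∃ C : ℝ, 0 ≤ C ∧ ∀ r : ℝ, 0 ≤ r →
    r ^ k * Real.exp (R * r) * Real.exp (-(b * r ^ 2)) ≤ C * Real.exp (-(b / 2 * r ^ 2)) := by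
  refine ⟨(k.factorial : ℝ) * Real.exp ((R + 1) ^ 2 / (2 * b)), by positivity, fun r hr => ?_⟩
  have h1 : r ^ k ≤ (k.factorial : ℝ) * Real.exp r := by
    have h2 := Real.pow_div_factorial_le_exp r hr k
    rw [div_le_iff₀ (by positivity)] at h2
    linarith
  calc r ^ k * Real.exp (R * r) * Real.exp (-(b * r ^ 2))
      ≤ ((k.factorial : ℝ) * Real.exp r) * Real.exp (R * r) * Real.exp (-(b * r ^ 2)) := by gcongr
    _ = (k.factorial : ℝ) * Real.exp (r + R * r + -(b * r ^ 2)) := by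
        rw [Real.exp_add, Real.exp_add]; ring
    _ ≤ (k.factorial : ℝ) * Real.exp ((R + 1) ^ 2 / (2 * b) + -(b / 2 * r ^ 2)) := by
        refine mul_le_mul_of_nonneg_left (Real.exp_le_exp.mpr ?_) (by positivity)
        have h3 : 0 ≤ (b * r - (R + 1)) ^ 2 / (2 * b) := by positivity
        have h4 : (b * r - (R + 1)) ^ 2 / (2 * b) =
            b / 2 * r ^ 2 - (R + 1) * r + (R + 1) ^ 2 / (2 * b) := by
          field_simp
          ring
        rw [h4] at h3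
        linarith
    _ = _ := by rw [Real.exp_add]; ring

theorem ft_gauss_int {V : Type} [NormedAddCommGroup V] [InnerProductSpace ℝ V]
    [FiniteDimensional ℝ V] [MeasurableSpace V] [BorelSpace V] {b : ℝ} (hb : 0 < b) :
    Integrable (fun v : V => Real.exp (-(b * ‖v‖ ^ 2))) := by
  have h1 := GaussianFourier.integrable_cexp_neg_mul_sq_norm_add (V := V) (b := (b : ℂ))
    (by simpa using hb) 0 0
  have h2 := h1.norm
  refine h2.congr (Eventually.of_forall fun v => ?_)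
  simp only [zero_mul, add_zero]
  rw [Complex.norm_exp]
  congr 1
  have : (-(b : ℂ) * (‖v‖ : ℂ) ^ 2) = ((-(b * ‖v‖ ^ 2) : ℝ) : ℂ) := by push_cast; ring
  rw [this, Complex.ofReal_re]

theorem ft_hint {V : Type} [NormedAddCommGroup V] [InnerProductSpace ℝ V]
    [FiniteDimensional ℝ V] [MeasurableSpace V] [BorelSpace V] {b : ℝ} (hb : 0 < b)
    (k : ℕ) (R : ℝ) :
    Integrable (fun v : V => ‖v‖ ^ k * Real.exp (R * ‖v‖) * Real.exp (-(b * ‖v‖ ^ 2))) := by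
  obtain ⟨C, _, hC⟩ := ft_exp_bound k R hb
  refine ((ft_gauss_int (V := V) (half_pos hb)).const_mul C).mono'
    (Continuous.aestronglyMeasurable (by fun_prop)) (Eventually.of_forall fun v => ?_)
  rw [Real.norm_of_nonneg (by positivity)]
  exact hC _ (norm_nonneg v)

theorem ft_ee_norm (x : ℝ) : ‖ee x‖ = 1 := by
  unfold ee
  rw [show (2 * (Real.pi : ℂ) * I * x) = ((2 * Real.pi * x : ℝ) : ℂ) * I by push_cast; ring,
    Complex.norm_exp_ofReal_mul_I]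

theorem ft_ee_continuous : Continuous ee := by
  unfold ee
  fun_prop

/-- nonnegative type -/
theorem ft_hloc_nonneg (m : ℕ) (k : ℕ) (z : ℂ) :
    hloc m (k : ℤ) z = z ^ k * cexp (-((Real.pi * m * ‖z‖ ^ 2 : ℝ) : ℂ)) := by
  unfold hloc
  congr 1
  rw [Int.natAbs_natCast, zpow_natCast, ← mul_pow]
  congr 1
  rcases eq_or_ne z 0 with rfl | hz
  · simp
  · have : (‖z‖ : ℂ) ≠ 0 := by exact_mod_cast (norm_ne_zero_iff.mpr hz)
    field_simp

/-- negative type -/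
theorem ft_hloc_neg (m : ℕ) (k : ℕ) (z : ℂ) :
    hloc m (-(k : ℤ)) z =
      (starRingEnd ℂ z) ^ k * cexp (-((Real.pi * m * ‖z‖ ^ 2 : ℝ) : ℂ)) := by
  unfold hloc
  congr 1
  rw [Int.natAbs_neg, Int.natAbs_natCast, zpow_neg, zpow_natCast, ← inv_pow, ← mul_pow]
  congr 1
  rcases eq_or_ne z 0 with rfl | hz
  · simp
  · have h0 : (‖z‖ : ℂ) ≠ 0 := by exact_mod_cast (norm_ne_zero_iff.mpr hz)
    rw [inv_div]
    have h1 : z * starRingEnd ℂ z = (‖z‖ : ℂ) ^ 2 := by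
      rw [Complex.mul_conj, Complex.normSq_eq_norm_sq]; push_cast; ring
    field_simp
    linear_combination -h1

/-! ### the complex case -/

theorem ft_complex_J {y : ℝ} (hy : 0 < y) (ξ s : ℂ) :
    ∫ z : ℂ, cexp (s * z) * (cexp (-((Real.pi * (2 : ℕ) * ‖(y : ℂ) * z‖ ^ 2 : ℝ) : ℂ)) *
      ee (-(2 * (z * ξ).re))) =
      (((y : ℂ) ^ 2)⁻¹ * (1 / 2) * cexp (-((Real.pi * (2 : ℕ) * ‖((1 / y : ℝ) : ℂ) * ξ‖ ^ 2 : ℝ) : ℂ))) *
        cexp (-(I * starRingEnd ℂ ξ / (y : ℂ) ^ 2) * s) := by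
  have hyc : (y : ℂ) ≠ 0 := by exact_mod_cast hy.ne'
  have hpi : (Real.pi : ℂ) ≠ 0 := by exact_mod_cast Real.pi_ne_zero
  set b : ℂ := ((2 * Real.pi * y ^ 2 : ℝ) : ℂ) with hb
  have hbre : 0 < b.re := by rw [hb, Complex.ofReal_re]; positivity
  set c : Fin 2 → ℂ := ![s - 4 * Real.pi * I * ξ.re, s * I + 4 * Real.pi * I * ξ.im] with hc
  have hG := GaussianFourier.integral_cexp_neg_mul_sum_add (ι := Fin 2) hbre c
  rw [← Complex.volume_preserving_equiv_pi.symm.integral_comp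
    (Complex.measurableEquivPi.symm.measurableEmbedding)]
  have hpt : ∀ v : Fin 2 → ℝ, cexp (s * Complex.measurableEquivPi.symm v) *
      (cexp (-((Real.pi * (2 : ℕ) * ‖(y : ℂ) * Complex.measurableEquivPi.symm v‖ ^ 2 : ℝ) : ℂ)) *
        ee (-(2 * (Complex.measurableEquivPi.symm v * ξ).re))) =
      cexp (-b * ∑ i, (v i : ℂ) ^ 2 + ∑ i, c i * v i) := by
    intro v
    have hz : Complex.measurableEquivPi.symm v = (v 0 : ℂ) + (v 1 : ℂ) * I := by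
      rw [Complex.measurableEquivPi_symm_apply]
    rw [hz]
    unfold ee
    rw [← Complex.exp_add, ← Complex.exp_add]
    congr 1
    have hn : ‖(y : ℂ) * ((v 0 : ℂ) + (v 1 : ℂ) * I)‖ ^ 2 = y ^ 2 * (v 0 ^ 2 + v 1 ^ 2) := by
      rw [norm_mul, mul_pow, Complex.norm_real, Real.norm_eq_abs, sq_abs, ← Complex.normSq_eq_norm_sq,
        Complex.normSq_add_mul_I]
    rw [hn, Fin.sum_univ_two, Fin.sum_univ_two]
    have hre : (((v 0 : ℂ) + (v 1 : ℂ) * I) * ξ).re = v 0 * ξ.re - v 1 * ξ.im := by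
      simp [Complex.mul_re]
    rw [hre, hb, hc]
    simp only [Matrix.cons_val_zero, Matrix.cons_val_one]
    push_cast
    ring
  simp_rw [hpt]
  rw [hG, Fin.sum_univ_two, hb, hc]
  simp only [Fintype.card_fin, Matrix.cons_val_zero, Matrix.cons_val_one]
  have e1 : ((2 : ℕ) : ℂ) / 2 = 1 := by norm_num
  rw [e1, Complex.cpow_one]
  have e2 : (Real.pi : ℂ) / ((2 * Real.pi * y ^ 2 : ℝ) : ℂ) = ((y : ℂ) ^ 2)⁻¹ * (1 / 2) := by
    push_cast
    field_simp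
  rw [e2, mul_assoc (((y : ℂ) ^ 2)⁻¹ * (1 / 2)) (cexp _) (cexp _), ← Complex.exp_add]
  congr 2
  have e3 : ‖((1 / y : ℝ) : ℂ) * ξ‖ ^ 2 = (ξ.re ^ 2 + ξ.im ^ 2) / y ^ 2 := by
    rw [norm_mul, mul_pow, Complex.norm_real, Real.norm_eq_abs, sq_abs, ← Complex.normSq_eq_norm_sq,
      Complex.normSq_apply]
    ring
  have e4 : starRingEnd ℂ ξ = (ξ.re : ℂ) - ξ.im * I := by
    apply Complex.ext <;> simp
  rw [e3, e4]
  push_cast
  field_simp
  ring_nf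
  rw [Complex.I_sq]
  ring_nf

theorem ft_complex_nonneg (k : ℕ) {y : ℝ} (hy : 0 < y) (ξ : ℂ) :
    ∫ z : ℂ, ((y : ℂ) * z) ^ k * cexp (-((Real.pi * (2 : ℕ) * ‖(y : ℂ) * z‖ ^ 2 : ℝ) : ℂ)) *
        ee (-(2 * (z * ξ).re)) =
      ((y : ℂ) ^ 2)⁻¹ * (1 / 2) * (-I) ^ k *
        ((starRingEnd ℂ (((1 / y : ℝ) : ℂ) * ξ)) ^ k *
          cexp (-((Real.pi * (2 : ℕ) * ‖((1 / y : ℝ) : ℂ) * ξ‖ ^ 2 : ℝ) : ℂ))) := by
  have hyc : (y : ℂ) ≠ 0 := by exact_mod_cast hy.ne'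
  have hg : AEStronglyMeasurable (fun z : ℂ =>
      cexp (-((Real.pi * (2 : ℕ) * ‖(y : ℂ) * z‖ ^ 2 : ℝ) : ℂ)) * ee (-(2 * (z * ξ).re))) volume := by
    refine Continuous.aestronglyMeasurable ?_
    refine Continuous.mul (by fun_prop) (ft_ee_continuous.comp (by fun_prop))
  have hgn : ∀ z : ℂ, ‖cexp (-((Real.pi * (2 : ℕ) * ‖(y : ℂ) * z‖ ^ 2 : ℝ) : ℂ)) *
      ee (-(2 * (z * ξ).re))‖ = Real.exp (-((2 * Real.pi * y ^ 2) * ‖z‖ ^ 2)) := by
    intro z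
    rw [norm_mul, ft_ee_norm, mul_one, Complex.norm_exp]
    congr 1
    rw [← Complex.ofReal_neg, Complex.ofReal_re, norm_mul, mul_pow, Complex.norm_real,
      Real.norm_eq_abs, sq_abs]
    push_cast
    ring
  have h1 := ft_moment (μ := (volume : Measure ℂ)) (L := fun z : ℂ => z)
    continuous_id.aestronglyMeasurable hg (fun k R => by
      simp_rw [hgn]
      exact ft_hint (by positivity) k R) (ft_complex_J hy ξ) k 0
  simp only [zero_mul, Complex.exp_zero, one_mul, mul_zero, mul_one] at h1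
  have h2 : ∀ z : ℂ, ((y : ℂ) * z) ^ k * cexp (-((Real.pi * (2 : ℕ) * ‖(y : ℂ) * z‖ ^ 2 : ℝ) : ℂ)) *
        ee (-(2 * (z * ξ).re)) = (y : ℂ) ^ k * (z ^ k *
        (cexp (-((Real.pi * (2 : ℕ) * ‖(y : ℂ) * z‖ ^ 2 : ℝ) : ℂ)) * ee (-(2 * (z * ξ).re)))) := by
    intro z; ring
  simp_rw [h2]
  rw [integral_const_mul, h1]
  have h3 : (y : ℂ) ^ k * (-(I * starRingEnd ℂ ξ / (y : ℂ) ^ 2)) ^ k =
      (-I) ^ k * (starRingEnd ℂ (((1 / y : ℝ) : ℂ) * ξ)) ^ k := by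
    rw [← mul_pow, ← mul_pow, map_mul, Complex.conj_ofReal]
    congr 1
    push_cast
    field_simp
  rw [← mul_assoc, h3]
  ring

theorem ft_complex (κ : ℤ) {y : ℝ} (hy : 0 < y) (ξ : ℂ) :
    ∫ z : ℂ, hloc 2 κ ((y : ℂ) * z) * ee (-(2 * (z * ξ).re)) =
      ((y : ℂ) ^ 2)⁻¹ * (1 / 2) * (-I) ^ κ.natAbs *
        starRingEnd ℂ (hloc 2 κ ((1 / y : ℝ) * ξ)) := by
  have hcexp : ∀ x : ℝ, starRingEnd ℂ (cexp (-((x : ℝ) : ℂ))) = cexp (-((x : ℝ) : ℂ)) := by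
    intro x
    rw [← Complex.exp_conj, map_neg, Complex.conj_ofReal]
  rcases le_total 0 κ with hκ | hκ
  · obtain ⟨k, rfl⟩ := Int.eq_ofNat_of_zero_le hκ
    simp_rw [ft_hloc_nonneg]
    rw [ft_complex_nonneg k hy ξ, Int.natAbs_natCast]
    congr 1
    conv_rhs => rw [map_mul, map_pow, hcexp]
  · obtain ⟨k, hk⟩ := Int.eq_ofNat_of_zero_le (neg_nonneg.mpr hκ)
    have hκk : κ = -(k : ℤ) := by omega
    subst hκk
    simp_rw [ft_hloc_neg]
    have hsub := (Complex.conjLIE.measurePreserving).integral_comp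
      Complex.conjLIE.toHomeomorph.measurableEmbedding
      (fun z : ℂ => ((y : ℂ) * z) ^ k * cexp (-((Real.pi * (2 : ℕ) * ‖(y : ℂ) * z‖ ^ 2 : ℝ) : ℂ)) *
        ee (-(2 * (z * starRingEnd ℂ ξ).re)))
    rw [ft_complex_nonneg k hy (starRingEnd ℂ ξ)] at hsub
    have hpt : ∀ z : ℂ, (starRingEnd ℂ ((y : ℂ) * z)) ^ k *
        cexp (-((Real.pi * (2 : ℕ) * ‖(y : ℂ) * z‖ ^ 2 : ℝ) : ℂ)) * ee (-(2 * (z * ξ).re)) =
        ((y : ℂ) * Complex.conjLIE z) ^ k *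
          cexp (-((Real.pi * (2 : ℕ) * ‖(y : ℂ) * Complex.conjLIE z‖ ^ 2 : ℝ) : ℂ)) *
          ee (-(2 * (Complex.conjLIE z * starRingEnd ℂ ξ).re)) := by
      intro z
      have e1 : Complex.conjLIE z = starRingEnd ℂ z := rfl
      rw [e1, map_mul, Complex.conj_ofReal]
      have e2 : ‖(y : ℂ) * starRingEnd ℂ z‖ = ‖(y : ℂ) * z‖ := by
        rw [norm_mul, norm_mul, RCLike.norm_conj]
      have e3 : (starRingEnd ℂ z * starRingEnd ℂ ξ).re = (z * ξ).re := by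
        rw [← map_mul, Complex.conj_re]
      rw [e2, e3]
    simp_rw [hpt]
    rw [hsub, Int.natAbs_neg, Int.natAbs_natCast]
    congr 1
    conv_rhs => rw [map_mul, map_pow, hcexp, Complex.conj_conj]
    have e1 : starRingEnd ℂ (((1 / y : ℝ) : ℂ) * starRingEnd ℂ ξ) = ((1 / y : ℝ) : ℂ) * ξ := by
      rw [map_mul, Complex.conj_conj, Complex.conj_ofReal]
    have e2 : ‖((1 / y : ℝ) : ℂ) * starRingEnd ℂ ξ‖ = ‖((1 / y : ℝ) : ℂ) * ξ‖ := by
      rw [norm_mul, norm_mul, RCLike.norm_conj]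
    rw [e1, e2]

/-! ### the real case -/

theorem ft_real_J {y : ℝ} (hy : 0 < y) (ξ : ℝ) (s : ℂ) :
    ∫ t : ℝ, cexp (s * (t : ℂ)) * (cexp (-((Real.pi * (1 : ℕ) * ‖(y : ℂ) * (t : ℂ)‖ ^ 2 : ℝ) : ℂ)) *
      ee (-(t * ξ))) =
      (y : ℂ)⁻¹ * cexp ((s - 2 * Real.pi * I * ξ) ^ 2 / (4 * Real.pi * y ^ 2)) := by
  have hyc : (y : ℂ) ≠ 0 := by exact_mod_cast hy.ne'
  have hpi : (Real.pi : ℂ) ≠ 0 := by exact_mod_cast Real.pi_ne_zero
  have hb : (-(Real.pi * y ^ 2 : ℝ) : ℂ).re < 0 := by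
    rw [← Complex.ofReal_neg, Complex.ofReal_re]
    have : 0 < Real.pi * y ^ 2 := by positivity
    linarith
  have h := integral_cexp_quadratic hb (s - 2 * Real.pi * I * ξ) 0
  have hpt : ∀ t : ℝ, cexp (s * (t : ℂ)) *
      (cexp (-((Real.pi * (1 : ℕ) * ‖(y : ℂ) * (t : ℂ)‖ ^ 2 : ℝ) : ℂ)) * ee (-(t * ξ))) =
      cexp (-((Real.pi * y ^ 2 : ℝ) : ℂ) * (t : ℂ) ^ 2 + (s - 2 * Real.pi * I * ξ) * t + 0) := by
    intro t
    unfold ee
    rw [← Complex.exp_add, ← Complex.exp_add]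
    congr 1
    have hn : ‖(y : ℂ) * (t : ℂ)‖ ^ 2 = y ^ 2 * t ^ 2 := by
      rw [← Complex.ofReal_mul, Complex.norm_real, Real.norm_eq_abs, sq_abs, mul_pow]
    rw [hn]
    push_cast
    ring
  simp_rw [hpt]
  rw [h]
  congr 1
  · have e1 : (Real.pi : ℂ) / - -((Real.pi * y ^ 2 : ℝ) : ℂ) = (((y⁻¹ ^ 2 : ℝ)) : ℂ) := by
      push_cast
      field_simp
    rw [e1]
    have e2 : (1 / 2 : ℂ) = ((1 / 2 : ℝ) : ℂ) := by push_cast; ring
    rw [e2, ← Complex.ofReal_cpow (by positivity), ← Real.sqrt_eq_rpow,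
      Real.sqrt_sq (by positivity)]
    push_cast
    ring
  · congr 1
    push_cast
    field_simp
    ring

theorem ft_real {κ : ℤ} (hκ : κ = 0 ∨ κ = 1) {y : ℝ} (hy : 0 < y) (ξ : ℝ) :
    ∫ t : ℝ, hloc 1 κ ((y : ℂ) * (t : ℂ)) * ee (-(t * ξ)) =
      (y : ℂ)⁻¹ * (-I) ^ κ.natAbs * starRingEnd ℂ (hloc 1 κ ((1 / y : ℝ) * (ξ : ℂ))) := by
  have hyc : (y : ℂ) ≠ 0 := by exact_mod_cast hy.ne'
  have hpi : (Real.pi : ℂ) ≠ 0 := by exact_mod_cast Real.pi_ne_zero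
  have hcexp : ∀ x : ℝ, starRingEnd ℂ (cexp (-((x : ℝ) : ℂ))) = cexp (-((x : ℝ) : ℂ)) := by
    intro x
    rw [← Complex.exp_conj, map_neg, Complex.conj_ofReal]
  have e0 : cexp ((0 - 2 * Real.pi * I * ξ) ^ 2 / (4 * Real.pi * y ^ 2)) =
      cexp (-((Real.pi * (1 : ℕ) * ‖((1 / y : ℝ) : ℂ) * (ξ : ℂ)‖ ^ 2 : ℝ) : ℂ)) := by
    congr 1
    have hn : ‖((1 / y : ℝ) : ℂ) * (ξ : ℂ)‖ ^ 2 = ξ ^ 2 / y ^ 2 := by
      rw [← Complex.ofReal_mul, Complex.norm_real, Real.norm_eq_abs, sq_abs, mul_pow]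
      ring
    rw [hn]
    push_cast
    field_simp
    ring_nf
    rw [Complex.I_sq]
    ring
  rcases hκ with rfl | rfl
  · have h0 := ft_real_J hy ξ 0
    simp only [zero_mul, Complex.exp_zero, one_mul] at h0
    have e1 : ∀ z : ℂ, hloc 1 0 z = cexp (-((Real.pi * (1 : ℕ) * ‖z‖ ^ 2 : ℝ) : ℂ)) := by
      intro z
      have := ft_hloc_nonneg 1 0 z
      simpa using this
    simp_rw [e1]
    rw [h0, hcexp, e0]
    simp
  · have hg : AEStronglyMeasurable (fun t : ℝ =>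
        cexp (-((Real.pi * (1 : ℕ) * ‖(y : ℂ) * (t : ℂ)‖ ^ 2 : ℝ) : ℂ)) * ee (-(t * ξ))) volume := by
      refine Continuous.aestronglyMeasurable ?_
      refine Continuous.mul (by fun_prop) (ft_ee_continuous.comp (by fun_prop))
    have hgn : ∀ t : ℝ, ‖cexp (-((Real.pi * (1 : ℕ) * ‖(y : ℂ) * (t : ℂ)‖ ^ 2 : ℝ) : ℂ)) *
        ee (-(t * ξ))‖ = Real.exp (-((Real.pi * y ^ 2) * ‖t‖ ^ 2)) := by
      intro t
      rw [norm_mul, ft_ee_norm, mul_one, Complex.norm_exp]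
      congr 1
      rw [← Complex.ofReal_neg, Complex.ofReal_re, norm_mul, mul_pow, Complex.norm_real,
        Real.norm_eq_abs, sq_abs, Complex.norm_real]
      push_cast
      ring
    have hd := ft_deriv (μ := (volume : Measure ℝ)) (L := fun t : ℝ => (t : ℂ))
      Complex.continuous_ofReal.aestronglyMeasurable hg (fun k R => by
        simp_rw [hgn, Complex.norm_real]
        exact ft_hint (by positivity) k R) 0 0
    have hfun : (fun s : ℂ => ∫ x : ℝ, ((x : ℂ)) ^ 0 * (cexp (s * (x : ℂ)) *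
        (cexp (-((Real.pi * (1 : ℕ) * ‖(y : ℂ) * (x : ℂ)‖ ^ 2 : ℝ) : ℂ)) * ee (-(x * ξ))))) =
        fun s : ℂ => (y : ℂ)⁻¹ * cexp ((s - 2 * Real.pi * I * ξ) ^ 2 / (4 * Real.pi * y ^ 2)) := by
      funext s
      simp only [pow_zero, one_mul]
      exact ft_real_J hy ξ s
    rw [hfun] at hd
    have hd2 : HasDerivAt (fun s : ℂ => (y : ℂ)⁻¹ *
        cexp ((s - 2 * Real.pi * I * ξ) ^ 2 / (4 * Real.pi * y ^ 2)))
        ((y : ℂ)⁻¹ * (cexp ((0 - 2 * Real.pi * I * ξ) ^ 2 / (4 * Real.pi * y ^ 2)) *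
          (2 * (0 - 2 * Real.pi * I * ξ) / (4 * Real.pi * y ^ 2)))) 0 := by
      have h1 : HasDerivAt (fun s : ℂ => (s - 2 * Real.pi * I * ξ)) 1 0 :=
        (hasDerivAt_id (0 : ℂ)).sub_const _
      have h2 := (h1.pow 2).div_const (4 * (Real.pi : ℂ) * (y : ℂ) ^ 2)
      have h3 := h2.cexp.const_mul (y : ℂ)⁻¹
      refine h3.congr_deriv ?_
      simp only [Nat.cast_ofNat, Nat.add_one_sub_one, pow_one, mul_one, Pi.pow_apply]
    have heq := hd.unique hd2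
    simp only [zero_add, pow_one, zero_mul, Complex.exp_zero, one_mul] at heq
    have e1 : ∀ z : ℂ, hloc 1 1 z = z * cexp (-((Real.pi * (1 : ℕ) * ‖z‖ ^ 2 : ℝ) : ℂ)) := by
      intro z
      have := ft_hloc_nonneg 1 1 z
      simpa using this
    simp_rw [e1]
    have h2 : ∀ t : ℝ, (y : ℂ) * (t : ℂ) *
        cexp (-((Real.pi * (1 : ℕ) * ‖(y : ℂ) * (t : ℂ)‖ ^ 2 : ℝ) : ℂ)) * ee (-(t * ξ)) =
        (y : ℂ) * ((t : ℂ) * (cexp (-((Real.pi * (1 : ℕ) * ‖(y : ℂ) * (t : ℂ)‖ ^ 2 : ℝ) : ℂ)) *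
          ee (-(t * ξ)))) := by
      intro t; ring
    simp_rw [h2]
    rw [integral_const_mul, heq, e0, map_mul, map_mul, hcexp, Complex.conj_ofReal,
      Complex.conj_ofReal]
    simp only [Int.natAbs_one, pow_one]
    push_cast
    field_simp
    ring

end Pool.Agent.HZ
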