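import Pool.Agent.Lib_helper41.HZF.Defs
import Pool.Agent.Lib_helper41.HZF.UNF1

/-! Block POI: multi-dimensional Poisson summation. -/

namespace Pool.Agent.HZ

open NumberField NumberField.InfinitePlace NumberField.Units Complex MeasureTheory Filter Topology

section poi

variable {ι : Type} [Fintype ι]

theorem poi_ee_norm (x : ℝ) : ‖ee x‖ = 1 := by
  unfold ee
  rw [show (2 * (Real.pi : ℂ) * I * x) = ((2 * Real.pi * x : ℝ) : ℂ) * I by push_cast; ring,
    Complex.norm_exp_ofReal_mul_I]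

theorem poi_ee_add (x y : ℝ) : ee (x + y) = ee x * ee y := by
  unfold ee
  rw [← Complex.exp_add]
  congr 1
  push_cast
  ring

theorem poi_ee_int (n : ℤ) : ee (n : ℝ) = 1 := by
  unfold ee
  rw [Complex.exp_eq_one_iff]
  exact ⟨n, by push_cast; ring⟩

theorem poi_ee_continuous : Continuous ee := by
  unfold ee
  fun_prop

theorem poi_summable_prod {f : ℤ → ℝ} (hf : Summable f) (h0 : ∀ n, 0 ≤ f n) :
    Summable (fun m : ι → ℤ => ∏ i, f (m i)) := by
  classical
  refine summable_of_sum_le (fun m => Finset.prod_nonneg fun i _ => h0 _)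
    (c := (∑' n, f n) ^ Fintype.card ι) fun s => ?_
  have hsub : s ⊆ Fintype.piFinset (fun i => s.image (fun m : ι → ℤ => m i)) := by
    intro m hm
    rw [Fintype.mem_piFinset]
    exact fun i => Finset.mem_image_of_mem (fun m : ι → ℤ => m i) hm
  calc ∑ m ∈ s, ∏ i, f (m i)
      ≤ ∑ m ∈ Fintype.piFinset (fun i => s.image (fun m : ι → ℤ => m i)), ∏ i, f (m i) :=
        Finset.sum_le_sum_of_subset_of_nonneg hsub
          (fun m _ _ => Finset.prod_nonneg fun i _ => h0 _)
    _ = ∏ i : ι, ∑ j ∈ s.image (fun m : ι → ℤ => m i), f j :=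
        (Finset.prod_univ_sum (fun i => s.image (fun m : ι → ℤ => m i)) (fun _ j => f j)).symm
    _ ≤ ∏ i : ι, ∑' n, f n := by
        refine Finset.prod_le_prod (fun i _ => Finset.sum_nonneg fun j _ => h0 j) fun i _ => ?_
        exact hf.sum_le_tsum _ (fun j _ => h0 j)
    _ = _ := by rw [Finset.prod_const, Finset.card_univ]

theorem poi_summable_exp_int {c : ℝ} (hc : 0 < c) :
    Summable (fun n : ℤ => Real.exp (-(c * |(n : ℝ)|))) := by
  have h1 : Summable (fun n : ℕ => Real.exp (-(c * |((n : ℤ) : ℝ)|))) := by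
    have h2 : Summable (fun n : ℕ => (Real.exp (-c)) ^ n) :=
      summable_geometric_of_lt_one (Real.exp_nonneg _) (Real.exp_lt_one_iff.mpr (by linarith))
    refine h2.congr fun n => ?_
    rw [← Real.exp_nat_mul]
    congr 1
    rw [Int.cast_natCast, abs_of_nonneg (Nat.cast_nonneg n)]
    ring
  refine Summable.of_nat_of_neg h1 ?_
  refine h1.congr fun n => ?_
  simp

theorem poi_summable_exp {c : ℝ} (hc : 0 < c) :
    Summable (fun m : ι → ℤ => Real.exp (-(c * ‖(fun i => (m i : ℝ))‖))) := by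
  set N : ℝ := (Fintype.card ι : ℝ) + 1 with hN
  have hN0 : 0 < N := by positivity
  have h1 := poi_summable_prod (ι := ι) (poi_summable_exp_int (c := c / N) (by positivity))
    (fun n => Real.exp_nonneg _)
  refine Summable.of_nonneg_of_le (fun m => Real.exp_nonneg _) (fun m => ?_) h1
  rw [← Real.exp_sum]
  refine Real.exp_le_exp.mpr ?_
  rw [Finset.sum_neg_distrib, ← Finset.mul_sum, neg_le_neg_iff]
  have h2 : ∑ i, |(m i : ℝ)| ≤ N * ‖(fun i => (m i : ℝ))‖ := by
    calc ∑ i, |(m i : ℝ)| ≤ ∑ _i : ι, ‖(fun i => (m i : ℝ))‖ :=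
          Finset.sum_le_sum fun i _ => norm_le_pi_norm (fun i => (m i : ℝ)) i
      _ = (Fintype.card ι : ℝ) * ‖(fun i => (m i : ℝ))‖ := by
          rw [Finset.sum_const, Finset.card_univ, nsmul_eq_mul]
      _ ≤ _ := by
          refine mul_le_mul_of_nonneg_right ?_ (norm_nonneg _)
          rw [hN]; linarith
  calc c / N * ∑ i, |(m i : ℝ)| ≤ c / N * (N * ‖(fun i => (m i : ℝ))‖) := by gcongr
    _ = _ := by field_simp

theorem poi_integrable_exp {c : ℝ} (hc : 0 < c) :
    Integrable (fun x : ι → ℝ => Real.exp (-(c * ‖x‖))) := by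
  set N : ℕ := Fintype.card ι + 1 with hN
  have h1 : Integrable (fun x : ι → ℝ => (1 + ‖x‖) ^ (-(N : ℝ))) := by
    refine integrable_one_add_norm ?_
    rw [Module.finrank_fintype_fun_eq_card, hN]
    push_cast
    linarith
  refine (h1.const_mul ((N.factorial : ℝ) * Real.exp c / c ^ N)).mono'
    (Continuous.aestronglyMeasurable (by fun_prop)) (Eventually.of_forall fun x => ?_)
  rw [Real.norm_of_nonneg (Real.exp_nonneg _), Real.rpow_neg (by positivity), Real.rpow_natCast]
  have h2 := Real.pow_div_factorial_le_exp (c * (1 + ‖x‖)) (by positivity) N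
  rw [div_le_iff₀ (by positivity), mul_pow] at h2
  have h3 : 0 < (1 + ‖x‖) ^ N := by positivity
  have h4 : 0 < c ^ N := by positivity
  rw [div_mul_eq_mul_div, le_div_iff₀ h4, ← div_eq_mul_inv, le_div_iff₀ h3]
  have h5 : Real.exp (c * (1 + ‖x‖)) = Real.exp c * Real.exp (c * ‖x‖) := by
    rw [← Real.exp_add]; ring_nf
  have h6 : Real.exp (-(c * ‖x‖)) * Real.exp (c * ‖x‖) = 1 := by
    rw [← Real.exp_add]; simp
  have h7 : 0 < Real.exp (-(c * ‖x‖)) := Real.exp_pos _
  calc Real.exp (-(c * ‖x‖)) * c ^ N * (1 + ‖x‖) ^ N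
      = Real.exp (-(c * ‖x‖)) * (c ^ N * (1 + ‖x‖) ^ N) := by ring
    _ ≤ Real.exp (-(c * ‖x‖)) * (Real.exp (c * (1 + ‖x‖)) * N.factorial) := by gcongr
    _ = (N.factorial : ℝ) * Real.exp c * (Real.exp (-(c * ‖x‖)) * Real.exp (c * ‖x‖)) := by
        rw [h5]; ring
    _ = _ := by rw [h6, mul_one]

variable {f : (ι → ℝ) → ℂ} {C c : ℝ}

theorem poi_bound (hC : 0 ≤ C) (hc : 0 < c) (hfC : ∀ x, ‖f x‖ ≤ C * Real.exp (-(c * ‖x‖)))
    {R : ℝ} {x : ι → ℝ} (hx : ‖x‖ ≤ R) (m : ι → ℤ) :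
    ‖f (fun i => x i + m i)‖ ≤ C * Real.exp (c * R) * Real.exp (-(c * ‖(fun i => (m i : ℝ))‖)) := by
  refine (hfC _).trans ?_
  rw [mul_assoc, ← Real.exp_add]
  refine mul_le_mul_of_nonneg_left (Real.exp_le_exp.mpr ?_) hC
  have h1 : ‖(fun i => (m i : ℝ))‖ ≤ ‖(fun i => x i + m i)‖ + ‖x‖ := by
    have h2 : (fun i => (m i : ℝ)) = (fun i => x i + m i) - x := by
      funext i; simp
    rw [h2]
    exact norm_sub_le _ _
  nlinarith

theorem poi_summable (hC : 0 ≤ C) (hc : 0 < c) (hfC : ∀ x, ‖f x‖ ≤ C * Real.exp (-(c * ‖x‖)))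
    (x : ι → ℝ) : Summable (fun m : ι → ℤ => f (fun i => x i + m i)) := by
  refine Summable.of_norm_bounded ((poi_summable_exp hc).mul_left (C * Real.exp (c * ‖x‖)))
    fun m => ?_
  exact poi_bound hC hc hfC le_rfl m

theorem poi_continuous (hf : Continuous f) (hC : 0 ≤ C) (hc : 0 < c)
    (hfC : ∀ x, ‖f x‖ ≤ C * Real.exp (-(c * ‖x‖))) :
    Continuous (fun x : ι → ℝ => ∑' m : ι → ℤ, f (fun i => x i + m i)) := by
  rw [continuous_iff_continuousAt]
  intro x₀
  have h1 : ContinuousOn (fun x : ι → ℝ => ∑' m : ι → ℤ, f (fun i => x i + m i))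
      (Metric.ball x₀ 1) := by
    refine continuousOn_tsum (fun m => Continuous.continuousOn ?_)
      ((poi_summable_exp hc).mul_left (C * Real.exp (c * (‖x₀‖ + 1)))) fun m x hx => ?_
    · exact hf.comp (by fun_prop)
    · refine poi_bound hC hc hfC ?_ m
      have h2 : ‖x - x₀‖ < 1 := by simpa [dist_eq_norm] using hx
      have h3 := norm_add_le (x - x₀) x₀
      rw [sub_add_cancel] at h3
      linarith
  exact h1.continuousAt (Metric.ball_mem_nhds x₀ one_pos)

omit [Fintype ι] in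
theorem poi_periodic (f : (ι → ℝ) → ℂ) (x : ι → ℝ) (n : ι → ℤ) :
    ∑' m : ι → ℤ, f (fun i => (x i + n i) + m i) = ∑' m : ι → ℤ, f (fun i => x i + m i) := by
  rw [← (Equiv.addLeft n).tsum_eq (fun m : ι → ℤ => f (fun i => x i + m i))]
  refine tsum_congr fun m => ?_
  congr 1
  funext i
  simp only [Equiv.coe_addLeft, Pi.add_apply]
  push_cast
  ring

theorem poi_mFourier (k : ι → ℤ) (x : ι → ℝ) :
    UnitAddTorus.mFourier k (fun i => (x i : UnitAddCircle)) = ee (∑ i, k i * x i) := by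
  show ∏ i, fourier (k i) (x i : UnitAddCircle) = _
  simp_rw [fourier_coe_apply]
  rw [← Complex.exp_sum]
  unfold ee
  congr 1
  push_cast
  rw [Finset.mul_sum]
  refine Finset.sum_congr rfl fun i _ => ?_
  simp
  ring

theorem poisson (f : (ι → ℝ) → ℂ) (hf : Continuous f) (C c : ℝ) (hc : 0 < c)
    (hfC : ∀ x, ‖f x‖ ≤ C * Real.exp (-(c * ‖x‖)))
    (hs : Summable (fun k : ι → ℤ => ‖∫ t : ι → ℝ, f t * ee (-(∑ i, k i * t i))‖)) (x : ι → ℝ) :
    ∑' m : ι → ℤ, f (fun i => x i + m i) =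
      ∑' k : ι → ℤ, (∫ t : ι → ℝ, f t * ee (-(∑ i, k i * t i))) * ee (∑ i, k i * x i) := by
  have hC : 0 ≤ C := by
    have h := (norm_nonneg _).trans (hfC 0)
    simpa using h
  set P : (ι → ℝ) → ℂ := fun x => ∑' m : ι → ℤ, f (fun i => x i + m i) with hP
  have hPc : Continuous P := poi_continuous hf hC hc hfC
  have hPper : ∀ (x : ι → ℝ) (n : ι → ℤ), P (fun i => x i + n i) = P x :=
    fun x n => poi_periodic f x n
  set π : (ι → ℝ) → UnitAddTorus ι := fun x i => (x i : UnitAddCircle) with hπ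
  set g₀ : UnitAddTorus ι → ℂ := fun z => P (fun i => (AddCircle.equivIco 1 0 (z i)).1) with hg₀
  have hg₀π : ∀ x, g₀ (π x) = P x := by
    intro x
    have h1 : ∀ i, ∃ n : ℤ, ((AddCircle.equivIco 1 0 (π x i)).1 : ℝ) = x i + n := by
      intro i
      have h2 : (((AddCircle.equivIco 1 0 (π x i)).1 : ℝ) : UnitAddCircle) = (x i : UnitAddCircle) :=
        AddCircle.coe_equivIco
      have h3 : (((AddCircle.equivIco 1 0 (π x i)).1 - x i : ℝ) : UnitAddCircle) = 0 := by
        rw [AddCircle.coe_sub, h2, sub_self]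
      obtain ⟨n, hn⟩ := (AddCircle.coe_eq_zero_iff (1 : ℝ)).mp h3
      refine ⟨n, ?_⟩
      have : (n : ℝ) = (AddCircle.equivIco 1 0 (π x i)).1 - x i := by simpa using hn
      linarith
    choose n hn using h1
    show P (fun i => (AddCircle.equivIco 1 0 (π x i)).1) = P x
    rw [show (fun i => ((AddCircle.equivIco 1 0 (π x i)).1 : ℝ)) = fun i => x i + n i from
      funext hn, hPper]
  have hgc : Continuous g₀ := by
    have hq : IsOpenQuotientMap (Pi.map (fun (_ : ι) (t : ℝ) => (t : UnitAddCircle))) :=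
      IsOpenQuotientMap.piMap fun _ => QuotientAddGroup.isOpenQuotientMap_mk
    rw [← hq.continuous_comp_iff]
    have : g₀ ∘ (Pi.map (fun (_ : ι) (t : ℝ) => (t : UnitAddCircle))) = P := by
      funext x
      exact hg₀π x
    rw [this]
    exact hPc
  set g : C(UnitAddTorus ι, ℂ) := ⟨g₀, hgc⟩ with hg
  have hfi : Integrable f :=
    ((poi_integrable_exp hc).const_mul C).mono' hf.aestronglyMeasurable
      (Eventually.of_forall hfC)
  have hcoef : ∀ k : ι → ℤ, UnitAddTorus.mFourierCoeff g k =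
      ∫ t : ι → ℝ, f t * ee (-(∑ i, k i * t i)) := by
    intro k
    set h : (ι → ℝ) → ℂ := fun t => f t * ee (-(∑ i, k i * t i)) with hh
    have hhi : Integrable h := by
      refine hfi.mul_bdd (c := 1) ?_ (Eventually.of_forall fun t => ?_)
      · exact (poi_ee_continuous.comp (by fun_prop)).aestronglyMeasurable
      · rw [poi_ee_norm]
    obtain ⟨_, h2⟩ := cube_unfold h hhi 1 (Or.inl rfl)
    rw [← h2, UnitAddTorus.mFourierCoeff_eq_integral g k 0]
    have hset : ({x : ι → ℝ | ∀ i, x i ∈ Set.Ioc ((0 : ι → ℝ) i) ((0 : ι → ℝ) i + 1)}) =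
        Set.pi Set.univ (fun i => Set.Ioc ((0 : ι → ℝ) i) ((1 : ι → ℝ) i)) := by
      ext x
      simp [Set.mem_pi]
    have hae : (Set.pi Set.univ (fun i => Set.Ioc ((0 : ι → ℝ) i) ((1 : ι → ℝ) i))) =ᵐ[volume]
        Set.Icc (0 : ι → ℝ) 1 := Measure.univ_pi_Ioc_ae_eq_Icc
    rw [hset, setIntegral_congr_set hae]
    refine integral_congr_ae (Eventually.of_forall fun x => ?_)
    show UnitAddTorus.mFourier (-k) (fun i => (x i : UnitAddCircle)) • g₀ (π x) = _
    rw [hg₀π, poi_mFourier, smul_eq_mul, hP]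
    simp only [one_mul]
    rw [← tsum_mul_left]
    refine tsum_congr fun m => ?_
    rw [hh]
    simp only
    rw [mul_comm]
    congr 1
    have e1 : -(∑ i, (k i : ℝ) * (x i + m i)) =
        ∑ i, (((-k) i : ℤ) : ℝ) * x i + ((-(∑ i, k i * m i) : ℤ) : ℝ) := by
      push_cast
      simp only [Pi.neg_apply, Int.cast_neg, neg_mul, mul_add, Finset.sum_add_distrib,
        Finset.sum_neg_distrib, neg_add]
    rw [e1, poi_ee_add, poi_ee_int, mul_one]
  have hsum : Summable (UnitAddTorus.mFourierCoeff g) := by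
    refine Summable.of_norm ?_
    simp_rw [hcoef]
    exact hs
  have hfin := UnitAddTorus.hasSum_mFourier_series_apply_of_summable hsum (π x)
  have h1 : g (π x) = P x := hg₀π x
  rw [h1] at hfin
  rw [show ∑' m : ι → ℤ, f (fun i => x i + m i) = P x from rfl, ← hfin.tsum_eq]
  refine tsum_congr fun k => ?_
  rw [hcoef, smul_eq_mul, poi_mFourier]

end poi

end Pool.Agent.HZ
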