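import Pool.Agent.Lib_helper41.HZF.Defs
import Pool.Agent.Lib_helper41.HZF.FT
import Pool.Agent.Lib_helper41.HZF.KG
import Pool.Agent.Lib_helper41.HZF.LAT
import Pool.Agent.Lib_helper41.HZF.POI

/-!
# Block NFP: Poisson summation over an ideal lattice (helper93)
-/

namespace Pool.Agent.HZ

open NumberField NumberField.InfinitePlace NumberField.Units Complex MeasureTheory Filter Topology
open NumberField.mixedEmbedding Module
open scoped nonZeroDivisors



lemma nfp_hloc_eq (m : ℕ) (κ : ℤ) (z : ℂ) :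
    hloc m κ z = (if 0 ≤ κ then z ^ κ.natAbs else (starRingEnd ℂ z) ^ κ.natAbs) *
      cexp (-((Real.pi * m * ‖z‖ ^ 2 : ℝ) : ℂ)) := by
  unfold hloc
  congr 1
  rcases eq_or_ne z 0 with rfl | hz
  · by_cases hκ : κ = 0
    · subst hκ; simp
    · have h1 : κ.natAbs ≠ 0 := by simpa using hκ
      simp [h1]
  · have hn : (‖z‖ : ℂ) ≠ 0 := by simpa using hz
    split_ifs with h
    · obtain ⟨n, rfl⟩ := Int.eq_ofNat_of_zero_le h
      simp only [Int.natAbs_natCast, zpow_natCast]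
      rw [div_pow, mul_div_cancel₀]
      exact pow_ne_zero _ hn
    · push Not at h
      obtain ⟨n, rfl⟩ : ∃ n : ℕ, κ = -(n : ℤ) := ⟨κ.natAbs, by omega⟩
      simp only [Int.natAbs_neg, Int.natAbs_natCast, zpow_neg, zpow_natCast]
      have h3 : starRingEnd ℂ z = (‖z‖ : ℂ) ^ 2 / z := by
        rw [← Complex.conj_mul', mul_div_assoc, div_self hz, mul_one]
      rw [h3, div_pow, div_pow, inv_div, ← mul_div_assoc, ← pow_mul, ← pow_add]
      congr 2; ring

lemma nfp_hloc_continuous (m : ℕ) (κ : ℤ) : Continuous (hloc m κ) := by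
  have : hloc m κ = fun z => (if 0 ≤ κ then z ^ κ.natAbs else (starRingEnd ℂ z) ^ κ.natAbs) *
      cexp (-((Real.pi * m * ‖z‖ ^ 2 : ℝ) : ℂ)) := funext (nfp_hloc_eq m κ)
  rw [this]
  split_ifs <;> fun_prop

lemma nfp_hloc_norm (m : ℕ) (κ : ℤ) (z : ℂ) :
    ‖hloc m κ z‖ = ‖z‖ ^ κ.natAbs * Real.exp (-(Real.pi * m * ‖z‖ ^ 2)) := by
  rw [nfp_hloc_eq, norm_mul, Complex.norm_exp]
  congr 1
  split_ifs <;> simp

/-- `|hloc| ≤ C exp(-|z|)`. -/
lemma nfp_hloc_le {m : ℕ} (hm : 0 < m) (κ : ℤ) {y : ℝ} (hy : 0 < y) : ∃ C : ℝ, 0 < C ∧ ∀ z : ℂ,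
    ‖hloc m κ ((y : ℂ) * z)‖ ≤ C * Real.exp (-‖z‖) := by
  set k := κ.natAbs
  have hm' : (0 : ℝ) < m := by exact_mod_cast hm
  have hA : 0 < Real.pi * m * y ^ 2 := by positivity
  refine ⟨k.factorial * Real.exp ((y + 1) ^ 2 / (4 * (Real.pi * m * y ^ 2))), by positivity,
    fun z => ?_⟩
  rw [nfp_hloc_norm]
  have hn : ‖(y : ℂ) * z‖ = y * ‖z‖ := by simp [abs_of_pos hy]
  rw [hn]
  have h1 : (y * ‖z‖) ^ k ≤ k.factorial * Real.exp (y * ‖z‖) := by
    have := Real.pow_div_factorial_le_exp (y * ‖z‖) (by positivity) k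
    rw [div_le_iff₀ (by positivity)] at this
    linarith
  calc (y * ‖z‖) ^ k * Real.exp (-(Real.pi * m * (y * ‖z‖) ^ 2))
      ≤ (k.factorial * Real.exp (y * ‖z‖)) * Real.exp (-(Real.pi * m * (y * ‖z‖) ^ 2)) := by
        gcongr
    _ = k.factorial * Real.exp (y * ‖z‖ - Real.pi * m * (y * ‖z‖) ^ 2) := by
        rw [mul_assoc, ← Real.exp_add]; congr 2
    _ ≤ k.factorial * Real.exp ((y + 1) ^ 2 / (4 * (Real.pi * m * y ^ 2)) + -‖z‖) := by
        have h2 : y * ‖z‖ - Real.pi * m * (y * ‖z‖) ^ 2 + ‖z‖ ≤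
            (y + 1) ^ 2 / (4 * (Real.pi * m * y ^ 2)) := by
          rw [le_div_iff₀ (by positivity)]
          nlinarith [sq_nonneg ((y + 1) - 2 * (Real.pi * m * y ^ 2) * ‖z‖)]
        have h3 : y * ‖z‖ - Real.pi * m * (y * ‖z‖) ^ 2 ≤
          (y + 1) ^ 2 / (4 * (Real.pi * m * y ^ 2)) + -‖z‖ := by linarith
        exact mul_le_mul_of_nonneg_left (Real.exp_le_exp.mpr h3) (by positivity)
    _ = _ := by rw [Real.exp_add, ← mul_assoc]




variable {K : Type} [Field K] [NumberField K]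

open scoped Classical in
/-- The extension of `Hf` to the mixed space. -/
noncomputable def nfp_Hm (κ : InfinitePlace K → ℤ) (y : InfinitePlace K → ℝ)
    (z : mixedSpace K) : ℂ :=
  (∏ w : {w : InfinitePlace K // IsReal w}, hloc 1 (κ w) ((y w : ℂ) * (z.1 w : ℂ))) *
    ∏ w : {w : InfinitePlace K // IsComplex w}, hloc 2 (κ w) ((y w : ℂ) * z.2 w)

lemma nfp_Hm_embed (κ : InfinitePlace K → ℤ) (y : InfinitePlace K → ℝ) (a : K) :
    nfp_Hm κ y (mixedEmbedding K a) = Hf κ y a := by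
  classical
  unfold nfp_Hm Hf
  rw [prod_eq_prod_mul_prod]
  congr 1
  · refine Finset.prod_congr rfl fun w _ => ?_
    rw [mixedEmbedding_apply_isReal, mult_isReal, embedding_of_isReal_apply]
  · refine Finset.prod_congr rfl fun w _ => ?_
    rw [mixedEmbedding_apply_isComplex, mult_isComplex]

lemma nfp_Hm_continuous (κ : InfinitePlace K → ℤ) (y : InfinitePlace K → ℝ) :
    Continuous (nfp_Hm (K := K) κ y) := by
  classical
  unfold nfp_Hm
  refine Continuous.mul ?_ ?_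
  · refine continuous_finsetProd _ fun w _ => (nfp_hloc_continuous _ _).comp ?_
    fun_prop
  · refine continuous_finsetProd _ fun w _ => (nfp_hloc_continuous _ _).comp ?_
    fun_prop

open scoped Classical in
lemma nfp_Hm_le (κ : InfinitePlace K → ℤ) {y : InfinitePlace K → ℝ} (hy : ∀ w, 0 < y w) :
    ∃ C : ℝ, 0 < C ∧ ∀ z : mixedSpace K, ‖nfp_Hm κ y z‖ ≤ C * Real.exp (-‖z‖) := by
  choose C1 hC1 h1 using fun w : {w : InfinitePlace K // IsReal w} =>
    nfp_hloc_le (m := 1) one_pos (κ w) (hy w)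
  choose C2 hC2 h2 using fun w : {w : InfinitePlace K // IsComplex w} =>
    nfp_hloc_le (m := 2) two_pos (κ w) (hy w)
  refine ⟨(∏ w, C1 w) * ∏ w, C2 w, mul_pos (Finset.prod_pos fun w _ => hC1 w)
    (Finset.prod_pos fun w _ => hC2 w), fun z => ?_⟩
  have hz : ‖z‖ ≤ ∑ w, ‖z.1 w‖ + ∑ w, ‖z.2 w‖ := by
    rw [Prod.norm_def]
    have e1 : 0 ≤ ∑ w, ‖z.1 w‖ := Finset.sum_nonneg fun _ _ => norm_nonneg _
    have e2 : 0 ≤ ∑ w, ‖z.2 w‖ := Finset.sum_nonneg fun _ _ => norm_nonneg _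
    refine max_le ?_ ?_
    · refine (pi_norm_le_iff_of_nonneg (by positivity)).mpr fun w => ?_
      have := Finset.single_le_sum (f := fun w => ‖z.1 w‖) (fun _ _ => norm_nonneg _)
        (Finset.mem_univ w)
      linarith
    · refine (pi_norm_le_iff_of_nonneg (by positivity)).mpr fun w => ?_
      have := Finset.single_le_sum (f := fun w => ‖z.2 w‖) (fun _ _ => norm_nonneg _)
        (Finset.mem_univ w)
      linarith
  calc ‖nfp_Hm κ y z‖ = (∏ w : {w : InfinitePlace K // IsReal w},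
          ‖hloc 1 (κ w) ((y w : ℂ) * (z.1 w : ℂ))‖) *
        ∏ w : {w : InfinitePlace K // IsComplex w}, ‖hloc 2 (κ w) ((y w : ℂ) * z.2 w)‖ := by
        unfold nfp_Hm; rw [norm_mul, norm_prod, norm_prod]
    _ ≤ (∏ w, C1 w * Real.exp (-‖z.1 w‖)) * ∏ w, C2 w * Real.exp (-‖z.2 w‖) := by
        refine mul_le_mul (Finset.prod_le_prod (fun _ _ => norm_nonneg _) fun w _ => ?_)
          (Finset.prod_le_prod (fun _ _ => norm_nonneg _) fun w _ => h2 w _)
          (Finset.prod_nonneg fun _ _ => norm_nonneg _) ?_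
        · have := h1 w (z.1 w : ℂ)
          rwa [Complex.norm_real] at this
        · exact Finset.prod_nonneg fun w _ => mul_nonneg (hC1 w).le (Real.exp_nonneg _)
    _ = ((∏ w, C1 w) * ∏ w, C2 w) * Real.exp (-(∑ w, ‖z.1 w‖ + ∑ w, ‖z.2 w‖)) := by
        rw [Finset.prod_mul_distrib, Finset.prod_mul_distrib, ← Real.exp_sum, ← Real.exp_sum,
          neg_add, Real.exp_add, Finset.sum_neg_distrib, Finset.sum_neg_distrib]
        ring
    _ ≤ _ := by
        refine mul_le_mul_of_nonneg_left (Real.exp_le_exp.mpr (by linarith)) ?_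
        exact (mul_pos (Finset.prod_pos fun w _ => hC1 w) (Finset.prod_pos fun w _ => hC2 w)).le

open scoped Classical in
/-- The trace pairing on the mixed space. -/
noncomputable def nfp_tr (z ξ : mixedSpace K) : ℝ :=
  (∑ w : {w : InfinitePlace K // IsReal w}, z.1 w * ξ.1 w) +
    ∑ w : {w : InfinitePlace K // IsComplex w}, 2 * (z.2 w * ξ.2 w).re

lemma nfp_tr_add (z z' ξ : mixedSpace K) : nfp_tr (z + z') ξ = nfp_tr z ξ + nfp_tr z' ξ := by
  unfold nfp_tr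
  simp only [Prod.fst_add, Prod.snd_add, Pi.add_apply, add_mul, Finset.sum_add_distrib,
    Complex.add_re, mul_add]
  ring

lemma nfp_tr_smul (c : ℝ) (z ξ : mixedSpace K) : nfp_tr (c • z) ξ = c * nfp_tr z ξ := by
  unfold nfp_tr
  rw [mul_add, Finset.mul_sum, Finset.mul_sum]
  congr 1
  · refine Finset.sum_congr rfl fun w _ => ?_
    simp [mul_assoc]
  · refine Finset.sum_congr rfl fun w _ => ?_
    simp
    ring

lemma nfp_tr_sum {ι : Type*} (s : Finset ι) (z : ι → mixedSpace K) (ξ : mixedSpace K) :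
    nfp_tr (∑ i ∈ s, z i) ξ = ∑ i ∈ s, nfp_tr (z i) ξ := by
  classical
  induction s using Finset.induction_on with
  | empty => simp [nfp_tr]
  | insert a s ha ih => rw [Finset.sum_insert ha, Finset.sum_insert ha, nfp_tr_add, ih]

lemma nfp_tr_embed (a b : K) :
    nfp_tr (mixedEmbedding K a) (mixedEmbedding K b) = ((Algebra.trace ℚ K (a * b) : ℚ) : ℝ) := by
  classical
  have h1 : ((Algebra.trace ℚ K (a * b) : ℚ) : ℂ) = ∑ φ : K →+* ℂ, φ (a * b) := by
    have := trace_eq_sum_embeddings (K := ℚ) (L := K) ℂ (x := a * b)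
    rw [eq_ratCast] at this
    rw [this]
    exact (Fintype.sum_equiv (RingHom.equivRatAlgHom K ℂ) _ _
      (fun φ => by simp [RingHom.equivRatAlgHom_apply])).symm
  rw [← Equiv.sum_comp (indexEquiv K), Fintype.sum_sum_type, Fintype.sum_prod_type] at h1
  simp only [Fin.sum_univ_two, indexEquiv_apply_isReal, indexEquiv_apply_isComplex_fst,
    indexEquiv_apply_isComplex_snd] at h1
  have h2 : ((nfp_tr (mixedEmbedding K a) (mixedEmbedding K b) : ℝ) : ℂ) =
      (((Algebra.trace ℚ K (a * b) : ℚ) : ℝ) : ℂ) := by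
    rw [show ((((Algebra.trace ℚ K (a * b) : ℚ) : ℝ) : ℂ)) =
      ((Algebra.trace ℚ K (a * b) : ℚ) : ℂ) by norm_cast, h1]
    unfold nfp_tr
    push_cast
    congr 1
    · refine Finset.sum_congr rfl fun w _ => ?_
      rw [mixedEmbedding_apply_isReal, mixedEmbedding_apply_isReal, embedding_of_isReal_apply,
        embedding_of_isReal_apply, map_mul]
    · refine Finset.sum_congr rfl fun w _ => ?_
      rw [mixedEmbedding_apply_isComplex, mixedEmbedding_apply_isComplex,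
        ComplexEmbedding.conjugate_coe_eq, ← map_mul, Complex.add_conj]
      push_cast
      rfl
  exact_mod_cast h2

lemma nfp_ee_add (a b : ℝ) : ee (a + b) = ee a * ee b := by
  unfold ee
  rw [← Complex.exp_add]
  congr 1
  push_cast
  ring

lemma nfp_ee_sum {ι : Type*} (s : Finset ι) (f : ι → ℝ) : ee (∑ i ∈ s, f i) = ∏ i ∈ s, ee (f i) := by
  classical
  induction s using Finset.induction_on with
  | empty => simp [ee]
  | insert a s ha ih => rw [Finset.sum_insert ha, Finset.prod_insert ha, nfp_ee_add, ih]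

open scoped Classical in
/-- Fourier transform on the mixed space. -/
theorem nfp_ft {κ : InfinitePlace K → ℤ}
    (hκ : ∀ w : InfinitePlace K, w.IsReal → κ w = 0 ∨ κ w = 1) {y : InfinitePlace K → ℝ}
    (hy : ∀ w, 0 < y w) (ξ : mixedSpace K) :
    ∫ z : mixedSpace K, nfp_Hm κ y z * ee (-(nfp_tr z ξ)) =
      (((2 : ℂ)⁻¹ ^ (Fintype.card {w : InfinitePlace K // IsComplex w})) /
        ((∏ w, y w ^ w.mult : ℝ) : ℂ)) * (-I) ^ (∑ w, (κ w).natAbs) *
        starRingEnd ℂ (nfp_Hm κ (fun w => 1 / y w) ξ) := by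
  have e1 : ∀ z : mixedSpace K, nfp_Hm κ y z * ee (-(nfp_tr z ξ)) =
      (∏ w : {w : InfinitePlace K // IsReal w},
        (hloc 1 (κ w) ((y w : ℂ) * (z.1 w : ℂ)) * ee (-(z.1 w * ξ.1 w)))) *
      ∏ w : {w : InfinitePlace K // IsComplex w},
        (hloc 2 (κ w) ((y w : ℂ) * z.2 w) * ee (-(2 * (z.2 w * ξ.2 w).re))) := by
    intro z
    unfold nfp_Hm nfp_tr
    rw [neg_add, nfp_ee_add, ← Finset.sum_neg_distrib, ← Finset.sum_neg_distrib, nfp_ee_sum,
      nfp_ee_sum, Finset.prod_mul_distrib, Finset.prod_mul_distrib]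
    ring
  simp_rw [e1]
  rw [Measure.volume_eq_prod, integral_prod_mul
    (fun x : {w : InfinitePlace K // IsReal w} → ℝ => ∏ w : {w : InfinitePlace K // IsReal w},
        (hloc 1 (κ w) ((y w : ℂ) * (x w : ℂ)) * ee (-(x w * ξ.1 w))))
    (fun x : {w : InfinitePlace K // IsComplex w} → ℂ =>
      ∏ w : {w : InfinitePlace K // IsComplex w},
        (hloc 2 (κ w) ((y w : ℂ) * x w) * ee (-(2 * (x w * ξ.2 w).re)))),
    integral_fintype_prod_volume_eq_prod
      (fun (w : {w : InfinitePlace K // IsReal w}) (t : ℝ) =>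
        hloc 1 (κ w) ((y w : ℂ) * (t : ℂ)) * ee (-(t * ξ.1 w))),
    integral_fintype_prod_volume_eq_prod
      (fun (w : {w : InfinitePlace K // IsComplex w}) (t : ℂ) =>
        hloc 2 (κ w) ((y w : ℂ) * t) * ee (-(2 * (t * ξ.2 w).re)))]
  have e2 : ∀ w : {w : InfinitePlace K // IsReal w},
      ∫ t : ℝ, hloc 1 (κ w) ((y w : ℂ) * (t : ℂ)) * ee (-(t * ξ.1 w)) =
      (y w : ℂ)⁻¹ * (-I) ^ (κ w).natAbs *
        starRingEnd ℂ (hloc 1 (κ w) (((1 / y w : ℝ) : ℂ) * (ξ.1 w : ℂ))) := fun w =>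
    ft_real (hκ w w.2) (hy w) (ξ.1 w)
  have e3 : ∀ w : {w : InfinitePlace K // IsComplex w},
      ∫ t : ℂ, hloc 2 (κ w) ((y w : ℂ) * t) * ee (-(2 * (t * ξ.2 w).re)) =
      ((y w : ℂ) ^ 2)⁻¹ * (1 / 2) * (-I) ^ (κ w).natAbs *
        starRingEnd ℂ (hloc 2 (κ w) (((1 / y w : ℝ) : ℂ) * ξ.2 w)) := fun w =>
    ft_complex (κ w) (hy w) (ξ.2 w)
  simp_rw [e2, e3, Finset.prod_mul_distrib]
  have e4 : ((∏ w, y w ^ w.mult : ℝ) : ℂ) =
      (∏ w : {w : InfinitePlace K // IsReal w}, (y w : ℂ)) *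
        ∏ w : {w : InfinitePlace K // IsComplex w}, (y w : ℂ) ^ 2 := by
    rw [prod_eq_prod_mul_prod]
    push_cast
    simp only [mult_isReal, mult_isComplex, pow_one]
  have e5 : (-I) ^ (∑ w, (κ w).natAbs) =
      (∏ w : {w : InfinitePlace K // IsReal w}, (-I) ^ (κ w).natAbs) *
        ∏ w : {w : InfinitePlace K // IsComplex w}, (-I) ^ (κ w).natAbs := by
    rw [← Finset.prod_pow_eq_pow_sum, prod_eq_prod_mul_prod]
  rw [e4, e5]
  unfold nfp_Hm
  rw [map_mul, map_prod, map_prod, Finset.prod_inv_distrib, Finset.prod_inv_distrib,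
    Finset.prod_const, Finset.card_univ]
  simp only [div_eq_mul_inv, mul_inv]
  ring




/-- Change of variables to the coordinates of a basis. -/
theorem nfp_change {E : Type*} [NormedAddCommGroup E] [NormedSpace ℝ E] [FiniteDimensional ℝ E]
    [MeasurableSpace E] [BorelSpace E] (μ : Measure E) [μ.IsAddHaarMeasure] {ι : Type*} [Fintype ι]
    (B : Basis ι ℝ E) (f : E → ℂ) :
    ∫ t : ι → ℝ, f (B.equivFun.symm t) =
      (((μ (ZSpan.fundamentalDomain B)).toReal⁻¹ : ℝ) : ℂ) * ∫ z, f z ∂μ := by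
  classical
  let L : (ι → ℝ) ≃L[ℝ] E := B.equivFun.symm.toContinuousLinearEquiv
  have hL : ∀ t, L t = B.equivFun.symm t := fun t => rfl
  have hmap : (Measure.map L (volume : Measure (ι → ℝ))).IsAddHaarMeasure :=
    L.isAddHaarMeasure_map volume
  have hsm : Measure.map L (volume : Measure (ι → ℝ)) =
      (Measure.map L (volume : Measure (ι → ℝ))).addHaarScalarFactor μ • μ :=
    Measure.isAddLeftInvariant_eq_smul _ _
  set c := (Measure.map L (volume : Measure (ι → ℝ))).addHaarScalarFactor μ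
  have hme : MeasurableEmbedding L := L.toHomeomorph.measurableEmbedding
  have h1 : Measure.map L (volume : Measure (ι → ℝ)) (ZSpan.fundamentalDomain B) = 1 := by
    rw [hme.map_apply]
    have : L ⁻¹' (ZSpan.fundamentalDomain B) = Set.pi Set.univ (fun _ : ι => Set.Ico (0 : ℝ) 1) := by
      ext t
      simp only [Set.mem_preimage, ZSpan.mem_fundamentalDomain, Set.mem_pi, Set.mem_univ,
        true_imp_iff, hL]
      refine forall_congr' fun i => ?_
      have : B.repr (B.equivFun.symm t) i = t i := by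
        rw [← B.equivFun_apply, LinearEquiv.apply_symm_apply]
      rw [this]
    rw [this, volume_pi_pi]
    simp
  rw [hsm] at h1
  have h2 : (c : ℝ) * (μ (ZSpan.fundamentalDomain B)).toReal = 1 := by
    have := congrArg ENNReal.toReal h1
    rw [Measure.smul_apply, ENNReal.toReal_one] at this
    rw [← this, ENNReal.smul_def, smul_eq_mul, ENNReal.toReal_mul]
    rfl
  have h3 : (c : ℝ) = (μ (ZSpan.fundamentalDomain B)).toReal⁻¹ := eq_inv_of_mul_eq_one_left h2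
  calc ∫ t : ι → ℝ, f (B.equivFun.symm t) = ∫ t : ι → ℝ, f (L t) := rfl
    _ = ∫ z, f z ∂(Measure.map L (volume : Measure (ι → ℝ))) := (hme.integral_map f).symm
    _ = _ := by
        rw [hsm, integral_smul_nnreal_measure, ← h3]
        rfl


lemma nfp_equiv {ι : Type*} [Fintype ι] (c : ι → K) (hc : LinearIndependent ℚ c)
    (𝔞 : Ideal (𝓞 K))
    (h : ∀ x : K, x ∈ Submodule.span ℤ (Set.range c) ↔ ∃ α ∈ 𝔞, ((α : 𝓞 K) : K) = x) :
    ∃ e : (ι → ℤ) ≃ 𝔞, ∀ k, (((e k : 𝔞) : 𝓞 K) : K) = ∑ i, (k i : K) * c i := by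
  classical
  have h1 : ∀ k : ι → ℤ, ∃ α : 𝔞, ((α : 𝓞 K) : K) = ∑ i, (k i : K) * c i := by
    intro k
    have : (∑ i, (k i : K) * c i) ∈ Submodule.span ℤ (Set.range c) := by
      refine Submodule.sum_mem _ fun i _ => ?_
      rw [← zsmul_eq_mul]
      exact Submodule.smul_mem _ _ (Submodule.subset_span ⟨i, rfl⟩)
    obtain ⟨α, hα, hα'⟩ := (h _).mp this
    exact ⟨⟨α, hα⟩, hα'⟩
  choose φ hφ using h1
  refine ⟨Equiv.ofBijective φ ⟨fun k k' hk => ?_, fun α => ?_⟩, fun k => hφ k⟩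
  · have h2 : ∑ i, (k i : K) * c i = ∑ i, (k' i : K) * c i := by rw [← hφ, ← hφ, hk]
    have h3 : ∑ i, ((k i : ℚ) - (k' i : ℚ)) • c i = 0 := by
      rw [← sub_eq_zero, ← Finset.sum_sub_distrib] at h2
      rw [← h2]
      refine Finset.sum_congr rfl fun i _ => ?_
      rw [Algebra.smul_def]
      simp only [map_sub, map_intCast]
      ring
    funext i
    have := Fintype.linearIndependent_iff.mp hc _ h3 i
    exact_mod_cast sub_eq_zero.mp this
  · have : (((α : 𝓞 K) : K)) ∈ Submodule.span ℤ (Set.range c) :=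
      (h _).mpr ⟨(α : 𝓞 K), α.2, rfl⟩
    obtain ⟨k, hk⟩ := (Submodule.mem_span_range_iff_exists_fun ℤ).mp this
    refine ⟨k, ?_⟩
    apply Subtype.ext
    apply RingOfIntegers.ext
    rw [hφ, ← hk]
    refine Finset.sum_congr rfl fun i _ => ?_
    rw [zsmul_eq_mul]


lemma nfp_dual {𝔩 𝔫 : Ideal (𝓞 K)} {N : ℕ} (hN : 0 < N)
    (h : 𝔩 * 𝔫 * differentIdeal ℤ (𝓞 K) = Ideal.span {(N : 𝓞 K)}) (x : K) :
    x ∈ FractionalIdeal.dual ℤ ℚ (𝔩 : FractionalIdeal (𝓞 K)⁰ K) ↔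
      ∃ β ∈ 𝔫, ((β : 𝓞 K) : K) = N * x := by
  have hN0 : (N : 𝓞 K) ≠ 0 := by exact_mod_cast hN.ne'
  have hNK : (N : K) ≠ 0 := by exact_mod_cast hN.ne'
  have hprod : 𝔩 * 𝔫 * differentIdeal ℤ (𝓞 K) ≠ ⊥ := by
    rw [h, Ne, Ideal.span_singleton_eq_bot]; exact hN0
  have h𝔩 : 𝔩 ≠ ⊥ := by rintro rfl; simp at hprod
  have h1 : (𝔩 : FractionalIdeal (𝓞 K)⁰ K) ≠ 0 := FractionalIdeal.coeIdeal_ne_zero.mpr h𝔩
  have hd : differentIdeal ℤ (𝓞 K) ≠ ⊥ := by
    intro h0; rw [h0] at hprod; simp at hprod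
  have hd' : (differentIdeal ℤ (𝓞 K) : FractionalIdeal (𝓞 K)⁰ K) ≠ 0 :=
    FractionalIdeal.coeIdeal_ne_zero.mpr hd
  have h2 : FractionalIdeal.dual ℤ ℚ (𝔩 : FractionalIdeal (𝓞 K)⁰ K) =
      FractionalIdeal.spanSingleton (𝓞 K)⁰ ((N : K)⁻¹) * (𝔫 : FractionalIdeal (𝓞 K)⁰ K) := by
    rw [FractionalIdeal.dual_eq_mul_inv]
    have h3 : FractionalIdeal.dual ℤ ℚ (1 : FractionalIdeal (𝓞 K)⁰ K) =
        (differentIdeal ℤ (𝓞 K) : FractionalIdeal (𝓞 K)⁰ K)⁻¹ := by
      rw [coeIdeal_differentIdeal (K := ℚ), inv_inv]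
    rw [h3]
    have h4 : (𝔩 : FractionalIdeal (𝓞 K)⁰ K) * 𝔫 * (differentIdeal ℤ (𝓞 K)) =
        FractionalIdeal.spanSingleton (𝓞 K)⁰ (N : K) := by
      rw [← FractionalIdeal.coeIdeal_mul, ← FractionalIdeal.coeIdeal_mul, h,
        FractionalIdeal.coeIdeal_span_singleton]
      simp
    rw [← FractionalIdeal.spanSingleton_inv, ← h4, mul_inv, mul_inv]
    have h5 : (𝔫 : FractionalIdeal (𝓞 K)⁰ K) ≠ 0 := by
      apply FractionalIdeal.coeIdeal_ne_zero.mpr
      rintro rfl; simp at hprod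
    rw [mul_comm, mul_right_comm, mul_assoc _ _ (𝔫 : FractionalIdeal (𝓞 K)⁰ K),
      inv_mul_cancel₀ h5, mul_one]
  rw [h2, FractionalIdeal.mem_singleton_mul]
  constructor
  · rintro ⟨y, hy, rfl⟩
    obtain ⟨β, hβ, rfl⟩ := (FractionalIdeal.mem_coeIdeal _).mp hy
    exact ⟨β, hβ, by rw [mul_inv_cancel_left₀ hNK]⟩
  · rintro ⟨β, hβ, hx⟩
    refine ⟨(β : K), (FractionalIdeal.mem_coeIdeal _).mpr ⟨β, hβ, rfl⟩, ?_⟩
    rw [hx, inv_mul_cancel_left₀ hNK]





lemma nfp_ee_norm (x : ℝ) : ‖ee x‖ = 1 := by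
  unfold ee
  rw [Complex.norm_exp]
  simp

lemma nfp_Hf_div (κ : InfinitePlace K → ℤ) (y : InfinitePlace K → ℝ) (N : ℕ) (b : K) :
    Hf κ (fun w => 1 / y w) (b / N) = Hf κ (fun w => 1 / (N * y w)) b := by
  unfold Hf
  refine Finset.prod_congr rfl fun w _ => ?_
  congr 1
  rw [map_div₀, map_natCast]
  push_cast
  rw [one_div_mul_eq_div, one_div_mul_eq_div, div_div, mul_comm]

theorem nf_poisson : ∃ C₀ : ℝ, 0 < C₀ ∧ ∀ (κ : InfinitePlace K → ℤ)
    (_ : ∀ w : InfinitePlace K, w.IsReal → κ w = 0 ∨ κ w = 1) (𝔩 𝔫 : Ideal (𝓞 K)) (N : ℕ)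
    (_ : 0 < N) (_ : 𝔩 * 𝔫 * differentIdeal ℤ (𝓞 K) = Ideal.span {(N : 𝓞 K)})
    (y : InfinitePlace K → ℝ) (_ : ∀ w, 0 < y w) (a : 𝓞 K),
    ∑' l : 𝔩, Hf κ y ((a + (l : 𝓞 K) : 𝓞 K) : K) =
      ((C₀ / (Ideal.absNorm 𝔩 * ∏ w, y w ^ w.mult) : ℝ) : ℂ) * (-I) ^ (∑ w, (κ w).natAbs) *
        ∑' β : 𝔫, ee (((Algebra.trace ℚ K ((a * (β : 𝓞 K) : 𝓞 K) : K) : ℚ) : ℝ) / N) *
          starRingEnd ℂ (Hf κ (fun w => 1 / (N * y w)) ((β : 𝓞 K) : K)) := by
  classical
  set V : ℝ := (volume (ZSpan.fundamentalDomain (mixedEmbedding.latticeBasis K))).toReal with hV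
  have hVpos : 0 < V := by
    rw [hV]
    exact ENNReal.toReal_pos (ZSpan.measure_fundamentalDomain_ne_zero _)
      (ZSpan.fundamentalDomain_isBounded _).measure_lt_top.ne
  refine ⟨(2 : ℝ)⁻¹ ^ (Fintype.card {w : InfinitePlace K // IsComplex w}) / V, by positivity, ?_⟩
  intro κ hκ 𝔩 𝔫 N hN h y hy a
  have hN0 : (N : 𝓞 K) ≠ 0 := by exact_mod_cast hN.ne'
  have hNK : (N : K) ≠ 0 := by exact_mod_cast hN.ne'
  have hprod : 𝔩 * 𝔫 * differentIdeal ℤ (𝓞 K) ≠ ⊥ := by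
    rw [h, Ne, Ideal.span_singleton_eq_bot]; exact hN0
  have h𝔩 : 𝔩 ≠ ⊥ := by rintro rfl; simp at hprod
  have h1 : (𝔩 : FractionalIdeal (𝓞 K)⁰ K) ≠ 0 := FractionalIdeal.coeIdeal_ne_zero.mpr h𝔩
  let J : (FractionalIdeal (𝓞 K)⁰ K)ˣ := Units.mk0 (𝔩 : FractionalIdeal (𝓞 K)⁰ K) h1
  let b := basisOfFractionalIdeal K J
  let B := fractionalIdealLatticeBasis K J
  have hB : ∀ i, B i = mixedEmbedding K (b i) := fun i => fractionalIdealLatticeBasis_apply K J i
  let bd := b.traceDual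
  have hbspan : ∀ x : K, x ∈ Submodule.span ℤ (Set.range b) ↔ ∃ α ∈ 𝔩, ((α : 𝓞 K) : K) = x := by
    intro x
    rw [mem_span_basisOfFractionalIdeal]
    show x ∈ (𝔩 : FractionalIdeal (𝓞 K)⁰ K) ↔ _
    rw [FractionalIdeal.mem_coeIdeal]
  obtain ⟨e2, he2⟩ := nfp_equiv b b.linearIndependent 𝔩 hbspan
  have hdual : ∀ x : K, x ∈ Submodule.span ℤ (Set.range bd) ↔
      ∃ β ∈ 𝔫, ((β : 𝓞 K) : K) = N * x := by
    intro x
    rw [← nfp_dual hN h x]
    have hb' : ((J : FractionalIdeal (𝓞 K)⁰ K) : Submodule (𝓞 K) K).restrictScalars ℤ =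
        Submodule.span ℤ (Set.range b) := by
      ext z
      exact (mem_span_basisOfFractionalIdeal K).symm
    have hspan := Submodule.traceDual_span_of_basis ℤ
      ((J : FractionalIdeal (𝓞 K)⁰ K) : Submodule (𝓞 K) K) b hb'
    rw [← hspan, Submodule.restrictScalars_mem, ← FractionalIdeal.coe_dual ℤ ℚ J.ne_zero]
    rfl
  obtain ⟨e, he⟩ : ∃ e : (Free.ChooseBasisIndex ℤ J → ℤ) ≃ 𝔫, ∀ k,
      (((e k : 𝔫) : 𝓞 K) : K) = ∑ i, (k i : K) * ((N : K) * bd i) := by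
    refine nfp_equiv (fun i => (N : K) * bd i) ?_ 𝔫 ?_
    · have := bd.linearIndependent.map' (LinearMap.mulLeft ℚ (N : K))
        (LinearMap.ker_eq_bot.mpr (mul_right_injective₀ hNK))
      exact this
    · intro x
      have e1 : x ∈ Submodule.span ℤ (Set.range fun i => (N : K) * bd i) ↔
          x / N ∈ Submodule.span ℤ (Set.range bd) := by
        rw [Submodule.mem_span_range_iff_exists_fun, Submodule.mem_span_range_iff_exists_fun]
        refine exists_congr fun c => ?_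
        rw [eq_div_iff hNK, Finset.sum_mul]
        refine Eq.congr_left (Finset.sum_congr rfl fun i _ => ?_)
        simp only [zsmul_eq_mul]
        ring
      rw [e1, hdual, mul_div_cancel₀ _ hNK]
  -- the function on `ℝ^ι`
  set f : (Free.ChooseBasisIndex ℤ J → ℝ) → ℂ := fun t => nfp_Hm κ y (B.equivFun.symm t) with hf
  set x0 : Free.ChooseBasisIndex ℤ J → ℝ := B.equivFun (mixedEmbedding K (a : K)) with hx0
  have hsymm : ∀ t, B.equivFun.symm t = ∑ i, t i • B i := fun t => B.equivFun_symm_apply t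
  -- the left-hand side
  have hLHS : ∑' l : 𝔩, Hf κ y ((a + (l : 𝓞 K) : 𝓞 K) : K) =
      ∑' m : Free.ChooseBasisIndex ℤ J → ℤ, f (fun i => x0 i + m i) := by
    rw [← e2.tsum_eq]
    refine tsum_congr fun m => ?_
    have e1 : B.equivFun.symm (fun i => x0 i + m i) =
        mixedEmbedding K ((a + ((e2 m : 𝔩) : 𝓞 K) : 𝓞 K) : K) := by
      have e3 : (fun i => x0 i + (m i : ℝ)) = x0 + fun i => (m i : ℝ) := rfl
      have e4 : ((a + ((e2 m : 𝔩) : 𝓞 K) : 𝓞 K) : K) = (a : K) + (((e2 m : 𝔩) : 𝓞 K) : K) := rfl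
      rw [e3, map_add, hx0, LinearEquiv.symm_apply_apply, hsymm, e4, map_add, he2, map_sum]
      congr 1
      refine Finset.sum_congr rfl fun i _ => ?_
      rw [hB, map_mul, map_intCast, Algebra.smul_def]
      congr 1
    simp only [hf, e1, nfp_Hm_embed]
  -- the pairing
  have htr : ∀ (k : Free.ChooseBasisIndex ℤ J → ℤ) (t : Free.ChooseBasisIndex ℤ J → ℝ),
      nfp_tr (B.equivFun.symm t) (mixedEmbedding K ((((e k : 𝔫) : 𝓞 K) : K) / N)) =
        ∑ i, k i * t i := by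
    intro k t
    rw [hsymm, nfp_tr_sum]
    refine Finset.sum_congr rfl fun i _ => ?_
    rw [nfp_tr_smul, hB, nfp_tr_embed, mul_comm]
    congr 1
    have e1 : (((e k : 𝔫) : 𝓞 K) : K) / N = ∑ j, (k j : K) * bd j := by
      rw [he, div_eq_iff hNK, Finset.sum_mul]
      refine Finset.sum_congr rfl fun j _ => ?_
      ring
    rw [e1, Finset.mul_sum, map_sum]
    have e2' : ∀ j, Algebra.trace ℚ K (b i * ((k j : K) * bd j)) =
        (k j : ℚ) * if i = j then 1 else 0 := by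
      intro j
      have : b i * ((k j : K) * bd j) = (k j : ℚ) • (b i * bd j) := by
        rw [Algebra.smul_def, map_intCast]; ring
      rw [this, map_smul, smul_eq_mul, Basis.trace_mul_traceDual]
    simp_rw [e2']
    simp
  -- the Fourier coefficients
  have hvol : (volume (ZSpan.fundamentalDomain B)).toReal = Ideal.absNorm 𝔩 * V := by
    have := volume_fundamentalDomain_fractionalIdealLatticeBasis K J
    rw [this, ENNReal.toReal_mul, ENNReal.toReal_ofReal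
      (by exact_mod_cast FractionalIdeal.absNorm_nonneg _)]
    congr 1
    show (FractionalIdeal.absNorm (𝔩 : FractionalIdeal (𝓞 K)⁰ K) : ℝ) = _
    rw [FractionalIdeal.coeIdeal_absNorm]
    norm_cast
  have hcoef : ∀ k : Free.ChooseBasisIndex ℤ J → ℤ,
      ∫ t : Free.ChooseBasisIndex ℤ J → ℝ, f t * ee (-(∑ i, k i * t i)) =
      ((((2 : ℝ)⁻¹ ^ (Fintype.card {w : InfinitePlace K // IsComplex w}) / V) /
        (Ideal.absNorm 𝔩 * ∏ w, y w ^ w.mult) : ℝ) : ℂ) * (-I) ^ (∑ w, (κ w).natAbs) *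
        starRingEnd ℂ (Hf κ (fun w => 1 / (N * y w)) (((e k : 𝔫) : 𝓞 K) : K)) := by
    intro k
    have e1 := nfp_change volume B (fun z => nfp_Hm κ y z *
      ee (-(nfp_tr z (mixedEmbedding K ((((e k : 𝔫) : 𝓞 K) : K) / N)))))
    simp only [htr] at e1
    rw [show (∫ t : Free.ChooseBasisIndex ℤ J → ℝ, f t * ee (-(∑ i, k i * t i))) = _ from e1,
      nfp_ft hκ hy, nfp_Hm_embed, nfp_Hf_div, hvol]
    push_cast
    field_simp
  -- the bound
  obtain ⟨C, hC, hCb⟩ := nfp_Hm_le κ hy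
  obtain ⟨c, hc, hcb⟩ : ∃ c : ℝ, 0 < c ∧ ∀ t : Free.ChooseBasisIndex ℤ J → ℝ,
      c * ‖t‖ ≤ ‖B.equivFun.symm t‖ := by
    let L : (Free.ChooseBasisIndex ℤ J → ℝ) ≃L[ℝ] mixedSpace K :=
      B.equivFun.symm.toContinuousLinearEquiv
    obtain ⟨M, hM, hMb⟩ := L.symm.toContinuousLinearMap.bound
    refine ⟨M⁻¹, inv_pos.mpr hM, fun t => ?_⟩
    have := hMb (L t)
    rw [ContinuousLinearEquiv.coe_coe, ContinuousLinearEquiv.symm_apply_apply] at this
    rw [inv_mul_le_iff₀ hM]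
    exact this
  have hfC : ∀ t, ‖f t‖ ≤ C * Real.exp (-(c * ‖t‖)) := fun t =>
    (hCb _).trans (mul_le_mul_of_nonneg_left (Real.exp_le_exp.mpr (neg_le_neg (hcb t))) hC.le)
  have hfcont : Continuous f := by
    refine (nfp_Hm_continuous κ y).comp ?_
    exact B.equivFun.symm.toContinuousLinearEquiv.continuous
  -- summability
  have hy' : ∀ w : InfinitePlace K, 0 < 1 / (N * y w) := fun w =>
    div_pos one_pos (mul_pos (by exact_mod_cast hN) (hy w))
  have hsum : Summable (fun β : 𝔫 => ‖Hf κ (fun w => 1 / (N * y w)) ((β : 𝓞 K) : K)‖) := by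
    obtain ⟨C', hC', hH⟩ := Hf_le κ (K := K)
    have := (lattice_summable 𝔫 (c := Real.pi / 2) (by positivity) (fun w => 1 / (N * y w)) hy'
      0).mul_left C'
    refine Summable.of_nonneg_of_le (fun _ => norm_nonneg _) (fun β => ?_) this
    have := hH (fun w => 1 / (N * y w)) ((β : 𝓞 K) : K) hy'
    rw [zero_add]
    exact this
  have hs : Summable (fun k : Free.ChooseBasisIndex ℤ J → ℤ =>
      ‖∫ t : Free.ChooseBasisIndex ℤ J → ℝ, f t * ee (-(∑ i, k i * t i))‖) := by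
    simp_rw [hcoef, norm_mul, RCLike.norm_conj]
    exact (e.summable_iff.mpr hsum).mul_left _
  rw [hLHS, poisson f hfcont C c hc hfC hs x0, ← e.tsum_eq, ← tsum_mul_left]
  refine tsum_congr fun k => ?_
  rw [hcoef]
  have e5 : ee (∑ i, k i * x0 i) =
      ee (((Algebra.trace ℚ K ((a * ((e k : 𝔫) : 𝓞 K) : 𝓞 K) : K) : ℚ) : ℝ) / N) := by
    have e6 := htr k x0
    rw [hx0, LinearEquiv.symm_apply_apply, nfp_tr_embed] at e6
    rw [hx0, ← e6]
    congr 1
    have e7 : ((a : 𝓞 K) : K) * ((((e k : 𝔫) : 𝓞 K) : K) / N) =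
        ((N : ℚ)⁻¹) • (((a * ((e k : 𝔫) : 𝓞 K) : 𝓞 K) : K)) := by
      have e8 : (((a * ((e k : 𝔫) : 𝓞 K) : 𝓞 K) : K)) = (a : K) * (((e k : 𝔫) : 𝓞 K) : K) := rfl
      rw [e8, Algebra.smul_def, map_inv₀, map_natCast]
      ring
    rw [e7, map_smul, smul_eq_mul]
    push_cast
    ring
  rw [e5]
  ring

end Pool.Agent.HZ
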