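import Pool.Agent.Lib_helper41.HZF.Defs
import Pool.Agent.Lib_helper41.HZF.GAU
import Pool.Agent.Lib_helper41.HZF.INF
import Pool.Agent.Lib_helper41.HZF.KG
import Pool.Agent.Lib_helper41.HZF.LAT
import Pool.Agent.Lib_helper41.HZF.NFP
import Pool.Agent.Lib_helper41.HZF.RES
import Pool.Agent.Lib_helper41.HZF.YB

/-!
# Block FET: the functional equation of the theta function
-/

namespace Pool.Agent.HZ

open NumberField NumberField.InfinitePlace NumberField.Units Complex MeasureTheory Filter Topology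

set_option linter.unusedSectionVars false

variable {K : Type} [Field K] [NumberField K]

theorem fet_quo_zero (𝔟 : Ideal (𝓞 K)) : quo 𝔟 (0 : 𝓞 K) = ⊥ := by
  unfold quo
  rw [dif_neg]
  rintro ⟨h, _⟩
  exact h rfl

theorem fet_psi_bot {𝔮 : Ideal (𝓞 K)} (h𝔮' : 𝔮 ≠ ⊤) {κ : InfinitePlace K → ℤ}
    {lam : InfinitePlace K → ℝ} {χ : MulChar (𝓞 K ⧸ 𝔮) ℂ} {ψ : Ideal (𝓞 K) →* ℂ}
    (hψ : IsHecke 𝔮 κ lam χ ψ) : ψ ⊥ = 0 := by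
  apply hψ.eq_zero
  intro h
  apply h𝔮'
  rw [Ideal.isCoprime_iff_sup_eq, bot_sup_eq] at h
  exact h

theorem fet_tw_zero {𝔮 : Ideal (𝓞 K)} (h𝔮' : 𝔮 ≠ ⊤) {κ : InfinitePlace K → ℤ}
    {lam : InfinitePlace K → ℝ} {χ : MulChar (𝓞 K ⧸ 𝔮) ℂ} {ψ : Ideal (𝓞 K) →* ℂ}
    (hψ : IsHecke 𝔮 κ lam χ ψ) (𝔟 : Ideal (𝓞 K)) : tw κ lam ψ 𝔟 0 = 0 := by
  unfold tw
  rw [fet_quo_zero, fet_psi_bot h𝔮' hψ, zero_mul]

theorem fet_psi_le {𝔮 : Ideal (𝓞 K)} {κ : InfinitePlace K → ℤ}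
    {lam : InfinitePlace K → ℝ} {χ : MulChar (𝓞 K ⧸ 𝔮) ℂ} {ψ : Ideal (𝓞 K) →* ℂ}
    (hψ : IsHecke 𝔮 κ lam χ ψ) (𝔞 : Ideal (𝓞 K)) : ‖ψ 𝔞‖ ≤ 1 := by
  by_cases h : IsCoprime 𝔞 𝔮
  · exact (hψ.norm_eq_one 𝔞 h).le
  · rw [hψ.eq_zero 𝔞 h, norm_zero]
    exact zero_le_one

theorem fet_tw_le {𝔮 : Ideal (𝓞 K)} (h𝔮' : 𝔮 ≠ ⊤) {κ : InfinitePlace K → ℤ}
    {lam : InfinitePlace K → ℝ} {χ : MulChar (𝓞 K ⧸ 𝔮) ℂ} {ψ : Ideal (𝓞 K) →* ℂ}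
    (hψ : IsHecke 𝔮 κ lam χ ψ) (𝔟 : Ideal (𝓞 K)) (α : 𝓞 K) : ‖tw κ lam ψ 𝔟 α‖ ≤ 1 := by
  by_cases h : α = 0
  · rw [h, fet_tw_zero h𝔮' hψ, norm_zero]
    exact zero_le_one
  · unfold tw
    have hα : ((α : 𝓞 K) : K) ≠ 0 := by
      intro h0
      apply h
      exact_mod_cast h0
    rw [norm_mul, norm_inv, psiInf_norm κ lam hα, inv_one, mul_one]
    exact fet_psi_le hψ _

/-- the unimodular factor -/
noncomputable def fet_E (lam : InfinitePlace K → ℝ) (y : InfinitePlace K → ℝ) : ℂ :=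
  cexp (((∑ w, lam w * Real.log (y w) : ℝ) : ℂ) * I)

theorem fet_E_norm (lam : InfinitePlace K → ℝ) (y : InfinitePlace K → ℝ) :
    fet_E lam y * starRingEnd ℂ (fet_E lam y) = 1 := by
  unfold fet_E
  rw [← Complex.exp_conj, ← Complex.exp_add]
  simp

theorem fet_term {𝔮 : Ideal (𝓞 K)} (h𝔮' : 𝔮 ≠ ⊤) {κ : InfinitePlace K → ℤ}
    {lam : InfinitePlace K → ℝ} {χ : MulChar (𝓞 K ⧸ 𝔮) ℂ} {ψ : Ideal (𝓞 K) →* ℂ}
    (hψ : IsHecke 𝔮 κ lam χ ψ) (𝔟 : Ideal (𝓞 K)) (α : 𝓞 K) (y : InfinitePlace K → ℝ)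
    (hy : ∀ w, 0 < y w) :
    ψ (quo 𝔟 α) * Gf κ lam (fun w => y w * w (α : K)) =
      fet_E lam y * (tw κ lam ψ 𝔟 α * Hf κ y (α : K)) := by
  by_cases h : α = 0
  · subst h
    rw [fet_tw_zero h𝔮' hψ, fet_quo_zero, fet_psi_bot h𝔮' hψ]
    ring
  · have hα : ((α : 𝓞 K) : K) ≠ 0 := by
      intro h0
      apply h
      exact_mod_cast h0
    rw [Gf_eq κ lam y hy hα]
    unfold tw fet_E
    ring

theorem fet_Hf_summable (κ : InfinitePlace K → ℤ) (𝔟 : Ideal (𝓞 K)) (y : InfinitePlace K → ℝ)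
    (hy : ∀ w, 0 < y w) : Summable (fun α : 𝔟 => ‖Hf κ y ((α : 𝓞 K) : K)‖) := by
  obtain ⟨C, hC0, hC⟩ := Hf_le κ
  have h1 := (lattice_summable 𝔟 (c := Real.pi / 2) (by positivity) y hy 0).mul_left C
  refine Summable.of_nonneg_of_le (fun α => norm_nonneg _) (fun α => ?_) h1
  have := hC y ((α : 𝓞 K) : K) hy
  rw [zero_add]
  exact this

theorem fet_summable {κ : InfinitePlace K → ℤ} (𝔟 : Ideal (𝓞 K)) (y : InfinitePlace K → ℝ)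
    (hy : ∀ w, 0 < y w) (t : 𝔟 → ℂ) (ht : ∀ α, ‖t α‖ ≤ 1) :
    Summable (fun α : 𝔟 => t α * Hf κ y ((α : 𝓞 K) : K)) := by
  apply Summable.of_norm
  refine Summable.of_nonneg_of_le (fun α => norm_nonneg _) (fun α => ?_)
    (fet_Hf_summable κ 𝔟 y hy)
  rw [norm_mul]
  exact mul_le_of_le_one_left (norm_nonneg _) (ht α)

theorem fet_mem_of {𝔮 𝔟 : Ideal (𝓞 K)} {l : 𝓞 K} (h : l ∈ 𝔮 * 𝔟) : l ∈ 𝔟 := by
  have h1 : 𝔮 * 𝔟 ≤ 𝔟 := Ideal.mul_le_right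
  exact h1 h

theorem fet_mk_out {𝔮 : Ideal (𝓞 K)} (a : 𝓞 K ⧸ 𝔮) : Ideal.Quotient.mk 𝔮 (Quotient.out a) = a :=
  Quotient.out_eq' a

/-- splitting `𝔟` into the residue classes modulo `𝔮 𝔟` -/
noncomputable def fet_equiv {𝔮 𝔟 : Ideal (𝓞 K)} {g : 𝓞 K} (hg : g ∈ 𝔟) (ρ : 𝓞 K → 𝓞 K ⧸ 𝔮)
    (hρ : ∀ α ∈ 𝔟, ∀ a : 𝓞 K, ρ α = Ideal.Quotient.mk 𝔮 a ↔ α - a * g ∈ 𝔮 * 𝔟) :
    (𝓞 K ⧸ 𝔮) × ↥(𝔮 * 𝔟) ≃ 𝔟 where
  toFun p := ⟨Quotient.out p.1 * g + (p.2 : 𝓞 K),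
    𝔟.add_mem (𝔟.mul_mem_left _ hg) (fet_mem_of p.2.2)⟩
  invFun α := (ρ α, ⟨(α : 𝓞 K) - Quotient.out (ρ α) * g, (hρ α α.2 _).1 (fet_mk_out _).symm⟩)
  left_inv p := by
    have h1 : ρ (Quotient.out p.1 * g + (p.2 : 𝓞 K)) = p.1 := by
      have h2 := (hρ (Quotient.out p.1 * g + (p.2 : 𝓞 K))
        (𝔟.add_mem (𝔟.mul_mem_left _ hg) (fet_mem_of p.2.2)) (Quotient.out p.1)).2
        (by rw [add_sub_cancel_left]; exact p.2.2)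
      rw [h2, fet_mk_out]
    apply Prod.ext
    · exact h1
    · apply Subtype.ext
      simp only [h1, add_sub_cancel_left]
  right_inv α := by
    apply Subtype.ext
    simp

theorem theta_fe {κ : InfinitePlace K → ℤ}
    (hκ : ∀ w : InfinitePlace K, w.IsReal → κ w = 0 ∨ κ w = 1) {lam : InfinitePlace K → ℝ}
    (hlam : ∑ w, lam w = 0) {𝔮 : Ideal (𝓞 K)} (h𝔮 : 𝔮 ≠ ⊥) (h𝔮' : 𝔮 ≠ ⊤)
    {χ : MulChar (𝓞 K ⧸ 𝔮) ℂ} (hχ : IsPrim 𝔮 χ) {ψ : Ideal (𝓞 K) →* ℂ}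
    (hψ : IsHecke 𝔮 κ lam χ ψ) {N : ℕ} (hN : 0 < N) :
    ∃ W : ℂ, ∀ (𝔟 𝔟' : Ideal (𝓞 K)), 𝔮 * 𝔟 * 𝔟' * differentIdeal ℤ (𝓞 K) = Ideal.span {(N : 𝓞 K)} →
      ∀ (u : ℝ) (x : Fin (rank K) → ℝ),
      ∑' α : 𝔟, ψ (quo 𝔟 α) * Gf κ lam (fun w => Yv K u x w * w ((α : 𝓞 K) : K)) =
      W * ((Real.exp (-u) / Ideal.absNorm 𝔟 : ℝ) : ℂ) * starRingEnd ℂ (∑' β : 𝔟', ψ (quo 𝔟' β) *
        Gf κ lam (fun w => Yv K (-u - Module.finrank ℚ K * Real.log N) (-x) w *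
          w ((β : 𝓞 K) : K))) := by
  classical
  have : Finite (𝓞 K ⧸ 𝔮) := Ideal.finiteQuotientOfFreeOfNeBot 𝔮 h𝔮
  have : Fintype (𝓞 K ⧸ 𝔮) := Fintype.ofFinite _
  have : Nontrivial (𝓞 K ⧸ 𝔮) := Ideal.Quotient.nontrivial_iff.2 h𝔮'
  obtain ⟨W₀, hW₀⟩ := gauss h𝔮 h𝔮' hχ hψ hN
  obtain ⟨C₀, hC₀, hP⟩ := nf_poisson (K := K)
  refine ⟨((C₀ / Ideal.absNorm 𝔮 : ℝ) : ℂ) * (-I) ^ (∑ w, (κ w).natAbs) * W₀, ?_⟩
  intro 𝔟 𝔟' hbb u x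
  have hN0 : (N : 𝓞 K) ≠ 0 := by exact_mod_cast hN.ne'
  have hspan : Ideal.span {(N : 𝓞 K)} ≠ ⊥ := by
    rw [Ne, Ideal.span_singleton_eq_bot]; exact hN0
  have h𝔟 : 𝔟 ≠ ⊥ := by
    rintro rfl
    apply hspan
    rw [← hbb]
    simp
  obtain ⟨g, ρ, hg, hg0, hgc, hρ⟩ := exists_res h𝔮 h𝔟
  set y : InfinitePlace K → ℝ := Yv K u x with hy_def
  have hy : ∀ w, 0 < y w := fun w => Yv_pos u x w
  have hNR : (0 : ℝ) < N := by exact_mod_cast hN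
  -- the dual point
  have hy' : Yv K (-u - Module.finrank ℚ K * Real.log N) (-x) = fun w => 1 / (N * y w) := by
    funext w
    have h1 := Yv_add (K := K) (-u - Module.finrank ℚ K * Real.log N) u (-x) x w
    have h2 : Yv K (-u - Module.finrank ℚ K * Real.log N + u) (-x + x) w = 1 / N := by
      rw [neg_add_cancel]
      unfold Yv
      have hn : (Module.finrank ℚ K : ℝ) ≠ 0 := by
        exact_mod_cast (Module.finrank_pos (R := ℚ) (M := K)).ne'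
      have h3 : (-u - Module.finrank ℚ K * Real.log N + u) / Module.finrank ℚ K =
          -Real.log N := by
        field_simp
        ring
      rw [h3, Real.exp_neg, Real.exp_log hNR]
      simp
    rw [h2] at h1
    have h4 := (hy w).ne'
    rw [eq_div_iff (by positivity), mul_comm (N : ℝ), ← mul_assoc, ← h1]
    field_simp
  have hyy : ∀ w, 0 < 1 / ((N : ℝ) * y w) := fun w => by
    have := hy w
    positivity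
  -- left-hand side
  have hL : ∑' α : 𝔟, ψ (quo 𝔟 α) * Gf κ lam (fun w => y w * w ((α : 𝓞 K) : K)) =
      fet_E lam y * ∑' α : 𝔟, tw κ lam ψ 𝔟 α * Hf κ y ((α : 𝓞 K) : K) := by
    rw [← tsum_mul_left]
    exact tsum_congr fun α => fet_term h𝔮' hψ 𝔟 α y hy
  have hR : ∑' β : 𝔟', ψ (quo 𝔟' β) * Gf κ lam (fun w => 1 / (N * y w) * w ((β : 𝓞 K) : K)) =
      fet_E lam (fun w => 1 / (N * y w)) *
        ∑' β : 𝔟', tw κ lam ψ 𝔟' β * Hf κ (fun w => 1 / (N * y w)) ((β : 𝓞 K) : K) := by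
    rw [← tsum_mul_left]
    exact tsum_congr fun β => fet_term h𝔮' hψ 𝔟' β _ hyy
  have hE : fet_E lam (fun w => 1 / (N * y w)) = starRingEnd ℂ (fet_E lam y) := by
    unfold fet_E
    rw [← Complex.exp_conj]
    congr 1
    have h1 : ∑ w, lam w * Real.log (1 / (N * y w)) = -∑ w, lam w * Real.log (y w) := by
      have h2 : ∀ w, lam w * Real.log (1 / (N * y w)) =
          -(lam w * Real.log N) - lam w * Real.log (y w) := by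
        intro w
        rw [Real.log_div one_ne_zero (mul_ne_zero hNR.ne' (hy w).ne'), Real.log_one,
          Real.log_mul hNR.ne' (hy w).ne']
        ring
      rw [Finset.sum_congr rfl fun w _ => h2 w, Finset.sum_sub_distrib, Finset.sum_neg_distrib,
        ← Finset.sum_mul, hlam]
      ring
    rw [h1]
    simp
  -- the sum over the residue classes
  have htw : ∀ (a : 𝓞 K ⧸ 𝔮) (l : ↥(𝔮 * 𝔟)),
      tw κ lam ψ 𝔟 (Quotient.out a * g + (l : 𝓞 K)) = χ a * tw κ lam ψ 𝔟 g := by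
    intro a l
    have hmem : Quotient.out a * g + (l : 𝓞 K) ∈ 𝔟 :=
      𝔟.add_mem (𝔟.mul_mem_left _ hg) (fet_mem_of l.2)
    have hdiff : Quotient.out a * g + (l : 𝓞 K) - Quotient.out a * g ∈ 𝔮 * 𝔟 := by
      rw [add_sub_cancel_left]; exact l.2
    by_cases h0 : Quotient.out a * g + (l : 𝓞 K) = 0
    · rw [h0, fet_tw_zero h𝔮' hψ]
      rw [h0] at hdiff
      have h1 : ρ 0 = Ideal.Quotient.mk 𝔮 (Quotient.out a) :=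
        (hρ 0 𝔟.zero_mem _).2 hdiff
      have h2 : ρ 0 = Ideal.Quotient.mk 𝔮 0 :=
        (hρ 0 𝔟.zero_mem _).2 (by simp)
      rw [fet_mk_out] at h1
      rw [← h1, h2, map_zero, MulChar.map_zero, zero_mul]
    · rw [tw_eq h𝔮 hψ h𝔟 hg hg0 hgc hmem h0 hdiff, fet_mk_out]
  have hsum : Summable (fun α : 𝔟 => tw κ lam ψ 𝔟 α * Hf κ y ((α : 𝓞 K) : K)) :=
    fet_summable 𝔟 y hy _ (fun α => fet_tw_le h𝔮' hψ 𝔟 α)
  set e := fet_equiv hg ρ hρ with he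
  have hS : ∑' α : 𝔟, tw κ lam ψ 𝔟 α * Hf κ y ((α : 𝓞 K) : K) =
      ∑ a : 𝓞 K ⧸ 𝔮, χ a * tw κ lam ψ 𝔟 g *
        ∑' l : ↥(𝔮 * 𝔟), Hf κ y ((Quotient.out a * g + (l : 𝓞 K) : 𝓞 K) : K) := by
    rw [← e.tsum_eq]
    have hsum' := (e.summable_iff (f := fun α : 𝔟 =>
      tw κ lam ψ 𝔟 α * Hf κ y ((α : 𝓞 K) : K))).2 hsum
    have h1 := hsum'.tsum_prod
    simp only [Function.comp] at h1
    rw [h1, tsum_fintype]
    refine Finset.sum_congr rfl fun a _ => ?_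
    rw [← tsum_mul_left]
    refine tsum_congr fun l => ?_
    have h2 : ((e (a, l) : 𝔟) : 𝓞 K) = Quotient.out a * g + (l : 𝓞 K) := rfl
    rw [h2, htw a l]
  -- Poisson
  have hPa : ∀ a : 𝓞 K ⧸ 𝔮,
      ∑' l : ↥(𝔮 * 𝔟), Hf κ y ((Quotient.out a * g + (l : 𝓞 K) : 𝓞 K) : K) =
      ((C₀ / (Ideal.absNorm (𝔮 * 𝔟) * ∏ w, y w ^ w.mult) : ℝ) : ℂ) *
        (-I) ^ (∑ w, (κ w).natAbs) *
        ∑' β : 𝔟', ee (((Algebra.trace ℚ K ((Quotient.out a * g * (β : 𝓞 K) : 𝓞 K) : K) : ℚ) : ℝ)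
          / N) * starRingEnd ℂ (Hf κ (fun w => 1 / (N * y w)) ((β : 𝓞 K) : K)) := fun a =>
    hP κ hκ (𝔮 * 𝔟) 𝔟' N hN hbb y hy (Quotient.out a * g)
  have hee : ∀ t : ℝ, ‖ee t‖ = 1 := by
    intro t
    unfold ee
    rw [Complex.norm_exp]
    simp
  have hsum2 : ∀ a : 𝓞 K ⧸ 𝔮, Summable (fun β : 𝔟' =>
      ee (((Algebra.trace ℚ K ((Quotient.out a * g * (β : 𝓞 K) : 𝓞 K) : K) : ℚ) : ℝ)
          / N) * starRingEnd ℂ (Hf κ (fun w => 1 / (N * y w)) ((β : 𝓞 K) : K))) := by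
    intro a
    apply Summable.of_norm
    refine (fet_Hf_summable κ 𝔟' _ hyy).congr fun β => ?_
    rw [norm_mul, hee, one_mul, RCLike.norm_conj]
  have hT : ∑ a : 𝓞 K ⧸ 𝔮, χ a * tw κ lam ψ 𝔟 g *
      ∑' β : 𝔟', ee (((Algebra.trace ℚ K ((Quotient.out a * g * (β : 𝓞 K) : 𝓞 K) : K) : ℚ) : ℝ)
          / N) * starRingEnd ℂ (Hf κ (fun w => 1 / (N * y w)) ((β : 𝓞 K) : K)) =
      W₀ * starRingEnd ℂ (∑' β : 𝔟', tw κ lam ψ 𝔟' β *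
        Hf κ (fun w => 1 / (N * y w)) ((β : 𝓞 K) : K)) := by
    rw [Complex.conj_tsum, ← tsum_mul_left]
    simp only [← tsum_mul_left]
    rw [← Summable.tsum_finsetSum]
    · refine tsum_congr fun β => ?_
      rw [map_mul, ← mul_assoc, ← hW₀ 𝔟 𝔟' hbb g hg hg0 hgc β β.2, Finset.sum_mul]
      refine Finset.sum_congr rfl fun a _ => ?_
      ring
    · intro a _
      exact (hsum2 a).mul_left _
  rw [hy', hL, hR, hE, hS]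
  simp only [hPa]
  have hfac : ∀ a : 𝓞 K ⧸ 𝔮, χ a * tw κ lam ψ 𝔟 g *
      (((C₀ / (Ideal.absNorm (𝔮 * 𝔟) * ∏ w, y w ^ w.mult) : ℝ) : ℂ) *
        (-I) ^ (∑ w, (κ w).natAbs) *
        ∑' β : 𝔟', ee (((Algebra.trace ℚ K ((Quotient.out a * g * (β : 𝓞 K) : 𝓞 K) : K) : ℚ) : ℝ)
          / N) * starRingEnd ℂ (Hf κ (fun w => 1 / (N * y w)) ((β : 𝓞 K) : K))) =
      ((C₀ / (Ideal.absNorm (𝔮 * 𝔟) * ∏ w, y w ^ w.mult) : ℝ) : ℂ) *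
        (-I) ^ (∑ w, (κ w).natAbs) * (χ a * tw κ lam ψ 𝔟 g *
        ∑' β : 𝔟', ee (((Algebra.trace ℚ K ((Quotient.out a * g * (β : 𝓞 K) : 𝓞 K) : K) : ℚ) : ℝ)
          / N) * starRingEnd ℂ (Hf κ (fun w => 1 / (N * y w)) ((β : 𝓞 K) : K))) := fun a => by
    ring
  rw [Finset.sum_congr rfl fun a _ => hfac a, ← Finset.mul_sum, hT]
  have hconj : ∀ S : ℂ, starRingEnd ℂ (starRingEnd ℂ (fet_E lam y) * S) =
      fet_E lam y * starRingEnd ℂ S := fun S => by rw [map_mul, Complex.conj_conj]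
  rw [hconj]
  have hprod : ∏ w, y w ^ w.mult = Real.exp u := prod_Yv u x
  rw [hprod, map_mul Ideal.absNorm]
  have hc : ((C₀ / (((Ideal.absNorm 𝔮 * Ideal.absNorm 𝔟 : ℕ) : ℝ) * Real.exp u) : ℝ) : ℂ) =
      ((C₀ / Ideal.absNorm 𝔮 : ℝ) : ℂ) * ((Real.exp (-u) / Ideal.absNorm 𝔟 : ℝ) : ℂ) := by
    rw [← Complex.ofReal_mul]
    congr 1
    rw [Real.exp_neg]
    push_cast
    have := Real.exp_pos u
    ring
  rw [hc]
  ring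

end Pool.Agent.HZ
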