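import Pool.Agent.Lib_helper41.HZF.Defs
import Pool.Agent.Lib_helper41.HZF.CLS
import Pool.Agent.Lib_helper41.HZF.FET
import Pool.Agent.Lib_helper41.HZF.KG
import Pool.Agent.Lib_helper41.HZF.UNF2

/-!
# Block SFE: functional equation of the class densities
-/

namespace Pool.Agent.HZ

open NumberField NumberField.InfinitePlace NumberField.Units Complex MeasureTheory Filter Topology

variable {K : Type} [Field K] [NumberField K]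

theorem sfe_psi_le {𝔮 : Ideal (𝓞 K)} {κ : InfinitePlace K → ℤ} {lam : InfinitePlace K → ℝ}
    {χ : MulChar (𝓞 K ⧸ 𝔮) ℂ} {ψ : Ideal (𝓞 K) →* ℂ} (hψ : IsHecke 𝔮 κ lam χ ψ)
    (𝔠 : Ideal (𝓞 K)) : ‖ψ 𝔠‖ ≤ 1 := by
  by_cases h : IsCoprime 𝔠 𝔮
  · rw [hψ.norm_eq_one 𝔠 h]
  · rw [hψ.eq_zero 𝔠 h, norm_zero]
    exact zero_le_one

theorem sfe_psi_bot {𝔮 : Ideal (𝓞 K)} {κ : InfinitePlace K → ℤ} {lam : InfinitePlace K → ℝ}
    {χ : MulChar (𝓞 K ⧸ 𝔮) ℂ} {ψ : Ideal (𝓞 K) →* ℂ} (hψ : IsHecke 𝔮 κ lam χ ψ)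
    (h𝔮' : 𝔮 ≠ ⊤) : ψ ⊥ = 0 := by
  refine hψ.eq_zero ⊥ fun h => h𝔮' ?_
  rw [Ideal.isCoprime_iff_sup_eq, bot_sup_eq] at h
  exact h

theorem sfe_norm {𝔮 𝔟 𝔟' : Ideal (𝓞 K)} {N : ℕ}
    (h : 𝔮 * 𝔟 * 𝔟' * differentIdeal ℤ (𝓞 K) = Ideal.span {(N : 𝓞 K)}) :
    (Ideal.absNorm 𝔟 : ℝ) * Ideal.absNorm 𝔟' * cond 𝔮 = (N : ℝ) ^ Module.finrank ℚ K := by
  have h1 := congrArg Ideal.absNorm h
  rw [map_mul, map_mul, map_mul, Ideal.absNorm_span_natCast, absNorm_differentIdeal (K := K),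
    RingOfIntegers.rank] at h1
  have h2 := congrArg (Nat.cast : ℕ → ℝ) h1
  push_cast at h2
  rw [← h2]
  unfold cond
  rw [Nat.cast_natAbs, Int.cast_abs]
  ring

theorem sfe_ne_bot {𝔮 𝔟 𝔟' : Ideal (𝓞 K)} {N : ℕ} (hN : 0 < N)
    (h : 𝔮 * 𝔟 * 𝔟' * differentIdeal ℤ (𝓞 K) = Ideal.span {(N : 𝓞 K)}) : 𝔟 ≠ ⊥ ∧ 𝔟' ≠ ⊥ := by
  have h0 : Ideal.span {(N : 𝓞 K)} ≠ ⊥ := by
    rw [Ne, Ideal.span_singleton_eq_bot]
    exact_mod_cast hN.ne'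
  constructor
  · rintro rfl
    apply h0
    rw [← h]
    simp
  · rintro rfl
    apply h0
    rw [← h]
    simp

theorem scl_fe {κ : InfinitePlace K → ℤ}
    (hκ : ∀ w : InfinitePlace K, w.IsReal → κ w = 0 ∨ κ w = 1) {lam : InfinitePlace K → ℝ}
    (hlam : ∑ w, lam w = 0) {𝔮 : Ideal (𝓞 K)} (h𝔮 : 𝔮 ≠ ⊥) (h𝔮' : 𝔮 ≠ ⊤)
    {χ : MulChar (𝓞 K ⧸ 𝔮) ℂ} (hχ : IsPrim 𝔮 χ) {ψ : Ideal (𝓞 K) →* ℂ}
    (hψ : IsHecke 𝔮 κ lam χ ψ) {N : ℕ} (hN : 0 < N) :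
    ∃ W : ℂ, ∀ (𝔟 𝔟' : Ideal (𝓞 K)), 𝔮 * 𝔟 * 𝔟' * differentIdeal ℤ (𝓞 K) = Ideal.span {(N : 𝓞 K)} →
      ∀ u : ℝ, Scl 𝔟 ψ (Gf κ lam) u =
        W * (Real.exp (-u) : ℂ) *
          starRingEnd ℂ (Scl 𝔟' ψ (Gf κ lam) (-u - Real.log (cond 𝔮))) := by
  obtain ⟨W, hW⟩ := theta_fe hκ hlam h𝔮 h𝔮' hχ hψ hN
  obtain ⟨C, hC⟩ := Gf_good κ
  refine ⟨W, fun 𝔟 𝔟' h u => ?_⟩
  obtain ⟨hb, hb'⟩ := sfe_ne_bot hN h
  set v : ℝ := u - Real.log (Ideal.absNorm 𝔟) with hv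
  set v' : ℝ := -v - Module.finrank ℚ K * Real.log N with hv'
  have h1 := (unfold_units hb (hC lam) (sfe_psi_le hψ) (sfe_psi_bot hψ h𝔮') 1 (Or.inl rfl) v).2
  have h2 := (unfold_units hb' (hC lam) (sfe_psi_le hψ) (sfe_psi_bot hψ h𝔮') (-1) (Or.inr rfl) v').2
  have h3 := fun x => hW 𝔟 𝔟' h v x
  have hsmul : ∀ x : Fin (rank K) → ℝ, ((-1 : ℝ) • x) = -x := fun x => by simp
  simp only [one_smul] at h1
  simp only [hsmul] at h2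
  simp_rw [h3] at h1
  rw [integral_const_mul, integral_conj, h2] at h1
  have hn0 : (0 : ℝ) < Ideal.absNorm 𝔟 := by
    exact_mod_cast Nat.pos_of_ne_zero (Ideal.absNorm_eq_zero_iff.not.2 hb)
  have hn0' : (0 : ℝ) < Ideal.absNorm 𝔟' := by
    exact_mod_cast Nat.pos_of_ne_zero (Ideal.absNorm_eq_zero_iff.not.2 hb')
  have hNR : (0 : ℝ) < N := by exact_mod_cast hN
  have hnorm := sfe_norm h
  have hcond : 0 < cond 𝔮 := by
    have h5 : 0 < (N : ℝ) ^ Module.finrank ℚ K := by positivity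
    rw [← hnorm] at h5
    exact (pos_iff_pos_of_mul_pos h5).1 (by positivity)
  have hlog : Real.log (Ideal.absNorm 𝔟) + Real.log (Ideal.absNorm 𝔟') + Real.log (cond 𝔮) =
      Module.finrank ℚ K * Real.log N := by
    rw [← Real.log_mul hn0.ne' hn0'.ne', ← Real.log_mul (by positivity) hcond.ne', hnorm,
      Real.log_pow]
  have e1 : v + Real.log (Ideal.absNorm 𝔟) = u := by rw [hv]; ring
  have e2 : v' + Real.log (Ideal.absNorm 𝔟') = -u - Real.log (cond 𝔮) := by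
    rw [hv', hv]
    linarith
  have e3 : Real.exp (-v) / Ideal.absNorm 𝔟 = Real.exp (-u) := by
    rw [hv, neg_sub, sub_eq_add_neg, Real.exp_add, Real.exp_log hn0]
    field_simp
  rw [e1, e2, e3, map_mul, Complex.conj_natCast] at h1
  have ht : (torsionOrder K : ℂ) ≠ 0 := by
    have := torsionOrder_ne_zero (K := K)
    exact_mod_cast this
  apply mul_left_cancel₀ ht
  rw [← h1]
  ring

theorem sfe_sum_classes (rep : ClassGroup (𝓞 K) → Ideal (𝓞 K)) (h0 : ∀ c, rep c ≠ ⊥)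
    (hrep : ∀ c, ClassGroup.mk0 ⟨rep c, mem_nonZeroDivisors_of_ne_zero (h0 c)⟩ = c)
    {F : (InfinitePlace K → ℝ) → ℂ} {C c : ℝ} (hF : GoodF F C c)
    {b : Ideal (𝓞 K) → ℂ} {β : ℝ} (hb : ∀ 𝔠, ‖b 𝔠‖ ≤ β) (hb0 : b ⊥ = 0) (u : ℝ) :
    ∑ c, Scl (rep c) b F u = (Real.exp (-(u / 2)) : ℂ) * Dser b F u := by
  rw [Dser_classes rep h0 hrep hF hb hb0, ← mul_assoc, ← Complex.ofReal_mul, ← Real.exp_add,
    neg_add_cancel, Real.exp_zero, Complex.ofReal_one, one_mul]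

theorem dser_fe {κ : InfinitePlace K → ℤ}
    (hκ : ∀ w : InfinitePlace K, w.IsReal → κ w = 0 ∨ κ w = 1) {lam : InfinitePlace K → ℝ}
    (hlam : ∑ w, lam w = 0) {𝔮 : Ideal (𝓞 K)} (h𝔮 : 𝔮 ≠ ⊥) (h𝔮' : 𝔮 ≠ ⊤)
    {χ : MulChar (𝓞 K ⧸ 𝔮) ℂ} (hχ : IsPrim 𝔮 χ) {ψ : Ideal (𝓞 K) →* ℂ}
    (hψ : IsHecke 𝔮 κ lam χ ψ) :
    ∃ Ω : ℂ, ‖Ω‖ = 1 ∧ ∀ u : ℝ, Dser ψ (Gf κ lam) u =
      Ω * starRingEnd ℂ (Dser ψ (Gf κ lam) (-u - Real.log (cond 𝔮))) := by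
  classical
  obtain ⟨C, hC⟩ := Gf_good κ
  have hle := sfe_psi_le hψ
  have hbot := sfe_psi_bot hψ h𝔮'
  -- representatives
  have hsurj := ClassGroup.mk0_surjective (R := 𝓞 K)
  choose r hr using hsurj
  set rep : ClassGroup (𝓞 K) → Ideal (𝓞 K) := fun c => (r c : Ideal (𝓞 K)) with hrepd
  have h0 : ∀ c, rep c ≠ ⊥ := fun c => nonZeroDivisors.ne_zero (r c).2
  have hrep : ∀ c, ClassGroup.mk0 ⟨rep c, mem_nonZeroDivisors_of_ne_zero (h0 c)⟩ = c :=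
    fun c => hr c
  have hdiff : differentIdeal ℤ (𝓞 K) ≠ ⊥ := differentIdeal_ne_bot
  set J : Ideal (𝓞 K) := 𝔮 * differentIdeal ℤ (𝓞 K) * ∏ c, rep c with hJ
  have hJ0 : J ≠ ⊥ := by
    rw [hJ]
    refine mul_ne_zero (mul_ne_zero h𝔮 hdiff) ?_
    exact Finset.prod_ne_zero_iff.2 fun c _ => h0 c
  set N : ℕ := Ideal.absNorm J with hN
  have hN0 : 0 < N := Nat.pos_of_ne_zero (Ideal.absNorm_eq_zero_iff.not.2 hJ0)
  have hJN : J ∣ Ideal.span {(N : 𝓞 K)} := by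
    rw [Ideal.dvd_span_singleton]
    exact Ideal.absNorm_mem J
  have hex : ∀ c, ∃ b' : Ideal (𝓞 K),
      𝔮 * rep c * b' * differentIdeal ℤ (𝓞 K) = Ideal.span {(N : 𝓞 K)} := by
    intro c
    have h1 : 𝔮 * rep c * differentIdeal ℤ (𝓞 K) ∣ Ideal.span {(N : 𝓞 K)} := by
      refine dvd_trans ?_ hJN
      rw [hJ]
      have h2 : rep c ∣ ∏ c, rep c := Finset.dvd_prod_of_mem _ (Finset.mem_univ c)
      obtain ⟨t, ht⟩ := h2
      refine ⟨t, ?_⟩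
      rw [ht]
      ring
    obtain ⟨t, ht⟩ := h1
    refine ⟨t, ?_⟩
    rw [ht]
    ring
  choose b' hb' using hex
  have hb0 : ∀ c, b' c ≠ ⊥ := fun c => (sfe_ne_bot hN0 (hb' c)).2
  set σ : ClassGroup (𝓞 K) → ClassGroup (𝓞 K) := fun c =>
    ClassGroup.mk0 ⟨b' c, mem_nonZeroDivisors_of_ne_zero (hb0 c)⟩ with hσ
  have hNne : Ideal.span {(N : 𝓞 K)} ≠ ⊥ := by
    rw [Ne, Ideal.span_singleton_eq_bot]
    exact_mod_cast hN0.ne'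
  have hprod : ∀ c, ClassGroup.mk0 ⟨𝔮, mem_nonZeroDivisors_of_ne_zero h𝔮⟩ * c * σ c *
      ClassGroup.mk0 ⟨differentIdeal ℤ (𝓞 K), mem_nonZeroDivisors_of_ne_zero hdiff⟩ =
      ClassGroup.mk0 ⟨Ideal.span {(N : 𝓞 K)}, mem_nonZeroDivisors_of_ne_zero hNne⟩ := by
    intro c
    have h1 : ClassGroup.mk0 ⟨𝔮, mem_nonZeroDivisors_of_ne_zero h𝔮⟩ *
        ClassGroup.mk0 ⟨rep c, mem_nonZeroDivisors_of_ne_zero (h0 c)⟩ *
        ClassGroup.mk0 ⟨b' c, mem_nonZeroDivisors_of_ne_zero (hb0 c)⟩ *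
        ClassGroup.mk0 ⟨differentIdeal ℤ (𝓞 K), mem_nonZeroDivisors_of_ne_zero hdiff⟩ =
        ClassGroup.mk0 ⟨Ideal.span {(N : 𝓞 K)}, mem_nonZeroDivisors_of_ne_zero hNne⟩ := by
      rw [← map_mul, ← map_mul, ← map_mul]
      congr 1
      exact Subtype.ext (hb' c)
    rw [hrep c] at h1
    exact h1
  have hinj : Function.Injective σ := by
    intro c c' h
    have h1 := (hprod c).trans (hprod c').symm
    rw [h] at h1
    exact mul_left_cancel (mul_right_cancel (mul_right_cancel h1))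
  have hbij : Function.Bijective σ := Finite.injective_iff_bijective.1 hinj
  obtain ⟨W, hW⟩ := scl_fe hκ hlam h𝔮 h𝔮' hχ hψ hN0
  have hsum : ∀ v : ℝ, ∑ c, Scl (b' c) ψ (Gf κ lam) v =
      (Real.exp (-(v / 2)) : ℂ) * Dser ψ (Gf κ lam) v := by
    intro v
    rw [← sfe_sum_classes rep h0 hrep (hC lam) hle hbot v,
      ← hbij.sum_comp (fun c => Scl (rep c) ψ (Gf κ lam) v)]
    refine Finset.sum_congr rfl fun c _ => ?_
    exact Scl_congr _ _ (hb0 c) (h0 (σ c)) (hrep (σ c)).symm _ _ _ hbot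
  set L : ℝ := Real.log (cond 𝔮) with hL
  set Ω₀ : ℂ := W * (Real.exp (L / 2) : ℂ) with hΩ₀
  have hfe : ∀ u : ℝ, Dser ψ (Gf κ lam) u =
      Ω₀ * starRingEnd ℂ (Dser ψ (Gf κ lam) (-u - L)) := by
    intro u
    have h1 : ∑ c, Scl (rep c) ψ (Gf κ lam) u = W * (Real.exp (-u) : ℂ) *
        starRingEnd ℂ (∑ c, Scl (b' c) ψ (Gf κ lam) (-u - L)) := by
      rw [map_sum, Finset.mul_sum]
      exact Finset.sum_congr rfl fun c _ => hW (rep c) (b' c) (hb' c) u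
    rw [hsum, sfe_sum_classes rep h0 hrep (hC lam) hle hbot u, map_mul, Complex.conj_ofReal] at h1
    have h2 : Dser ψ (Gf κ lam) u = (Real.exp (u / 2) : ℂ) *
        ((Real.exp (-(u / 2)) : ℂ) * Dser ψ (Gf κ lam) u) := by
      rw [← mul_assoc, ← Complex.ofReal_mul, ← Real.exp_add, add_neg_cancel, Real.exp_zero,
        Complex.ofReal_one, one_mul]
    have h3 : Real.exp (u / 2) * (Real.exp (-u) * Real.exp (-((-u - L) / 2))) =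
        Real.exp (L / 2) := by
      rw [← Real.exp_add, ← Real.exp_add]
      congr 1
      ring
    rw [h2, h1, hΩ₀, ← h3]
    push_cast
    ring
  by_cases hD : ∀ u, Dser ψ (Gf κ lam) u = 0
  · refine ⟨1, norm_one, fun u => ?_⟩
    rw [hD, hD]
    simp
  · push Not at hD
    obtain ⟨u, hu⟩ := hD
    refine ⟨Ω₀, ?_, hfe⟩
    have h1 := hfe u
    have h2 := hfe (-u - L)
    have e : -(-u - L) - L = u := by ring
    rw [e] at h2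
    rw [h2, map_mul, Complex.conj_conj, ← mul_assoc, Complex.mul_conj] at h1
    have h3 : ((Complex.normSq Ω₀ : ℝ) : ℂ) = 1 := by
      apply mul_right_cancel₀ hu
      rw [← h1, one_mul]
    have h4 : Complex.normSq Ω₀ = 1 := by exact_mod_cast h3
    rw [Complex.normSq_eq_norm_sq] at h4
    rcases sq_eq_one_iff.1 h4 with h5 | h5
    · exact h5
    · have := norm_nonneg Ω₀
      linarith

end Pool.Agent.HZ
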