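import Mathlib

/-!
# Critical zeros of Hecke L-functions of number fields: definitions (MP_77948b_nt)
-/

namespace Pool.Agent.HZ

open NumberField NumberField.InfinitePlace NumberField.Units Complex MeasureTheory Filter Topology

variable {K : Type} [Field K] [NumberField K]

/-! ### Definitions used in the final statement -/

/-- The archimedean part `∏_w (a_w / |a_w|)^{κ_w} |a_w|^{-i λ_w}` of a Hecke character of infinity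
type `(κ, λ)` at the principal ideal `(a)`. -/
noncomputable def psiInf (κ : InfinitePlace K → ℤ) (lam : InfinitePlace K → ℝ) (a : K) : ℂ :=
  ∏ w : InfinitePlace K, (w.embedding a / (w a : ℂ)) ^ κ w *
    cexp (-((lam w * Real.log (w a) : ℝ) : ℂ) * I)

/-- `χ` is a primitive character of `(𝓞 K / 𝔮)ˣ`: it is not induced from a strictly larger ideal. -/
def IsPrim (𝔮 : Ideal (𝓞 K)) (χ : MulChar (𝓞 K ⧸ 𝔮) ℂ) : Prop :=
  ∀ 𝔪 : Ideal (𝓞 K), 𝔮 < 𝔪 → ∃ α : 𝓞 K, α - 1 ∈ 𝔪 ∧ IsUnit (Ideal.Quotient.mk 𝔮 α) ∧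
    χ (Ideal.Quotient.mk 𝔮 α) ≠ 1

/-- `ψ` is a (unitary) Hecke character modulo `𝔮` of `K`, with finite part `χ` and infinity type
`(κ, λ)`. -/
structure IsHecke (𝔮 : Ideal (𝓞 K)) (κ : InfinitePlace K → ℤ) (lam : InfinitePlace K → ℝ)
    (χ : MulChar (𝓞 K ⧸ 𝔮) ℂ) (ψ : Ideal (𝓞 K) →* ℂ) : Prop where
  norm_eq_one : ∀ 𝔞 : Ideal (𝓞 K), IsCoprime 𝔞 𝔮 → ‖ψ 𝔞‖ = 1
  eq_zero : ∀ 𝔞 : Ideal (𝓞 K), ¬ IsCoprime 𝔞 𝔮 → ψ 𝔞 = 0
  principal : ∀ α : 𝓞 K, IsUnit (Ideal.Quotient.mk 𝔮 α) →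
    ψ (Ideal.span {α}) = χ (Ideal.Quotient.mk 𝔮 α) * psiInf κ lam (α : K)

/-- The Gamma factor of a Hecke character of infinity type `(κ, λ)`. -/
noncomputable def gam (κ : InfinitePlace K → ℤ) (lam : InfinitePlace K → ℝ) (s : ℂ) : ℂ :=
  open scoped Classical in
  ∏ w : InfinitePlace K, if w.IsReal then Gammaℝ (s + |κ w| + lam w * I)
    else Gammaℂ (s + |κ w| / 2 + lam w / 2 * I)

/-- `Λ` is the completed L-function of the Hecke character `ψ`: it is entire and equal to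
`γ(s) ∑_𝔞 ψ(𝔞) N𝔞^{-s}` for `Re s > 1`. -/
def IsCompleted (κ : InfinitePlace K → ℤ) (lam : InfinitePlace K → ℝ) (ψ : Ideal (𝓞 K) →* ℂ)
    (Λ : ℂ → ℂ) : Prop :=
  Differentiable ℂ Λ ∧ ∀ s : ℂ, 1 < s.re →
    Λ s = gam κ lam s * ∑' 𝔞 : Ideal (𝓞 K), ψ 𝔞 * (Ideal.absNorm 𝔞 : ℂ) ^ (-s)

/-! ### Auxiliary definitions -/

variable (K) in
/-- The unit coordinates: `Y(u,x)_w = e^{u/n} ∏_i |η_i|_w^{x_i}`. -/
noncomputable def Yv (u : ℝ) (x : Fin (rank K) → ℝ) (w : InfinitePlace K) : ℝ :=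
  Real.exp (u / Module.finrank ℚ K) * ∏ i, (w ((fundSystem K i : 𝓞 K) : K)) ^ (x i)

/-- `qn y = ∑_w n_w y_w²`. -/
noncomputable def qn (y : InfinitePlace K → ℝ) : ℝ := ∑ w, (w.mult : ℝ) * y w ^ 2

/-- `G_{κ,λ}(y) = ∏_w y_w^{|κ_w| + i λ_w} exp(-π n_w y_w²)` for positive vectors `y`. -/
noncomputable def Gf (κ : InfinitePlace K → ℤ) (lam : InfinitePlace K → ℝ)
    (y : InfinitePlace K → ℝ) : ℂ :=
  ∏ w : InfinitePlace K, ((y w : ℂ) ^ (κ w).natAbs *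
    cexp (((lam w * Real.log (y w) : ℝ) : ℂ) * I) *
    cexp (-((Real.pi * w.mult * y w ^ 2 : ℝ) : ℂ)))

/-- the local function `|z|^{|κ|} (z/|z|)^κ exp(-π m |z|²)` -/
noncomputable def hloc (m : ℕ) (κ : ℤ) (z : ℂ) : ℂ :=
  (‖z‖ : ℂ) ^ κ.natAbs * (z / (‖z‖ : ℂ)) ^ κ * cexp (-((Real.pi * m * ‖z‖ ^ 2 : ℝ) : ℂ))

/-- `H_κ(y, a) = ∏_w h_w(y_w a_w)`. -/
noncomputable def Hf (κ : InfinitePlace K → ℤ) (y : InfinitePlace K → ℝ) (a : K) : ℂ :=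
  ∏ w : InfinitePlace K, hloc w.mult (κ w) ((y w : ℂ) * w.embedding a)

variable (K) in
/-- Integration over the unit directions. -/
noncomputable def kint (F : (InfinitePlace K → ℝ) → ℂ) (u : ℝ) : ℂ :=
  ∫ x : Fin (rank K) → ℝ, F (Yv K u x)

variable (K) in
/-- Integration over the unit directions of the Gaussian `exp(-c qn)`. -/
noncomputable def kg (c : ℝ) (u : ℝ) : ℝ :=
  ∫ x : Fin (rank K) → ℝ, Real.exp (-c * qn (Yv K u x))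

/-- The density `e^{u/2} ∑_𝔠 b(𝔠) k_F(u + log N𝔠)`. -/
noncomputable def Dser (b : Ideal (𝓞 K) → ℂ) (F : (InfinitePlace K → ℝ) → ℂ) (u : ℝ) : ℂ :=
  (Real.exp (u / 2) : ℂ) *
    ∑' 𝔠 : Ideal (𝓞 K), b 𝔠 * kint K F (u + Real.log (Ideal.absNorm 𝔠))

open scoped Classical in
/-- The part of the sum over the `𝔠` such that `𝔟 𝔠` is principal. -/
noncomputable def Scl (𝔟 : Ideal (𝓞 K)) (b : Ideal (𝓞 K) → ℂ)
    (F : (InfinitePlace K → ℝ) → ℂ) (u : ℝ) : ℂ :=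
  ∑' 𝔠 : Ideal (𝓞 K), if (𝔟 * 𝔠).IsPrincipal then
    b 𝔠 * kint K F (u + Real.log (Ideal.absNorm 𝔠)) else 0

open scoped Classical in
/-- For `α ∈ 𝔟`, `α ≠ 0`: the ideal `𝔠` with `𝔟 𝔠 = (α)`; otherwise `⊥`. -/
noncomputable def quo (𝔟 : Ideal (𝓞 K)) (α : 𝓞 K) : Ideal (𝓞 K) :=
  if h : α ≠ 0 ∧ 𝔟 ∣ Ideal.span {α} then h.2.choose else ⊥

/-- The function `ψ̃_𝔟(α) = ψ((α)/𝔟) / ψ_∞(α)` on `𝔟`. -/
noncomputable def tw (κ : InfinitePlace K → ℤ) (lam : InfinitePlace K → ℝ)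
    (ψ : Ideal (𝓞 K) →* ℂ) (𝔟 : Ideal (𝓞 K)) (α : 𝓞 K) : ℂ :=
  ψ (quo 𝔟 α) * (psiInf κ lam (α : K))⁻¹

/-- The conductor `|d_K| N𝔮`. -/
noncomputable def cond (𝔮 : Ideal (𝓞 K)) : ℝ := |(discr K : ℝ)| * Ideal.absNorm 𝔮

open scoped Classical in
/-- The indicator function of the nonzero ideals coprime to the primes in `S`. -/
noncomputable def cop (S : Finset (Ideal (𝓞 K))) (𝔠 : Ideal (𝓞 K)) : ℂ :=
  if 𝔠 ≠ ⊥ ∧ ∀ 𝔭 ∈ S, ¬ 𝔭 ∣ 𝔠 then 1 else 0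

/-- The local density `∏_{𝔭 ∈ S} (1 - 1/N𝔭)`. -/
noncomputable def dens (S : Finset (Ideal (𝓞 K))) : ℝ :=
  ∏ 𝔭 ∈ S, (1 - ((Ideal.absNorm 𝔭 : ℝ))⁻¹)

variable (K) in
/-- The prime ideals of norm `≤ P`. -/
noncomputable def primesLe (P : ℕ) : Finset (Ideal (𝓞 K)) :=
  open scoped Classical in
  ((Ideal.finite_setOfPred_absNorm_le (S := 𝓞 K) P).toFinset).filter (fun 𝔭 => 𝔭.IsPrime ∧ 𝔭 ≠ ⊥)

/-- `e(x) = exp(2 π i x)` -/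
noncomputable def ee (x : ℝ) : ℂ := cexp (2 * Real.pi * I * x)

/-- Fourier transform of the weight. -/
noncomputable def hatw (w : ℝ → ℝ) (u : ℝ) : ℂ := ∫ t : ℝ, (w t : ℂ) * cexp (t * u * I)

/-- `F` is continuous on the positive vectors and bounded by `C exp(-c qn)`. -/
def GoodF (F : (InfinitePlace K → ℝ) → ℂ) (C c : ℝ) : Prop :=
  0 ≤ C ∧ 0 < c ∧ ContinuousOn F {y | ∀ w, 0 < y w} ∧
    ∀ y : InfinitePlace K → ℝ, (∀ w, 0 < y w) → ‖F y‖ ≤ C * Real.exp (-c * qn y)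

open scoped Classical in
/-- The coefficients of the mollified density. -/
noncomputable def bm (S : Finset (Ideal (𝓞 K))) (ι : Finset (Ideal (𝓞 K))) (c : Ideal (𝓞 K) → ℂ)
    (𝔠 : Ideal (𝓞 K)) : ℂ :=
  ∑ n ∈ ι, if (∃ 𝔞, 𝔠 = n * 𝔞 ∧ cop S 𝔞 = 1) then c n * (√(Ideal.absNorm n : ℝ) : ℂ) else 0

end Pool.Agent.HZ
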