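import Pool.Agent.Lib_helper41.HZF.Defs
import Pool.Agent.Lib_helper41.HZF.KG

namespace Pool.Agent.HZ

open NumberField NumberField.InfinitePlace NumberField.Units Complex MeasureTheory Filter Topology

variable {K : Type} [Field K] [NumberField K]

/-- the set of ideals counted -/
def dia1_set (K : Type) [Field K] [NumberField K] (S : Finset (Ideal (𝓞 K))) (y : ℝ) :
    Set (Ideal (𝓞 K)) :=
  {c | (c ≠ ⊥ ∧ ∀ p ∈ S, ¬ p ∣ c) ∧ (Ideal.absNorm c : ℝ) ≤ y}

theorem dia1_fin (S : Finset (Ideal (𝓞 K))) (y : ℝ) : (dia1_set K S y).Finite := by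
  refine (Ideal.finite_setOfPred_absNorm_le (S := 𝓞 K) ⌊y⌋₊).subset ?_
  intro c hc
  exact Nat.le_floor hc.2

/-- the counting function -/
noncomputable def dia1_cnt (K : Type) [Field K] [NumberField K] (S : Finset (Ideal (𝓞 K)))
    (y : ℝ) : ℝ := ((dia1_set K S y).ncard : ℝ)

theorem dia1_cnt_nonneg (S : Finset (Ideal (𝓞 K))) (y : ℝ) : 0 ≤ dia1_cnt K S y := by
  unfold dia1_cnt; positivity

theorem dia1_cnt_mono (S : Finset (Ideal (𝓞 K))) {y z : ℝ} (h : y ≤ z) :
    dia1_cnt K S y ≤ dia1_cnt K S z := by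
  have hsub : dia1_set K S y ⊆ dia1_set K S z := fun c hc => ⟨hc.1, hc.2.trans h⟩
  unfold dia1_cnt
  exact_mod_cast Set.ncard_le_ncard hsub (dia1_fin S z)

theorem dia1_cnt_le_empty (S : Finset (Ideal (𝓞 K))) (y : ℝ) :
    dia1_cnt K S y ≤ dia1_cnt K ∅ y := by
  have hsub : dia1_set K S y ⊆ dia1_set K ∅ y := fun c hc => ⟨⟨hc.1.1, by simp⟩, hc.2⟩
  unfold dia1_cnt
  exact_mod_cast Set.ncard_le_ncard hsub (dia1_fin ∅ y)

theorem dia1_cnt_lt_one (S : Finset (Ideal (𝓞 K))) {y : ℝ} (h : y < 1) :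
    dia1_cnt K S y = 0 := by
  have : dia1_set K S y = ∅ := by
    ext c
    simp only [dia1_set, Set.mem_ofPred_eq, Set.mem_empty_iff_false, iff_false]
    rintro ⟨⟨h0, -⟩, h2⟩
    have : 0 < Ideal.absNorm c := Nat.pos_of_ne_zero (by rwa [Ne, Ideal.absNorm_eq_zero_iff])
    have h3 : (1 : ℝ) ≤ Ideal.absNorm c := by exact_mod_cast this
    linarith
  unfold dia1_cnt
  rw [this]; simp

theorem dia1_lim0 : ∃ rho : ℝ, 0 ≤ rho ∧
    Tendsto (fun y : ℝ => dia1_cnt K ∅ y / y) atTop (𝓝 rho) := by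
  refine ⟨_, ?_, (NumberField.Ideal.tendsto_norm_le_div_atTop₀ K).congr ?_⟩
  · have := regulator_pos K
    positivity
  · intro s
    congr 1
    unfold dia1_cnt
    norm_cast
    rw [← Nat.card_coe_set_eq]
    refine Nat.card_congr ⟨fun I => ⟨I.1.1, ⟨mem_nonZeroDivisors_iff_ne_zero.mp I.1.2, by simp⟩,
      I.2⟩, fun I => ⟨⟨I.1, mem_nonZeroDivisors_iff_ne_zero.mpr I.2.1.1⟩, I.2.2⟩, ?_, ?_⟩
    · intro I; rfl
    · intro I; rfl

theorem dia1_insert (S : Finset (Ideal (𝓞 K))) (hS : ∀ p ∈ S, p.IsPrime ∧ p ≠ ⊥)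
    {p : Ideal (𝓞 K)} (hp : p.IsPrime) (hp0 : p ≠ ⊥) (hpS : p ∉ S)
    [DecidableEq (Ideal (𝓞 K))] (y : ℝ) :
    dia1_cnt K (insert p S) y = dia1_cnt K S y - dia1_cnt K S (y / Ideal.absNorm p) := by
  have hNp : (0 : ℝ) < Ideal.absNorm p := by
    have : 0 < Ideal.absNorm p := Nat.pos_of_ne_zero (by rwa [Ne, Ideal.absNorm_eq_zero_iff])
    exact_mod_cast this
  have h1 : dia1_set K S y = dia1_set K (insert p S) y ∪
      (fun c => p * c) '' dia1_set K S (y / Ideal.absNorm p) := by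
    ext c
    constructor
    · rintro ⟨⟨h0, h1⟩, h2⟩
      by_cases hpc : p ∣ c
      · right
        obtain ⟨d, rfl⟩ := hpc
        refine ⟨d, ⟨⟨?_, ?_⟩, ?_⟩, rfl⟩
        · rintro rfl; apply h0; simp
        · intro q hq hqd; exact h1 q hq (Dvd.dvd.mul_left hqd p)
        · rw [map_mul] at h2
          push_cast at h2
          rw [le_div_iff₀ hNp]; linarith
      · left
        refine ⟨⟨h0, ?_⟩, h2⟩
        intro q hq
        rw [Finset.mem_insert] at hq
        rcases hq with rfl | hq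
        · exact hpc
        · exact h1 q hq
    · rintro (⟨⟨h0, h1⟩, h2⟩ | ⟨d, ⟨⟨h0, h1⟩, h2⟩, rfl⟩)
      · exact ⟨⟨h0, fun q hq => h1 q (Finset.mem_insert_of_mem hq)⟩, h2⟩
      · refine ⟨⟨?_, ?_⟩, ?_⟩
        · exact mul_ne_zero hp0 h0
        · intro q hq hqd
          have hqp := Ideal.prime_of_isPrime (hS q hq).2 (hS q hq).1
          rcases hqp.dvd_or_dvd hqd with h | h
          · have hpp := Ideal.prime_of_isPrime hp0 hp
            have := (hqp.irreducible.dvd_irreducible_iff_associated hpp.irreducible).mp h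
            rw [associated_iff_eq] at this
            exact hpS (this ▸ hq)
          · exact h1 q hq h
        · simp only [map_mul]
          push_cast
          rw [le_div_iff₀ hNp] at h2; linarith
  have hdis : Disjoint (dia1_set K (insert p S) y)
      ((fun c => p * c) '' dia1_set K S (y / Ideal.absNorm p)) := by
    rw [Set.disjoint_left]
    rintro c hc ⟨d, -, rfl⟩
    exact hc.1.2 p (Finset.mem_insert_self p S) (Dvd.intro d rfl)
  have hinj : Set.InjOn (fun c => p * c) (dia1_set K S (y / Ideal.absNorm p)) := by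
    intro c _ d _ h
    exact mul_left_cancel₀ hp0 h
  unfold dia1_cnt
  rw [h1, Set.ncard_union_eq hdis (dia1_fin _ _) ((dia1_fin _ _).image _),
    hinj.ncard_image]
  push_cast
  ring

theorem dia1_lim {rho : ℝ} (h0 : Tendsto (fun y : ℝ => dia1_cnt K ∅ y / y) atTop (𝓝 rho))
    (S : Finset (Ideal (𝓞 K))) (hS : ∀ p ∈ S, p.IsPrime ∧ p ≠ ⊥) :
    Tendsto (fun y : ℝ => dia1_cnt K S y / y) atTop (𝓝 (rho * dens S)) := by
  classical
  induction S using Finset.induction_on with
  | empty => simpa [dens] using h0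
  | insert p S hpS ih =>
    have hp := hS p (Finset.mem_insert_self p S)
    have hS' : ∀ q ∈ S, q.IsPrime ∧ q ≠ ⊥ := fun q hq => hS q (Finset.mem_insert_of_mem hq)
    have ih' := ih hS'
    have hNp : (0 : ℝ) < Ideal.absNorm p := by
      have : 0 < Ideal.absNorm p := Nat.pos_of_ne_zero (by
        rw [Ne, Ideal.absNorm_eq_zero_iff]; exact hp.2)
      exact_mod_cast this
    have h2 : Tendsto (fun y : ℝ => dia1_cnt K S (y / Ideal.absNorm p) / (y / Ideal.absNorm p))
        atTop (𝓝 (rho * dens S)) := ih'.comp (tendsto_id.atTop_div_const hNp)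
    have h3 := ih'.sub (h2.div_const (Ideal.absNorm p : ℝ))
    have h4 : rho * dens S - rho * dens S / (Ideal.absNorm p : ℝ) =
        rho * dens (insert p S) := by
      unfold dens
      rw [Finset.prod_insert hpS]
      field_simp
    rw [h4] at h3
    refine h3.congr' ?_
    filter_upwards [eventually_gt_atTop 0] with y hy
    rw [dia1_insert S hS' hp.1 hp.2 hpS y]
    field_simp

theorem dia1_bound : ∃ B : ℝ, 0 ≤ B ∧ ∀ (S : Finset (Ideal (𝓞 K))) (y : ℝ), 0 < y →
    dia1_cnt K S y ≤ B * y := by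
  obtain ⟨rho, hrho, hlim⟩ := dia1_lim0 (K := K)
  have h1 : ∀ᶠ y : ℝ in atTop, dia1_cnt K ∅ y / y < rho + 1 :=
    hlim.eventually_lt_const (by linarith)
  obtain ⟨Y, hY⟩ := (h1.and (eventually_ge_atTop 1)).exists_forall_of_atTop
  have hY1 : 1 ≤ Y := (hY Y le_rfl).2
  refine ⟨max (rho + 1) (dia1_cnt K ∅ Y), le_max_of_le_left (by linarith), ?_⟩
  intro S y hy
  refine (dia1_cnt_le_empty S y).trans ?_
  rcases lt_or_ge y 1 with h | h
  · rw [dia1_cnt_lt_one ∅ h]
    have : 0 ≤ max (rho + 1) (dia1_cnt K ∅ Y) := le_max_of_le_left (by linarith)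
    positivity
  rcases lt_or_ge y Y with h' | h'
  · calc dia1_cnt K ∅ y ≤ dia1_cnt K ∅ Y := dia1_cnt_mono ∅ h'.le
      _ ≤ max (rho + 1) (dia1_cnt K ∅ Y) * 1 := by rw [mul_one]; exact le_max_right _ _
      _ ≤ max (rho + 1) (dia1_cnt K ∅ Y) * y := by
        apply mul_le_mul_of_nonneg_left h
        exact le_max_of_le_left (by linarith)
  · have := (hY y h').1
    rw [div_lt_iff₀ hy] at this
    calc dia1_cnt K ∅ y ≤ (rho + 1) * y := this.le
      _ ≤ _ := mul_le_mul_of_nonneg_right (le_max_left _ _) hy.le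

theorem dia1_kg_nonneg (c u : ℝ) : 0 ≤ kg K c u := by
  unfold kg
  exact integral_nonneg (fun x => (Real.exp_pos _).le)

/-- the weights -/
noncomputable def dia1_w (j : ℤ) : ℝ := Real.exp (-(|(j : ℝ)|) / 2)

theorem dia1_w_pos (j : ℤ) : 0 < dia1_w j := Real.exp_pos _

theorem dia1_w_summable : Summable dia1_w := by
  have h : Summable (fun n : ℕ => Real.exp (-(1 / 2 : ℝ)) ^ n) := by
    apply summable_geometric_of_lt_one (Real.exp_pos _).le
    rw [Real.exp_lt_one_iff]; norm_num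
  apply Summable.of_nat_of_neg
  · refine h.congr fun n => ?_
    unfold dia1_w
    rw [← Real.exp_nat_mul]
    congr 1
    push_cast
    rw [abs_of_nonneg (Nat.cast_nonneg n)]
    ring
  · refine h.congr fun n => ?_
    unfold dia1_w
    rw [← Real.exp_nat_mul]
    congr 1
    push_cast
    rw [abs_neg, abs_of_nonneg (Nat.cast_nonneg n)]
    ring

theorem dia1_kg_le {c : ℝ} (hc : 0 < c) : ∃ C : ℝ, 0 ≤ C ∧ ∀ v : ℝ,
    kg K c v ≤ C * (dia1_w ⌊v⌋ * Real.exp (-(⌊v⌋ : ℝ))) := by
  obtain ⟨C1, hC1, h1⟩ := kg_le (K := K) hc (A := 1 / 2) (by norm_num)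
  obtain ⟨C2, hC2, h2⟩ := kg_le (K := K) hc (A := 3 / 2) (by norm_num)
  refine ⟨max C1 C2, le_max_of_le_left hC1, fun v => ?_⟩
  have hf := Int.floor_le v
  unfold dia1_w
  rw [← Real.exp_add]
  rcases le_or_gt 0 ⌊v⌋ with h | h
  · have h' : (0 : ℝ) ≤ (⌊v⌋ : ℝ) := by exact_mod_cast h
    rw [abs_of_nonneg h']
    refine (h2 v).trans ?_
    apply mul_le_mul (le_max_right _ _) _ (Real.exp_pos _).le (le_max_of_le_left hC1)
    apply Real.exp_le_exp.mpr
    linarith
  · have h' : (⌊v⌋ : ℝ) < 0 := by exact_mod_cast h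
    rw [abs_of_neg h']
    refine (h1 v).trans ?_
    apply mul_le_mul (le_max_left _ _) _ (Real.exp_pos _).le (le_max_of_le_left hC1)
    apply Real.exp_le_exp.mpr
    linarith

omit [NumberField K] in
theorem dia1_cop_norm (S : Finset (Ideal (𝓞 K))) (c : Ideal (𝓞 K)) :
    ‖cop S c‖ = open scoped Classical in if (c ≠ ⊥ ∧ ∀ p ∈ S, ¬ p ∣ c) then 1 else 0 := by
  classical
  unfold cop
  split_ifs <;> simp_all

/-- the main inequality -/
theorem dia1_main {c : ℝ} (hc : 0 < c) : ∃ C : ℝ, 0 ≤ C ∧ ∀ (S : Finset (Ideal (𝓞 K))) (u : ℝ),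
    Real.exp u * ∑' c' : Ideal (𝓞 K), ‖cop S c'‖ * kg K c (u + Real.log (Ideal.absNorm c')) ≤
      C * ∑' j : ℤ, dia1_w j * (dia1_cnt K S (Real.exp (j + 1 - u)) / Real.exp (j + 1 - u)) := by
  classical
  obtain ⟨C, hC, hk⟩ := dia1_kg_le (K := K) hc
  obtain ⟨B, hB, hcnt⟩ := dia1_bound (K := K)
  refine ⟨C * Real.exp 1, by positivity, fun S u => ?_⟩
  have hquot : ∀ j : ℤ, dia1_cnt K S (Real.exp (j + 1 - u)) / Real.exp (j + 1 - u) ≤ B := by
    intro j
    rw [div_le_iff₀ (Real.exp_pos _)]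
    exact hcnt S _ (Real.exp_pos _)
  have hsum : Summable (fun j : ℤ => dia1_w j *
      (dia1_cnt K S (Real.exp (j + 1 - u)) / Real.exp (j + 1 - u))) := by
    refine Summable.of_nonneg_of_le (fun j => ?_) (fun j => ?_) (dia1_w_summable.mul_right B)
    · exact mul_nonneg (dia1_w_pos j).le (div_nonneg (dia1_cnt_nonneg _ _) (Real.exp_pos _).le)
    · exact mul_le_mul_of_nonneg_left (hquot j) (dia1_w_pos j).le
  -- the sum with explicit weights
  set W : ℤ → ℝ := fun j => dia1_w j * Real.exp (-(j : ℝ)) with hW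
  have hW0 : ∀ j, 0 ≤ W j := fun j => mul_nonneg (dia1_w_pos j).le (Real.exp_pos _).le
  have hterm : ∀ j : ℤ, W j * dia1_cnt K S (Real.exp (j + 1 - u)) =
      Real.exp (1 - u) * (dia1_w j *
        (dia1_cnt K S (Real.exp (j + 1 - u)) / Real.exp (j + 1 - u))) := by
    intro j
    have : Real.exp (-(j : ℝ)) = Real.exp (1 - u) / Real.exp (j + 1 - u) := by
      rw [← Real.exp_sub]; congr 1; ring
    simp only [hW]
    rw [this]
    field_simp
  have hsumW : Summable (fun j : ℤ => W j * dia1_cnt K S (Real.exp (j + 1 - u))) := by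
    simp_rw [hterm]
    exact hsum.mul_left _
  have hle : ∑' c' : Ideal (𝓞 K), ‖cop S c'‖ * kg K c (u + Real.log (Ideal.absNorm c')) ≤
      C * ∑' j : ℤ, W j * dia1_cnt K S (Real.exp (j + 1 - u)) := by
    apply Real.tsum_le_of_sum_le
    · intro c'
      exact mul_nonneg (norm_nonneg _) (dia1_kg_nonneg _ _)
    · intro T
      -- each term
      have hind : ∀ (c' : Ideal (𝓞 K)) (j : ℤ), W j * (if c' ∈ dia1_set K S
          (Real.exp (j + 1 - u)) then (1 : ℝ) else 0) ≤
          W j * dia1_cnt K S (Real.exp (j + 1 - u)) := by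
        intro c' j
        apply mul_le_mul_of_nonneg_left _ (hW0 j)
        split_ifs with h
        · unfold dia1_cnt
          have : 0 < (dia1_set K S (Real.exp (j + 1 - u))).ncard :=
            (Set.ncard_pos (dia1_fin _ _)).mpr ⟨c', h⟩
          exact_mod_cast this
        · exact dia1_cnt_nonneg _ _
      have hsumc : ∀ c' : Ideal (𝓞 K), Summable (fun j : ℤ => W j * (if c' ∈ dia1_set K S
          (Real.exp (j + 1 - u)) then (1 : ℝ) else 0)) := by
        intro c'
        refine Summable.of_nonneg_of_le (fun j => ?_) (hind c') hsumW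
        apply mul_nonneg (hW0 j); split_ifs <;> norm_num
      have hone : ∀ c' : Ideal (𝓞 K), ‖cop S c'‖ * kg K c (u + Real.log (Ideal.absNorm c')) ≤
          C * ∑' j : ℤ, W j * (if c' ∈ dia1_set K S
          (Real.exp (j + 1 - u)) then (1 : ℝ) else 0) := by
        intro c'
        rw [dia1_cop_norm]
        split_ifs with h
        · rw [one_mul]
          set v := u + Real.log (Ideal.absNorm c') with hv
          have hN : 0 < Ideal.absNorm c' := Nat.pos_of_ne_zero (by
            rw [Ne, Ideal.absNorm_eq_zero_iff]; exact h.1)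
          have hN' : (0 : ℝ) < Ideal.absNorm c' := by exact_mod_cast hN
          have hmem : c' ∈ dia1_set K S (Real.exp ((⌊v⌋ : ℤ) + 1 - u)) := by
            refine ⟨h, ?_⟩
            rw [← Real.log_le_iff_le_exp hN']
            have := Int.lt_floor_add_one v
            linarith
          refine (hk v).trans ?_
          apply mul_le_mul_of_nonneg_left _ hC
          have := (hsumc c').le_tsum ⌊v⌋ (fun j _ => by
            apply mul_nonneg (hW0 j); split_ifs <;> norm_num)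
          rw [if_pos hmem, mul_one] at this
          exact this
        · rw [zero_mul]
          apply mul_nonneg hC
          apply tsum_nonneg
          intro j
          apply mul_nonneg (hW0 j); split_ifs <;> norm_num
      calc ∑ c' ∈ T, ‖cop S c'‖ * kg K c (u + Real.log (Ideal.absNorm c'))
          ≤ ∑ c' ∈ T, C * ∑' j : ℤ, W j * (if c' ∈ dia1_set K S
              (Real.exp (j + 1 - u)) then (1 : ℝ) else 0) :=
            Finset.sum_le_sum fun c' _ => hone c'
        _ = C * ∑' j : ℤ, ∑ c' ∈ T, W j * (if c' ∈ dia1_set K S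
              (Real.exp (j + 1 - u)) then (1 : ℝ) else 0) := by
            rw [← Finset.mul_sum, Summable.tsum_finsetSum (fun c' _ => hsumc c')]
        _ ≤ C * ∑' j : ℤ, W j * dia1_cnt K S (Real.exp (j + 1 - u)) := by
            apply mul_le_mul_of_nonneg_left _ hC
            apply Summable.tsum_le_tsum _ (summable_sum fun c' _ => hsumc c') hsumW
            intro j
            rw [← Finset.mul_sum]
            apply mul_le_mul_of_nonneg_left _ (hW0 j)
            rw [← Finset.sum_filter, Finset.sum_const, nsmul_eq_mul, mul_one]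
            unfold dia1_cnt
            have hsub : ((T.filter (fun c' => c' ∈ dia1_set K S (Real.exp (j + 1 - u))) :
                Finset (Ideal (𝓞 K))) : Set (Ideal (𝓞 K))) ⊆
                dia1_set K S (Real.exp (j + 1 - u)) := by
              intro c' hc'
              rw [Finset.mem_coe, Finset.mem_filter] at hc'
              exact hc'.2
            have := Set.ncard_le_ncard hsub (dia1_fin _ _)
            rw [Set.ncard_coe_finset] at this
            exact_mod_cast this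
  rw [tsum_congr hterm, tsum_mul_left] at hle
  calc Real.exp u * ∑' c' : Ideal (𝓞 K), ‖cop S c'‖ * kg K c (u + Real.log (Ideal.absNorm c'))
      ≤ Real.exp u * (C * (Real.exp (1 - u) * ∑' j : ℤ, dia1_w j *
        (dia1_cnt K S (Real.exp (j + 1 - u)) / Real.exp (j + 1 - u)))) :=
        mul_le_mul_of_nonneg_left hle (Real.exp_pos _).le
    _ = _ := by
      have : Real.exp u * Real.exp (1 - u) = Real.exp 1 := by
        rw [← Real.exp_add]; congr 1; ring
      calc _ = C * (Real.exp u * Real.exp (1 - u)) * ∑' j : ℤ, dia1_w j *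
        (dia1_cnt K S (Real.exp (j + 1 - u)) / Real.exp (j + 1 - u)) := by ring
        _ = _ := by rw [this]

theorem diag_bdd {c : ℝ} (hc : 0 < c) : ∃ C : ℝ, 0 ≤ C ∧ ∀ u : ℝ,
    Real.exp u * ∑' 𝔠 : Ideal (𝓞 K), ‖cop ∅ 𝔠‖ * kg K c (u + Real.log (Ideal.absNorm 𝔠)) ≤ C := by
  obtain ⟨C, hC, hmain⟩ := dia1_main (K := K) hc
  obtain ⟨B, hB, hcnt⟩ := dia1_bound (K := K)
  refine ⟨C * (∑' j : ℤ, dia1_w j * B), mul_nonneg hC (tsum_nonneg fun j =>
    mul_nonneg (dia1_w_pos j).le hB), fun u => (hmain ∅ u).trans ?_⟩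
  apply mul_le_mul_of_nonneg_left _ hC
  have hquot : ∀ j : ℤ, dia1_cnt K ∅ (Real.exp (j + 1 - u)) / Real.exp (j + 1 - u) ≤ B := by
    intro j
    rw [div_le_iff₀ (Real.exp_pos _)]
    exact hcnt ∅ _ (Real.exp_pos _)
  have h2 : ∀ j : ℤ, dia1_w j * (dia1_cnt K ∅ (Real.exp (j + 1 - u)) / Real.exp (j + 1 - u)) ≤
      dia1_w j * B := fun j => mul_le_mul_of_nonneg_left (hquot j) (dia1_w_pos j).le
  apply Summable.tsum_le_tsum h2 _ (dia1_w_summable.mul_right B)
  refine Summable.of_nonneg_of_le (fun j => ?_) h2 (dia1_w_summable.mul_right B)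
  exact mul_nonneg (dia1_w_pos j).le (div_nonneg (dia1_cnt_nonneg _ _) (Real.exp_pos _).le)

theorem diag_limit {c : ℝ} (hc : 0 < c) : ∃ C : ℝ, 0 ≤ C ∧ ∀ S : Finset (Ideal (𝓞 K)),
    (∀ 𝔭 ∈ S, 𝔭.IsPrime ∧ 𝔭 ≠ ⊥) → ∀ η : ℝ, 0 < η → ∃ V : ℝ, ∀ u ≤ V,
    Real.exp u * ∑' 𝔠 : Ideal (𝓞 K), ‖cop S 𝔠‖ * kg K c (u + Real.log (Ideal.absNorm 𝔠)) ≤
      C * dens S + η := by
  obtain ⟨C, hC, hmain⟩ := dia1_main (K := K) hc
  obtain ⟨B, hB, hcnt⟩ := dia1_bound (K := K)
  obtain ⟨rho, hrho, hlim⟩ := dia1_lim0 (K := K)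
  refine ⟨C * (rho * ∑' j : ℤ, dia1_w j), mul_nonneg hC (mul_nonneg hrho (tsum_nonneg fun j =>
    (dia1_w_pos j).le)), fun S hS η hη => ?_⟩
  have hl := dia1_lim hlim S hS
  have htend : Tendsto (fun u : ℝ => ∑' j : ℤ, dia1_w j *
      (dia1_cnt K S (Real.exp (j + 1 - u)) / Real.exp (j + 1 - u))) atBot
      (𝓝 (∑' j : ℤ, dia1_w j * (rho * dens S))) := by
    apply tendsto_tsum_of_dominated_convergence (bound := fun j => dia1_w j * B)
      (dia1_w_summable.mul_right B)
    · intro j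
      apply Tendsto.const_mul
      apply hl.comp
      apply Real.tendsto_exp_atTop.comp
      exact tendsto_const_nhds.add_atTop tendsto_neg_atBot_atTop
    · filter_upwards with u j
      rw [Real.norm_of_nonneg (mul_nonneg (dia1_w_pos j).le
        (div_nonneg (dia1_cnt_nonneg _ _) (Real.exp_pos _).le))]
      apply mul_le_mul_of_nonneg_left _ (dia1_w_pos j).le
      rw [div_le_iff₀ (Real.exp_pos _)]
      exact hcnt S _ (Real.exp_pos _)
  have htend2 := htend.const_mul C
  rw [tsum_mul_right] at htend2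
  have hev : ∀ᶠ u : ℝ in atBot, C * ∑' j : ℤ, dia1_w j *
      (dia1_cnt K S (Real.exp (j + 1 - u)) / Real.exp (j + 1 - u)) <
      C * ((∑' j : ℤ, dia1_w j) * (rho * dens S)) + η :=
    htend2.eventually_lt_const (by linarith)
  obtain ⟨V, hV⟩ := hev.exists_forall_of_atBot
  refine ⟨V, fun u hu => (hmain S u).trans ((hV u hu).le.trans (le_of_eq ?_))⟩
  ring

end Pool.Agent.HZ
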