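import Pool.Agent.Lib_helper41.HZF.Defs
import Pool.Agent.Lib_helper41.HZF.DIA1
import Pool.Agent.Lib_helper41.HZF.KG
import Pool.Agent.Lib_helper41.HZF.SUM

/-!
# Block DIA2: the tail of the sum over ideals tends to zero
-/

namespace Pool.Agent.HZ

open NumberField NumberField.InfinitePlace NumberField.Units Complex MeasureTheory Filter Topology

variable {K : Type} [Field K] [NumberField K]

theorem dia2_kg_nonneg (c u : ℝ) : 0 ≤ kg K c u :=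
  integral_nonneg fun x => (Real.exp_pos _).le

theorem dia2_cop_norm (𝔠 : Ideal (𝓞 K)) (h : 𝔠 ≠ ⊥) : ‖cop ∅ 𝔠‖ = 1 := by
  have : cop ∅ 𝔠 = 1 := by
    unfold cop
    rw [if_pos]
    exact ⟨h, fun 𝔭 h𝔭 => by simp at h𝔭⟩
  rw [this, norm_one]

theorem dia2_summable {c : ℝ} (hc : 0 < c) (u : ℝ) :
    Summable (fun 𝔠 : Ideal (𝓞 K) => ‖cop ∅ 𝔠‖ * kg K c (u + Real.log (Ideal.absNorm 𝔠))) := by
  obtain ⟨C, -, hC⟩ := sum_kg_le (K := K) hc (A := 2) (by norm_num)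
  refine (hC (fun 𝔠 => ‖cop ∅ 𝔠‖) 1 (fun 𝔠 => norm_nonneg _) (fun 𝔠 => ?_) ?_ u).1
  · unfold cop
    split_ifs <;> simp
  · have : cop ∅ (⊥ : Ideal (𝓞 K)) = 0 := by
      unfold cop
      rw [if_neg]
      rintro ⟨h, -⟩
      exact h rfl
    simp only [this, norm_zero]

/-- the truncated term -/
noncomputable def dia2_h (c : ℝ) (P : ℕ) (u : ℝ) (𝔠 : Ideal (𝓞 K)) : ℝ :=
  if P < Ideal.absNorm 𝔠 then kg K c (u + Real.log (Ideal.absNorm 𝔠)) else 0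

theorem dia2_h_nonneg (c : ℝ) (P : ℕ) (u : ℝ) (𝔠 : Ideal (𝓞 K)) : 0 ≤ dia2_h c P u 𝔠 := by
  unfold dia2_h
  split_ifs
  · exact dia2_kg_nonneg _ _
  · exact le_rfl

theorem dia2_h_le (c : ℝ) (P : ℕ) (u : ℝ) (𝔠 : Ideal (𝓞 K)) :
    dia2_h c P u 𝔠 ≤ ‖cop ∅ 𝔠‖ * kg K c (u + Real.log (Ideal.absNorm 𝔠)) := by
  unfold dia2_h
  split_ifs with h
  · have h0 : 𝔠 ≠ ⊥ := by
      rintro rfl
      simp at h
    rw [dia2_cop_norm 𝔠 h0, one_mul]
  · exact mul_nonneg (norm_nonneg _) (dia2_kg_nonneg _ _)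

theorem dia2_h_summable {c : ℝ} (hc : 0 < c) (P : ℕ) (u : ℝ) :
    Summable (fun 𝔠 : Ideal (𝓞 K) => dia2_h c P u 𝔠) :=
  Summable.of_nonneg_of_le (fun 𝔠 => dia2_h_nonneg c P u 𝔠) (fun 𝔠 => dia2_h_le c P u 𝔠)
    (dia2_summable hc u)

variable (K) in
/-- the finite sets of ideals of bounded norm -/
noncomputable def dia2_s (n : ℕ) : Finset (Ideal (𝓞 K)) :=
  (Ideal.finite_setOfPred_absNorm_le (S := 𝓞 K) n).toFinset

theorem dia2_mem_s (n : ℕ) (𝔠 : Ideal (𝓞 K)) : 𝔠 ∈ dia2_s K n ↔ Ideal.absNorm 𝔠 ≤ n := by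
  unfold dia2_s
  rw [Set.Finite.mem_toFinset]
  rfl

theorem dia2_measurable {c : ℝ} (hc : 0 < c) (P : ℕ) :
    Measurable (fun u : ℝ => ∑' 𝔠 : Ideal (𝓞 K), dia2_h c P u 𝔠) := by
  refine measurable_of_tendsto_metrizable (f := fun (n : ℕ) (u : ℝ) =>
    ∑ 𝔠 ∈ dia2_s K n, dia2_h c P u 𝔠) (fun n => ?_) ?_
  · refine Finset.measurable_sum _ fun 𝔠 _ => ?_
    unfold dia2_h
    split_ifs
    · exact ((kg_continuous hc).comp (continuous_id.add continuous_const)).measurable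
    · exact measurable_const
  · rw [tendsto_pi_nhds]
    intro u
    refine (dia2_h_summable hc P u).hasSum.comp
      (tendsto_atTop_finset_of_monotone (fun m n hmn 𝔠 h𝔠 => ?_) fun 𝔠 => ⟨Ideal.absNorm 𝔠, ?_⟩)
    · rw [dia2_mem_s] at h𝔠 ⊢
      exact h𝔠.trans hmn
    · rw [dia2_mem_s]

theorem tail_tendsto {c : ℝ} (hc : 0 < c) (W : ℝ → ℝ) (hW : Integrable W) (hW0 : ∀ u, 0 ≤ W u) :
    Tendsto (fun P : ℕ => ∫ u : ℝ, (Real.exp u * ∑' 𝔠 : Ideal (𝓞 K),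
      (if P < Ideal.absNorm 𝔠 then kg K c (u + Real.log (Ideal.absNorm 𝔠)) else 0)) * W u)
      atTop (𝓝 0) := by
  obtain ⟨C, hC0, hC⟩ := diag_bdd (K := K) hc
  have key : Tendsto (fun P : ℕ => ∫ u : ℝ, (Real.exp u * ∑' 𝔠 : Ideal (𝓞 K),
      dia2_h c P u 𝔠) * W u) atTop (𝓝 (∫ _ : ℝ, (0 : ℝ))) := by
    refine tendsto_integral_of_dominated_convergence (fun u => C * W u) (fun P => ?_)
      (hW.const_mul C) (fun P => Eventually.of_forall fun u => ?_)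
      (Eventually.of_forall fun u => ?_)
    · exact ((Real.measurable_exp.mul (dia2_measurable hc P)).aestronglyMeasurable).mul
        hW.aestronglyMeasurable
    · have h0 : 0 ≤ ∑' 𝔠 : Ideal (𝓞 K), dia2_h c P u 𝔠 :=
        tsum_nonneg fun 𝔠 => dia2_h_nonneg c P u 𝔠
      have h1 : ∑' 𝔠 : Ideal (𝓞 K), dia2_h c P u 𝔠 ≤
          ∑' 𝔠 : Ideal (𝓞 K), ‖cop ∅ 𝔠‖ * kg K c (u + Real.log (Ideal.absNorm 𝔠)) :=
        (dia2_h_summable hc P u).tsum_le_tsum (fun 𝔠 => dia2_h_le c P u 𝔠) (dia2_summable hc u)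
      rw [Real.norm_of_nonneg (mul_nonneg (mul_nonneg (Real.exp_pos u).le h0) (hW0 u))]
      exact mul_le_mul_of_nonneg_right
        ((mul_le_mul_of_nonneg_left h1 (Real.exp_pos u).le).trans (hC u)) (hW0 u)
    · have h1 : Tendsto (fun P : ℕ => ∑' 𝔠 : Ideal (𝓞 K), dia2_h c P u 𝔠) atTop
          (𝓝 (∑' _ : Ideal (𝓞 K), (0 : ℝ))) := by
        refine tendsto_tsum_of_dominated_convergence (dia2_summable hc u) (fun 𝔠 => ?_)
          (Eventually.of_forall fun P 𝔠 => ?_)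
        · refine tendsto_const_nhds.congr' ?_
          filter_upwards [eventually_ge_atTop (Ideal.absNorm 𝔠)] with P hP
          unfold dia2_h
          rw [if_neg (not_lt.mpr hP)]
        · rw [Real.norm_of_nonneg (dia2_h_nonneg c P u 𝔠)]
          exact dia2_h_le c P u 𝔠
      rw [tsum_zero] at h1
      have h2 := (h1.const_mul (Real.exp u)).mul_const (W u)
      rwa [mul_zero, zero_mul] at h2
  rw [integral_zero] at key
  exact key

end Pool.Agent.HZ
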