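import Pool.Agent.Lib_helper41.HZF.Defs

namespace Pool.Agent.HZ

open NumberField NumberField.InfinitePlace NumberField.Units Complex MeasureTheory Filter Topology

variable {K : Type} [Field K] [NumberField K]

theorem dia3_norm_pos {c : Ideal (𝓞 K)} (h : c ≠ ⊥) : (0 : ℝ) < (Ideal.absNorm c : ℝ) := by
  have : Ideal.absNorm c ≠ 0 := by
    rw [Ne, Ideal.absNorm_eq_zero_iff]
    exact h
  exact_mod_cast Nat.pos_of_ne_zero this

theorem dia3_norm_one_lt {p : Ideal (𝓞 K)} (hp : p.IsPrime) (h0 : p ≠ ⊥) :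
    (1 : ℝ) < (Ideal.absNorm p : ℝ) := by
  have h1 : Ideal.absNorm p ≠ 0 := by
    rw [Ne, Ideal.absNorm_eq_zero_iff]
    exact h0
  have h2 : Ideal.absNorm p ≠ 1 := by
    rw [Ne, Ideal.absNorm_eq_one_iff]
    exact hp.ne_top
  have : 1 < Ideal.absNorm p := by omega
  exact_mod_cast this

theorem dia3_geom {x : ℝ} (hx : 0 ≤ x) (hx1 : x < 1) (M : ℕ) :
    ∑ k ∈ Finset.range M, x ^ k ≤ (1 - x)⁻¹ := by
  rw [← tsum_geometric_of_lt_one hx hx1]
  exact (summable_geometric_of_lt_one hx hx1).sum_le_tsum _ (fun i _ => pow_nonneg hx i)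

theorem dia3_euler (S : Finset (Ideal (𝓞 K))) : (∀ p ∈ S, p.IsPrime ∧ p ≠ ⊥) →
    ∀ A : Finset (Ideal (𝓞 K)), (∀ c ∈ A, c ≠ ⊥ ∧ ∀ q : Ideal (𝓞 K), q.IsPrime → q ∣ c → q ∈ S) →
    ∑ c ∈ A, ((Ideal.absNorm c : ℝ))⁻¹ ≤ ∏ p ∈ S, (1 - ((Ideal.absNorm p : ℝ))⁻¹)⁻¹ := by
  classical
  induction S using Finset.induction_on with
  | empty =>
    intro _ A hA
    have hsub : A ⊆ {⊤} := by
      intro c hc
      rw [Finset.mem_singleton]
      by_contra hne
      obtain ⟨m, hm, hcm⟩ := Ideal.exists_le_maximal c hne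
      have := (hA c hc).2 m hm.isPrime (Ideal.dvd_iff_le.mpr hcm)
      simp at this
    calc ∑ c ∈ A, ((Ideal.absNorm c : ℝ))⁻¹ ≤ ∑ c ∈ ({⊤} : Finset (Ideal (𝓞 K))),
          ((Ideal.absNorm c : ℝ))⁻¹ :=
          Finset.sum_le_sum_of_subset_of_nonneg hsub (fun i _ _ => by positivity)
      _ = 1 := by simp
      _ ≤ _ := by simp
  | insert p S hpS ih =>
    intro hS A hA
    obtain ⟨hp, hp0⟩ := hS p (Finset.mem_insert_self _ _)
    have hN1 := dia3_norm_one_lt hp hp0
    have hex : ∀ c : Ideal (𝓞 K), c ≠ ⊥ → ∃ (k : ℕ) (d : Ideal (𝓞 K)), ¬ p ∣ d ∧ c = p ^ k * d := by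
      intro c hc
      obtain ⟨k, d, hd, h⟩ := WfDvdMonoid.max_power_factor (a₀ := c) (x := p)
        hc ((Ideal.prime_iff_isPrime hp0).mpr hp).irreducible
      exact ⟨k, d, hd, h⟩
    choose! κ δ hδ hκ using hex
    set B := A.image δ with hB
    obtain ⟨M, hM⟩ : ∃ M : ℕ, ∀ c ∈ A, κ c < M := by
      refine ⟨A.sup κ + 1, fun c hc => ?_⟩
      exact Nat.lt_succ_of_le (Finset.le_sup (f := κ) hc)
    set x : ℝ := ((Ideal.absNorm p : ℝ))⁻¹ with hx
    have hx0 : 0 ≤ x := by positivity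
    have hx1 : x < 1 := inv_lt_one_of_one_lt₀ hN1
    have hBsum := ih (fun q hq => hS q (Finset.mem_insert_of_mem hq)) B (by
      intro d hd
      obtain ⟨c, hc, rfl⟩ := Finset.mem_image.mp hd
      obtain ⟨hc0, hcd⟩ := hA c hc
      have heq := hκ c hc0
      refine ⟨?_, ?_⟩
      · intro h
        rw [h] at heq
        apply hc0
        rw [heq]
        simp
      · intro q hq hqd
        have h1 : q ∣ c := by
          rw [heq]
          exact Dvd.dvd.mul_left hqd _
        have h2 := hcd q hq h1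
        rcases Finset.mem_insert.mp h2 with h3 | h3
        · exfalso
          rw [h3] at hqd
          exact hδ c hc0 hqd
        · exact h3)
    have hinj : Set.InjOn (fun c => (κ c, δ c)) (A : Set (Ideal (𝓞 K))) := by
      intro c hc c' hc' h
      simp only [Prod.mk.injEq] at h
      rw [hκ c (hA c hc).1, hκ c' (hA c' hc').1, h.1, h.2]
    have hstep : ∑ c ∈ A, ((Ideal.absNorm c : ℝ))⁻¹ ≤
        ∑ y ∈ (Finset.range M) ×ˢ B, x ^ y.1 * ((Ideal.absNorm y.2 : ℝ))⁻¹ := by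
      calc ∑ c ∈ A, ((Ideal.absNorm c : ℝ))⁻¹
          = ∑ c ∈ A, x ^ (κ c) * ((Ideal.absNorm (δ c) : ℝ))⁻¹ := by
            refine Finset.sum_congr rfl (fun c hc => ?_)
            have h1 := hκ c (hA c hc).1
            have h2 : (Ideal.absNorm c : ℝ) =
                (Ideal.absNorm p : ℝ) ^ (κ c) * (Ideal.absNorm (δ c) : ℝ) := by
              conv_lhs => rw [h1]
              rw [map_mul, map_pow]
              push_cast
              ring
            rw [h2, mul_inv, hx, inv_pow]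
        _ = ∑ y ∈ A.image (fun c => (κ c, δ c)), x ^ y.1 * ((Ideal.absNorm y.2 : ℝ))⁻¹ := by
            rw [Finset.sum_image hinj]
        _ ≤ _ := by
            refine Finset.sum_le_sum_of_subset_of_nonneg ?_ (fun i _ _ => by positivity)
            intro y hy
            obtain ⟨c, hc, rfl⟩ := Finset.mem_image.mp hy
            exact Finset.mem_product.mpr ⟨Finset.mem_range.mpr (hM c hc),
              Finset.mem_image_of_mem _ hc⟩
    rw [Finset.prod_insert hpS]
    refine hstep.trans ?_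
    rw [Finset.sum_product]
    have : ∑ k ∈ Finset.range M, ∑ d ∈ B, x ^ k * ((Ideal.absNorm d : ℝ))⁻¹ =
        (∑ k ∈ Finset.range M, x ^ k) * ∑ d ∈ B, ((Ideal.absNorm d : ℝ))⁻¹ := by
      rw [Finset.sum_mul]
      refine Finset.sum_congr rfl (fun k _ => ?_)
      rw [Finset.mul_sum]
    rw [this]
    refine mul_le_mul (dia3_geom hx0 hx1 M) hBsum (Finset.sum_nonneg fun i _ => by positivity) ?_
    exact inv_nonneg.mpr (by linarith)

variable (K) in
theorem dia3_not_summable :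
    ¬ Summable (fun c : Ideal (𝓞 K) => ((Ideal.absNorm c : ℝ))⁻¹) := by
  classical
  intro hsum
  have hlim := Ideal.tendsto_norm_le_div_atTop K
  have hρ := dedekindZeta_residue_pos K
  rw [dedekindZeta_residue_def] at hρ
  set ρ : ℝ := (2 ^ nrRealPlaces K * (2 * Real.pi) ^ nrComplexPlaces K * regulator K *
    classNumber K) / (torsionOrder K * Real.sqrt |(discr K : ℝ)|) with hρdef
  obtain ⟨F0, hF0⟩ := summable_iff_vanishing_norm.mp hsum (ρ / 2) (by positivity)
  set F1 := insert (⊥ : Ideal (𝓞 K)) F0 with hF1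
  have hlimn : Tendsto (fun n : ℕ => (Nat.card {I : Ideal (𝓞 K) // (Ideal.absNorm I : ℝ) ≤ (n : ℝ)} : ℝ)
      / (n : ℝ)) atTop (𝓝 ρ) := hlim.comp tendsto_natCast_atTop_atTop
  have hle : ∀ᶠ n : ℕ in atTop,
      (Nat.card {I : Ideal (𝓞 K) // (Ideal.absNorm I : ℝ) ≤ (n : ℝ)} : ℝ) / (n : ℝ) ≤
        (F1.card : ℝ) / n + ρ / 2 := by
    filter_upwards [eventually_gt_atTop 0] with n hn
    have hn' : (0 : ℝ) < n := by exact_mod_cast hn
    have hfin : Set.Finite {I : Ideal (𝓞 K) | Ideal.absNorm I ≤ n} :=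
      Ideal.finite_setOfPred_absNorm_le (S := 𝓞 K) n
    set E := hfin.toFinset with hE
    have hcard : (Nat.card {I : Ideal (𝓞 K) // (Ideal.absNorm I : ℝ) ≤ (n : ℝ)} : ℝ) = E.card := by
      congr 1
      have h1 : Nat.card {I : Ideal (𝓞 K) // (Ideal.absNorm I : ℝ) ≤ (n : ℝ)} =
          Nat.card {I : Ideal (𝓞 K) // I ∈ E} := by
        refine Nat.card_congr (Equiv.subtypeEquivRight fun I => ?_)
        rw [hE, Set.Finite.mem_toFinset]
        exact Nat.cast_le
      rw [h1, Nat.card_eq_fintype_card, Fintype.card_coe]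
    rw [hcard]
    have h2 : (E.card : ℝ) ≤ F1.card + (E \ F1).card := by
      have := Finset.card_le_card_sdiff_add_card (s := E) (t := F1)
      have h3 : E.card ≤ F1.card + (E \ F1).card := by omega
      exact_mod_cast h3
    have h4 : ((E \ F1).card : ℝ) / n ≤ ρ / 2 := by
      calc ((E \ F1).card : ℝ) / n = ∑ c ∈ E \ F1, (n : ℝ)⁻¹ := by
            rw [Finset.sum_const, nsmul_eq_mul]
            rfl
        _ ≤ ∑ c ∈ E \ F1, ((Ideal.absNorm c : ℝ))⁻¹ := by
            refine Finset.sum_le_sum (fun c hc => ?_)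
            obtain ⟨hc1, hc2⟩ := Finset.mem_sdiff.mp hc
            have hc0 : c ≠ ⊥ := fun h => hc2 (by rw [h]; exact Finset.mem_insert_self _ _)
            have hpos := dia3_norm_pos hc0
            have hcn : Ideal.absNorm c ≤ n := by
              rw [hE, Set.Finite.mem_toFinset] at hc1
              exact hc1
            exact inv_anti₀ hpos (by exact_mod_cast hcn)
        _ ≤ ‖∑ c ∈ E \ F1, ((Ideal.absNorm c : ℝ))⁻¹‖ := le_abs_self _
        _ ≤ ρ / 2 := by
            refine (hF0 (E \ F1) ?_).le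
            refine Finset.disjoint_left.mpr (fun c hc hc' => ?_)
            exact (Finset.mem_sdiff.mp hc).2 (Finset.mem_insert_of_mem hc')
    calc (E.card : ℝ) / n ≤ (F1.card + (E \ F1).card) / n := by
          exact div_le_div_of_nonneg_right h2 hn'.le
      _ = (F1.card : ℝ) / n + ((E \ F1).card : ℝ) / n := add_div _ _ _
      _ ≤ _ := by linarith
  have hlim2 : Tendsto (fun n : ℕ => (F1.card : ℝ) / n + ρ / 2) atTop (𝓝 (0 + ρ / 2)) :=
    (tendsto_const_div_atTop_nhds_zero_nat (F1.card : ℝ)).add tendsto_const_nhds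
  have := le_of_tendsto_of_tendsto hlimn hlim2 hle
  linarith

theorem dens_tendsto : Tendsto (fun P : ℕ => dens (primesLe K P)) atTop (𝓝 0) := by
  classical
  have hprime : ∀ P : ℕ, ∀ p ∈ primesLe K P, p.IsPrime ∧ p ≠ ⊥ := by
    intro P p hp
    rw [primesLe, Finset.mem_filter] at hp
    exact hp.2
  have hpos : ∀ P : ℕ, 0 < dens (primesLe K P) := by
    intro P
    refine Finset.prod_pos (fun p hp => ?_)
    obtain ⟨h1, h2⟩ := hprime P p hp
    have := inv_lt_one_of_one_lt₀ (dia3_norm_one_lt h1 h2)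
    linarith
  have hunb : ∀ B : ℝ, ∃ t : Finset (Ideal (𝓞 K)), B < ∑ c ∈ t, ((Ideal.absNorm c : ℝ))⁻¹ := by
    intro B
    by_contra hcon
    push Not at hcon
    exact dia3_not_summable K (summable_of_sum_le (fun c => by positivity) hcon)
  rw [Metric.tendsto_atTop]
  intro ε hε
  obtain ⟨t, ht⟩ := hunb ε⁻¹
  refine ⟨t.sup (fun c => Ideal.absNorm c), fun P hP => ?_⟩
  rw [Real.dist_eq, sub_zero, abs_of_pos (hpos P)]
  set t' := t.filter (fun c => c ≠ ⊥) with ht'
  have hsum : ∑ c ∈ t, ((Ideal.absNorm c : ℝ))⁻¹ = ∑ c ∈ t', ((Ideal.absNorm c : ℝ))⁻¹ := by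
    rw [ht', Finset.sum_filter]
    refine Finset.sum_congr rfl (fun c _ => ?_)
    by_cases h : c = ⊥
    · simp [h]
    · simp [h]
  have hle := dia3_euler (primesLe K P) (hprime P) t' (by
    intro c hc
    obtain ⟨hc1, hc2⟩ := Finset.mem_filter.mp hc
    refine ⟨hc2, fun q hq hqc => ?_⟩
    have hq0 : q ≠ ⊥ := by
      intro h
      rw [h] at hqc
      exact hc2 (zero_dvd_iff.mp hqc)
    rw [primesLe, Finset.mem_filter, Set.Finite.mem_toFinset]
    refine ⟨?_, hq, hq0⟩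
    show Ideal.absNorm q ≤ P
    have h1 : Ideal.absNorm q ∣ Ideal.absNorm c := Ideal.absNorm_dvd_absNorm_of_le
      (Ideal.dvd_iff_le.mp hqc)
    have h2 : 0 < Ideal.absNorm c := Nat.pos_of_ne_zero (by
      rw [Ne, Ideal.absNorm_eq_zero_iff]; exact hc2)
    exact (Nat.le_of_dvd h2 h1).trans ((Finset.le_sup (f := fun c => Ideal.absNorm c) hc1).trans hP))
  have hprod : ∏ p ∈ primesLe K P, (1 - ((Ideal.absNorm p : ℝ))⁻¹)⁻¹ =
      (dens (primesLe K P))⁻¹ := by
    rw [dens, Finset.prod_inv_distrib]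
  rw [hprod, ← hsum] at hle
  have h3 : ε⁻¹ < (dens (primesLe K P))⁻¹ := lt_of_lt_of_le ht hle
  exact (inv_lt_inv₀ hε (hpos P)).mp h3

end Pool.Agent.HZ
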