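import Pool.Agent.Lib_helper41.HZF.Defs

/-! Block KEY: the Hardy-Littlewood inequality for an abstract density. -/

namespace Pool.Agent.HZ

open NumberField NumberField.InfinitePlace NumberField.Units Complex MeasureTheory Filter Topology

theorem key_flip (w : ℝ → ℝ) (hw : Continuous w) (hc : HasCompactSupport w) (f : ℝ → ℂ)
    (hf : Integrable f) :
    ∫ t : ℝ, (w t : ℂ) * (∫ u : ℝ, f u * cexp (t * u * I)) = ∫ u : ℝ, f u * hatw w u := by
  have hwi : Integrable (fun t => (w t : ℂ)) :=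
    (hw.integrable_of_hasCompactSupport hc).ofReal
  have hprod : Integrable (fun z : ℝ × ℝ => (w z.1 : ℂ) * f z.2) (volume.prod volume) :=
    hwi.mul_prod hf
  have hcont : Continuous (fun z : ℝ × ℝ => cexp ((z.1 : ℂ) * (z.2 : ℂ) * I)) := by
    fun_prop
  have hint : Integrable (Function.uncurry fun (t u : ℝ) => (w t : ℂ) * (f u * cexp (t * u * I)))
      (volume.prod volume) := by
    refine hprod.mono ?_ ?_
    · have h1 := hprod.1.mul hcont.aestronglyMeasurable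
      refine h1.congr (ae_of_all _ ?_)
      intro z
      simp only [Pi.mul_apply, Function.uncurry]
      ring
    · refine ae_of_all _ ?_
      intro z
      have h2 : ‖cexp ((z.1 : ℂ) * (z.2 : ℂ) * I)‖ = 1 := by
        rw [← ofReal_mul]
        exact norm_exp_ofReal_mul_I _
      simp only [Function.uncurry, norm_mul, h2, mul_one]
      exact le_rfl
  calc ∫ t : ℝ, (w t : ℂ) * (∫ u : ℝ, f u * cexp (t * u * I))
      = ∫ t : ℝ, ∫ u : ℝ, (w t : ℂ) * (f u * cexp (t * u * I)) := by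
        congr 1
        ext t
        rw [integral_const_mul]
    _ = ∫ u : ℝ, ∫ t : ℝ, (w t : ℂ) * (f u * cexp (t * u * I)) :=
        integral_integral_swap hint
    _ = ∫ u : ℝ, f u * hatw w u := by
        congr 1
        ext u
        rw [hatw, ← integral_const_mul]
        congr 1
        ext t
        ring

theorem key_shift (D : ℝ → ℂ) (t : ℝ) (L : ℝ) :
    ∫ u : ℝ, D (u + L) * cexp (t * u * I) =
      cexp (-(t * L * I)) * ∫ u : ℝ, D u * cexp (t * u * I) := by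
  have h := integral_add_right_eq_self (μ := volume)
    (fun u : ℝ => D u * cexp (t * (u - L) * I)) L
  have h1 : (fun u : ℝ => D (u + L) * cexp (t * u * I)) =
      fun u : ℝ => D (u + L) * cexp (t * (((u + L : ℝ) : ℂ) - L) * I) := by
    funext u
    congr 2
    push_cast
    ring
  rw [h1, h, ← integral_const_mul]
  congr 1
  funext u
  rw [mul_left_comm, ← Complex.exp_add]
  congr 2
  ring

theorem key_continuous {D : ℝ → ℂ} (hD : Integrable D) :
    Continuous (fun t : ℝ => ∫ u : ℝ, D u * cexp (t * u * I)) := by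
  refine continuous_of_dominated (bound := fun u => ‖D u‖) ?_ ?_ hD.norm ?_
  · intro t
    refine hD.1.mul (Continuous.aestronglyMeasurable (by fun_prop))
  · intro t
    refine Eventually.of_forall fun u => ?_
    rw [norm_mul, show (t : ℂ) * u * I = ((t * u : ℝ) : ℂ) * I by push_cast; ring,
      Complex.norm_exp_ofReal_mul_I, mul_one]
  · exact Eventually.of_forall fun u => by fun_prop

theorem key_abs {D : ℝ → ℂ} (hD : Integrable D) {Λ M : ℝ → ℂ}
    (hL : ∀ t : ℝ, ∫ u : ℝ, D u * cexp (t * u * I) = Λ t * M t) {a b ℓ₀ : ℝ} {θ : ℂ} (hθ : ‖θ‖ = 1)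
    (hz : ∀ t ∈ Set.Ioo a b, cexp (t * ℓ₀ * I) * Λ t = θ * (‖Λ t‖ : ℂ))
    {w : ℝ → ℝ} (hwc : Continuous w) (hcs : HasCompactSupport w) (hw0 : ∀ t, 0 ≤ w t)
    (hws : ∀ t, t ∉ Set.Ioo a b → w t = 0) {ι : Type} (J : Finset ι) (c : ι → ℂ) (ℓ : ι → ℝ)
    (happ : ∀ t : ℝ, ‖∑ j ∈ J, c j * cexp (-(t * ℓ j * I)) -
      starRingEnd ℂ (M t) / (‖M t‖ : ℂ)‖ ≤ 1 / 2) :
    ‖∫ u : ℝ, D u * hatw w u‖ ≤
      2 * ‖∫ u : ℝ, (∑ j ∈ J, c j * D (u + ℓ j - ℓ₀)) * hatw w u‖ := by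
  set F0 : ℝ → ℂ := fun t => ∫ u : ℝ, D u * cexp (t * u * I) with hF0
  have hF0c : Continuous F0 := key_continuous hD
  have hF0L : ∀ t, F0 t = Λ t * M t := hL
  set V : ℝ → ℂ := fun t => ∑ j ∈ J, c j * cexp (-(t * ℓ j * I)) with hV
  have hVc : Continuous V := by
    refine continuous_finsetSum _ fun j _ => ?_
    fun_prop
  have hE1 : ∀ t : ℝ, ‖cexp ((t : ℂ) * ℓ₀ * I)‖ = 1 := by
    intro t
    rw [show (t : ℂ) * ℓ₀ * I = ((t * ℓ₀ : ℝ) : ℂ) * I by push_cast; ring,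
      Complex.norm_exp_ofReal_mul_I]
  set F : ℝ → ℂ := fun t => (w t : ℂ) * (cexp ((t : ℂ) * ℓ₀ * I) * F0 t * V t) with hF
  have hFc : Continuous F := by
    refine (continuous_ofReal.comp hwc).mul ((Continuous.mul (by fun_prop) hF0c).mul hVc)
  have hwc' : HasCompactSupport (fun t => (w t : ℂ)) :=
    hcs.comp_left (g := fun x : ℝ => (x : ℂ)) (by simp)
  have hFi : Integrable F := hFc.integrable_of_hasCompactSupport (hwc'.mul_right)
  have hYi : Integrable (fun t => w t * ‖F0 t‖) :=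
    (hwc.mul hF0c.norm).integrable_of_hasCompactSupport hcs.mul_right
  set Y : ℝ := ∫ t, w t * ‖F0 t‖ with hY
  -- claim 2
  have c2 : ‖∫ t : ℝ, (w t : ℂ) * F0 t‖ ≤ Y := by
    refine (norm_integral_le_integral_norm _).trans (le_of_eq ?_)
    refine integral_congr_ae (Eventually.of_forall fun t => ?_)
    simp [abs_of_nonneg (hw0 t)]
  -- claim 4
  have c4 : ∀ t, ‖F t - θ * ((w t * ‖F0 t‖ : ℝ) : ℂ)‖ ≤ 1 / 2 * (w t * ‖F0 t‖) := by
    intro t
    by_cases ht : t ∈ Set.Ioo a b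
    · have e1 : θ * ((w t * ‖F0 t‖ : ℝ) : ℂ) = (w t : ℂ) * (cexp ((t : ℂ) * ℓ₀ * I) *
          F0 t * (starRingEnd ℂ (M t) / (‖M t‖ : ℂ))) := by
        rw [hF0L, norm_mul]
        have e3 := hz t ht
        have e4 : M t * (starRingEnd ℂ (M t) / (‖M t‖ : ℂ)) = (‖M t‖ : ℂ) := by
          rw [← mul_div_assoc, Complex.mul_conj, Complex.normSq_eq_norm_sq]
          push_cast
          rcases eq_or_ne (‖M t‖) 0 with h0 | h0
          · simp [h0]
          · have h0' : ((‖M t‖ : ℝ) : ℂ) ≠ 0 := by exact_mod_cast h0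
            field_simp
        calc θ * ((w t * (‖Λ t‖ * ‖M t‖) : ℝ) : ℂ)
            = (w t : ℂ) * ((θ * (‖Λ t‖ : ℂ)) * (‖M t‖ : ℂ)) := by push_cast; ring
          _ = (w t : ℂ) * ((cexp ((t : ℂ) * ℓ₀ * I) * Λ t) *
                (M t * (starRingEnd ℂ (M t) / (‖M t‖ : ℂ)))) := by rw [e3, e4]
          _ = _ := by ring
      rw [e1]
      have e4 : F t - (w t : ℂ) * (cexp ((t : ℂ) * ℓ₀ * I) *
          F0 t * (starRingEnd ℂ (M t) / (‖M t‖ : ℂ))) =
          (w t : ℂ) * (cexp ((t : ℂ) * ℓ₀ * I) * F0 t *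
            (V t - starRingEnd ℂ (M t) / (‖M t‖ : ℂ))) := by
        rw [hF]; ring
      rw [e4, norm_mul, norm_mul, norm_mul, hE1, one_mul]
      have h5 := happ t
      have h6 : ‖((w t : ℝ) : ℂ)‖ = w t := by simp [abs_of_nonneg (hw0 t)]
      rw [h6]
      have h7 : 0 ≤ w t * ‖F0 t‖ := mul_nonneg (hw0 t) (norm_nonneg _)
      calc w t * (‖F0 t‖ * ‖V t - starRingEnd ℂ (M t) / (‖M t‖ : ℂ)‖)
          = (w t * ‖F0 t‖) * ‖V t - starRingEnd ℂ (M t) / (‖M t‖ : ℂ)‖ := by ring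
        _ ≤ (w t * ‖F0 t‖) * (1 / 2) := mul_le_mul_of_nonneg_left h5 h7
        _ = _ := by ring
    · simp [hF, hws t ht]
  have c5 : ‖∫ t, F t‖ ≥ 1 / 2 * Y := by
    have h1 : ∫ t, (F t - θ * ((w t * ‖F0 t‖ : ℝ) : ℂ)) = (∫ t, F t) - θ * Y := by
      have hθi : Integrable (fun t => θ * ((w t * ‖F0 t‖ : ℝ) : ℂ)) :=
        (hYi.ofReal (𝕜 := ℂ)).const_mul θ
      rw [integral_sub hFi hθi, integral_const_mul, integral_complex_ofReal]
    have h2 : ‖∫ t, (F t - θ * ((w t * ‖F0 t‖ : ℝ) : ℂ))‖ ≤ 1 / 2 * Y := by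
      rw [hY, ← integral_const_mul]
      exact norm_integral_le_of_norm_le (hYi.const_mul _) (Eventually.of_forall c4)
    rw [h1] at h2
    have hYnn : 0 ≤ Y := integral_nonneg fun t => mul_nonneg (hw0 t) (norm_nonneg _)
    have h3 : ‖θ * (Y : ℂ)‖ = Y := by
      rw [norm_mul, hθ, one_mul]; simp [abs_of_nonneg hYnn]
    have h4 : ‖θ * (Y : ℂ)‖ ≤ ‖∫ t, F t‖ + ‖(∫ t, F t) - θ * Y‖ := by
      have := norm_sub_norm_le (θ * (Y : ℂ)) (θ * (Y : ℂ) - ∫ t, F t)
      have h5 : ‖(∫ t, F t) - θ * Y‖ = ‖θ * (Y : ℂ) - ∫ t, F t‖ := norm_sub_rev _ _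
      have h6 : θ * (Y : ℂ) - (θ * (Y : ℂ) - ∫ t, F t) = ∫ t, F t := by ring
      rw [h6] at this
      linarith
    linarith
  -- claim 5
  have hDi : ∀ j, Integrable (fun u : ℝ => c j * D (u + ℓ j - ℓ₀)) := by
    intro j
    refine Integrable.const_mul ?_ _
    simp only [add_sub_assoc]
    exact hD.comp_add_right _
  have c6 : ∫ t, F t =
      ∫ u : ℝ, (∑ j ∈ J, c j * D (u + ℓ j - ℓ₀)) * hatw w u := by
    have hfi : Integrable (fun u : ℝ => ∑ j ∈ J, c j * D (u + ℓ j - ℓ₀)) :=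
      integrable_finsetSum _ fun j _ => hDi j
    rw [← key_flip w hwc hcs _ hfi]
    congr 1
    funext t
    rw [hF]
    simp only
    congr 1
    have e1 : ∀ j ∈ J, Integrable (fun u : ℝ => c j * D (u + ℓ j - ℓ₀) * cexp (t * u * I)) := by
      intro j _
      refine (hDi j).mul_bdd (c := 1) ?_ (Eventually.of_forall fun u => ?_)
      · exact (Continuous.aestronglyMeasurable (by fun_prop))
      · rw [show (t : ℂ) * u * I = ((t * u : ℝ) : ℂ) * I by push_cast; ring,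
          Complex.norm_exp_ofReal_mul_I]
    have e2 : ∫ u : ℝ, (∑ j ∈ J, c j * D (u + ℓ j - ℓ₀)) * cexp (t * u * I) =
        ∑ j ∈ J, c j * (cexp (-(t * ((ℓ j - ℓ₀ : ℝ) : ℂ) * I)) * F0 t) := by
      simp_rw [Finset.sum_mul]
      rw [integral_finsetSum _ e1]
      refine Finset.sum_congr rfl fun j _ => ?_
      rw [hF0]
      simp only
      rw [← key_shift D, ← integral_const_mul]
      congr 1
      funext u
      rw [add_sub_assoc]
      ring
    rw [e2, hV]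
    simp only
    rw [Finset.mul_sum]
    refine Finset.sum_congr rfl fun j _ => ?_
    have e3 : cexp ((t : ℂ) * ℓ₀ * I) * cexp (-(t * ℓ j * I)) =
        cexp (-(t * ((ℓ j - ℓ₀ : ℝ) : ℂ) * I)) := by
      rw [← Complex.exp_add]
      congr 1
      push_cast
      ring
    rw [← e3]
    ring
  have c7 : ‖∫ u : ℝ, D u * hatw w u‖ = ‖∫ t : ℝ, (w t : ℂ) * F0 t‖ := by
    rw [← key_flip w hwc hcs _ hD]
  rw [c7]
  refine c2.trans ?_
  rw [← c6]
  linarith

end Pool.Agent.HZ
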