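import Pool.Agent.Lib_helper41.HZF.Defs
import Pool.Agent.Lib_helper41.HZF.SUM

/-!
# Block MOL: Euler factors and mollification
-/

namespace Pool.Agent.HZ

open NumberField NumberField.InfinitePlace NumberField.Units Complex MeasureTheory Filter Topology

set_option linter.unusedSectionVars false

variable {K : Type} [Field K] [NumberField K]

theorem mol_cop_iff (S : Finset (Ideal (𝓞 K))) (a : Ideal (𝓞 K)) :
    cop S a = 1 ↔ a ≠ ⊥ ∧ ∀ 𝔭 ∈ S, ¬ 𝔭 ∣ a := by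
  unfold cop
  by_cases h : a ≠ ⊥ ∧ ∀ 𝔭 ∈ S, ¬ 𝔭 ∣ a
  · rw [if_pos h]
    simp only [true_iff]
    exact h
  · rw [if_neg h]
    simp only [zero_ne_one, false_iff]
    exact h

theorem mol_cop_cases (S : Finset (Ideal (𝓞 K))) (a : Ideal (𝓞 K)) :
    cop S a = 1 ∨ cop S a = 0 := by
  unfold cop
  by_cases h : a ≠ ⊥ ∧ ∀ 𝔭 ∈ S, ¬ 𝔭 ∣ a
  · left; rw [if_pos h]
  · right; rw [if_neg h]

theorem mol_cop_bot (S : Finset (Ideal (𝓞 K))) : cop S (⊥ : Ideal (𝓞 K)) = 0 := by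
  rcases mol_cop_cases S ⊥ with h | h
  · exact absurd rfl ((mol_cop_iff S ⊥).1 h).1
  · exact h

theorem mol_cop_norm_le (S : Finset (Ideal (𝓞 K))) (a : Ideal (𝓞 K)) : ‖cop S a‖ ≤ 1 := by
  rcases mol_cop_cases S a with h | h <;> rw [h] <;> simp

/-- the ideals `n a` with `a` coprime to `S` -/
def mol_P (S : Finset (Ideal (𝓞 K))) (n 𝔠 : Ideal (𝓞 K)) : Prop :=
  ∃ 𝔞, 𝔠 = n * 𝔞 ∧ cop S 𝔞 = 1

theorem mol_P_mul {S : Finset (Ideal (𝓞 K))} {n : Ideal (𝓞 K)} (hn : n ≠ ⊥) (a : Ideal (𝓞 K)) :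
    mol_P S n (n * a) ↔ cop S a = 1 := by
  unfold mol_P
  constructor
  · rintro ⟨b, hb, hb1⟩
    have : a = b := mul_left_cancel₀ hn hb
    rw [this]; exact hb1
  · intro h
    exact ⟨a, rfl, h⟩

theorem mol_P_bot {S : Finset (Ideal (𝓞 K))} {n : Ideal (𝓞 K)} (hn : n ≠ ⊥) :
    ¬ mol_P S n ⊥ := by
  rintro ⟨a, ha, ha1⟩
  have : a = ⊥ := by
    rcases mul_eq_zero.1 ha.symm with h | h
    · exact absurd h hn
    · exact h
  rw [this, mol_cop_bot] at ha1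
  exact zero_ne_one ha1

open scoped Classical in
theorem mol_tsum (S : Finset (Ideal (𝓞 K))) {n : Ideal (𝓞 K)} (hn : n ≠ ⊥)
    (G : Ideal (𝓞 K) → ℂ) :
    ∑' 𝔠 : Ideal (𝓞 K), (if mol_P S n 𝔠 then G 𝔠 else 0) = ∑' a, cop S a * G (n * a) := by
  have hinj : Function.Injective (fun a : Ideal (𝓞 K) => n * a) := mul_right_injective₀ hn
  rw [← hinj.tsum_eq]
  · refine tsum_congr fun a => ?_
    rcases mol_cop_cases S a with h | h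
    · rw [if_pos ((mol_P_mul hn a).2 h), h, one_mul]
    · rw [if_neg (fun h' => by
        rw [(mol_P_mul hn a).1 h'] at h
        exact one_ne_zero h), h, zero_mul]
  · intro 𝔠 h𝔠
    rw [Function.mem_support] at h𝔠
    by_cases h : mol_P S n 𝔠
    · obtain ⟨a, ha, _⟩ := h
      exact ⟨a, ha.symm⟩
    · rw [if_neg h] at h𝔠
      exact absurd rfl h𝔠

open scoped Classical in
theorem mol_tsum_real (S : Finset (Ideal (𝓞 K))) {n : Ideal (𝓞 K)} (hn : n ≠ ⊥)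
    (G : Ideal (𝓞 K) → ℝ) :
    ∑' 𝔠 : Ideal (𝓞 K), (if mol_P S n 𝔠 then G 𝔠 else 0) = ∑' a, ‖cop S a‖ * G (n * a) := by
  have hinj : Function.Injective (fun a : Ideal (𝓞 K) => n * a) := mul_right_injective₀ hn
  rw [← hinj.tsum_eq]
  · refine tsum_congr fun a => ?_
    rcases mol_cop_cases S a with h | h
    · rw [if_pos ((mol_P_mul hn a).2 h), h, norm_one, one_mul]
    · rw [if_neg (fun h' => by
        rw [(mol_P_mul hn a).1 h'] at h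
        exact one_ne_zero h), h, norm_zero, zero_mul]
  · intro 𝔠 h𝔠
    rw [Function.mem_support] at h𝔠
    by_cases h : mol_P S n 𝔠
    · obtain ⟨a, ha, _⟩ := h
      exact ⟨a, ha.symm⟩
    · rw [if_neg h] at h𝔠
      exact absurd rfl h𝔠

theorem mol_norm_pos {n : Ideal (𝓞 K)} (hn : n ≠ ⊥) : (0 : ℝ) < Ideal.absNorm n := by
  have : Ideal.absNorm n ≠ 0 := by
    rw [Ne, Ideal.absNorm_eq_zero_iff]
    exact hn
  exact_mod_cast Nat.pos_of_ne_zero this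

theorem mol_log {n a : Ideal (𝓞 K)} (hn : n ≠ ⊥) (ha : a ≠ ⊥) (u : ℝ) :
    u + Real.log (Ideal.absNorm (n * a)) =
      u + Real.log (Ideal.absNorm n) + Real.log (Ideal.absNorm a) := by
  rw [map_mul, Nat.cast_mul, Real.log_mul (mol_norm_pos hn).ne' (mol_norm_pos ha).ne', add_assoc]

theorem mol_exp {n : Ideal (𝓞 K)} (hn : n ≠ ⊥) (u : ℝ) :
    Real.exp ((u + Real.log (Ideal.absNorm n)) / 2) =
      Real.exp (u / 2) * √(Ideal.absNorm n : ℝ) := by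
  rw [add_div, Real.exp_add, Real.exp_half, Real.exp_half,
    Real.exp_log (mol_norm_pos hn)]

/-- the shifted series -/
theorem mol_shift {F : (InfinitePlace K → ℝ) → ℂ} {ψ : Ideal (𝓞 K) →* ℂ}
    (S : Finset (Ideal (𝓞 K))) {n : Ideal (𝓞 K)} (hn : n ≠ ⊥) (u : ℝ) :
    ∑' a, cop S a * (ψ (n * a) * kint K F (u + Real.log (Ideal.absNorm (n * a)))) =
      ψ n * ∑' a, cop S a * ψ a *
        kint K F (u + Real.log (Ideal.absNorm n) + Real.log (Ideal.absNorm a)) := by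
  rw [← tsum_mul_left]
  refine tsum_congr fun a => ?_
  by_cases ha : a = ⊥
  · rw [ha, mol_cop_bot]; ring
  · rw [mol_log hn ha, map_mul]; ring

open scoped Classical in
theorem mol_summable {F : (InfinitePlace K → ℝ) → ℂ} {C c : ℝ} (hF : GoodF F C c)
    {ψ : Ideal (𝓞 K) →* ℂ} (hψ : ∀ 𝔞, ‖ψ 𝔞‖ ≤ 1) (S : Finset (Ideal (𝓞 K)))
    {n : Ideal (𝓞 K)} (hn : n ≠ ⊥) (u : ℝ) :
    Summable (fun 𝔠 : Ideal (𝓞 K) => if mol_P S n 𝔠 then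
      ψ 𝔠 * kint K F (u + Real.log (Ideal.absNorm 𝔠)) else 0) := by
  have h := Dser_summable hF (b := fun 𝔠 => if mol_P S n 𝔠 then ψ 𝔠 else 0) (β := 1)
    (fun 𝔠 => by
      by_cases h : mol_P S n 𝔠
      · simp only [if_pos h]; exact hψ 𝔠
      · simp only [if_neg h, norm_zero]; exact zero_le_one)
    (by simp only [if_neg (mol_P_bot hn)]) u
  refine h.congr fun 𝔠 => ?_
  by_cases h : mol_P S n 𝔠
  · simp only [if_pos h]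
  · simp only [if_neg h, zero_mul]

theorem mol_summable' {F : (InfinitePlace K → ℝ) → ℂ} {C c : ℝ} (hF : GoodF F C c)
    {ψ : Ideal (𝓞 K) →* ℂ} (hψ : ∀ 𝔞, ‖ψ 𝔞‖ ≤ 1) (S : Finset (Ideal (𝓞 K))) (u : ℝ) :
    Summable (fun 𝔠 : Ideal (𝓞 K) => cop S 𝔠 * ψ 𝔠 *
      kint K F (u + Real.log (Ideal.absNorm 𝔠))) := by
  refine Dser_summable hF (b := fun 𝔠 => cop S 𝔠 * ψ 𝔠) (β := 1) (fun 𝔠 => ?_) ?_ u
  · rw [norm_mul]
    exact mul_le_one₀ (mol_cop_norm_le S 𝔠) (norm_nonneg _) (hψ 𝔠)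
  · rw [mol_cop_bot, zero_mul]

open scoped Classical in
theorem mol_cop_insert (S : Finset (Ideal (𝓞 K)))
    (hS : ∀ 𝔭 ∈ S, 𝔭.IsPrime ∧ 𝔭 ≠ ⊥) {𝔭 : Ideal (𝓞 K)} (h𝔭 : 𝔭.IsPrime) (h𝔭0 : 𝔭 ≠ ⊥)
    (h𝔭S : 𝔭 ∉ S) [DecidableEq (Ideal (𝓞 K))] (𝔠 : Ideal (𝓞 K)) :
    cop (insert 𝔭 S) 𝔠 = cop S 𝔠 - (if mol_P S 𝔭 𝔠 then 1 else 0) := by
  by_cases h0 : 𝔠 = ⊥
  · rw [h0, mol_cop_bot, mol_cop_bot, if_neg (mol_P_bot h𝔭0), sub_zero]
  by_cases hd : 𝔭 ∣ 𝔠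
  · obtain ⟨a, rfl⟩ := hd
    have ha : a ≠ ⊥ := by
      rintro rfl
      apply h0
      exact Ideal.mul_bot _
    have h1 : cop (insert 𝔭 S) (𝔭 * a) = 0 := by
      rcases mol_cop_cases (insert 𝔭 S) (𝔭 * a) with h | h
      · exact absurd (Dvd.intro a rfl) (((mol_cop_iff _ _).1 h).2 𝔭 (by simp))
      · exact h
    have h2 : cop S (𝔭 * a) = 1 ↔ cop S a = 1 := by
      rw [mol_cop_iff, mol_cop_iff]
      constructor
      · rintro ⟨_, h⟩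
        exact ⟨ha, fun q hq hqa => h q hq (hqa.mul_left _)⟩
      · rintro ⟨_, h⟩
        refine ⟨h0, fun q hq hqa => ?_⟩
        obtain ⟨hqp, hq0⟩ := hS q hq
        have hprime : Prime q := Ideal.prime_of_isPrime hq0 hqp
        rcases hprime.dvd_or_dvd hqa with h3 | h3
        · have h4 : Prime 𝔭 := Ideal.prime_of_isPrime h𝔭0 h𝔭
          have h5 : q = 𝔭 := associated_iff_eq.1 (hprime.associated_of_dvd h4 h3)
          exact h𝔭S (h5 ▸ hq)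
        · exact h q hq h3
    rw [h1]
    rcases mol_cop_cases S a with h | h
    · rw [h2.2 h, if_pos ((mol_P_mul h𝔭0 a).2 h), sub_self]
    · have h3 : cop S (𝔭 * a) = 0 := by
        rcases mol_cop_cases S (𝔭 * a) with h' | h'
        · rw [h2.1 h'] at h
          exact absurd h one_ne_zero
        · exact h'
      rw [h3, if_neg, sub_zero]
      intro h'
      rw [(mol_P_mul h𝔭0 a).1 h'] at h
      exact one_ne_zero h
  · have h1 : ¬ mol_P S 𝔭 𝔠 := by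
      rintro ⟨a, ha, _⟩
      exact hd ⟨a, ha⟩
    rw [if_neg h1, sub_zero]
    have h2 : cop (insert 𝔭 S) 𝔠 = 1 ↔ cop S 𝔠 = 1 := by
      rw [mol_cop_iff, mol_cop_iff]
      constructor
      · rintro ⟨h, h'⟩
        exact ⟨h, fun q hq => h' q (Finset.mem_insert_of_mem hq)⟩
      · rintro ⟨h, h'⟩
        refine ⟨h, fun q hq => ?_⟩
        rcases Finset.mem_insert.1 hq with rfl | hq
        · exact hd
        · exact h' q hq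
    rcases mol_cop_cases S 𝔠 with h | h
    · rw [h, h2.2 h]
    · rw [h]
      rcases mol_cop_cases (insert 𝔭 S) 𝔠 with h' | h'
      · rw [h2.1 h'] at h
        exact absurd h one_ne_zero
      · exact h'

theorem Dser_insert {F : (InfinitePlace K → ℝ) → ℂ} {C c : ℝ} (hF : GoodF F C c)
    {ψ : Ideal (𝓞 K) →* ℂ} (hψ : ∀ 𝔞, ‖ψ 𝔞‖ ≤ 1) (S : Finset (Ideal (𝓞 K)))
    (hS : ∀ 𝔭 ∈ S, 𝔭.IsPrime ∧ 𝔭 ≠ ⊥) {𝔭 : Ideal (𝓞 K)} (h𝔭 : 𝔭.IsPrime) (h𝔭0 : 𝔭 ≠ ⊥)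
    (h𝔭S : 𝔭 ∉ S) [DecidableEq (Ideal (𝓞 K))] (u : ℝ) :
    Dser (fun 𝔠 => cop (insert 𝔭 S) 𝔠 * ψ 𝔠) F u =
      Dser (fun 𝔠 => cop S 𝔠 * ψ 𝔠) F u - ψ 𝔭 * (((√(Ideal.absNorm 𝔭 : ℝ))⁻¹ : ℝ) : ℂ) *
        Dser (fun 𝔠 => cop S 𝔠 * ψ 𝔠) F (u + Real.log (Ideal.absNorm 𝔭)) := by
  classical
  unfold Dser
  have h1 : ∀ 𝔠 : Ideal (𝓞 K), cop (insert 𝔭 S) 𝔠 * ψ 𝔠 *
      kint K F (u + Real.log (Ideal.absNorm 𝔠)) =
      cop S 𝔠 * ψ 𝔠 * kint K F (u + Real.log (Ideal.absNorm 𝔠)) -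
        (if mol_P S 𝔭 𝔠 then ψ 𝔠 * kint K F (u + Real.log (Ideal.absNorm 𝔠)) else 0) := by
    intro 𝔠
    rw [mol_cop_insert S hS h𝔭 h𝔭0 h𝔭S]
    by_cases h : mol_P S 𝔭 𝔠
    · rw [if_pos h, if_pos h]; ring
    · rw [if_neg h, if_neg h]; ring
  rw [tsum_congr h1, (mol_summable' hF hψ S u).tsum_sub (mol_summable hF hψ S h𝔭0 u),
    mol_tsum S h𝔭0, mol_shift S h𝔭0, mol_exp h𝔭0]
  have h2 : (((√(Ideal.absNorm 𝔭 : ℝ))⁻¹ : ℝ) : ℂ) *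
      ((Real.exp (u / 2) * √(Ideal.absNorm 𝔭 : ℝ) : ℝ) : ℂ) = (Real.exp (u / 2) : ℂ) := by
    rw [← Complex.ofReal_mul]
    congr 1
    have : √(Ideal.absNorm 𝔭 : ℝ) ≠ 0 := (Real.sqrt_pos.2 (mol_norm_pos h𝔭0)).ne'
    field_simp
  linear_combination (-(ψ 𝔭 * ∑' a, cop S a * ψ a *
        kint K F (u + Real.log (Ideal.absNorm 𝔭) + Real.log (Ideal.absNorm a)))) * (-h2)

theorem mol_bm (S ι : Finset (Ideal (𝓞 K))) (c : Ideal (𝓞 K) → ℂ) (𝔠 : Ideal (𝓞 K)) :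
    open scoped Classical in
    bm S ι c 𝔠 = ∑ n ∈ ι, if mol_P S n 𝔠 then c n * (√(Ideal.absNorm n : ℝ) : ℂ) else 0 := rfl

theorem Dser_moll {F : (InfinitePlace K → ℝ) → ℂ} {C c : ℝ} (hF : GoodF F C c)
    {ψ : Ideal (𝓞 K) →* ℂ} (hψ : ∀ 𝔞, ‖ψ 𝔞‖ ≤ 1) (S ι : Finset (Ideal (𝓞 K)))
    (hι : ∀ n ∈ ι, n ≠ ⊥) (cf : Ideal (𝓞 K) → ℂ) (u : ℝ) :
    ∑ n ∈ ι, cf n * ψ n * Dser (fun 𝔠 => cop S 𝔠 * ψ 𝔠) F (u + Real.log (Ideal.absNorm n)) =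
      Dser (fun 𝔠 => bm S ι cf 𝔠 * ψ 𝔠) F u := by
  classical
  unfold Dser
  have h1 : ∀ 𝔠 : Ideal (𝓞 K), bm S ι cf 𝔠 * ψ 𝔠 * kint K F (u + Real.log (Ideal.absNorm 𝔠)) =
      ∑ n ∈ ι, cf n * (√(Ideal.absNorm n : ℝ) : ℂ) *
        (if mol_P S n 𝔠 then ψ 𝔠 * kint K F (u + Real.log (Ideal.absNorm 𝔠)) else 0) := by
    intro 𝔠
    rw [mol_bm, Finset.sum_mul, Finset.sum_mul]
    refine Finset.sum_congr rfl fun n _ => ?_
    by_cases h : mol_P S n 𝔠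
    · rw [if_pos h, if_pos h]; ring
    · rw [if_neg h, if_neg h]; ring
  rw [tsum_congr h1, Summable.tsum_finsetSum (fun n hn =>
    (mol_summable hF hψ S (hι n hn) u).mul_left _), Finset.mul_sum]
  refine Finset.sum_congr rfl fun n hn => ?_
  rw [tsum_mul_left, mol_tsum S (hι n hn), mol_shift S (hι n hn), mol_exp (hι n hn)]
  push_cast
  ring

theorem bm_le (S ι : Finset (Ideal (𝓞 K))) (cf : Ideal (𝓞 K) → ℂ) (𝔠 : Ideal (𝓞 K)) :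
    ‖bm S ι cf 𝔠‖ ≤ ∑ n ∈ ι, ‖cf n‖ * √(Ideal.absNorm n : ℝ) := by
  classical
  rw [mol_bm]
  refine (norm_sum_le _ _).trans (Finset.sum_le_sum fun n _ => ?_)
  by_cases h : mol_P S n 𝔠
  · rw [if_pos h, norm_mul, Complex.norm_real, Real.norm_eq_abs, abs_of_nonneg (Real.sqrt_nonneg _)]
  · rw [if_neg h, norm_zero]
    positivity

theorem bm_bot (S ι : Finset (Ideal (𝓞 K))) (hι : ∀ n ∈ ι, n ≠ ⊥) (cf : Ideal (𝓞 K) → ℂ) :
    bm S ι cf ⊥ = 0 := by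
  classical
  rw [mol_bm]
  refine Finset.sum_eq_zero fun n hn => ?_
  rw [if_neg (mol_P_bot (hι n hn))]

/-- uniqueness of the smooth part -/
theorem mol_unique {S : Finset (Ideal (𝓞 K))} {n n' 𝔠 : Ideal (𝓞 K)}
    (hn : n ≠ ⊥ ∧ ∀ 𝔭 : Ideal (𝓞 K), 𝔭.IsPrime → 𝔭 ∣ n → 𝔭 ∈ S)
    (hn' : n' ≠ ⊥ ∧ ∀ 𝔭 : Ideal (𝓞 K), 𝔭.IsPrime → 𝔭 ∣ n' → 𝔭 ∈ S)
    (h : mol_P S n 𝔠) (h' : mol_P S n' 𝔠) : n = n' := by
  have key : ∀ n n' : Ideal (𝓞 K), (∀ 𝔭 : Ideal (𝓞 K), 𝔭.IsPrime → 𝔭 ∣ n → 𝔭 ∈ S) →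
      mol_P S n 𝔠 → mol_P S n' 𝔠 → n ∣ n' := by
    intro n n' hn h h'
    obtain ⟨a, ha, _⟩ := h
    obtain ⟨a', ha', ha1'⟩ := h'
    have hcop : IsCoprime n a' := by
      rw [Ideal.isCoprime_iff_sup_eq]
      by_contra hcon
      obtain ⟨𝔪, h𝔪, hle⟩ := Ideal.exists_le_maximal _ hcon
      have h1 : 𝔪 ∣ n := Ideal.dvd_iff_le.2 (le_sup_left.trans hle)
      have h2 : 𝔪 ∣ a' := Ideal.dvd_iff_le.2 (le_sup_right.trans hle)
      exact ((mol_cop_iff S a').1 ha1').2 𝔪 (hn 𝔪 h𝔪.isPrime h1) h2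
    apply hcop.dvd_of_dvd_mul_right
    rw [← ha', ha]
    exact Dvd.intro a rfl
  exact dvd_antisymm (key n n' hn.2 h h') (key n' n hn'.2 h' h)

theorem bm_diag {c : ℝ} (hc : 0 < c) (S ι : Finset (Ideal (𝓞 K)))
    (hι : ∀ n ∈ ι, n ≠ ⊥ ∧ ∀ 𝔭 : Ideal (𝓞 K), 𝔭.IsPrime → 𝔭 ∣ n → 𝔭 ∈ S)
    (cf : Ideal (𝓞 K) → ℂ) (u : ℝ) :
    Real.exp u * ∑' 𝔠 : Ideal (𝓞 K), ‖bm S ι cf 𝔠‖ ^ 2 *
        kg K c (u + Real.log (Ideal.absNorm 𝔠)) ≤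
      ∑ n ∈ ι, ‖cf n‖ ^ 2 * (Real.exp (u + Real.log (Ideal.absNorm n)) *
        ∑' 𝔠 : Ideal (𝓞 K), ‖cop S 𝔠‖ *
          kg K c (u + Real.log (Ideal.absNorm n) + Real.log (Ideal.absNorm 𝔠))) := by
  classical
  have h1 : ∀ 𝔠 : Ideal (𝓞 K), ‖bm S ι cf 𝔠‖ ^ 2 * kg K c (u + Real.log (Ideal.absNorm 𝔠)) =
      ∑ n ∈ ι, ‖cf n‖ ^ 2 * (Ideal.absNorm n : ℝ) *
        (if mol_P S n 𝔠 then kg K c (u + Real.log (Ideal.absNorm 𝔠)) else 0) := by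
    intro 𝔠
    rw [mol_bm]
    by_cases hex : ∃ n ∈ ι, mol_P S n 𝔠
    · obtain ⟨n, hn, hP⟩ := hex
      have hu : ∀ n' ∈ ι, n' ≠ n → ¬ mol_P S n' 𝔠 := by
        intro n' hn' hne hP'
        exact hne (mol_unique (hι n' hn') (hι n hn) hP' hP)
      rw [Finset.sum_eq_single_of_mem n hn (fun n' hn' hne => by rw [if_neg (hu n' hn' hne)]),
        Finset.sum_eq_single_of_mem n hn (fun n' hn' hne => by
          rw [if_neg (hu n' hn' hne), mul_zero]), if_pos hP, if_pos hP, norm_mul, mul_pow,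
        Complex.norm_real, Real.norm_eq_abs, sq_abs, Real.sq_sqrt (Nat.cast_nonneg _)]
    · push Not at hex
      rw [Finset.sum_eq_zero (fun n hn => by rw [if_neg (hex n hn)]),
        Finset.sum_eq_zero (fun n hn => by rw [if_neg (hex n hn), mul_zero])]
      simp
  obtain ⟨C, hC0, hC⟩ := sum_kg_le (K := K) hc (A := 2) (by norm_num)
  have hsum : ∀ n ∈ ι, Summable (fun 𝔠 : Ideal (𝓞 K) =>
      if mol_P S n 𝔠 then kg K c (u + Real.log (Ideal.absNorm 𝔠)) else 0) := by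
    intro n hn
    have h2 := (hC (fun 𝔠 => if mol_P S n 𝔠 then 1 else 0) 1
      (fun 𝔠 => by split_ifs <;> norm_num)
      (fun 𝔠 => by split_ifs <;> norm_num)
      (by simp only [if_neg (mol_P_bot (hι n hn).1)]) u).1
    refine h2.congr fun 𝔠 => ?_
    by_cases h : mol_P S n 𝔠
    · simp only [if_pos h, one_mul]
    · simp only [if_neg h, zero_mul]
  rw [tsum_congr h1, Summable.tsum_finsetSum (fun n hn => (hsum n hn).mul_left _),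
    Finset.mul_sum]
  refine (Finset.sum_congr rfl fun n hn => ?_).le
  rw [tsum_mul_left, mol_tsum_real S (hι n hn).1, Real.exp_add,
    Real.exp_log (mol_norm_pos (hι n hn).1)]
  have h3 : ∀ a : Ideal (𝓞 K), ‖cop S a‖ * kg K c (u + Real.log (Ideal.absNorm (n * a))) =
      ‖cop S a‖ * kg K c (u + Real.log (Ideal.absNorm n) + Real.log (Ideal.absNorm a)) := by
    intro a
    by_cases ha : a = ⊥
    · rw [ha, mol_cop_bot, norm_zero, zero_mul, zero_mul]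
    · rw [mol_log (hι n hn).1 ha]
  rw [tsum_congr h3]
  ring

end Pool.Agent.HZ
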