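import Pool.Agent.Lib_helper41.HZF.Defs

/-! Block MSQ1: Bessel's inequality for multiplicative characters. -/

namespace Pool.Agent.HZ

open Complex

theorem msq1_orth {R : Type} [CommRing R] [Fintype R] (χ χ' : MulChar R ℂ) (h : χ ≠ χ') :
    ∑ j, χ j * star (χ' j) = 0 := by
  have h1 : χ * χ'⁻¹ ≠ 1 := by
    intro h'
    exact h (by rwa [mul_inv_eq_one] at h')
  have := MulChar.sum_eq_zero_of_ne_one h1
  rw [← this]
  refine Finset.sum_congr rfl fun j _ => ?_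
  rw [MulChar.mul_apply, MulChar.star_apply']

theorem msq1_self {R : Type} [CommRing R] [Fintype R] (χ : MulChar R ℂ) :
    ∑ j, χ j * star (χ j) = (Nat.card Rˣ : ℂ) := by
  classical
  have h2 := MulChar.sum_one_eq_card_units (R := R) (R' := ℂ)
  rw [Nat.card_eq_fintype_card, ← h2]
  refine Finset.sum_congr rfl fun j _ => ?_
  rw [MulChar.star_apply', ← MulChar.mul_apply, mul_inv_cancel]

theorem parseval {R : Type} [CommRing R] [Fintype R] (E : Finset (MulChar R ℂ)) (A : R → ℂ) :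
    ∑ χ ∈ E, ‖∑ j, χ j * A j‖ ^ 2 ≤ (Nat.card Rˣ : ℝ) * ∑ j, ‖A j‖ ^ 2 := by
  classical
  have hN : (0 : ℝ) < (Nat.card Rˣ : ℝ) := by exact_mod_cast Nat.card_pos
  set N : ℝ := (Nat.card Rˣ : ℝ) with hNdef
  have hs : Real.sqrt N ≠ 0 := (Real.sqrt_pos.2 hN).ne'
  have hss : Real.sqrt N * Real.sqrt N = N := Real.mul_self_sqrt hN.le
  let v : MulChar R ℂ → EuclideanSpace ℂ R := fun χ =>
    WithLp.toLp 2 (fun j => ((Real.sqrt N : ℝ) : ℂ)⁻¹ * star (χ j))
  have hin : ∀ (χ : MulChar R ℂ) (B : EuclideanSpace ℂ R),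
      inner ℂ (v χ) B = ((Real.sqrt N : ℝ) : ℂ)⁻¹ * ∑ j, χ j * B j := by
    intro χ B
    rw [PiLp.inner_apply, Finset.mul_sum]
    refine Finset.sum_congr rfl fun j _ => ?_
    simp only [v, RCLike.inner_apply, map_mul, map_inv₀, Complex.conj_ofReal]
    simp
    ring
  have hv : Orthonormal ℂ v := by
    rw [orthonormal_iff_ite]
    intro χ χ'
    rw [hin]
    have : ∑ j, χ j * (v χ') j = ((Real.sqrt N : ℝ) : ℂ)⁻¹ * ∑ j, χ j * star (χ' j) := by
      rw [Finset.mul_sum]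
      refine Finset.sum_congr rfl fun j _ => ?_
      simp only [v]
      ring
    rw [this]
    by_cases h : χ = χ'
    · subst h
      rw [if_pos rfl, msq1_self]
      have : ((Nat.card Rˣ : ℕ) : ℂ) = ((Real.sqrt N : ℝ) : ℂ) * ((Real.sqrt N : ℝ) : ℂ) := by
        rw [← Complex.ofReal_mul, hss, hNdef]
        simp
      rw [this]
      have hs' : ((Real.sqrt N : ℝ) : ℂ) ≠ 0 := by exact_mod_cast hs
      field_simp
    · rw [if_neg h, msq1_orth χ χ' h]
      simp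
  have hB := hv.sum_inner_products_le (s := E) (WithLp.toLp 2 A)
  have hnorm : ‖(WithLp.toLp 2 A : EuclideanSpace ℂ R)‖ ^ 2 = ∑ j, ‖A j‖ ^ 2 := by
    rw [EuclideanSpace.norm_sq_eq]
  rw [hnorm] at hB
  have hterm : ∀ χ ∈ E, ‖∑ j, χ j * A j‖ ^ 2 = N * ‖inner ℂ (v χ) (WithLp.toLp 2 A : EuclideanSpace ℂ R)‖ ^ 2 := by
    intro χ _
    rw [hin, norm_mul, norm_inv, Complex.norm_real, Real.norm_eq_abs, abs_of_nonneg (Real.sqrt_nonneg _),
      mul_pow, inv_pow, Real.sq_sqrt hN.le]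
    field_simp
  rw [Finset.sum_congr rfl hterm, ← Finset.mul_sum]
  exact mul_le_mul_of_nonneg_left hB hN.le

end Pool.Agent.HZ
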