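import Pool.Agent.Lib_helper41.HZF.Defs
import Pool.Agent.Lib_helper41.HZF.KG
import Pool.Agent.Lib_helper41.HZF.LAT
import Pool.Agent.Lib_helper41.HZF.MSQ1
import Pool.Agent.Lib_helper41.HZF.YB

/-!
# Block MSQ2: mean square over the characters for one class (helper93)
-/

namespace Pool.Agent.HZ

open NumberField NumberField.InfinitePlace NumberField.Units Complex MeasureTheory Filter Topology

/-- Abstract dispersion: sums over the fibres of `ρ`. -/
lemma msq2_abs {G R : Type*} [AddCommGroup G] [Fintype R] [DecidableEq R] (ρ : G → R) (A : G → ℂ)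
    (hA : Summable fun α => ‖A α‖) (D : ℝ) (hD : 0 ≤ D) (p r : G → ℝ) (hp : Summable p)
    (hr : Summable r) (hp0 : ∀ α, 0 ≤ p α) (hr0 : ∀ α, 0 ≤ r α)
    (h : ∀ α α', α ≠ α' → ρ α' = ρ α → ‖A α‖ * ‖A α'‖ ≤ D * p α * r (α' - α)) :
    ∑ j, ‖∑' α, if ρ α = j then A α else 0‖ ^ 2 ≤
      ∑' α, ‖A α‖ ^ 2 + D * (∑' α, p α) * ∑' α, r α := by
  classical
  -- summability
  have hA2 : Summable fun α => ‖A α‖ ^ 2 := by
    refine Summable.of_norm_bounded_eventually hA ?_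
    have := hA.tendsto_cofinite_zero
    filter_upwards [this.eventually (gt_mem_nhds one_pos)] with α hα
    rw [Real.norm_of_nonneg (by positivity), sq]
    exact mul_le_of_le_one_left (norm_nonneg _) hα.le
  have hSj : ∀ j, Summable fun α => if ρ α = j then ‖A α‖ else 0 := fun j =>
    Summable.of_nonneg_of_le (fun α => by split_ifs <;> simp) (fun α => by split_ifs <;> simp) hA
  set S : R → ℝ := fun j => ∑' α, if ρ α = j then ‖A α‖ else 0 with hS
  have hS0 : ∀ j, 0 ≤ S j := fun j => tsum_nonneg fun α => by split_ifs <;> simp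
  have h1 : ∀ j, ‖∑' α, if ρ α = j then A α else 0‖ ≤ S j := by
    intro j
    have e1 : ∀ α, ‖(if ρ α = j then A α else 0 : ℂ)‖ = if ρ α = j then ‖A α‖ else 0 := by
      intro α; split_ifs <;> simp
    calc _ ≤ ∑' α, ‖(if ρ α = j then A α else 0 : ℂ)‖ := by
          apply norm_tsum_le_tsum_norm
          simp_rw [e1]; exact hSj j
      _ = S j := by simp_rw [e1]; rfl
  -- the bound for one `α`
  have h2 : ∀ α, ‖A α‖ * S (ρ α) ≤ ‖A α‖ ^ 2 + D * p α * ∑' l, r l := by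
    intro α
    have hr' : Summable fun α' => r (α' - α) := (Equiv.subRight α).summable_iff.mpr hr
    have hr'' : ∑' α', r (α' - α) = ∑' l, r l := (Equiv.subRight α).tsum_eq r
    have hs1 : Summable fun α' => if α' = α then ‖A α‖ ^ 2 else 0 := by
      refine summable_of_hasFiniteSupport ((Set.finite_singleton α).subset ?_)
      intro α' hα'
      by_contra hne
      simp only [Set.mem_singleton_iff] at hne
      simp [hne] at hα'
    calc ‖A α‖ * S (ρ α) = ∑' α', ‖A α‖ * (if ρ α' = ρ α then ‖A α'‖ else 0) := by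
          rw [hS, tsum_mul_left]
      _ ≤ ∑' α', ((if α' = α then ‖A α‖ ^ 2 else 0) + D * p α * r (α' - α)) := by
          refine Summable.tsum_le_tsum (fun α' => ?_) ((hSj _).mul_left _)
            (hs1.add (hr'.mul_left _))
          have hpos : 0 ≤ D * p α * r (α' - α) := mul_nonneg (mul_nonneg hD (hp0 _)) (hr0 _)
          by_cases h3 : α' = α
          · subst h3; simp only [if_true]; rw [← sq]; linarith
          · rw [if_neg h3, zero_add]
            split_ifs with h4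
            · exact h α α' (Ne.symm h3) h4
            · simpa using hpos
      _ = _ := by
          rw [hs1.tsum_add (hr'.mul_left _), tsum_mul_left, hr'', tsum_ite_eq]
  -- summation over `j`
  have hAS : Summable fun α => ‖A α‖ * S (ρ α) := by
    refine Summable.of_nonneg_of_le (fun α => mul_nonneg (norm_nonneg _) (hS0 _)) h2
      (hA2.add ((hp.mul_left D).mul_right _))
  calc ∑ j, ‖∑' α, if ρ α = j then A α else 0‖ ^ 2 ≤ ∑ j, S j * S j := by
        refine Finset.sum_le_sum fun j _ => ?_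
        rw [sq]
        exact mul_self_le_mul_self (norm_nonneg _) (h1 j)
    _ = ∑ j, ∑' α, (if ρ α = j then ‖A α‖ else 0) * S j := by
        refine Finset.sum_congr rfl fun j _ => ?_
        rw [tsum_mul_right]
    _ = ∑' α, ∑ j, (if ρ α = j then ‖A α‖ else 0) * S j := by
        rw [Summable.tsum_finsetSum]
        exact fun j _ => (hSj j).mul_right _
    _ = ∑' α, ‖A α‖ * S (ρ α) := by
        refine tsum_congr fun α => ?_
        simp
    _ ≤ ∑' α, (‖A α‖ ^ 2 + D * p α * ∑' l, r l) :=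
        Summable.tsum_le_tsum h2 hAS (hA2.add ((hp.mul_left D).mul_right _))
    _ = _ := by
        rw [hA2.tsum_add ((hp.mul_left D).mul_right _), tsum_mul_right, tsum_mul_left]

variable {K : Type} [Field K] [NumberField K]

lemma msq2_q_sub (y : InfinitePlace K → ℝ) (a a' : K) :
    qn (fun w => y w * w (a' - a)) ≤
      2 * (qn (fun w => y w * w a) + qn (fun w => y w * w a')) := by
  unfold qn
  rw [← Finset.sum_add_distrib, Finset.mul_sum]
  refine Finset.sum_le_sum fun w _ => ?_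
  have h1 : w (a' - a) ≤ w a' + w a := by
    rw [← norm_embedding_eq, ← norm_embedding_eq, ← norm_embedding_eq, map_sub]
    exact norm_sub_le _ _
  have h2 : (w (a' - a)) ^ 2 ≤ 2 * (w a ^ 2 + w a' ^ 2) := by
    have h3 : 0 ≤ w (a' - a) := apply_nonneg w _
    nlinarith [sq_nonneg (w a - w a')]
  have h4 : 0 ≤ (w.mult : ℝ) * y w ^ 2 := by positivity
  calc (w.mult : ℝ) * (y w * w (a' - a)) ^ 2 = ((w.mult : ℝ) * y w ^ 2) * (w (a' - a)) ^ 2 := by
        ring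
    _ ≤ ((w.mult : ℝ) * y w ^ 2) * (2 * (w a ^ 2 + w a' ^ 2)) :=
        mul_le_mul_of_nonneg_left h2 h4
    _ = _ := by ring

lemma msq2_qn_nonneg (y : InfinitePlace K → ℝ) : 0 ≤ qn y :=
  Finset.sum_nonneg fun w _ => by positivity

theorem ms_one {κ : InfinitePlace K → ℤ} {𝔟 : Ideal (𝓞 K)} (h𝔟 : 𝔟 ≠ ⊥) :
    ∃ C c : ℝ, 0 ≤ C ∧ 0 < c ∧ ∀ (𝔮 : Ideal (𝓞 K)) (_ : 𝔮 ≠ ⊥) (g : 𝓞 K) (ρ : 𝓞 K → 𝓞 K ⧸ 𝔮)
      (_ : ∀ α ∈ 𝔟, ∀ a : 𝓞 K, ρ α = Ideal.Quotient.mk 𝔮 a ↔ α - a * g ∈ 𝔮 * 𝔟)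
      (b : Ideal (𝓞 K) → ℂ) (β : ℝ) (_ : ∀ 𝔠, ‖b 𝔠‖ ≤ β) (_ : b ⊥ = 0)
      (E : Finset (MulChar (𝓞 K ⧸ 𝔮) ℂ)) (u : ℝ), ∀ x ∈ Set.Icc (-1 : Fin (rank K) → ℝ) 1,
      ∑ χ ∈ E, ‖∑' α : 𝔟, b (quo 𝔟 α) * χ (ρ α) * Hf κ (Yv K u x) ((α : 𝓞 K) : K)‖ ^ 2 ≤
        (Nat.card (𝓞 K ⧸ 𝔮)ˣ : ℝ) *
        (C * ∑' α : 𝔟, ‖b (quo 𝔟 α)‖ ^ 2 *
          Real.exp (-Real.pi * qn (fun w => Yv K u x w * w ((α : 𝓞 K) : K))) +
         C * β ^ 2 * (1 + Real.exp (-u)) ^ 2 *
          Real.exp (-c * (Real.exp u * Ideal.absNorm 𝔮) ^ (2 / (Module.finrank ℚ K : ℝ)))) := by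
  classical
  obtain ⟨C1, hC1, hH⟩ := Hf_le (K := K) κ
  have hπ := Real.pi_pos
  obtain ⟨C2, hC2, h2⟩ := lattice_sum h𝔟 (c := Real.pi / 4) (by positivity)
  obtain ⟨C3, hC3, h3⟩ := lattice_sum h𝔟 (c := Real.pi / 16) (by positivity)
  obtain ⟨C4, hC4, h4⟩ := lattice_sum h𝔟 (c := Real.pi / 2) (by positivity)
  refine ⟨C1 ^ 2 + C1 ^ 2 * (C2 * C3), Real.pi / 16, by positivity, by positivity, ?_⟩
  intro 𝔮 h𝔮 g ρ hρ b β hb hb0 E u x hx
  have hβ : 0 ≤ β := (norm_nonneg _).trans (hb ⊥)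
  have : Finite (𝓞 K ⧸ 𝔮) := Ideal.finiteQuotientOfFreeOfNeBot 𝔮 h𝔮
  have : Fintype (𝓞 K ⧸ 𝔮) := Fintype.ofFinite _
  set q : 𝓞 K → ℝ := fun α => qn (fun w => Yv K u x w * w (α : K)) with hq
  have hq0 : ∀ α, 0 ≤ q α := fun α => msq2_qn_nonneg _
  set A : 𝔟 → ℂ := fun α => b (quo 𝔟 α) * Hf κ (Yv K u x) ((α : 𝓞 K) : K) with hAdef
  have hHα : ∀ α : 𝓞 K, ‖Hf κ (Yv K u x) (α : K)‖ ≤ C1 * Real.exp (-(Real.pi / 2) * q α) :=
    fun α => hH _ _ (fun w => Yv_pos u x w)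
  have hAα : ∀ α : 𝔟, ‖A α‖ ≤ β * (C1 * Real.exp (-(Real.pi / 2) * q α)) := by
    intro α
    rw [hAdef]; simp only [norm_mul]
    exact mul_le_mul (hb _) (hHα _) (norm_nonneg _) hβ
  have hAs : Summable fun α : 𝔟 => ‖A α‖ :=
    Summable.of_nonneg_of_le (fun _ => norm_nonneg _) hAα
      (((h4 u x hx).1.mul_left C1).mul_left β)
  set X : ℝ := (Real.exp u * Ideal.absNorm 𝔮) ^ (2 / (Module.finrank ℚ K : ℝ)) with hX
  have hkey := msq2_abs (fun α : 𝔟 => ρ α) A hAs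
    (β ^ 2 * C1 ^ 2 * Real.exp (-(Real.pi / 16) * X)) (by positivity)
    (fun α : 𝔟 => Real.exp (-(Real.pi / 4) * q α)) (fun α : 𝔟 => Real.exp (-(Real.pi / 16) * q α))
    (h2 u x hx).1 (h3 u x hx).1 (fun _ => (Real.exp_pos _).le) (fun _ => (Real.exp_pos _).le) ?_
  swap
  · intro α α' hne hρ'
    have hl : ((α' : 𝓞 K) - (α : 𝓞 K)) ∈ 𝔮 * 𝔟 := by
      obtain ⟨a, ha⟩ := Ideal.Quotient.mk_surjective (ρ (α : 𝓞 K))
      have e1 := (hρ α α.2 a).mp ha.symm
      have e2 := (hρ α' α'.2 a).mp (hρ'.trans ha.symm)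
      have := Ideal.sub_mem _ e2 e1
      simpa using this
    have hl0 : ((α' : 𝓞 K) - (α : 𝓞 K)) ≠ 0 := fun h0 =>
      hne (Subtype.ext (sub_eq_zero.mp h0).symm)
    have e3 : X ≤ q ((α' : 𝓞 K) - (α : 𝓞 K)) := am_gm h𝔮 h𝔟 hl hl0 u x
    have e4 : q ((α' : 𝓞 K) - (α : 𝓞 K)) ≤ 2 * (q α + q α') := by
      have := msq2_q_sub (Yv K u x) ((α : 𝓞 K) : K) ((α' : 𝓞 K) : K)
      rw [hq]
      exact this
    calc ‖A α‖ * ‖A α'‖ ≤ (β * (C1 * Real.exp (-(Real.pi / 2) * q α))) *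
          (β * (C1 * Real.exp (-(Real.pi / 2) * q α'))) :=
          mul_le_mul (hAα _) (hAα _) (norm_nonneg _) (by positivity)
      _ = β ^ 2 * C1 ^ 2 * Real.exp (-(Real.pi / 2) * q α + -(Real.pi / 2) * q α') := by
          rw [Real.exp_add]; ring
      _ ≤ β ^ 2 * C1 ^ 2 * Real.exp (-(Real.pi / 16) * X + -(Real.pi / 4) * q α +
            -(Real.pi / 16) * q ((α' : 𝓞 K) - (α : 𝓞 K))) := by
          refine mul_le_mul_of_nonneg_left (Real.exp_le_exp.mpr ?_) (by positivity)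
          nlinarith [hq0 α, hq0 α']
      _ = _ := by
          rw [Real.exp_add, Real.exp_add]
          simp only [AddSubgroupClass.coe_sub]
          ring
  have hsum : ∀ χ : MulChar (𝓞 K ⧸ 𝔮) ℂ,
      ∑' α : 𝔟, b (quo 𝔟 α) * χ (ρ α) * Hf κ (Yv K u x) ((α : 𝓞 K) : K) =
      ∑ j, χ j * ∑' α : 𝔟, if ρ α = j then A α else 0 := by
    intro χ
    have e1 : ∀ j, Summable fun α : 𝔟 => if ρ α = j then A α else 0 := by
      intro j
      refine Summable.of_norm_bounded hAs fun α => ?_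
      split_ifs <;> simp
    simp_rw [← tsum_mul_left]
    rw [← Summable.tsum_finsetSum (fun j _ => (e1 j).mul_left _)]
    refine tsum_congr fun α => ?_
    simp only [mul_ite, mul_zero, Finset.sum_ite_eq, Finset.mem_univ, if_true, hAdef]
    ring
  calc ∑ χ ∈ E, ‖∑' α : 𝔟, b (quo 𝔟 α) * χ (ρ α) * Hf κ (Yv K u x) ((α : 𝓞 K) : K)‖ ^ 2
      = ∑ χ ∈ E, ‖∑ j, χ j * ∑' α : 𝔟, if ρ α = j then A α else 0‖ ^ 2 := by simp_rw [hsum]
    _ ≤ (Nat.card (𝓞 K ⧸ 𝔮)ˣ : ℝ) * ∑ j, ‖∑' α : 𝔟, if ρ α = j then A α else 0‖ ^ 2 :=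
        parseval E _
    _ ≤ _ := by
        refine mul_le_mul_of_nonneg_left (hkey.trans ?_) (by positivity)
        set Z : ℝ := ∑' α : 𝔟, ‖b (quo 𝔟 α)‖ ^ 2 * Real.exp (-Real.pi * q α) with hZ
        have hs : Summable fun α : 𝔟 => ‖b (quo 𝔟 α)‖ ^ 2 * Real.exp (-Real.pi * q α) := by
          refine Summable.of_nonneg_of_le (fun α => by positivity) (fun α => ?_)
            ((h4 u x hx).1.mul_left (β ^ 2))
          refine mul_le_mul (pow_le_pow_left₀ (norm_nonneg _) (hb _) 2)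
            (Real.exp_le_exp.mpr ?_) (Real.exp_pos _).le (by positivity)
          nlinarith [hq0 α]
        have hZ0 : 0 ≤ Z := tsum_nonneg fun α => by positivity
        have e1 : ∑' α : 𝔟, ‖A α‖ ^ 2 ≤ C1 ^ 2 * Z := by
          rw [hZ, ← tsum_mul_left]
          have e2 : ∀ α : 𝔟, ‖A α‖ ^ 2 ≤
              C1 ^ 2 * (‖b (quo 𝔟 α)‖ ^ 2 * Real.exp (-Real.pi * q α)) := by
            intro α
            have e3 : ‖A α‖ ≤ ‖b (quo 𝔟 α)‖ * (C1 * Real.exp (-(Real.pi / 2) * q α)) := by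
              rw [hAdef]; simp only [norm_mul]
              exact mul_le_mul_of_nonneg_left (hHα _) (norm_nonneg _)
            calc ‖A α‖ ^ 2 ≤ (‖b (quo 𝔟 α)‖ * (C1 * Real.exp (-(Real.pi / 2) * q α))) ^ 2 :=
                  pow_le_pow_left₀ (norm_nonneg _) e3 2
              _ = C1 ^ 2 * (‖b (quo 𝔟 α)‖ ^ 2 * Real.exp (-(Real.pi / 2) * q α) ^ 2) := by ring
              _ = _ := by
                  rw [← Real.exp_nat_mul]
                  congr 3
                  push_cast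
                  ring
          exact Summable.tsum_le_tsum e2 (Summable.of_nonneg_of_le (fun _ => by positivity) e2
            (hs.mul_left _)) (hs.mul_left _)
        have e5 : (β ^ 2 * C1 ^ 2 * Real.exp (-(Real.pi / 16) * X)) *
            (∑' α : 𝔟, Real.exp (-(Real.pi / 4) * q α)) *
            (∑' α : 𝔟, Real.exp (-(Real.pi / 16) * q α)) ≤
            (β ^ 2 * C1 ^ 2 * Real.exp (-(Real.pi / 16) * X)) * (C2 * (1 + Real.exp (-u))) *
              (C3 * (1 + Real.exp (-u))) := by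
          refine mul_le_mul (mul_le_mul_of_nonneg_left (h2 u x hx).2 (by positivity))
            (h3 u x hx).2 (tsum_nonneg fun _ => (Real.exp_pos _).le) (by positivity)
        refine (add_le_add e1 e5).trans ?_
        have e6 : 0 ≤ C1 ^ 2 * (C2 * C3) * Z := by positivity
        have e7 : 0 ≤ C1 ^ 2 * (β ^ 2 * (1 + Real.exp (-u)) ^ 2 *
          Real.exp (-(Real.pi / 16) * X)) := by positivity
        nlinarith [e6, e7]

end Pool.Agent.HZ
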