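import Pool.Agent.Lib_helper41.HZF.Defs

/-! Block PHA: phases and zeros of odd order. -/

namespace Pool.Agent.HZ

open NumberField NumberField.InfinitePlace NumberField.Units Complex MeasureTheory Filter Topology

/-- a real function on an interval which locally has a sign, and is not locally zero anywhere,
has a sign -/
theorem pha_sign_of_local {ρ : ℝ → ℝ} {a b : ℝ}
    (hloc : ∀ c ∈ Set.Ioo a b, (∀ᶠ t in 𝓝 c, 0 ≤ ρ t) ∨ (∀ᶠ t in 𝓝 c, ρ t ≤ 0))
    (hnz : ∀ c ∈ Set.Ioo a b, ¬ (∀ᶠ t in 𝓝 c, ρ t = 0)) :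
    (∀ t ∈ Set.Ioo a b, 0 ≤ ρ t) ∨ (∀ t ∈ Set.Ioo a b, ρ t ≤ 0) := by
  by_contra hcon
  push Not at hcon
  obtain ⟨⟨s, hs, hs0⟩, ⟨t, ht, ht0⟩⟩ := hcon
  have hA : IsOpen {c | ∀ᶠ t in 𝓝 c, 0 ≤ ρ t} := isOpen_setOfPred_eventually_nhds
  have hB : IsOpen {c | ∀ᶠ t in 𝓝 c, ρ t ≤ 0} := isOpen_setOfPred_eventually_nhds
  have h1 : (Set.Ioo a b ∩ {c | ∀ᶠ t in 𝓝 c, 0 ≤ ρ t}).Nonempty := by
    refine ⟨t, ht, ?_⟩
    rcases hloc t ht with h | h
    · exact h
    · exact absurd h.self_of_nhds (not_le.mpr ht0)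
  have h2 : (Set.Ioo a b ∩ {c | ∀ᶠ t in 𝓝 c, ρ t ≤ 0}).Nonempty := by
    refine ⟨s, hs, ?_⟩
    rcases hloc s hs with h | h
    · exact absurd h.self_of_nhds (not_le.mpr hs0)
    · exact h
  obtain ⟨c, hc, hcA, hcB⟩ := isPreconnected_Ioo _ _ hA hB (fun c hc => hloc c hc) h1 h2
  refine hnz c hc ?_
  filter_upwards [hcA, hcB] with t h1 h2
  exact le_antisymm h2 h1

theorem phase_odd {Λ : ℂ → ℂ} (hΛ : Differentiable ℂ Λ) {L : ℝ} {Ω : ℂ} (hΩ : ‖Ω‖ = 1)
    (hfe : ∀ t : ℝ, cexp (t * L * I) * Λ (1 / 2 + t * I) =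
      Ω * starRingEnd ℂ (cexp (t * L * I) * Λ (1 / 2 + t * I))) {a b : ℝ}
    (hz : ∀ t ∈ Set.Ioo a b, ¬ Odd (analyticOrderNatAt Λ (1 / 2 + t * I))) :
    ∃ θ : ℂ, ‖θ‖ = 1 ∧ ∀ t ∈ Set.Ioo a b, cexp (t * L * I) * Λ (1 / 2 + t * I) =
      θ * (‖Λ (1 / 2 + t * I)‖ : ℂ) := by
  -- square root of `Ω`
  obtain ⟨θ₀, hθ₀, hθW⟩ : ∃ θ₀ : ℂ, ‖θ₀‖ = 1 ∧ θ₀ * θ₀ = Ω := by
    refine ⟨cexp (((arg Ω / 2 : ℝ) : ℂ) * I), Complex.norm_exp_ofReal_mul_I _, ?_⟩
    rw [← Complex.exp_add]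
    have := Complex.norm_mul_exp_arg_mul_I Ω
    rw [hΩ, ofReal_one, one_mul] at this
    refine Eq.trans ?_ this
    congr 1
    push_cast
    ring
  have hθc : starRingEnd ℂ θ₀ * θ₀ = 1 := by
    rw [mul_comm, Complex.mul_conj, Complex.normSq_eq_norm_sq, hθ₀]; simp
  set y : ℝ → ℂ := fun t => cexp (t * L * I) * Λ (1 / 2 + t * I) with hy
  have hE1 : ∀ t : ℝ, ‖cexp ((t : ℂ) * L * I)‖ = 1 := by
    intro t
    rw [show (t : ℂ) * L * I = ((t * L : ℝ) : ℂ) * I by push_cast; ring,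
      Complex.norm_exp_ofReal_mul_I]
  set r : ℝ → ℂ := fun t => starRingEnd ℂ θ₀ * y t with hr
  have hreal : ∀ t, (r t).im = 0 := by
    intro t
    rw [← Complex.conj_eq_iff_im]
    show starRingEnd ℂ (starRingEnd ℂ θ₀ * y t) = starRingEnd ℂ θ₀ * y t
    rw [map_mul, Complex.conj_conj]
    have h1 : y t = Ω * starRingEnd ℂ (y t) := hfe t
    conv_rhs => rw [h1, ← hθW]
    rw [← mul_assoc, ← mul_assoc, hθc, one_mul]
  have hqc : Continuous (fun t : ℝ => cexp ((t : ℂ) * L * I)) := by fun_prop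
  set ρ : ℝ → ℝ := fun t => (r t).re with hρ
  have hrρ : ∀ t, r t = (ρ t : ℂ) := fun t => Complex.ext rfl (by simpa using hreal t)
  have hyr : ∀ t, y t = θ₀ * r t := by
    intro t
    show y t = θ₀ * (starRingEnd ℂ θ₀ * y t)
    rw [← mul_assoc, mul_comm θ₀, hθc, one_mul]
  have hnorm : ∀ t : ℝ, ‖Λ (1 / 2 + t * I)‖ = |ρ t| := by
    intro t
    have h1 : ‖y t‖ = ‖Λ (1 / 2 + t * I)‖ := by
      rw [hy]
      simp only [norm_mul]
      rw [hE1, one_mul]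
    rw [← h1, hyr, norm_mul, hθ₀, one_mul, hrρ, Complex.norm_real, Real.norm_eq_abs]
  -- if identically zero
  by_cases hzero : ∀ t ∈ Set.Ioo a b, Λ (1 / 2 + t * I) = 0
  · refine ⟨1, by simp, fun t ht => ?_⟩
    rw [hzero t ht]; simp
  push Not at hzero
  obtain ⟨t₁, ht₁, hΛt₁⟩ := hzero
  have han : AnalyticOnNhd ℂ Λ Set.univ := fun z _ => hΛ.analyticAt z
  -- not locally zero
  have hnz : ∀ c ∈ Set.Ioo a b, ¬ (∀ᶠ t in 𝓝 c, ρ t = 0) := by
    intro c hc hev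
    have hfreq : ∃ᶠ z in 𝓝[≠] (1 / 2 + (c : ℂ) * I), Λ z = 0 := by
      rw [frequently_iff]
      intro U hU
      obtain ⟨V, hV, hVU⟩ := mem_nhdsWithin_iff_exists_mem_nhds_inter.mp hU
      have hcont : ContinuousAt (fun t : ℝ => (1 / 2 + (t : ℂ) * I)) c :=
        Continuous.continuousAt (by fun_prop)
      have h1 : ∀ᶠ t : ℝ in 𝓝[≠] c, (1 / 2 + (t : ℂ) * I) ∈ V :=
        (hcont.eventually hV).filter_mono nhdsWithin_le_nhds
      have h2 : ∀ᶠ t in 𝓝[≠] c, ρ t = 0 := hev.filter_mono nhdsWithin_le_nhds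
      have h3 : ∀ᶠ t in 𝓝[≠] c, t ≠ c := eventually_mem_nhdsWithin
      obtain ⟨t, ⟨h4, h5⟩, h6⟩ := ((h1.and h2).and h3).exists
      refine ⟨1 / 2 + (t : ℂ) * I, hVU ⟨h4, ?_⟩, ?_⟩
      · simp only [Set.mem_compl_iff, Set.mem_singleton_iff]
        intro h7
        apply h6
        have := congrArg Complex.im h7
        simpa using this
      · have := hnorm t
        rw [h5, abs_zero, norm_eq_zero] at this
        exact this
    have := han.eqOn_zero_of_preconnected_of_frequently_eq_zero isPreconnected_univ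
      (Set.mem_univ _) hfreq
    exact hΛt₁ (this (Set.mem_univ _))
  have hloc : ∀ c ∈ Set.Ioo a b, (∀ᶠ t in 𝓝 c, 0 ≤ ρ t) ∨ (∀ᶠ t in 𝓝 c, ρ t ≤ 0) := by
    intro c hc
    have hanc : AnalyticAt ℂ Λ (1 / 2 + (c : ℂ) * I) := hΛ.analyticAt _
    have hcont : ContinuousAt (fun t : ℝ => (1 / 2 + (t : ℂ) * I)) c :=
      Continuous.continuousAt (by fun_prop)
    have hfin : analyticOrderAt Λ (1 / 2 + (c : ℂ) * I) ≠ ⊤ := by
      intro htop
      rw [analyticOrderAt_eq_top] at htop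
      refine hnz c hc ?_
      filter_upwards [hcont.eventually htop] with t ht
      have := hnorm t
      rw [ht, norm_zero] at this
      exact abs_eq_zero.mp this.symm
    have heven : Even (analyticOrderNatAt Λ (1 / 2 + (c : ℂ) * I)) :=
      Nat.not_odd_iff_even.mp (hz c hc)
    set n := analyticOrderNatAt Λ (1 / 2 + (c : ℂ) * I) with hn
    have hn' : analyticOrderAt Λ (1 / 2 + (c : ℂ) * I) = (n : ℕ∞) :=
      (Nat.cast_analyticOrderNatAt hfin).symm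
    obtain ⟨g, hg, hg0, hgev⟩ := hanc.analyticOrderAt_eq_natCast.mp hn'
    set Gf : ℝ → ℂ := fun t => starRingEnd ℂ θ₀ * (cexp ((t : ℂ) * L * I) * (I ^ n *
      g (1 / 2 + (t : ℂ) * I))) with hGf
    have hGc : ContinuousAt Gf c := by
      refine continuousAt_const.mul (hqc.continuousAt.mul (continuousAt_const.mul ?_))
      exact ContinuousAt.comp (f := fun t : ℝ => (1 / 2 + (t : ℂ) * I)) hg.continuousAt hcont
    have hG0 : Gf c ≠ 0 := by
      have hθ0 : starRingEnd ℂ θ₀ ≠ 0 := by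
        rw [← norm_pos_iff, RCLike.norm_conj, hθ₀]; norm_num
      exact mul_ne_zero hθ0 (mul_ne_zero (Complex.exp_ne_zero _)
        (mul_ne_zero (pow_ne_zero _ I_ne_zero) hg0))
    have hev : ∀ᶠ t in 𝓝 c, r t = ((t - c : ℝ) : ℂ) ^ n * Gf t := by
      filter_upwards [hcont.eventually hgev] with t ht
      show starRingEnd ℂ θ₀ * (cexp ((t : ℂ) * L * I) * Λ (1 / 2 + t * I)) = _
      rw [ht]
      have : (1 / 2 + (t : ℂ) * I - (1 / 2 + (c : ℂ) * I)) = ((t - c : ℝ) : ℂ) * I := by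
        push_cast; ring
      rw [this, mul_pow, smul_eq_mul, hGf]
      ring
    have hGim : ∀ᶠ t in 𝓝[≠] c, (Gf t).im = 0 := by
      have h3 : ∀ᶠ t in 𝓝[≠] c, t ≠ c := eventually_mem_nhdsWithin
      filter_upwards [hev.filter_mono nhdsWithin_le_nhds, h3] with t ht htc
      have h4 : ((t - c : ℝ) : ℂ) ^ n ≠ 0 :=
        pow_ne_zero _ (by exact_mod_cast sub_ne_zero.mpr htc)
      have h5 : Gf t = (ρ t / (t - c) ^ n : ℝ) := by
        push_cast
        rw [← hrρ, ht]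
        push_cast at h4 ⊢
        field_simp
      rw [h5, Complex.ofReal_im]
    have hGim0 : (Gf c).im = 0 := by
      have h1 : Tendsto (fun t => (Gf t).im) (𝓝[≠] c) (𝓝 (Gf c).im) :=
        ((Complex.continuous_im.continuousAt.comp hGc).tendsto).mono_left nhdsWithin_le_nhds
      have h2 : Tendsto (fun t => (Gf t).im) (𝓝[≠] c) (𝓝 0) :=
        tendsto_const_nhds.congr' (by filter_upwards [hGim] with t ht using ht.symm)
      exact tendsto_nhds_unique h1 h2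
    have hGre0 : (Gf c).re ≠ 0 := by
      intro h0
      exact hG0 (Complex.ext h0 hGim0)
    have hrec : ContinuousAt (fun t => (Gf t).re) c := Complex.continuous_re.continuousAt.comp hGc
    have hρG : ∀ᶠ t in 𝓝 c, ρ t = (t - c) ^ n * (Gf t).re := by
      filter_upwards [hev] with t ht
      show (r t).re = _
      rw [ht, ← Complex.ofReal_pow, Complex.re_ofReal_mul]
    rcases lt_or_gt_of_ne hGre0 with hneg | hpos
    · right
      filter_upwards [hρG, hrec.eventually (gt_mem_nhds hneg)] with t h1 h2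
      rw [h1]
      exact mul_nonpos_of_nonneg_of_nonpos (heven.pow_nonneg _) h2.le
    · left
      filter_upwards [hρG, hrec.eventually (lt_mem_nhds hpos)] with t h1 h2
      rw [h1]
      exact mul_nonneg (heven.pow_nonneg _) h2.le
  rcases pha_sign_of_local hloc hnz with hs | hs
  · refine ⟨θ₀, hθ₀, fun t ht => ?_⟩
    show y t = _
    rw [hyr, hrρ, hnorm, abs_of_nonneg (hs t ht)]
  · refine ⟨-θ₀, by rw [norm_neg, hθ₀], fun t ht => ?_⟩
    show y t = _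
    rw [hyr, hrρ, hnorm, abs_of_nonpos (hs t ht)]
    push_cast
    ring

end Pool.Agent.HZ
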