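import Pool.Agent.Lib_helper41.HZF.Defs

/-! Block WGT: weights and the Gamma factor on the critical line (helper85). -/

namespace Pool.Agent.HZ

open NumberField NumberField.InfinitePlace NumberField.Units Complex MeasureTheory Filter Topology
open scoped FourierTransform ContDiff

variable {K : Type} [Field K] [NumberField K]

theorem wgt_hatw_integrable (w : ℝ → ℝ) (hw : ContDiff ℝ ∞ w) (hc : HasCompactSupport w) :
    Integrable (hatw w) := by
  have h1 : ContDiff ℝ ∞ (fun t => ((w t : ℝ) : ℂ)) := Complex.ofRealCLM.contDiff.comp hw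
  have h2 : HasCompactSupport (fun t => ((w t : ℝ) : ℂ)) := by
    refine hc.comp_left (g := fun x : ℝ => (x : ℂ)) (by simp)
  set g : SchwartzMap ℝ ℂ := h2.toSchwartzMap h1 with hg
  have h3 : Integrable (𝓕 g : SchwartzMap ℝ ℂ) := (𝓕 g : SchwartzMap ℝ ℂ).integrable
  have h4 : hatw w = fun u : ℝ => (𝓕 g : SchwartzMap ℝ ℂ) ((-(1 / (2 * Real.pi))) * u) := by
    funext u
    rw [SchwartzMap.fourier_coe, Real.fourier_real_eq_integral_exp_smul]
    unfold hatw
    refine integral_congr_ae (Eventually.of_forall fun t => ?_)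
    simp only [hg, smul_eq_mul]
    rw [mul_comm]
    congr 2
    have : (Real.pi : ℂ) ≠ 0 := by exact_mod_cast Real.pi_ne_zero
    push_cast
    field_simp
  rw [h4]
  have h5 : (-(1 / (2 * Real.pi))) ≠ 0 := by
    have := Real.pi_pos
    have : 0 < 1 / (2 * Real.pi) := by positivity
    linarith [this]
  exact h3.comp_mul_left' h5

theorem exists_weight (γ : ℝ → ℂ) (hcont : Continuous γ) {a b : ℝ} (hab : a < b)
    (hne : ∀ t, γ t ≠ 0) :
    ∃ w : ℝ → ℝ, Continuous w ∧ HasCompactSupport w ∧ (∀ t, 0 ≤ w t) ∧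
      (∀ t, t ∉ Set.Ioo a b → w t = 0) ∧ (∫ t : ℝ, (w t : ℂ) * γ t) ≠ 0 ∧
      Integrable (hatw w) := by
  set t₀ : ℝ := (a + b) / 2 with ht₀
  set φ : ℝ → ℝ := fun t => (γ t * starRingEnd ℂ (γ t₀)).re with hφ
  have hφc : Continuous φ := Complex.continuous_re.comp (hcont.mul continuous_const)
  have hφ0 : 0 < φ t₀ := by
    simp only [hφ]
    rw [Complex.mul_conj, Complex.ofReal_re]
    exact Complex.normSq_pos.2 (hne t₀)
  have hev : ∀ᶠ t in 𝓝 t₀, 0 < φ t := hφc.continuousAt.eventually (lt_mem_nhds hφ0)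
  obtain ⟨δ, hδ0, hδ⟩ := Metric.eventually_nhds_iff.1 hev
  set R : ℝ := min (δ / 2) ((b - a) / 4) with hR
  have hR0 : 0 < R := lt_min (by linarith) (by linarith)
  have hRδ : R < δ := by
    have := min_le_left (δ / 2) ((b - a) / 4)
    simp only [hR]; linarith
  have hRab : R ≤ (b - a) / 4 := min_le_right _ _
  let f : ContDiffBump t₀ := ⟨R / 2, R, by positivity, by linarith⟩
  have hfR : f.rOut = R := rfl
  have hfsupp : ∀ t, t ∉ Metric.ball t₀ R → f t = 0 := by
    intro t ht
    have : Function.support f = Metric.ball t₀ f.rOut := f.support_eq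
    by_contra hcon
    have h1 : t ∈ Function.support f := hcon
    rw [this, hfR] at h1
    exact ht h1
  have hfγ : Continuous (fun t => (f t : ℂ) * γ t) :=
    (Complex.continuous_ofReal.comp f.continuous).mul hcont
  have hfγc : HasCompactSupport (fun t => (f t : ℂ) * γ t) := by
    have h1 : HasCompactSupport (fun t => ((f t : ℝ) : ℂ)) :=
      f.hasCompactSupport.comp_left (g := fun x : ℝ => (x : ℂ)) (by simp)
    exact h1.mul_right
  have hint : Integrable (fun t => (f t : ℂ) * γ t) := hfγ.integrable_of_hasCompactSupport hfγc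
  refine ⟨f, f.continuous, f.hasCompactSupport, fun t => f.nonneg, ?_, ?_, ?_⟩
  · intro t ht
    apply hfsupp
    intro hb
    apply ht
    rw [Metric.mem_ball, Real.dist_eq, abs_lt] at hb
    constructor
    · simp only [ht₀] at hb; linarith [hb.1]
    · simp only [ht₀] at hb; linarith [hb.2]
  · intro h0
    have h1 : (∫ t : ℝ, f t * φ t) = 0 := by
      have h2 : (∫ t : ℝ, ((f t : ℂ) * γ t) * starRingEnd ℂ (γ t₀)) = 0 := by
        rw [integral_mul_const, h0, zero_mul]
      have h3 := congrArg Complex.re h2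
      rw [← RCLike.re_eq_complex_re, ← integral_re] at h3
      · simp only [RCLike.re_eq_complex_re] at h3
        rw [Complex.zero_re] at h3
        rw [← h3]
        refine integral_congr_ae (Eventually.of_forall fun t => ?_)
        simp only [hφ]
        rw [mul_assoc, Complex.re_ofReal_mul]
      · exact hint.mul_const _
    have hcφ : Continuous (fun t => f t * φ t) := f.continuous.mul hφc
    have hnn : ∀ t, 0 ≤ f t * φ t := by
      intro t
      by_cases ht : t ∈ Metric.ball t₀ R
      · refine mul_nonneg f.nonneg (hδ ?_).le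
        rw [Metric.mem_ball] at ht
        linarith
      · rw [hfsupp t ht, zero_mul]
    have hi : Integrable (fun t => f t * φ t) :=
      hcφ.integrable_of_hasCompactSupport (f.hasCompactSupport.mul_right)
    have hpos : 0 < ∫ t : ℝ, f t * φ t := by
      rw [integral_pos_iff_support_of_nonneg hnn hi]
      have hopen : IsOpen (Function.support (fun t => f t * φ t)) := hcφ.isOpen_support
      refine hopen.measure_pos volume ⟨t₀, ?_⟩
      rw [Function.mem_support]
      refine mul_ne_zero ?_ hφ0.ne'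
      have : f t₀ = 1 := f.one_of_mem_closedBall (by simp [f.rIn_pos.le])
      rw [this]; exact one_ne_zero
    rw [h1] at hpos
    exact lt_irrefl _ hpos
  · exact wgt_hatw_integrable _ f.contDiff f.hasCompactSupport

theorem wgt_gammaC_ne_zero {s : ℂ} (hs : 0 < s.re) : Gammaℂ s ≠ 0 := by
  rw [← Gammaℝ_mul_Gammaℝ_add_one]
  refine mul_ne_zero (Gammaℝ_ne_zero_of_re_pos hs) (Gammaℝ_ne_zero_of_re_pos ?_)
  simp only [add_re, one_re]; linarith

theorem wgt_continuous_gammaR {X : Type*} [TopologicalSpace X] {f : X → ℂ} (hf : Continuous f)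
    (hre : ∀ x, 0 < (f x).re) : Continuous (fun x => Gammaℝ (f x)) := by
  have h1 : Continuous (fun x => (Gammaℝ (f x))⁻¹) :=
    (differentiable_Gammaℝ_inv.continuous).comp hf
  have h2 : (fun x => Gammaℝ (f x)) = fun x => ((Gammaℝ (f x))⁻¹)⁻¹ := by
    funext t; simp
  rw [h2]
  exact h1.inv₀ (fun t => inv_ne_zero (Gammaℝ_ne_zero_of_re_pos (hre t)))

theorem wgt_continuous_gammaC {X : Type*} [TopologicalSpace X] {f : X → ℂ} (hf : Continuous f)
    (hre : ∀ x, 0 < (f x).re) : Continuous (fun x => Gammaℂ (f x)) := by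
  have : (fun x => Gammaℂ (f x)) = fun x => Gammaℝ (f x) * Gammaℝ (f x + 1) := by
    funext x; rw [Gammaℝ_mul_Gammaℝ_add_one]
  rw [this]
  refine (wgt_continuous_gammaR hf hre).mul (wgt_continuous_gammaR (by fun_prop) fun x => ?_)
  have := hre x
  simp only [add_re, one_re]; linarith

theorem wgt_reR (k : ℤ) (l t : ℝ) : 0 < ((1 / 2 + t * I : ℂ) + |k| + l * I).re := by
  have : ((1 / 2 + t * I : ℂ) + |k| + l * I).re = 1 / 2 + |(k : ℝ)| := by
    simp
  rw [this]; positivity

theorem wgt_reC (k : ℤ) (l t : ℝ) : 0 < ((1 / 2 + t * I : ℂ) + |k| / 2 + l / 2 * I).re := by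
  have : ((1 / 2 + t * I : ℂ) + |k| / 2 + l / 2 * I).re = 1 / 2 + |(k : ℝ)| / 2 := by
    simp
  rw [this]; positivity

theorem gam_ne_zero (κ : InfinitePlace K → ℤ) (lam : InfinitePlace K → ℝ) (t : ℝ) :
    gam κ lam (1 / 2 + t * I) ≠ 0 := by
  classical
  unfold gam
  rw [Finset.prod_ne_zero_iff]
  intro w _
  split_ifs
  · exact Gammaℝ_ne_zero_of_re_pos (wgt_reR _ _ _)
  · exact wgt_gammaC_ne_zero (wgt_reC _ _ _)

theorem gam_continuous (κ : InfinitePlace K → ℤ) :
    Continuous (fun p : (InfinitePlace K → ℝ) × ℝ => gam κ p.1 (1 / 2 + p.2 * I)) := by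
  classical
  unfold gam
  refine continuous_finsetProd _ fun w _ => ?_
  split_ifs
  · exact wgt_continuous_gammaR (by fun_prop) fun p => wgt_reR _ _ _
  · exact wgt_continuous_gammaC (by fun_prop) fun p => wgt_reC _ _ _

end Pool.Agent.HZ
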