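import Pool.Agent.Lib_helper41.HZF.APX
import Pool.Agent.Lib_helper41.HZF.CLS
import Pool.Agent.Lib_helper41.HZF.DIA1
import Pool.Agent.Lib_helper41.HZF.DIA2
import Pool.Agent.Lib_helper41.HZF.DIA3
import Pool.Agent.Lib_helper41.HZF.FET
import Pool.Agent.Lib_helper41.HZF.FT
import Pool.Agent.Lib_helper41.HZF.GAU
import Pool.Agent.Lib_helper41.HZF.INF
import Pool.Agent.Lib_helper41.HZF.KEY
import Pool.Agent.Lib_helper41.HZF.KG
import Pool.Agent.Lib_helper41.HZF.LAM1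
import Pool.Agent.Lib_helper41.HZF.LAM2
import Pool.Agent.Lib_helper41.HZF.LAT
import Pool.Agent.Lib_helper41.HZF.MOL
import Pool.Agent.Lib_helper41.HZF.MSQ1
import Pool.Agent.Lib_helper41.HZF.MSQ2
import Pool.Agent.Lib_helper41.HZF.MSQ3
import Pool.Agent.Lib_helper41.HZF.NFP
import Pool.Agent.Lib_helper41.HZF.PHA
import Pool.Agent.Lib_helper41.HZF.POI
import Pool.Agent.Lib_helper41.HZF.RES
import Pool.Agent.Lib_helper41.HZF.SFE
import Pool.Agent.Lib_helper41.HZF.SUM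
import Pool.Agent.Lib_helper41.HZF.UNF1
import Pool.Agent.Lib_helper41.HZF.UNF2
import Pool.Agent.Lib_helper41.HZF.WGT
import Pool.Agent.Lib_helper41.HZF.YB

namespace Pool.Agent.HZ

open NumberField NumberField.InfinitePlace NumberField.Units Complex MeasureTheory Filter Topology

variable {K : Type} [Field K] [NumberField K]

theorem IsHecke.norm_le {𝔮 : Ideal (𝓞 K)} {κ : InfinitePlace K → ℤ} {lam : InfinitePlace K → ℝ}
    {χ : MulChar (𝓞 K ⧸ 𝔮) ℂ} {ψ : Ideal (𝓞 K) →* ℂ} (h : IsHecke 𝔮 κ lam χ ψ) (𝔞 : Ideal (𝓞 K)) :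
    ‖ψ 𝔞‖ ≤ 1 := by
  by_cases hc : IsCoprime 𝔞 𝔮
  · exact (h.norm_eq_one 𝔞 hc).le
  · rw [h.eq_zero 𝔞 hc, norm_zero]; exact zero_le_one

theorem IsHecke.bot {𝔮 : Ideal (𝓞 K)} (h𝔮 : 𝔮 ≠ ⊤) {κ : InfinitePlace K → ℤ}
    {lam : InfinitePlace K → ℝ} {χ : MulChar (𝓞 K ⧸ 𝔮) ℂ} {ψ : Ideal (𝓞 K) →* ℂ}
    (h : IsHecke 𝔮 κ lam χ ψ) : ψ ⊥ = 0 := by
  apply h.eq_zero
  rw [Ideal.isCoprime_iff_sup_eq, bot_sup_eq]
  exact h𝔮

theorem cop_norm_le (S : Finset (Ideal (𝓞 K))) (𝔠 : Ideal (𝓞 K)) : ‖cop S 𝔠‖ ≤ 1 := by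
  unfold cop
  split_ifs <;> simp

theorem cop_bot (S : Finset (Ideal (𝓞 K))) : cop S (⊥ : Ideal (𝓞 K)) = 0 := by
  simp [cop]

theorem cop_empty_mul {ψ : Ideal (𝓞 K) →* ℂ} (h0 : ψ ⊥ = 0) :
    (fun 𝔠 => cop ∅ 𝔠 * ψ 𝔠) = (ψ : Ideal (𝓞 K) → ℂ) := by
  funext 𝔠
  by_cases h : 𝔠 = ⊥
  · rw [h, cop_bot, h0, zero_mul]
  · simp [cop, h]

theorem cop_mul_norm_le {ψ : Ideal (𝓞 K) →* ℂ} (hψ : ∀ 𝔞, ‖ψ 𝔞‖ ≤ 1)
    (S : Finset (Ideal (𝓞 K))) (𝔠 : Ideal (𝓞 K)) : ‖cop S 𝔠 * ψ 𝔠‖ ≤ 1 := by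
  rw [norm_mul]
  exact mul_le_one₀ (cop_norm_le S 𝔠) (norm_nonneg _) (hψ 𝔠)

theorem cop_mul_bot (ψ : Ideal (𝓞 K) →* ℂ) (S : Finset (Ideal (𝓞 K))) :
    cop S (⊥ : Ideal (𝓞 K)) * ψ ⊥ = 0 := by
  rw [cop_bot, zero_mul]

/-- The data of one character. -/
structure HD (𝔮 : Ideal (𝓞 K)) (κ : InfinitePlace K → ℤ) (lam : InfinitePlace K → ℝ)
    (χ : MulChar (𝓞 K ⧸ 𝔮) ℂ) (ψ : Ideal (𝓞 K) →* ℂ) : Prop where
  hκ : ∀ w : InfinitePlace K, w.IsReal → κ w = 0 ∨ κ w = 1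
  hlam : ∑ w, lam w = 0
  bot : 𝔮 ≠ ⊥
  top : 𝔮 ≠ ⊤
  prim : IsPrim 𝔮 χ
  hecke : IsHecke 𝔮 κ lam χ ψ

variable {𝔮 : Ideal (𝓞 K)} {κ : InfinitePlace K → ℤ} {lam : InfinitePlace K → ℝ}
  {χ : MulChar (𝓞 K ⧸ 𝔮) ℂ} {ψ : Ideal (𝓞 K) →* ℂ}

theorem HD.psi_bot (h : HD 𝔮 κ lam χ ψ) : ψ ⊥ = 0 := h.hecke.bot h.top

theorem HD.fe (h : HD 𝔮 κ lam χ ψ) : ∃ Ω : ℂ, ‖Ω‖ = 1 ∧ ∀ u : ℝ, Dser ψ (Gf κ lam) u =
      Ω * starRingEnd ℂ (Dser ψ (Gf κ lam) (-u - Real.log (cond 𝔮))) :=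
  dser_fe h.hκ h.hlam h.bot h.top h.prim h.hecke

theorem HD.good (_h : HD 𝔮 κ lam χ ψ) : ∃ C, GoodF (Gf κ lam) C (Real.pi / 2) := by
  obtain ⟨C, hC⟩ := Gf_good κ
  exact ⟨C, hC lam⟩

theorem HD.norm_fe (h : HD 𝔮 κ lam χ ψ) (u : ℝ) : ‖Dser ψ (Gf κ lam) u‖ =
      ‖Dser ψ (Gf κ lam) (-u - Real.log (cond 𝔮))‖ := by
  obtain ⟨Ω, hΩ, hfe⟩ := h.fe
  rw [hfe u, norm_mul, hΩ, one_mul, RCLike.norm_conj]

theorem HD.decay (h : HD 𝔮 κ lam χ ψ) (A : ℝ) :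
    ∃ C : ℝ, ∀ u : ℝ, ‖Dser ψ (Gf κ lam) u‖ ≤ C * Real.exp (-(A * |u|)) := by
  obtain ⟨C₁, hG⟩ := h.good
  set A' : ℝ := max A 1 with hA'
  have hA1 : 1 / 2 < A' := lt_of_lt_of_le (by norm_num) (le_max_right _ _)
  have hA0 : 0 < A' := by linarith
  obtain ⟨C, hC0, hC⟩ := Dser_le (b := ψ) hG (fun 𝔠 => h.hecke.norm_le 𝔠) h.psi_bot hA1
  set ℓ := Real.log (cond 𝔮) with hℓ
  refine ⟨C * Real.exp (A' * |ℓ|), fun u => ?_⟩
  have hAA : Real.exp (-(A' * |u|)) ≤ Real.exp (-(A * |u|)) := by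
    apply Real.exp_le_exp.2
    have := mul_le_mul_of_nonneg_right (le_max_left A 1) (abs_nonneg u)
    linarith
  have h1 : 1 ≤ Real.exp (A' * |ℓ|) := Real.one_le_exp (by positivity)
  rcases le_total 0 u with hu | hu
  · refine (hC u).trans ?_
    rw [← abs_of_nonneg hu] at hAA ⊢
    rw [abs_abs]
    calc C * Real.exp (-(A' * |u|)) ≤ C * (Real.exp (A' * |ℓ|) * Real.exp (-(A * |u|))) := by
          apply mul_le_mul_of_nonneg_left _ hC0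
          rw [abs_abs] at hAA
          nlinarith [Real.exp_pos (-(A * |u|))]
      _ = _ := by ring
  · rw [h.norm_fe u]
    refine (hC _).trans ?_
    have h2 : Real.exp (-(A' * (-u - ℓ))) ≤ Real.exp (A' * |ℓ|) * Real.exp (-(A' * |u|)) := by
      rw [← Real.exp_add]
      apply Real.exp_le_exp.2
      rw [abs_of_nonpos hu]
      have := mul_le_mul_of_nonneg_left (le_abs_self ℓ) hA0.le
      nlinarith
    calc C * Real.exp (-(A' * (-u - ℓ))) ≤ C * (Real.exp (A' * |ℓ|) * Real.exp (-(A' * |u|))) :=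
          mul_le_mul_of_nonneg_left h2 hC0
      _ ≤ C * (Real.exp (A' * |ℓ|) * Real.exp (-(A * |u|))) := by gcongr
      _ = _ := by ring

theorem HD.continuous (h : HD 𝔮 κ lam χ ψ) : Continuous (Dser ψ (Gf κ lam)) := by
  obtain ⟨C₁, hG⟩ := h.good
  exact Dser_continuous hG (fun 𝔠 => h.hecke.norm_le 𝔠) h.psi_bot

/-- The (unnormalized) completed L-function. -/
noncomputable def LamD (κ : InfinitePlace K → ℤ) (lam : InfinitePlace K → ℝ)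
    (ψ : Ideal (𝓞 K) →* ℂ) (s : ℂ) : ℂ :=
  ∫ u : ℝ, Dser ψ (Gf κ lam) u * cexp ((s - 1 / 2) * u)

theorem HD.differentiable (h : HD 𝔮 κ lam χ ψ) : Differentiable ℂ (LamD κ lam ψ) :=
  entire_of_decay h.continuous h.decay

theorem exp_abs_integrable : Integrable (fun u : ℝ => Real.exp (-(1 * |u|))) := by
  have h1 : IntegrableOn (fun u : ℝ => Real.exp (-(1 * |u|))) (Set.Ioi 0) := by
    refine (integrableOn_exp_neg_Ioi 0).congr_fun (fun u hu => ?_) measurableSet_Ioi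
    simp only [one_mul, abs_of_pos (Set.mem_Ioi.1 hu)]
  have h2 : IntegrableOn (fun u : ℝ => Real.exp (-(1 * |u|))) (Set.Iic 0) := by
    refine (integrableOn_exp_Iic 0).congr_fun (fun u hu => ?_) measurableSet_Iic
    simp only [one_mul, abs_of_nonpos (Set.mem_Iic.1 hu), neg_neg]
  rw [← integrableOn_univ, ← Set.Iic_union_Ioi (a := (0 : ℝ))]
  exact h2.union h1

theorem HD.integrable (h : HD 𝔮 κ lam χ ψ) : Integrable (Dser ψ (Gf κ lam)) := by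
  obtain ⟨C, hC⟩ := h.decay 1
  exact (exp_abs_integrable.const_mul C).mono' h.continuous.aestronglyMeasurable
    (Eventually.of_forall hC)

theorem LamD_line (κ : InfinitePlace K → ℤ) (lam : InfinitePlace K → ℝ)
    (ψ : Ideal (𝓞 K) →* ℂ) (t : ℝ) : LamD κ lam ψ (1 / 2 + t * I) =
      ∫ u : ℝ, Dser ψ (Gf κ lam) u * cexp (t * u * I) := by
  unfold LamD
  congr 1
  funext u
  congr 2
  ring

theorem HD.line_fe (h : HD 𝔮 κ lam χ ψ) : ∃ Ω : ℂ, ‖Ω‖ = 1 ∧ ∀ t : ℝ,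
    cexp (t * (Real.log (cond 𝔮) / 2 : ℝ) * I) * LamD κ lam ψ (1 / 2 + t * I) =
      Ω * starRingEnd ℂ (cexp (t * (Real.log (cond 𝔮) / 2 : ℝ) * I) *
        LamD κ lam ψ (1 / 2 + t * I)) := by
  obtain ⟨Ω, hΩ, hfe⟩ := h.fe
  refine ⟨Ω, hΩ, fun t => ?_⟩
  set ℓ := Real.log (cond 𝔮) with hℓ
  set D := Dser ψ (Gf κ lam) with hD
  have h1 : LamD κ lam ψ (1 / 2 + t * I) =
      Ω * (cexp (-(t * ℓ * I)) * starRingEnd ℂ (LamD κ lam ψ (1 / 2 + t * I))) := by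
    rw [LamD_line, ← hD]
    have e1 : ∀ u : ℝ, D u * cexp (t * u * I) =
        Ω * (cexp (-(t * ℓ * I)) * starRingEnd ℂ (D (-u - ℓ) * cexp (t * ((-u - ℓ : ℝ) : ℂ) * I))) := by
      intro u
      rw [hfe u, map_mul, ← Complex.exp_conj]
      have : cexp (t * u * I) = cexp (-(t * ℓ * I)) *
          cexp (starRingEnd ℂ (t * ((-u - ℓ : ℝ) : ℂ) * I)) := by
        rw [← Complex.exp_add]
        congr 1
        rw [map_mul, map_mul, Complex.conj_ofReal, Complex.conj_ofReal, Complex.conj_I]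
        push_cast
        ring
      rw [this]
      ring
    conv_lhs => rw [integral_congr_ae (Eventually.of_forall e1)]
    conv_lhs => rw [integral_const_mul, integral_const_mul]
    congr 2
    rw [← integral_conj]
    have e2 := integral_sub_left_eq_self
      (fun u : ℝ => starRingEnd ℂ (D u * cexp (t * (u : ℂ) * I))) volume (-ℓ)
    rw [← e2]
    congr 1
    funext u
    rw [show -ℓ - u = -u - ℓ by ring]
  rw [map_mul, ← Complex.exp_conj]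
  conv_lhs => rw [h1]
  have : cexp (t * (ℓ / 2 : ℝ) * I) * cexp (-(t * ℓ * I)) =
      cexp (starRingEnd ℂ (t * (ℓ / 2 : ℝ) * I)) := by
    rw [← Complex.exp_add]
    congr 1
    rw [map_mul, map_mul, Complex.conj_ofReal, Complex.conj_ofReal, Complex.conj_I]
    push_cast
    ring
  rw [← this]
  ring

/-- Representation with Euler factors removed. -/
theorem HD.rep (h : HD 𝔮 κ lam χ ψ) (S : Finset (Ideal (𝓞 K)))
    (hS : ∀ 𝔭 ∈ S, 𝔭.IsPrime ∧ 𝔭 ≠ ⊥) :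
    Integrable (Dser (fun 𝔠 => cop S 𝔠 * ψ 𝔠) (Gf κ lam)) ∧
    ∀ t : ℝ, ∫ u : ℝ, Dser (fun 𝔠 => cop S 𝔠 * ψ 𝔠) (Gf κ lam) u * cexp (t * u * I) =
      LamD κ lam ψ (1 / 2 + t * I) * ∏ 𝔭 ∈ S, (1 - (((√(Ideal.absNorm 𝔭 : ℝ))⁻¹ : ℝ) : ℂ) *
        (ψ 𝔭 * cexp (-(t * Real.log (Ideal.absNorm 𝔭) * I)))) := by
  classical
  obtain ⟨C₁, hG⟩ := h.good
  induction S using Finset.induction_on with
  | empty =>
    rw [cop_empty_mul h.psi_bot]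
    refine ⟨h.integrable, fun t => ?_⟩
    rw [Finset.prod_empty, mul_one, LamD_line]
  | insert 𝔭 S h𝔭S ih =>
    have hS' : ∀ 𝔭 ∈ S, 𝔭.IsPrime ∧ 𝔭 ≠ ⊥ := fun 𝔭 h𝔭 => hS 𝔭 (Finset.mem_insert_of_mem h𝔭)
    obtain ⟨h𝔭, h𝔭0⟩ := hS 𝔭 (Finset.mem_insert_self _ _)
    obtain ⟨hi, hr⟩ := ih hS'
    set D := Dser (fun 𝔠 => cop S 𝔠 * ψ 𝔠) (Gf κ lam) with hD
    set r : ℂ := (((√(Ideal.absNorm 𝔭 : ℝ))⁻¹ : ℝ) : ℂ) with hr'
    set L : ℝ := Real.log (Ideal.absNorm 𝔭) with hL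
    have hfun : Dser (fun 𝔠 => cop (insert 𝔭 S) 𝔠 * ψ 𝔠) (Gf κ lam) =
        fun u => D u - ψ 𝔭 * r * D (u + L) := by
      funext u
      exact Dser_insert hG (fun 𝔠 => h.hecke.norm_le 𝔠) S hS' h𝔭 h𝔭0 h𝔭S u
    have hi2 : Integrable (fun u => ψ 𝔭 * r * D (u + L)) := (hi.comp_add_right L).const_mul _
    rw [hfun]
    refine ⟨hi.sub hi2, fun t => ?_⟩
    have hexp : ∀ (f : ℝ → ℂ), Integrable f → Integrable (fun u : ℝ => f u * cexp (t * u * I)) := by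
      intro f hf
      refine hf.mul_bdd (c := 1) ?_ (Eventually.of_forall fun u => ?_)
      · exact (Continuous.aestronglyMeasurable (by fun_prop))
      · rw [show (t : ℂ) * u * I = ((t * u : ℝ) : ℂ) * I by push_cast; ring,
          Complex.norm_exp_ofReal_mul_I]
    have e1 : ∀ u : ℝ, (D u - ψ 𝔭 * r * D (u + L)) * cexp (t * u * I) =
        D u * cexp (t * u * I) - (ψ 𝔭 * r * D (u + L)) * cexp (t * u * I) := fun u => by ring
    simp_rw [e1]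
    rw [integral_sub (hexp _ hi) (hexp _ hi2), hr t, Finset.prod_insert h𝔭S]
    have e2 : ∫ u : ℝ, (ψ 𝔭 * r * D (u + L)) * cexp (t * u * I) =
        ψ 𝔭 * r * (cexp (-(t * L * I)) * ∫ u : ℝ, D u * cexp (t * u * I)) := by
      have e3 := integral_add_right_eq_self (μ := volume)
        (fun u : ℝ => D u * cexp (t * ((u - L : ℝ) : ℂ) * I)) L
      rw [← integral_const_mul, ← integral_const_mul]
      have e4 : (fun u : ℝ => (ψ 𝔭 * r * D (u + L)) * cexp (t * u * I)) =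
          fun u : ℝ => ψ 𝔭 * r * (D (u + L) * cexp (t * ((u + L - L : ℝ) : ℂ) * I)) := by
        funext u
        rw [add_sub_cancel_right]
        ring
      rw [e4, integral_const_mul, e3, ← integral_const_mul]
      congr 1
      funext u
      have : cexp (t * ((u - L : ℝ) : ℂ) * I) = cexp (-(t * L * I)) * cexp (t * u * I) := by
        rw [← Complex.exp_add]
        congr 1
        push_cast
        ring
      rw [this]
      ring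
    rw [e2, hr t]
    ring

end Pool.Agent.HZ
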