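import Pool.Agent.Lib_helper41.HZF.Defs

/-! Block APX: approximation of the phase of an Euler product over ideals. -/

namespace Pool.Agent.HZ

open NumberField NumberField.InfinitePlace NumberField.Units Complex MeasureTheory Filter Topology


/-- the function to be approximated -/
noncomputable def apx_F (r : ℝ) (h0 : 0 ≤ r) (h1 : r < 1) : C(AddCircle (1 : ℝ), ℂ) where
  toFun x := starRingEnd ℂ (1 - r * fourier 1 x) / (‖1 - r * fourier 1 x‖ : ℂ)
  continuous_toFun := by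
    have hc : Continuous fun x : AddCircle (1 : ℝ) => (1 - r * fourier 1 x : ℂ) :=
      continuous_const.sub (continuous_const.mul (fourier 1).continuous)
    refine (Complex.continuous_conj.comp hc).div (Complex.continuous_ofReal.comp hc.norm) ?_
    intro x
    have h2 : ‖(fourier 1 x : ℂ)‖ = 1 := by
      rw [fourier_apply]
      exact Circle.norm_coe _
    have h3 : (1 : ℝ) - r ≤ ‖(1 - r * fourier 1 x : ℂ)‖ := by
      have h4 := norm_sub_norm_le (1 : ℂ) (r * fourier 1 x)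
      rw [norm_one, norm_mul, h2, mul_one, Complex.norm_real, Real.norm_of_nonneg h0] at h4
      exact h4
    have h5 : ‖(1 - r * fourier 1 x : ℂ)‖ ≠ 0 := by linarith
    exact_mod_cast h5

theorem apx_F_norm (r : ℝ) (h0 : 0 ≤ r) (h1 : r < 1) : ‖apx_F r h0 h1‖ ≤ 1 := by
  rw [ContinuousMap.norm_le _ zero_le_one]
  intro x
  show ‖starRingEnd ℂ (1 - r * fourier 1 x) / (‖1 - r * fourier 1 x‖ : ℂ)‖ ≤ 1
  rw [norm_div, RCLike.norm_conj, Complex.norm_real, norm_norm]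
  exact div_self_le_one _

theorem apx_one (r : ℝ) (h0 : 0 ≤ r) (h1 : r < 1) (ε : ℝ) (hε : 0 < ε) :
    ∃ (N M : ℕ) (c : ℕ → ℂ), ∑ j ∈ Finset.range M, ‖c j‖ ^ 2 ≤ (1 + ε) ^ 2 ∧
      ∀ w : ℂ, ‖w‖ = 1 → ‖starRingEnd ℂ w ^ N * ∑ j ∈ Finset.range M, c j * w ^ j -
          starRingEnd ℂ (1 - r * w) / ‖1 - r * w‖‖ ≤ ε := by
  have hmem : apx_F r h0 h1 ∈
      (Submodule.span ℂ (Set.range (fourier (T := (1 : ℝ))))).topologicalClosure := by
    rw [span_fourier_closure_eq_top]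
    trivial
  have hmem2 : apx_F r h0 h1 ∈ closure
      (Submodule.span ℂ (Set.range (fourier (T := (1 : ℝ)))) : Set C(AddCircle (1 : ℝ), ℂ)) :=
    hmem
  obtain ⟨g, hg, hdist⟩ := Metric.mem_closure_iff.1 hmem2 ε hε
  obtain ⟨c, hc⟩ := Finsupp.mem_span_range_iff_exists_finsupp.1 hg
  set N : ℕ := c.support.sup Int.natAbs with hN
  set e : ℕ ↪ ℤ := ⟨fun j => (j : ℤ) - N, fun i j h => by
    have : (i : ℤ) - N = (j : ℤ) - N := h
    omega⟩ with he
  set s : Finset ℤ := (Finset.range (2 * N + 1)).map e with hs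
  have hsub : c.support ⊆ s := by
    intro i hi
    have h2 : i.natAbs ≤ N := Finset.le_sup (f := Int.natAbs) hi
    rw [hs, Finset.mem_map]
    refine ⟨(i + N).toNat, ?_, ?_⟩
    · rw [Finset.mem_range]
      omega
    · show (((i + N).toNat : ℕ) : ℤ) - N = i
      omega
  have hg2 : g = ∑ i ∈ s, c i • fourier (T := (1 : ℝ)) i := by
    rw [← hc]
    exact Finsupp.sum_of_support_subset c hsub _ (fun i _ => zero_smul _ _)
  have hgnorm : ‖g‖ ≤ 1 + ε := by
    have h2 : ‖g‖ ≤ ‖apx_F r h0 h1‖ + ‖g - apx_F r h0 h1‖ := by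
      have := norm_add_le (apx_F r h0 h1) (g - apx_F r h0 h1)
      rwa [add_sub_cancel] at this
    have h3 : ‖g - apx_F r h0 h1‖ < ε := by
      rw [← dist_eq_norm, dist_comm]
      exact hdist
    have h4 := apx_F_norm r h0 h1
    linarith
  refine ⟨N, 2 * N + 1, fun j => c ((j : ℤ) - N), ?_, ?_⟩
  · -- Bessel
    set L := ContinuousMap.toLp (E := ℂ) 2 (AddCircle.haarAddCircle (T := (1 : ℝ))) ℂ with hL
    have h2 : L g = ∑ i ∈ s, c i • fourierLp 2 i := by
      rw [hg2, map_sum]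
      refine Finset.sum_congr rfl fun i _ => ?_
      rw [map_smul]
    have h3 : ∑ i ∈ s, ‖c i‖ ^ 2 ≤ ‖L g‖ ^ 2 := by
      have h4 := (orthonormal_fourier (T := (1 : ℝ))).sum_inner_products_le (s := s) (L g)
      refine le_trans (le_of_eq ?_) h4
      refine Finset.sum_congr rfl fun i hi => ?_
      rw [h2, (orthonormal_fourier (T := (1 : ℝ))).inner_right_sum _ hi]
    have h5 : ‖L g‖ ≤ ‖g‖ := by
      have h6 : ‖L‖ ≤ 1 := by
        have h7 := ContinuousMap.toLp_norm_le (E := ℂ) (p := 2)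
          (μ := AddCircle.haarAddCircle (T := (1 : ℝ))) (𝕜 := ℂ)
        refine h7.trans (le_of_eq ?_)
        simp [measureUnivNNReal, measure_univ]
      calc ‖L g‖ ≤ ‖L‖ * ‖g‖ := L.le_opNorm g
        _ ≤ 1 * ‖g‖ := mul_le_mul_of_nonneg_right h6 (norm_nonneg _)
        _ = ‖g‖ := one_mul _
    have h8 : ∑ j ∈ Finset.range (2 * N + 1), ‖c ((j : ℤ) - N)‖ ^ 2 = ∑ i ∈ s, ‖c i‖ ^ 2 := by
      rw [hs, Finset.sum_map]
      rfl
    rw [h8]
    refine h3.trans ?_
    exact pow_le_pow_left₀ (norm_nonneg _) (h5.trans hgnorm) 2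
  · intro w hw
    have hw0 : w ≠ 0 := by
      intro h
      rw [h, norm_zero] at hw
      exact zero_ne_one hw
    set x : AddCircle (1 : ℝ) := ((Complex.arg w / (2 * Real.pi) : ℝ) : AddCircle (1 : ℝ)) with hx
    have hfour : ∀ n : ℤ, (fourier n x : ℂ) = w ^ n := by
      intro n
      rw [hx, fourier_coe_apply]
      have h2 : w = cexp (Complex.arg w * I) := by
        have := Complex.norm_mul_exp_arg_mul_I w
        rw [hw, Complex.ofReal_one, one_mul] at this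
        exact this.symm
      conv_rhs => rw [h2]
      rw [← Complex.exp_int_mul]
      congr 1
      have hpi : (Real.pi : ℂ) ≠ 0 := by exact_mod_cast Real.pi_ne_zero
      push_cast
      field_simp
    have hF : apx_F r h0 h1 x = starRingEnd ℂ (1 - r * w) / ‖1 - r * w‖ := by
      show starRingEnd ℂ (1 - r * fourier 1 x) / (‖1 - r * fourier 1 x‖ : ℂ) = _
      rw [hfour 1, zpow_one]
    have hG : g x = starRingEnd ℂ w ^ N * ∑ j ∈ Finset.range (2 * N + 1), c ((j : ℤ) - N) * w ^ j := by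
      have h2 : g x = ∑ i ∈ s, c i * w ^ i := by
        rw [hg2, ContinuousMap.sum_apply]
        refine Finset.sum_congr rfl fun i _ => ?_
        rw [ContinuousMap.smul_apply, hfour i, smul_eq_mul]
      have hconj : starRingEnd ℂ w = w⁻¹ := by
        rw [Complex.inv_def, Complex.normSq_eq_norm_sq, hw]
        simp
      rw [h2, hs, Finset.sum_map, Finset.mul_sum, hconj]
      refine Finset.sum_congr rfl fun j _ => ?_
      show c ((j : ℤ) - N) * w ^ ((j : ℤ) - N) = w⁻¹ ^ N * (c ((j : ℤ) - N) * w ^ j)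
      rw [zpow_sub₀ hw0, zpow_natCast, zpow_natCast, inv_pow, div_eq_mul_inv]
      ring
    rw [← hF, ← hG]
    have h3 : ‖(g - apx_F r h0 h1) x‖ ≤ ‖g - apx_F r h0 h1‖ := ContinuousMap.norm_coe_le_norm _ x
    have h4 : ‖g - apx_F r h0 h1‖ < ε := by
      rw [← dist_eq_norm, dist_comm]
      exact hdist
    rw [ContinuousMap.sub_apply] at h3
    linarith


variable {K : Type} [Field K] [NumberField K]

theorem apx_norm_le (r : ℝ) (w : ℂ) :
    ‖starRingEnd ℂ (1 - r * w) / (‖1 - r * w‖ : ℂ)‖ ≤ 1 := by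
  rw [norm_div, RCLike.norm_conj, Complex.norm_real, norm_norm]
  exact div_self_le_one _

theorem apx_inj {p n n' : Ideal (𝓞 K)} (hp : Prime p) (hn : ¬ p ∣ n) (hn' : ¬ p ∣ n') {j j' : ℕ}
    (h : n * p ^ j = n' * p ^ j') : n = n' ∧ j = j' := by
  wlog hjj : j ≤ j' generalizing n n' j j'
  · have := this hn' hn h.symm (le_of_not_ge hjj)
    exact ⟨this.1.symm, this.2.symm⟩
  obtain ⟨d, rfl⟩ := Nat.exists_eq_add_of_le hjj
  have h1 : n * p ^ j = (n' * p ^ d) * p ^ j := by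
    rw [h, pow_add]; ring
  have h2 : n = n' * p ^ d := mul_right_cancel₀ (pow_ne_zero _ hp.ne_zero) h1
  rcases Nat.eq_zero_or_pos d with rfl | hd
  · exact ⟨by simpa using h2, rfl⟩
  · exfalso
    apply hn
    rw [h2]
    exact Dvd.dvd.mul_left (dvd_pow_self p hd.ne') n'

theorem apx_all (S : Finset (Ideal (𝓞 K))) (hS : ∀ p ∈ S, Prime p) (r : Ideal (𝓞 K) → ℝ)
    (hr : ∀ p ∈ S, 0 ≤ r p ∧ r p < 1) (ε : ℝ) (hε : 0 < ε) :
    ∃ (B : Ideal (𝓞 K)) (ι : Finset (Ideal (𝓞 K))) (c : Ideal (𝓞 K) → ℂ), B ≠ 0 ∧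
      (∀ n ∈ ι, n ≠ 0 ∧ ∀ q : Ideal (𝓞 K), Prime q → q ∣ n → q ∈ S) ∧
      ∑ n ∈ ι, ‖c n‖ ^ 2 ≤ (1 + ε) ^ 2 ∧
      ∀ x : Ideal (𝓞 K) →* ℂ, (∀ p ∈ S, ‖x p‖ = 1) →
        ‖starRingEnd ℂ (x B) * ∑ n ∈ ι, c n * x n -
          ∏ p ∈ S, (starRingEnd ℂ (1 - r p * x p) / (‖1 - r p * x p‖ : ℂ))‖ ≤ ε := by
  classical
  induction S using Finset.induction_on generalizing ε with
  | empty =>
    refine ⟨1, {1}, fun _ => 1, one_ne_zero, ?_, ?_, ?_⟩
    · intro n hn
      rw [Finset.mem_singleton] at hn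
      subst hn
      exact ⟨one_ne_zero, fun q hq hq1 => absurd (isUnit_of_dvd_one hq1) hq.not_isUnit⟩
    · have : (1 : ℝ) ≤ (1 + ε) ^ 2 := by nlinarith
      simpa using this
    · intro x _
      rw [Finset.sum_singleton, Finset.prod_empty, map_one]
      simp only [map_one, one_mul, sub_self, norm_zero]
      exact hε.le
  | insert p S hpS ih =>
    set ε' : ℝ := min ε 1 / 4 with hε'
    have hm : 0 < min ε 1 := lt_min hε one_pos
    have hε'0 : 0 < ε' := by positivity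
    have hle1 : ε' ≤ 1 / 4 := by
      have := min_le_right ε 1
      simp only [hε']; linarith
    have hle2 : ε' ≤ ε / 4 := by
      have := min_le_left ε 1
      simp only [hε']; linarith
    obtain ⟨B', ι', c', hB'0, hι', hc', hx'⟩ := ih
      (fun q hq => hS q (Finset.mem_insert_of_mem hq))
      (fun q hq => hr q (Finset.mem_insert_of_mem hq)) ε' hε'0
    have hp : Prime p := hS p (Finset.mem_insert_self _ _)
    obtain ⟨hr0, hr1⟩ := hr p (Finset.mem_insert_self _ _)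
    obtain ⟨N, M, d, hd, hw⟩ := apx_one (r p) hr0 hr1 ε' hε'0
    have hpι : ∀ n ∈ ι', ¬ p ∣ n := fun n hn hpn => hpS ((hι' n hn).2 p hp hpn)
    set g : Ideal (𝓞 K) × ℕ → Ideal (𝓞 K) := fun z => z.1 * p ^ z.2 with hg
    have hinj : Set.InjOn g (ι' ×ˢ Finset.range M : Finset (Ideal (𝓞 K) × ℕ)) := by
      rintro ⟨n, j⟩ hnj ⟨n', j'⟩ hnj' heq
      simp only [Finset.coe_product, Set.mem_prod, Finset.mem_coe] at hnj hnj'
      simp only [hg] at heq
      obtain ⟨h3, h4⟩ := apx_inj hp (hpι n hnj.1) (hpι n' hnj'.1) heq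
      rw [h3, h4]
    set inv : Ideal (𝓞 K) → Ideal (𝓞 K) × ℕ :=
      Function.invFunOn g (ι' ×ˢ Finset.range M : Finset (Ideal (𝓞 K) × ℕ)) with hinv
    have hinv2 : ∀ z ∈ (ι' ×ˢ Finset.range M : Finset (Ideal (𝓞 K) × ℕ)), inv (g z) = z := by
      intro z hz
      exact hinj.leftInvOn_invFunOn (Finset.mem_coe.mpr hz)
    set c : Ideal (𝓞 K) → ℂ := fun m => c' (inv m).1 * d (inv m).2 with hc
    have hcg : ∀ n ∈ ι', ∀ j ∈ Finset.range M, c (n * p ^ j) = c' n * d j := by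
      intro n hn j hj
      have h1 := hinv2 (n, j) (Finset.mem_product.mpr ⟨hn, hj⟩)
      simp only [hg] at h1
      simp only [hc]
      rw [h1]
    refine ⟨B' * p ^ N, (ι' ×ˢ Finset.range M).image g, c, ?_, ?_, ?_, ?_⟩
    · exact mul_ne_zero hB'0 (pow_ne_zero _ hp.ne_zero)
    · intro m hm
      obtain ⟨⟨n, j⟩, hnj, rfl⟩ := Finset.mem_image.1 hm
      rw [Finset.mem_product] at hnj
      have hn := hι' n hnj.1
      refine ⟨mul_ne_zero hn.1 (pow_ne_zero _ hp.ne_zero), ?_⟩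
      intro q hq hqd
      simp only [hg] at hqd
      rcases hq.dvd_or_dvd hqd with h1 | h1
      · exact Finset.mem_insert_of_mem (hn.2 q hq h1)
      · have h2 : q ∣ p := hq.dvd_of_dvd_pow h1
        have h3 : q = p := associated_iff_eq.mp ((Prime.associated_of_dvd hq hp) h2)
        rw [h3]
        exact Finset.mem_insert_self _ _
    · rw [Finset.sum_image hinj, Finset.sum_product]
      have h1 : ∑ n ∈ ι', ∑ j ∈ Finset.range M, ‖c (g (n, j))‖ ^ 2 =
          (∑ n ∈ ι', ‖c' n‖ ^ 2) * ∑ j ∈ Finset.range M, ‖d j‖ ^ 2 := by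
        rw [Finset.sum_mul_sum]
        refine Finset.sum_congr rfl fun n hn => Finset.sum_congr rfl fun j hj => ?_
        simp only [hg]
        rw [hcg n hn j hj, norm_mul, mul_pow]
      rw [h1]
      have h2 : (∑ n ∈ ι', ‖c' n‖ ^ 2) * ∑ j ∈ Finset.range M, ‖d j‖ ^ 2 ≤
          (1 + ε') ^ 2 * (1 + ε') ^ 2 :=
        mul_le_mul hc' hd (Finset.sum_nonneg fun _ _ => by positivity) (by positivity)
      refine h2.trans ?_
      have h3 : (1 + ε') ^ 2 ≤ 1 + ε := by nlinarith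
      have h4 : 0 ≤ (1 + ε') ^ 2 := by positivity
      calc (1 + ε') ^ 2 * (1 + ε') ^ 2 ≤ (1 + ε) * (1 + ε) :=
            mul_le_mul h3 h3 h4 (by positivity)
        _ = (1 + ε) ^ 2 := by ring
    · intro x hx
      have hxp : ‖x p‖ = 1 := hx p (Finset.mem_insert_self _ _)
      have hA := hx' x (fun q hq => hx q (Finset.mem_insert_of_mem hq))
      have hBb := hw (x p) hxp
      set A : ℂ := starRingEnd ℂ (x B') * ∑ n ∈ ι', c' n * x n with hAdef
      set A' : ℂ := ∏ q ∈ S, (starRingEnd ℂ (1 - r q * x q) / (‖1 - r q * x q‖ : ℂ)) with hA'def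
      set D : ℂ := starRingEnd ℂ (x p) ^ N * ∑ j ∈ Finset.range M, d j * x p ^ j with hDdef
      set D' : ℂ := starRingEnd ℂ (1 - r p * x p) / (‖1 - r p * x p‖ : ℂ) with hD'def
      have hprod : starRingEnd ℂ (x (B' * p ^ N)) *
          ∑ n ∈ (ι' ×ˢ Finset.range M).image g, c n * x n = A * D := by
        rw [Finset.sum_image hinj, Finset.sum_product]
        have h1 : ∑ n ∈ ι', ∑ j ∈ Finset.range M, c (g (n, j)) * x (g (n, j)) =
            (∑ n ∈ ι', c' n * x n) * ∑ j ∈ Finset.range M, d j * x p ^ j := by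
          rw [Finset.sum_mul_sum]
          refine Finset.sum_congr rfl fun n hn => Finset.sum_congr rfl fun j hj => ?_
          simp only [hg]
          rw [hcg n hn j hj, map_mul, map_pow]
          ring
        rw [h1, map_mul, map_pow, map_mul, map_pow, hAdef, hDdef]
        ring
      rw [hprod, Finset.prod_insert hpS]
      have hD'1 : ‖D'‖ ≤ 1 := apx_norm_le _ _
      have hA'1 : ‖A'‖ ≤ 1 := by
        rw [hA'def, norm_prod]
        exact Finset.prod_le_one (fun _ _ => norm_nonneg _) (fun q _ => apx_norm_le _ _)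
      have hA1 : ‖A‖ ≤ 1 + ε' := by
        calc ‖A‖ = ‖A' + (A - A')‖ := by rw [add_sub_cancel]
          _ ≤ ‖A'‖ + ‖A - A'‖ := norm_add_le _ _
          _ ≤ 1 + ε' := add_le_add hA'1 hA
      calc ‖A * D - D' * A'‖ = ‖A * (D - D') + (A - A') * D'‖ := by
            rw [show A * D - D' * A' = A * (D - D') + (A - A') * D' by ring]
        _ ≤ ‖A * (D - D')‖ + ‖(A - A') * D'‖ := norm_add_le _ _
        _ = ‖A‖ * ‖D - D'‖ + ‖A - A'‖ * ‖D'‖ := by
            rw [norm_mul A (D - D'), norm_mul (A - A') D']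
        _ ≤ (1 + ε') * ε' + ε' * 1 := by
            refine add_le_add (mul_le_mul hA1 hBb (norm_nonneg _) (by positivity)) ?_
            exact mul_le_mul hA hD'1 (norm_nonneg _) hε'0.le
        _ ≤ ε := by nlinarith

theorem approxI (S : Finset (Ideal (𝓞 K))) (hS : ∀ 𝔭 ∈ S, 𝔭.IsPrime ∧ 𝔭 ≠ ⊥) :
    ∃ (B : Ideal (𝓞 K)) (ι : Finset (Ideal (𝓞 K))) (c : Ideal (𝓞 K) → ℂ), B ≠ ⊥ ∧
      (∀ n ∈ ι, n ≠ ⊥ ∧ ∀ 𝔭 : Ideal (𝓞 K), 𝔭.IsPrime → 𝔭 ∣ n → 𝔭 ∈ S) ∧
      ∑ n ∈ ι, ‖c n‖ ^ 2 ≤ 9 / 4 ∧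
      ∀ x : Ideal (𝓞 K) →* ℂ, (∀ 𝔭 ∈ S, ‖x 𝔭‖ = 1) →
        ‖starRingEnd ℂ (x B) * ∑ n ∈ ι, c n * x n -
          ∏ 𝔭 ∈ S, (starRingEnd ℂ (1 - (((√(Ideal.absNorm 𝔭 : ℝ))⁻¹ : ℝ) : ℂ) * x 𝔭) /
            (‖1 - (((√(Ideal.absNorm 𝔭 : ℝ))⁻¹ : ℝ) : ℂ) * x 𝔭‖ : ℂ))‖ ≤ 1 / 2 := by
  have hSp : ∀ p ∈ S, Prime p := fun p hp => Ideal.prime_of_isPrime (hS p hp).2 (hS p hp).1
  obtain ⟨B, ι, c, h1, h2, h3, h4⟩ := apx_all S hSp
    (fun p => (√(Ideal.absNorm p : ℝ))⁻¹) (by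
      intro p hp
      refine ⟨by positivity, ?_⟩
      have h0 : Ideal.absNorm p ≠ 0 := by
        rw [Ne, Ideal.absNorm_eq_zero_iff]; exact (hS p hp).2
      have h1 : Ideal.absNorm p ≠ 1 := by
        rw [Ne, Ideal.absNorm_eq_one_iff]; exact (hS p hp).1.ne_top
      have h2 : (1 : ℝ) < (Ideal.absNorm p : ℝ) := by
        have : 1 < Ideal.absNorm p := by omega
        exact_mod_cast this
      have h3 : 1 < √(Ideal.absNorm p : ℝ) := by
        rw [show (1 : ℝ) = √1 by simp]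
        exact Real.sqrt_lt_sqrt (by norm_num) h2
      exact inv_lt_one_of_one_lt₀ h3) (1 / 2) (by norm_num)
  refine ⟨B, ι, c, h1, ?_, ?_, h4⟩
  · intro n hn
    refine ⟨(h2 n hn).1, fun p hp hpn => ?_⟩
    refine (h2 n hn).2 p (Ideal.prime_of_isPrime ?_ hp) hpn
    rintro rfl
    exact (h2 n hn).1 (zero_dvd_iff.mp hpn)
  · norm_num at h3 ⊢
    exact h3

end Pool.Agent.HZ
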