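import Pool.Agent.Lib_helper41.HZF.Fin1

namespace Pool.Agent.HZ

open NumberField NumberField.InfinitePlace NumberField.Units Complex MeasureTheory Filter Topology

variable {K : Type} [Field K] [NumberField K]

/-- the weights -/
structure Wt (a b : ℝ) where
  w : ℝ → ℝ
  hwc : Continuous w
  hcs : HasCompactSupport w
  hw0 : ∀ t, 0 ≤ w t
  hws : ∀ t, t ∉ Set.Ioo a b → w t = 0
  hint : Integrable (hatw w)

theorem flip (w : ℝ → ℝ) (hw : Continuous w) (hc : HasCompactSupport w) (f : ℝ → ℂ)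
    (hf : Integrable f) :
    ∫ t : ℝ, (w t : ℂ) * (∫ u : ℝ, f u * cexp (t * u * I)) = ∫ u : ℝ, f u * hatw w u := by
  have hwi : Integrable (fun t => (w t : ℂ)) :=
    (hw.integrable_of_hasCompactSupport hc).ofReal
  have hprod : Integrable (fun z : ℝ × ℝ => (w z.1 : ℂ) * f z.2) (volume.prod volume) :=
    hwi.mul_prod hf
  have hcont : Continuous (fun z : ℝ × ℝ => cexp ((z.1 : ℂ) * (z.2 : ℂ) * I)) := by
    fun_prop
  have hint : Integrable (Function.uncurry fun (t u : ℝ) => (w t : ℂ) * (f u * cexp (t * u * I)))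
      (volume.prod volume) := by
    refine hprod.mono ?_ ?_
    · have h1 := hprod.1.mul hcont.aestronglyMeasurable
      refine h1.congr (ae_of_all _ ?_)
      intro z
      simp only [Pi.mul_apply, Function.uncurry]
      ring
    · refine ae_of_all _ ?_
      intro z
      have h2 : ‖cexp ((z.1 : ℂ) * (z.2 : ℂ) * I)‖ = 1 := by
        rw [← ofReal_mul]
        exact norm_exp_ofReal_mul_I _
      simp only [Function.uncurry, norm_mul, h2, mul_one]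
      exact le_rfl
  calc ∫ t : ℝ, (w t : ℂ) * (∫ u : ℝ, f u * cexp (t * u * I))
      = ∫ t : ℝ, ∫ u : ℝ, (w t : ℂ) * (f u * cexp (t * u * I)) := by
        congr 1
        ext t
        rw [integral_const_mul]
    _ = ∫ u : ℝ, ∫ t : ℝ, (w t : ℂ) * (f u * cexp (t * u * I)) :=
        integral_integral_swap hint
    _ = ∫ u : ℝ, f u * hatw w u := by
        congr 1
        ext u
        rw [hatw, ← integral_const_mul]
        congr 1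
        ext t
        ring

open scoped Classical in
/-- indicator of the nonzero ideals `≠ ⊤` coprime to `S`. -/
noncomputable def rg (S : Finset (Ideal (𝓞 K))) (𝔠 : Ideal (𝓞 K)) : ℂ :=
  if 𝔠 = ⊤ then 0 else cop S 𝔠

theorem rg_norm_le (S : Finset (Ideal (𝓞 K))) (𝔠 : Ideal (𝓞 K)) : ‖rg S 𝔠‖ ≤ 1 := by
  unfold rg
  split_ifs
  · simp
  · exact cop_norm_le S 𝔠

theorem rg_bot (S : Finset (Ideal (𝓞 K))) : rg S (⊥ : Ideal (𝓞 K)) = 0 := by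
  unfold rg
  split_ifs
  · rfl
  · exact cop_bot S

theorem rg_mul_norm_le {ψ : Ideal (𝓞 K) →* ℂ} (hψ : ∀ 𝔞, ‖ψ 𝔞‖ ≤ 1)
    (S : Finset (Ideal (𝓞 K))) (𝔠 : Ideal (𝓞 K)) : ‖rg S 𝔠 * ψ 𝔠‖ ≤ 1 := by
  rw [norm_mul]
  exact mul_le_one₀ (rg_norm_le S 𝔠) (norm_nonneg _) (hψ 𝔠)

theorem rg_mul_bot (ψ : Ideal (𝓞 K) →* ℂ) (S : Finset (Ideal (𝓞 K))) :
    rg S (⊥ : Ideal (𝓞 K)) * ψ ⊥ = 0 := by
  rw [rg_bot, zero_mul]

theorem cop_top {S : Finset (Ideal (𝓞 K))} (hS : ∀ 𝔭 ∈ S, 𝔭.IsPrime ∧ 𝔭 ≠ ⊥) :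
    cop S (⊤ : Ideal (𝓞 K)) = 1 := by
  unfold cop
  rw [if_pos]
  refine ⟨top_ne_bot, fun 𝔭 h𝔭 hd => ?_⟩
  have h1 := Ideal.le_of_dvd hd
  exact (hS 𝔭 h𝔭).1.ne_top (top_le_iff.1 h1)

theorem Dser_rough {F : (InfinitePlace K → ℝ) → ℂ} {C c : ℝ} (hF : GoodF F C c)
    {ψ : Ideal (𝓞 K) →* ℂ} (hψ : ∀ 𝔞, ‖ψ 𝔞‖ ≤ 1) {S : Finset (Ideal (𝓞 K))}
    (hS : ∀ 𝔭 ∈ S, 𝔭.IsPrime ∧ 𝔭 ≠ ⊥) (u : ℝ) :
    Dser (fun 𝔠 => cop S 𝔠 * ψ 𝔠) F u = (Real.exp (u / 2) : ℂ) * kint K F u +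
      Dser (fun 𝔠 => rg S 𝔠 * ψ 𝔠) F u := by
  classical
  have h1 := Dser_summable (b := fun 𝔠 => cop S 𝔠 * ψ 𝔠) hF (fun 𝔠 => cop_mul_norm_le hψ S 𝔠)
    (cop_mul_bot ψ S) u
  unfold Dser
  rw [h1.tsum_eq_add_tsum_ite (⊤ : Ideal (𝓞 K)), mul_add]
  congr 1
  · rw [cop_top hS, one_mul]
    have : ψ ⊤ = 1 := by rw [← Ideal.one_eq_top, map_one]
    rw [this, one_mul]
    simp
  · congr 1
    refine tsum_congr fun 𝔠 => ?_
    by_cases h : 𝔠 = ⊤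
    · simp [rg, h]
    · simp [rg, h]

variable {𝔮 : Ideal (𝓞 K)} {κ : InfinitePlace K → ℤ} {lam : InfinitePlace K → ℝ}
  {χ : MulChar (𝓞 K ⧸ 𝔮) ℂ} {ψ : Ideal (𝓞 K) →* ℂ}

/-- the completely multiplicative function `𝔞 ↦ ψ(𝔞) N𝔞^{-it}` -/
noncomputable def xt (ψ : Ideal (𝓞 K) →* ℂ) (h0 : ψ ⊥ = 0) (t : ℝ) : Ideal (𝓞 K) →* ℂ where
  toFun 𝔞 := ψ 𝔞 * cexp (-(t * Real.log (Ideal.absNorm 𝔞) * I))
  map_one' := by
    have h1 : ψ 1 = 1 := map_one ψ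
    rw [h1]
    simp
  map_mul' 𝔞 𝔟 := by
    by_cases ha : 𝔞 = ⊥
    · subst ha
      rw [Ideal.bot_mul, h0]
      ring
    by_cases hb : 𝔟 = ⊥
    · subst hb
      rw [Ideal.mul_bot, h0]
      ring
    have ha' : (Ideal.absNorm 𝔞 : ℝ) ≠ 0 := by
      exact_mod_cast (fun h => ha (Ideal.absNorm_eq_zero_iff.1 h))
    have hb' : (Ideal.absNorm 𝔟 : ℝ) ≠ 0 := by
      exact_mod_cast (fun h => hb (Ideal.absNorm_eq_zero_iff.1 h))
    rw [map_mul, map_mul, Nat.cast_mul, Real.log_mul ha' hb']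
    have : cexp (-(t * ((Real.log (Ideal.absNorm 𝔞) + Real.log (Ideal.absNorm 𝔟) : ℝ) : ℂ) * I)) =
        cexp (-(t * Real.log (Ideal.absNorm 𝔞) * I)) *
          cexp (-(t * Real.log (Ideal.absNorm 𝔟) * I)) := by
      rw [← Complex.exp_add]
      congr 1
      push_cast
      ring
    rw [this]
    ring

theorem xt_apply (ψ : Ideal (𝓞 K) →* ℂ) (h0 : ψ ⊥ = 0) (t : ℝ) (𝔞 : Ideal (𝓞 K)) :
    xt ψ h0 t 𝔞 = ψ 𝔞 * cexp (-(t * Real.log (Ideal.absNorm 𝔞) * I)) := rfl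

theorem norm_cexp_it (t x : ℝ) : ‖cexp (-(t * x * I))‖ = 1 := by
  rw [show -((t : ℂ) * x * I) = ((-(t * x) : ℝ) : ℂ) * I by push_cast; ring,
    Complex.norm_exp_ofReal_mul_I]

theorem HD.bad_ineq (h : HD 𝔮 κ lam χ ψ) {S : Finset (Ideal (𝓞 K))}
    (hS : ∀ 𝔭 ∈ S, 𝔭.IsPrime ∧ 𝔭 ≠ ⊥) {a b : ℝ}
    (hz : ∀ t ∈ Set.Ioo a b, ¬ Odd (analyticOrderNatAt (LamD κ lam ψ) (1 / 2 + t * I)))
    (W : Wt a b) {S' : Finset (Ideal (𝓞 K))} (hS' : ∀ 𝔭, 𝔭 ∈ S' ↔ 𝔭 ∈ S ∧ IsCoprime 𝔭 𝔮)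
    {B : Ideal (𝓞 K)} {ι : Finset (Ideal (𝓞 K))} (hι : ∀ n ∈ ι, n ≠ ⊥) {cf : Ideal (𝓞 K) → ℂ}
    (happ : ∀ x : Ideal (𝓞 K) →* ℂ, (∀ 𝔭 ∈ S', ‖x 𝔭‖ = 1) →
        ‖starRingEnd ℂ (x B) * ∑ n ∈ ι, cf n * x n -
          ∏ 𝔭 ∈ S', (starRingEnd ℂ (1 - (((√(Ideal.absNorm 𝔭 : ℝ))⁻¹ : ℝ) : ℂ) * x 𝔭) /
            (‖1 - (((√(Ideal.absNorm 𝔭 : ℝ))⁻¹ : ℝ) : ℂ) * x 𝔭‖ : ℂ))‖ ≤ 1 / 2) :
    ‖∫ u : ℝ, ((Real.exp (u / 2) : ℂ) * kint K (Gf κ lam) u) * hatw W.w u‖ ≤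
      2 * ‖∫ u : ℝ, Dser (fun 𝔠 => bm S ι cf 𝔠 * ψ 𝔠) (Gf κ lam)
        (u - Real.log (Ideal.absNorm B) - Real.log (cond 𝔮) / 2) * hatw W.w u‖ +
      ‖∫ u : ℝ, Dser (fun 𝔠 => rg S 𝔠 * ψ 𝔠) (Gf κ lam) u * hatw W.w u‖ := by
  classical
  obtain ⟨C₁, hG⟩ := h.good
  have h0 := h.psi_bot
  have hψ1 : ∀ 𝔞, ‖ψ 𝔞‖ ≤ 1 := fun 𝔞 => h.hecke.norm_le 𝔞
  obtain ⟨hint, hrep⟩ := h.rep S hS
  obtain ⟨Ω, hΩ, hfe⟩ := h.line_fe
  obtain ⟨θ, hθ, hph⟩ := phase_odd h.differentiable hΩ hfe hz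
  set D := Dser (fun 𝔠 => cop S 𝔠 * ψ 𝔠) (Gf κ lam) with hD
  set ℓ := Real.log (cond 𝔮) with hℓ
  set M : ℝ → ℂ := fun t => ∏ 𝔭 ∈ S, (1 - (((√(Ideal.absNorm 𝔭 : ℝ))⁻¹ : ℝ) : ℂ) *
        (ψ 𝔭 * cexp (-(t * Real.log (Ideal.absNorm 𝔭) * I)))) with hM
  have happ' : ∀ t : ℝ, ‖∑ n ∈ ι, (starRingEnd ℂ (ψ B) * (cf n * ψ n)) *
      cexp (-(t * ((Real.log (Ideal.absNorm n) - Real.log (Ideal.absNorm B) : ℝ) : ℂ) * I)) -
      starRingEnd ℂ (M t) / (‖M t‖ : ℂ)‖ ≤ 1 / 2 := by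
    intro t
    have h1 := happ (xt ψ h0 t) (fun 𝔭 h𝔭 => by
      rw [xt_apply, norm_mul, norm_cexp_it, mul_one]
      exact h.hecke.norm_eq_one 𝔭 ((hS' 𝔭).1 h𝔭).2)
    have e1 : ∑ n ∈ ι, (starRingEnd ℂ (ψ B) * (cf n * ψ n)) *
        cexp (-(t * ((Real.log (Ideal.absNorm n) - Real.log (Ideal.absNorm B) : ℝ) : ℂ) * I)) =
        starRingEnd ℂ (xt ψ h0 t B) * ∑ n ∈ ι, cf n * xt ψ h0 t n := by
      rw [Finset.mul_sum]
      refine Finset.sum_congr rfl fun n _ => ?_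
      rw [xt_apply, xt_apply, map_mul, ← Complex.exp_conj]
      have : cexp (-(t * ((Real.log (Ideal.absNorm n) - Real.log (Ideal.absNorm B) : ℝ) : ℂ) * I)) =
          cexp (starRingEnd ℂ (-(t * Real.log (Ideal.absNorm B) * I))) *
            cexp (-(t * Real.log (Ideal.absNorm n) * I)) := by
        rw [← Complex.exp_add]
        congr 1
        rw [map_neg, map_mul, map_mul, Complex.conj_ofReal, Complex.conj_ofReal, Complex.conj_I]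
        push_cast
        ring
      rw [this]
      ring
    have e2 : M t = ∏ 𝔭 ∈ S', (1 - (((√(Ideal.absNorm 𝔭 : ℝ))⁻¹ : ℝ) : ℂ) * xt ψ h0 t 𝔭) := by
      rw [hM]
      symm
      apply Finset.prod_subset_one_on_sdiff (fun 𝔭 h𝔭 => ((hS' 𝔭).1 h𝔭).1)
      · intro 𝔭 h𝔭
        rw [Finset.mem_sdiff] at h𝔭
        have h2 : ¬ IsCoprime 𝔭 𝔮 := fun hc => h𝔭.2 ((hS' 𝔭).2 ⟨h𝔭.1, hc⟩)
        rw [h.hecke.eq_zero 𝔭 h2]
        ring
      · intro 𝔭 _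
        rw [xt_apply]
    rw [e1, e2, map_prod, norm_prod, ofReal_prod, ← Finset.prod_div_distrib]
    exact h1
  have hkey := key_abs (ℓ₀ := ℓ / 2) hint hrep hθ hph W.hwc W.hcs W.hw0 W.hws ι
    (fun n => starRingEnd ℂ (ψ B) * (cf n * ψ n))
    (fun n => Real.log (Ideal.absNorm n) - Real.log (Ideal.absNorm B)) happ'
  have e3 : ∀ u : ℝ, ∑ n ∈ ι, (starRingEnd ℂ (ψ B) * (cf n * ψ n)) *
      D (u + (Real.log (Ideal.absNorm n) - Real.log (Ideal.absNorm B)) - ℓ / 2) =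
      starRingEnd ℂ (ψ B) * Dser (fun 𝔠 => bm S ι cf 𝔠 * ψ 𝔠) (Gf κ lam)
        (u - Real.log (Ideal.absNorm B) - ℓ / 2) := by
    intro u
    rw [← Dser_moll hG hψ1 S ι hι cf, Finset.mul_sum]
    refine Finset.sum_congr rfl fun n _ => ?_
    rw [show u + (Real.log (Ideal.absNorm n) - Real.log (Ideal.absNorm B)) - ℓ / 2 =
      u - Real.log (Ideal.absNorm B) - ℓ / 2 + Real.log (Ideal.absNorm n) by ring]
    ring
  have hkey2 : ‖∫ u : ℝ, D u * hatw W.w u‖ ≤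
      2 * ‖∫ u : ℝ, Dser (fun 𝔠 => bm S ι cf 𝔠 * ψ 𝔠) (Gf κ lam)
        (u - Real.log (Ideal.absNorm B) - ℓ / 2) * hatw W.w u‖ := by
    refine hkey.trans ?_
    simp_rw [e3, mul_assoc]
    rw [integral_const_mul, norm_mul, RCLike.norm_conj]
    have h5 := mul_le_of_le_one_left (norm_nonneg (∫ u : ℝ, Dser (fun 𝔠 => bm S ι cf 𝔠 * ψ 𝔠)
        (Gf κ lam) (u - Real.log (Ideal.absNorm B) - ℓ / 2) * hatw W.w u)) (hψ1 B)
    linarith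
  -- splitting
  obtain ⟨M', hM'⟩ : ∃ M', ∀ u, ‖hatw W.w u‖ ≤ M' := by
    refine ⟨∫ t, ‖(W.w t : ℂ)‖, fun u => ?_⟩
    refine (norm_integral_le_integral_norm _).trans (le_of_eq ?_)
    refine integral_congr_ae (Eventually.of_forall fun t => ?_)
    simp only [norm_mul]
    rw [show (t : ℂ) * u * I = ((t * u : ℝ) : ℂ) * I by push_cast; ring,
      Complex.norm_exp_ofReal_mul_I, mul_one]
  have hmeas : AEStronglyMeasurable (hatw W.w) volume := W.hint.1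
  have j2 : Integrable (fun u => D u * hatw W.w u) :=
    hint.mul_bdd (c := M') hmeas (Eventually.of_forall hM')
  have hcont2 : Continuous (Dser (fun 𝔠 => rg S 𝔠 * ψ 𝔠) (Gf κ lam)) :=
    Dser_continuous hG (fun 𝔠 => rg_mul_norm_le hψ1 S 𝔠) (rg_mul_bot ψ S)
  -- `D₁` is bounded
  have hD1 : ∀ u, ‖(Real.exp (u / 2) : ℂ) * kint K (Gf κ lam) u‖ ≤
      C₁ * ((kg_le (K := K) (c := Real.pi / 2) (by positivity) (A := 1 / 2) (by norm_num)).choose) := by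
    intro u
    obtain ⟨hc0, hc1⟩ := (kg_le (K := K) (c := Real.pi / 2) (by positivity)
      (A := 1 / 2) (by norm_num)).choose_spec
    set Ck := (kg_le (K := K) (c := Real.pi / 2) (by positivity) (A := 1 / 2) (by norm_num)).choose
    rw [norm_mul, Complex.norm_real, Real.norm_of_nonneg (Real.exp_pos _).le]
    have h2 := (kint_le hG u).trans (mul_le_mul_of_nonneg_left (hc1 u) hG.1)
    calc Real.exp (u / 2) * ‖kint K (Gf κ lam) u‖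
        ≤ Real.exp (u / 2) * (C₁ * (Ck * Real.exp (-(1 / 2 * u)))) := by gcongr
      _ = C₁ * Ck * (Real.exp (u / 2) * Real.exp (-(1 / 2 * u))) := by ring
      _ = C₁ * Ck := by
          rw [← Real.exp_add, show u / 2 + -(1 / 2 * u) = 0 by ring, Real.exp_zero, mul_one]
  have hc1 : Continuous (fun u : ℝ => (Real.exp (u / 2) : ℂ) * kint K (Gf κ lam) u) := by
    refine Continuous.mul ?_ (kint_continuous hG)
    exact Complex.continuous_ofReal.comp (Real.continuous_exp.comp (continuous_id.div_const 2))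
  have j1 : Integrable (fun u => ((Real.exp (u / 2) : ℂ) * kint K (Gf κ lam) u) * hatw W.w u) :=
    W.hint.bdd_mul hc1.aestronglyMeasurable (Eventually.of_forall hD1)
  have hsplit : ∫ u : ℝ, ((Real.exp (u / 2) : ℂ) * kint K (Gf κ lam) u) * hatw W.w u =
      (∫ u : ℝ, D u * hatw W.w u) -
        ∫ u : ℝ, Dser (fun 𝔠 => rg S 𝔠 * ψ 𝔠) (Gf κ lam) u * hatw W.w u := by
    have hfun : ∀ u, Dser (fun 𝔠 => rg S 𝔠 * ψ 𝔠) (Gf κ lam) u =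
        D u - (Real.exp (u / 2) : ℂ) * kint K (Gf κ lam) u := by
      intro u
      rw [hD, Dser_rough hG hψ1 hS u]
      ring
    have j3 : Integrable (fun u => Dser (fun 𝔠 => rg S 𝔠 * ψ 𝔠) (Gf κ lam) u * hatw W.w u) := by
      have : (fun u => Dser (fun 𝔠 => rg S 𝔠 * ψ 𝔠) (Gf κ lam) u * hatw W.w u) =
          fun u => D u * hatw W.w u -
            ((Real.exp (u / 2) : ℂ) * kint K (Gf κ lam) u) * hatw W.w u := by
        funext u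
        rw [hfun u]
        ring
      rw [this]
      exact j2.sub j1
    rw [← integral_sub j2 j3]
    congr 1
    funext u
    rw [hfun u]
    ring
  rw [hsplit]
  exact (norm_sub_le _ _).trans (add_le_add hkey2 le_rfl)

end Pool.Agent.HZ
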