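import Pool.Agent.Lib_helper41.HZF.Fin2

namespace Pool.Agent.HZ

open NumberField NumberField.InfinitePlace NumberField.Units Complex MeasureTheory Filter Topology

variable {K : Type} [Field K] [NumberField K]

theorem tiny_tendsto {c p : ℝ} (hc : 0 < c) (hp : 0 < p) :
    Tendsto (fun X : ℝ => (1 + X) * Real.exp (-c * X ^ p)) atTop (𝓝 0) := by
  have h1 := tendsto_rpow_mul_exp_neg_mul_atTop_nhds_zero 0 c hc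
  have h2 := tendsto_rpow_mul_exp_neg_mul_atTop_nhds_zero (1 / p) c hc
  have h3 := (h1.add h2).comp (tendsto_rpow_atTop hp)
  rw [add_zero] at h3
  refine h3.congr' ?_
  filter_upwards [eventually_gt_atTop 0] with X hX
  simp only [Function.comp]
  rw [Real.rpow_zero, ← Real.rpow_mul hX.le, mul_one_div_cancel hp.ne', Real.rpow_one]
  ring

theorem tiny_bdd {c p : ℝ} (hc : 0 < c) (hp : 0 < p) :
    ∃ M : ℝ, 0 ≤ M ∧ ∀ X : ℝ, 0 ≤ X → (1 + X) * Real.exp (-c * X ^ p) ≤ M := by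
  obtain ⟨X₀, hX₀⟩ := eventually_atTop.1 ((tiny_tendsto hc hp).eventually (gt_mem_nhds one_pos))
  set Y := max X₀ 0 with hY
  refine ⟨1 + Y + 1, by positivity, fun X hX => ?_⟩
  rcases le_total X Y with h | h
  · have h1 : Real.exp (-c * X ^ p) ≤ 1 := by
      rw [Real.exp_le_one_iff]
      have := Real.rpow_nonneg hX p
      nlinarith
    have h2 := Real.exp_pos (-c * X ^ p)
    calc (1 + X) * Real.exp (-c * X ^ p) ≤ (1 + X) * 1 := by gcongr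
      _ ≤ 1 + Y + 1 := by linarith
  · have := hX₀ X ((le_max_left _ _).trans h)
    have h3 : (0 : ℝ) ≤ Y := le_max_right _ _
    linarith

theorem cop_sq (S : Finset (Ideal (𝓞 K))) (𝔠 : Ideal (𝓞 K)) : ‖cop S 𝔠‖ ^ 2 = ‖cop S 𝔠‖ := by
  unfold cop
  split_ifs <;> simp

theorem expsq (v : ℝ) : Real.exp v * (1 + Real.exp (-v)) ^ 2 = Real.exp v + 2 + Real.exp (-v) := by
  have : Real.exp v * Real.exp (-v) = 1 := by rw [← Real.exp_add]; simp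
  calc Real.exp v * (1 + Real.exp (-v)) ^ 2
      = Real.exp v + 2 * (Real.exp v * Real.exp (-v)) +
        (Real.exp v * Real.exp (-v)) * Real.exp (-v) := by ring
    _ = _ := by rw [this]; ring

theorem one_le_absNorm {𝔮 : Ideal (𝓞 K)} (h : 𝔮 ≠ ⊥) : (1 : ℝ) ≤ Ideal.absNorm 𝔮 := by
  have : Ideal.absNorm 𝔮 ≠ 0 := fun h0 => h (Ideal.absNorm_eq_zero_iff.1 h0)
  exact_mod_cast Nat.one_le_iff_ne_zero.2 this

theorem one_le_discr : (1 : ℝ) ≤ |(discr K : ℝ)| := by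
  have h := discr_ne_zero K
  have h2 : (1 : ℤ) ≤ |discr K| := Int.one_le_abs h
  exact_mod_cast h2

theorem cond_pos {𝔮 : Ideal (𝓞 K)} (h : 𝔮 ≠ ⊥) : 0 < cond 𝔮 := by
  unfold cond
  have h1 := one_le_absNorm h
  have h2 := one_le_discr (K := K)
  positivity

/-- the second term of the mean square to the right of the centre -/
theorem second_le {c : ℝ} (hc : 0 < c) : ∃ M : ℝ, 0 ≤ M ∧ ∀ (𝔮 : Ideal (𝓞 K)) (_ : 𝔮 ≠ ⊥) (v : ℝ),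
    -Real.log (cond 𝔮) / 2 ≤ v → Real.exp v * (1 + Real.exp (-v)) ^ 2 *
      Real.exp (-c * (Real.exp v * Ideal.absNorm 𝔮) ^ (2 / (Module.finrank ℚ K : ℝ))) ≤ M := by
  have hn : (0 : ℝ) < Module.finrank ℚ K := by exact_mod_cast Module.finrank_pos
  obtain ⟨M, hM0, hM⟩ := tiny_bdd hc (p := 2 / (Module.finrank ℚ K : ℝ)) (by positivity)
  have hd := one_le_discr (K := K)
  refine ⟨(2 + |(discr K : ℝ)|) * M, by positivity, fun 𝔮 h𝔮 v hv => ?_⟩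
  have hN := one_le_absNorm h𝔮
  have hcond := cond_pos h𝔮
  set X := Real.exp v * Ideal.absNorm 𝔮 with hX
  have hX0 : 0 ≤ X := by positivity
  have h1 : Real.exp v ≤ X := by
    rw [hX]
    exact le_mul_of_one_le_right (Real.exp_pos v).le hN
  have h2 : Real.exp (-v) ≤ |(discr K : ℝ)| * X := by
    have h3 : Real.exp (-v) * Real.exp (-v) ≤ cond 𝔮 := by
      rw [← Real.exp_add, ← Real.exp_log hcond]
      apply Real.exp_le_exp.2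
      linarith
    have h4 : Real.exp (-v) * Real.exp v = 1 := by rw [← Real.exp_add]; simp
    unfold cond at h3
    calc Real.exp (-v) = Real.exp (-v) * Real.exp (-v) * Real.exp v := by
          rw [mul_assoc, h4, mul_one]
      _ ≤ (|(discr K : ℝ)| * Ideal.absNorm 𝔮) * Real.exp v :=
          mul_le_mul_of_nonneg_right h3 (Real.exp_pos v).le
      _ = _ := by rw [hX]; ring
  rw [expsq]
  have h5 := Real.exp_pos (-c * X ^ (2 / (Module.finrank ℚ K : ℝ)))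
  calc (Real.exp v + 2 + Real.exp (-v)) * Real.exp (-c * X ^ (2 / (Module.finrank ℚ K : ℝ)))
      ≤ ((2 + |(discr K : ℝ)|) * (1 + X)) * Real.exp (-c * X ^ (2 / (Module.finrank ℚ K : ℝ))) := by
        apply mul_le_mul_of_nonneg_right _ h5.le
        nlinarith
    _ = (2 + |(discr K : ℝ)|) * ((1 + X) * Real.exp (-c * X ^ (2 / (Module.finrank ℚ K : ℝ)))) := by
        ring
    _ ≤ (2 + |(discr K : ℝ)|) * M := by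
        apply mul_le_mul_of_nonneg_left (hM X hX0)
        positivity

/-- Uniform bound for all `u`. -/
theorem uni (κ : InfinitePlace K → ℤ) (S : Finset (Ideal (𝓞 K)))
    (hS : ∀ 𝔭 ∈ S, 𝔭.IsPrime ∧ 𝔭 ≠ ⊥) : ∃ C : ℝ, 0 ≤ C ∧ ∀ (𝔮 : Ideal (𝓞 K))
      (E : Finset (MulChar (𝓞 K ⧸ 𝔮) ℂ)) (lam : MulChar (𝓞 K ⧸ 𝔮) ℂ → InfinitePlace K → ℝ)
      (ψ : MulChar (𝓞 K ⧸ 𝔮) ℂ → (Ideal (𝓞 K) →* ℂ))
      (_ : ∀ χ ∈ E, HD 𝔮 κ (lam χ) χ (ψ χ)) (u : ℝ),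
      ∑ χ ∈ E, ‖Dser (fun 𝔠 => cop S 𝔠 * ψ χ 𝔠) (Gf κ (lam χ)) u‖ ^ 2 ≤
        C * (Nat.card (𝓞 K ⧸ 𝔮)ˣ : ℝ) := by
  classical
  obtain ⟨CG, hG⟩ := Gf_good κ
  induction S using Finset.induction_on with
  | empty =>
    obtain ⟨C, c, hC, hc, hms⟩ := mean_sq κ
    obtain ⟨Cd, hCd0, hCd⟩ := diag_bdd (K := K) Real.pi_pos
    obtain ⟨M, hM0, hM⟩ := second_le (K := K) hc
    refine ⟨C * Cd + C * M, by positivity, fun 𝔮 E lam ψ hE u => ?_⟩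
    rcases E.eq_empty_or_nonempty with rfl | ⟨χ₀, hχ₀⟩
    · rw [Finset.sum_empty]; positivity
    have h𝔮 := (hE χ₀ hχ₀).bot
    -- right half
    have key : ∀ v : ℝ, -Real.log (cond 𝔮) / 2 ≤ v →
        ∑ χ ∈ E, ‖Dser (fun 𝔠 => cop ∅ 𝔠 * ψ χ 𝔠) (Gf κ (lam χ)) v‖ ^ 2 ≤
          (C * Cd + C * M) * (Nat.card (𝓞 K ⧸ 𝔮)ˣ : ℝ) := by
      intro v hv
      refine (hms 𝔮 h𝔮 (cop ∅) 1 (cop_norm_le ∅) (cop_bot ∅) E lam ψ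
        (fun χ hχ => (hE χ hχ).hecke) v).trans ?_
      rw [mul_comm]
      apply mul_le_mul_of_nonneg_right _ (Nat.cast_nonneg _)
      apply add_le_add
      · apply mul_le_mul_of_nonneg_left _ hC
        simp_rw [cop_sq]
        exact hCd v
      · rw [one_pow, mul_one]
        exact mul_le_mul_of_nonneg_left (hM 𝔮 h𝔮 v hv) hC
    rcases le_total (-Real.log (cond 𝔮) / 2) u with hu | hu
    · exact key u hu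
    · refine le_trans (le_of_eq ?_) (key (-u - Real.log (cond 𝔮)) (by linarith))
      refine Finset.sum_congr rfl fun χ hχ => ?_
      rw [cop_empty_mul (hE χ hχ).psi_bot, (hE χ hχ).norm_fe u]
  | insert 𝔭 S h𝔭S ih =>
    have hS' : ∀ 𝔭 ∈ S, 𝔭.IsPrime ∧ 𝔭 ≠ ⊥ := fun 𝔭 h𝔭 => hS 𝔭 (Finset.mem_insert_of_mem h𝔭)
    obtain ⟨h𝔭, h𝔭0⟩ := hS 𝔭 (Finset.mem_insert_self _ _)
    obtain ⟨C, hC0, hC⟩ := ih hS'
    refine ⟨4 * C, by positivity, fun 𝔮 E lam ψ hE u => ?_⟩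
    have h1 := hC 𝔮 E lam ψ hE u
    have h2 := hC 𝔮 E lam ψ hE (u + Real.log (Ideal.absNorm 𝔭))
    calc ∑ χ ∈ E, ‖Dser (fun 𝔠 => cop (insert 𝔭 S) 𝔠 * ψ χ 𝔠) (Gf κ (lam χ)) u‖ ^ 2
        ≤ ∑ χ ∈ E, (2 * ‖Dser (fun 𝔠 => cop S 𝔠 * ψ χ 𝔠) (Gf κ (lam χ)) u‖ ^ 2 +
          2 * ‖Dser (fun 𝔠 => cop S 𝔠 * ψ χ 𝔠) (Gf κ (lam χ))
            (u + Real.log (Ideal.absNorm 𝔭))‖ ^ 2) := by
          refine Finset.sum_le_sum fun χ hχ => ?_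
          have hψ1 := fun 𝔞 => (hE χ hχ).hecke.norm_le 𝔞
          rw [Dser_insert (hG (lam χ)) hψ1 S hS' h𝔭 h𝔭0 h𝔭S u]
          set x := Dser (fun 𝔠 => cop S 𝔠 * ψ χ 𝔠) (Gf κ (lam χ)) u
          set y := Dser (fun 𝔠 => cop S 𝔠 * ψ χ 𝔠) (Gf κ (lam χ))
            (u + Real.log (Ideal.absNorm 𝔭))
          have hr : ‖ψ χ 𝔭 * (((√(Ideal.absNorm 𝔭 : ℝ))⁻¹ : ℝ) : ℂ) * y‖ ≤ ‖y‖ := by
            rw [norm_mul, norm_mul, Complex.norm_real, Real.norm_of_nonneg (by positivity)]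
            have hN : (1 : ℝ) ≤ √(Ideal.absNorm 𝔭 : ℝ) :=
              Real.one_le_sqrt.2 (one_le_absNorm h𝔭0)
            have h3 : ‖ψ χ 𝔭‖ * (√(Ideal.absNorm 𝔭 : ℝ))⁻¹ ≤ 1 :=
              mul_le_one₀ (hψ1 𝔭) (by positivity) (inv_le_one_of_one_le₀ hN)
            exact mul_le_of_le_one_left (norm_nonneg _) h3
          have h4 := (norm_sub_le x (ψ χ 𝔭 * (((√(Ideal.absNorm 𝔭 : ℝ))⁻¹ : ℝ) : ℂ) * y)).trans
            (add_le_add le_rfl hr)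
          calc _ ≤ (‖x‖ + ‖y‖) ^ 2 := pow_le_pow_left₀ (norm_nonneg _) h4 2
            _ ≤ _ := by nlinarith [sq_nonneg (‖x‖ - ‖y‖)]
      _ = 2 * ∑ χ ∈ E, ‖Dser (fun 𝔠 => cop S 𝔠 * ψ χ 𝔠) (Gf κ (lam χ)) u‖ ^ 2 +
          2 * ∑ χ ∈ E, ‖Dser (fun 𝔠 => cop S 𝔠 * ψ χ 𝔠) (Gf κ (lam χ))
            (u + Real.log (Ideal.absNorm 𝔭))‖ ^ 2 := by
          rw [Finset.sum_add_distrib, ← Finset.mul_sum, ← Finset.mul_sum]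
      _ ≤ _ := by linarith

theorem card_le {𝔮 : Ideal (𝓞 K)} (h𝔮 : 𝔮 ≠ ⊥) (E : Finset (MulChar (𝓞 K ⧸ 𝔮) ℂ)) :
    (E.card : ℝ) ≤ (Nat.card (𝓞 K ⧸ 𝔮)ˣ : ℝ) := by
  classical
  have : Finite (𝓞 K ⧸ 𝔮) := Ideal.finiteQuotientOfFreeOfNeBot 𝔮 h𝔮
  have : Fintype (𝓞 K ⧸ 𝔮) := Fintype.ofFinite _
  have h := parseval E (fun j : 𝓞 K ⧸ 𝔮 => if j = 1 then (1 : ℂ) else 0)
  have e1 : ∀ χ : MulChar (𝓞 K ⧸ 𝔮) ℂ, ∑ j, χ j * (if j = 1 then (1 : ℂ) else 0) = 1 := by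
    intro χ
    rw [Finset.sum_eq_single 1]
    · simp
    · intro b _ hb
      simp [hb]
    · simp
  have e2 : ∑ j : 𝓞 K ⧸ 𝔮, ‖(if j = 1 then (1 : ℂ) else 0)‖ ^ 2 = 1 := by
    rw [Finset.sum_eq_single 1]
    · simp
    · intro b _ hb
      simp [hb]
    · simp
  simp_rw [e1, e2] at h
  simpa using h

theorem D1_bdd {c : ℝ} (hc : 0 < c) : ∃ M : ℝ, 0 ≤ M ∧ ∀ (F : (InfinitePlace K → ℝ) → ℂ) (C : ℝ),
    GoodF F C c → ∀ u, ‖(Real.exp (u / 2) : ℂ) * kint K F u‖ ≤ C * M := by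
  obtain ⟨Ck, hc0, hc1⟩ := kg_le (K := K) (c := c) hc (A := 1 / 2) (by norm_num)
  refine ⟨Ck, hc0, fun F C hF u => ?_⟩
  rw [norm_mul, Complex.norm_real, Real.norm_of_nonneg (Real.exp_pos _).le]
  have h2 := (kint_le hF u).trans (mul_le_mul_of_nonneg_left (hc1 u) hF.1)
  calc Real.exp (u / 2) * ‖kint K F u‖
      ≤ Real.exp (u / 2) * (C * (Ck * Real.exp (-(1 / 2 * u)))) := by gcongr
    _ = C * Ck * (Real.exp (u / 2) * Real.exp (-(1 / 2 * u))) := by ring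
    _ = C * Ck := by
        rw [← Real.exp_add, show u / 2 + -(1 / 2 * u) = 0 by ring, Real.exp_zero, mul_one]

/-- Uniform bound for the rough part. -/
theorem uni_rg (κ : InfinitePlace K → ℤ) (S : Finset (Ideal (𝓞 K)))
    (hS : ∀ 𝔭 ∈ S, 𝔭.IsPrime ∧ 𝔭 ≠ ⊥) : ∃ C : ℝ, 0 ≤ C ∧ ∀ (𝔮 : Ideal (𝓞 K))
      (E : Finset (MulChar (𝓞 K ⧸ 𝔮) ℂ)) (lam : MulChar (𝓞 K ⧸ 𝔮) ℂ → InfinitePlace K → ℝ)
      (ψ : MulChar (𝓞 K ⧸ 𝔮) ℂ → (Ideal (𝓞 K) →* ℂ))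
      (_ : ∀ χ ∈ E, HD 𝔮 κ (lam χ) χ (ψ χ)) (u : ℝ),
      ∑ χ ∈ E, ‖Dser (fun 𝔠 => rg S 𝔠 * ψ χ 𝔠) (Gf κ (lam χ)) u‖ ^ 2 ≤
        C * (Nat.card (𝓞 K ⧸ 𝔮)ˣ : ℝ) := by
  obtain ⟨CG, hG⟩ := Gf_good κ
  obtain ⟨C, hC0, hC⟩ := uni κ S hS
  obtain ⟨M, hM0, hM⟩ := D1_bdd (K := K) (c := Real.pi / 2) (by positivity)
  refine ⟨2 * C + 2 * (CG * M) ^ 2, by positivity, fun 𝔮 E lam ψ hE u => ?_⟩
  rcases E.eq_empty_or_nonempty with rfl | ⟨χ₀, hχ₀⟩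
  · rw [Finset.sum_empty]; positivity
  have h𝔮 := (hE χ₀ hχ₀).bot
  calc ∑ χ ∈ E, ‖Dser (fun 𝔠 => rg S 𝔠 * ψ χ 𝔠) (Gf κ (lam χ)) u‖ ^ 2
      ≤ ∑ χ ∈ E, (2 * ‖Dser (fun 𝔠 => cop S 𝔠 * ψ χ 𝔠) (Gf κ (lam χ)) u‖ ^ 2 +
        2 * (CG * M) ^ 2) := by
        refine Finset.sum_le_sum fun χ hχ => ?_
        have hψ1 := fun 𝔞 => (hE χ hχ).hecke.norm_le 𝔞
        have h1 := Dser_rough (hG (lam χ)) hψ1 hS u
        have h2 := hM _ _ (hG (lam χ)) u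
        set x := Dser (fun 𝔠 => cop S 𝔠 * ψ χ 𝔠) (Gf κ (lam χ)) u
        set y := (Real.exp (u / 2) : ℂ) * kint K (Gf κ (lam χ)) u
        have h3 : Dser (fun 𝔠 => rg S 𝔠 * ψ χ 𝔠) (Gf κ (lam χ)) u = x - y := by
          rw [h1]; ring
        rw [h3]
        have h4 := (norm_sub_le x y).trans (add_le_add le_rfl h2)
        calc _ ≤ (‖x‖ + CG * M) ^ 2 := pow_le_pow_left₀ (norm_nonneg _) h4 2
          _ ≤ _ := by nlinarith [sq_nonneg (‖x‖ - CG * M)]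
    _ = 2 * ∑ χ ∈ E, ‖Dser (fun 𝔠 => cop S 𝔠 * ψ χ 𝔠) (Gf κ (lam χ)) u‖ ^ 2 +
        (E.card : ℝ) * (2 * (CG * M) ^ 2) := by
        rw [Finset.sum_add_distrib, ← Finset.mul_sum, Finset.sum_const, nsmul_eq_mul]
    _ ≤ 2 * (C * (Nat.card (𝓞 K ⧸ 𝔮)ˣ : ℝ)) +
        (Nat.card (𝓞 K ⧸ 𝔮)ˣ : ℝ) * (2 * (CG * M) ^ 2) := by
        have := hC 𝔮 E lam ψ hE u
        have h5 := card_le h𝔮 E
        gcongr
    _ = _ := by ring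

/-- Uniform bound for the mollified density. -/
theorem uni_bm (κ : InfinitePlace K → ℤ) (S : Finset (Ideal (𝓞 K)))
    (hS : ∀ 𝔭 ∈ S, 𝔭.IsPrime ∧ 𝔭 ≠ ⊥) (ι : Finset (Ideal (𝓞 K))) (hι : ∀ n ∈ ι, n ≠ ⊥)
    (cf : Ideal (𝓞 K) → ℂ) : ∃ C : ℝ, 0 ≤ C ∧ ∀ (𝔮 : Ideal (𝓞 K))
      (E : Finset (MulChar (𝓞 K ⧸ 𝔮) ℂ)) (lam : MulChar (𝓞 K ⧸ 𝔮) ℂ → InfinitePlace K → ℝ)
      (ψ : MulChar (𝓞 K ⧸ 𝔮) ℂ → (Ideal (𝓞 K) →* ℂ))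
      (_ : ∀ χ ∈ E, HD 𝔮 κ (lam χ) χ (ψ χ)) (u : ℝ),
      ∑ χ ∈ E, ‖Dser (fun 𝔠 => bm S ι cf 𝔠 * ψ χ 𝔠) (Gf κ (lam χ)) u‖ ^ 2 ≤
        C * (Nat.card (𝓞 K ⧸ 𝔮)ˣ : ℝ) := by
  obtain ⟨CG, hG⟩ := Gf_good κ
  obtain ⟨C, hC0, hC⟩ := uni κ S hS
  refine ⟨(∑ n ∈ ι, ‖cf n‖ ^ 2) * (ι.card * C), by positivity, fun 𝔮 E lam ψ hE u => ?_⟩
  calc ∑ χ ∈ E, ‖Dser (fun 𝔠 => bm S ι cf 𝔠 * ψ χ 𝔠) (Gf κ (lam χ)) u‖ ^ 2
      ≤ ∑ χ ∈ E, (∑ n ∈ ι, ‖cf n‖ ^ 2) *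
        ∑ n ∈ ι, ‖Dser (fun 𝔠 => cop S 𝔠 * ψ χ 𝔠) (Gf κ (lam χ))
          (u + Real.log (Ideal.absNorm n))‖ ^ 2 := by
        refine Finset.sum_le_sum fun χ hχ => ?_
        have hψ1 := fun 𝔞 => (hE χ hχ).hecke.norm_le 𝔞
        rw [← Dser_moll (hG (lam χ)) hψ1 S ι hι cf u]
        have b1 : ‖∑ n ∈ ι, cf n * ψ χ n * Dser (fun 𝔠 => cop S 𝔠 * ψ χ 𝔠) (Gf κ (lam χ))
            (u + Real.log (Ideal.absNorm n))‖ ≤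
            ∑ n ∈ ι, ‖cf n‖ * ‖Dser (fun 𝔠 => cop S 𝔠 * ψ χ 𝔠) (Gf κ (lam χ))
              (u + Real.log (Ideal.absNorm n))‖ := by
          refine (norm_sum_le _ _).trans (Finset.sum_le_sum fun n _ => ?_)
          rw [norm_mul, norm_mul]
          have b3 : ‖cf n‖ * ‖ψ χ n‖ ≤ ‖cf n‖ := mul_le_of_le_one_right (norm_nonneg _) (hψ1 n)
          gcongr
        calc _ ≤ (∑ n ∈ ι, ‖cf n‖ * ‖Dser (fun 𝔠 => cop S 𝔠 * ψ χ 𝔠) (Gf κ (lam χ))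
              (u + Real.log (Ideal.absNorm n))‖) ^ 2 := by gcongr
          _ ≤ _ := Finset.sum_mul_sq_le_sq_mul_sq _ _ _
    _ = (∑ n ∈ ι, ‖cf n‖ ^ 2) * ∑ n ∈ ι, ∑ χ ∈ E,
          ‖Dser (fun 𝔠 => cop S 𝔠 * ψ χ 𝔠) (Gf κ (lam χ))
            (u + Real.log (Ideal.absNorm n))‖ ^ 2 := by
        rw [← Finset.mul_sum, Finset.sum_comm]
    _ ≤ (∑ n ∈ ι, ‖cf n‖ ^ 2) * ∑ n ∈ ι, C * (Nat.card (𝓞 K ⧸ 𝔮)ˣ : ℝ) := by
        refine mul_le_mul_of_nonneg_left (Finset.sum_le_sum fun n _ => hC 𝔮 E lam ψ hE _)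
          (by positivity)
    _ = _ := by
        rw [Finset.sum_const, nsmul_eq_mul]; ring

end Pool.Agent.HZ
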