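import Pool.Agent.Lib_helper41.HZF.Fin3

namespace Pool.Agent.HZ

open NumberField NumberField.InfinitePlace NumberField.Units Complex MeasureTheory Filter Topology

variable {K : Type} [Field K] [NumberField K]

theorem kg_nonneg (c u : ℝ) : 0 ≤ kg K c u :=
  integral_nonneg fun _ => (Real.exp_pos _).le

theorem tiny_ev {c p : ℝ} (hc : 0 < c) (hp : 0 < p) {M η : ℝ} (hM : 0 ≤ M) (hη : 0 < η) :
    ∃ X₀ : ℝ, ∀ X, X₀ ≤ X → M * ((1 + X) * Real.exp (-c * X ^ p)) ≤ η := by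
  have h := (tiny_tendsto hc hp).const_mul M
  rw [mul_zero] at h
  obtain ⟨X₀, hX₀⟩ := eventually_atTop.1 (h.eventually (gt_mem_nhds hη))
  exact ⟨X₀, fun X hX => (hX₀ X hX).le⟩

/-- the tail of the diagonal -/
noncomputable def ell (K : Type) [Field K] [NumberField K] (P : ℕ) (u : ℝ) : ℝ :=
  Real.exp u * ∑' 𝔠 : Ideal (𝓞 K),
      (if P < Ideal.absNorm 𝔠 then kg K Real.pi (u + Real.log (Ideal.absNorm 𝔠)) else 0)

theorem rg_primesLe {P : ℕ} {𝔠 : Ideal (𝓞 K)} (h : rg (primesLe K P) 𝔠 ≠ 0) :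
    P < Ideal.absNorm 𝔠 := by
  classical
  unfold rg at h
  split_ifs at h with h1
  · exact absurd rfl h
  unfold cop at h
  split_ifs at h with h2
  · obtain ⟨h3, h4⟩ := h2
    by_contra hcon
    push Not at hcon
    obtain ⟨M, hM, hle⟩ := Ideal.exists_le_maximal 𝔠 h1
    have hd : M ∣ 𝔠 := Ideal.dvd_iff_le.2 hle
    have hMbot : M ≠ ⊥ := by
      rintro rfl
      exact h3 (le_bot_iff.1 hle)
    refine h4 M ?_ hd
    unfold primesLe
    rw [Finset.mem_filter]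
    refine ⟨?_, hM.isPrime, hMbot⟩
    rw [Set.Finite.mem_toFinset]
    show Ideal.absNorm M ≤ P
    have h5 : Ideal.absNorm M ∣ Ideal.absNorm 𝔠 := map_dvd _ hd
    have h6 : Ideal.absNorm 𝔠 ≠ 0 := fun h0 => h3 (Ideal.absNorm_eq_zero_iff.1 h0)
    exact (Nat.le_of_dvd (Nat.pos_of_ne_zero h6) h5).trans hcon
  · exact absurd rfl h

theorem rg_diag_le (P : ℕ) (u : ℝ) :
    Real.exp u * ∑' 𝔠 : Ideal (𝓞 K), ‖rg (primesLe K P) 𝔠‖ ^ 2 *
      kg K Real.pi (u + Real.log (Ideal.absNorm 𝔠)) ≤ ell K P u := by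
  classical
  unfold ell
  apply mul_le_mul_of_nonneg_left _ (Real.exp_pos u).le
  obtain ⟨C, hC0, hC⟩ := sum_kg_le (K := K) Real.pi_pos (A := 2) (by norm_num)
  have s1 := (hC (fun 𝔠 => ‖rg (primesLe K P) 𝔠‖ ^ 2) 1 (fun 𝔠 => by positivity)
    (fun 𝔠 => pow_le_one₀ (norm_nonneg _) (rg_norm_le _ 𝔠)) (by simp [rg_bot]) u).1
  have s2 := (hC (fun 𝔠 => if P < Ideal.absNorm 𝔠 then 1 else 0) 1
    (fun 𝔠 => by split_ifs <;> norm_num) (fun 𝔠 => by split_ifs <;> norm_num) (by simp) u).1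
  have s3 : Summable (fun 𝔠 : Ideal (𝓞 K) =>
      (if P < Ideal.absNorm 𝔠 then kg K Real.pi (u + Real.log (Ideal.absNorm 𝔠)) else 0)) := by
    refine s2.congr fun 𝔠 => ?_
    split_ifs <;> ring
  refine s1.tsum_le_tsum (fun 𝔠 => ?_) s3
  by_cases h : rg (primesLe K P) 𝔠 = 0
  · rw [h, norm_zero]
    have := kg_nonneg (K := K) Real.pi (u + Real.log (Ideal.absNorm 𝔠))
    split_ifs <;> simp [this]
  · rw [if_pos (rg_primesLe h)]
    exact mul_le_of_le_one_left (kg_nonneg _ _) (pow_le_one₀ (norm_nonneg _) (rg_norm_le _ 𝔠))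

theorem rg_mean (κ : InfinitePlace K → ℤ) : ∃ C : ℝ, 0 ≤ C ∧ ∀ (U η : ℝ), 0 < η → ∃ Q : ℝ,
    ∀ (P : ℕ) (𝔮 : Ideal (𝓞 K)) (_ : 𝔮 ≠ ⊥) (_ : Q ≤ Ideal.absNorm 𝔮)
      (E : Finset (MulChar (𝓞 K ⧸ 𝔮) ℂ)) (lam : MulChar (𝓞 K ⧸ 𝔮) ℂ → InfinitePlace K → ℝ)
      (ψ : MulChar (𝓞 K ⧸ 𝔮) ℂ → (Ideal (𝓞 K) →* ℂ))
      (_ : ∀ χ ∈ E, IsHecke 𝔮 κ (lam χ) χ (ψ χ)) (u : ℝ), -U ≤ u →
      ∑ χ ∈ E, ‖Dser (fun 𝔠 => rg (primesLe K P) 𝔠 * ψ χ 𝔠) (Gf κ (lam χ)) u‖ ^ 2 ≤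
        (Nat.card (𝓞 K ⧸ 𝔮)ˣ : ℝ) * (C * ell K P u + η) := by
  have hn : (0 : ℝ) < Module.finrank ℚ K := by exact_mod_cast Module.finrank_pos
  obtain ⟨C, c, hC, hc, hms⟩ := mean_sq κ
  refine ⟨C, hC, fun U η hη => ?_⟩
  obtain ⟨X₀, hX₀⟩ := tiny_ev hc (p := 2 / (Module.finrank ℚ K : ℝ)) (by positivity)
    (M := C * (2 + Real.exp U)) (by positivity) hη
  refine ⟨X₀ * Real.exp U, fun P 𝔮 h𝔮 hQ E lam ψ hE u hu => ?_⟩
  refine (hms 𝔮 h𝔮 (rg (primesLe K P)) 1 (rg_norm_le _) (rg_bot _) E lam ψ hE u).trans ?_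
  apply mul_le_mul_of_nonneg_left _ (Nat.cast_nonneg _)
  have hN := one_le_absNorm h𝔮
  set X := Real.exp u * Ideal.absNorm 𝔮 with hX
  have hX0 : 0 ≤ X := by positivity
  apply add_le_add
  · exact mul_le_mul_of_nonneg_left (rg_diag_le P u) hC
  · have h1 : Real.exp u ≤ X := by
      rw [hX]
      exact le_mul_of_one_le_right (Real.exp_pos u).le hN
    have h2 : Real.exp (-u) ≤ Real.exp U := Real.exp_le_exp.2 (by linarith)
    have h3 : X₀ ≤ X := by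
      have h4 : X₀ ≤ Real.exp (-U) * Ideal.absNorm 𝔮 := by
        have h5 := mul_le_mul_of_nonneg_right hQ (Real.exp_pos (-U)).le
        have h6 : Real.exp U * Real.exp (-U) = 1 := by rw [← Real.exp_add]; simp
        rw [mul_assoc, h6, mul_one] at h5
        linarith
      refine h4.trans ?_
      rw [hX]
      apply mul_le_mul_of_nonneg_right _ (by positivity)
      exact Real.exp_le_exp.2 hu
    rw [one_pow, mul_one, expsq]
    have h5 := Real.exp_pos (-c * X ^ (2 / (Module.finrank ℚ K : ℝ)))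
    have h6 := Real.exp_pos U
    calc C * ((Real.exp u + 2 + Real.exp (-u)) *
          Real.exp (-c * X ^ (2 / (Module.finrank ℚ K : ℝ))))
        ≤ C * (((2 + Real.exp U) * (1 + X)) *
          Real.exp (-c * X ^ (2 / (Module.finrank ℚ K : ℝ)))) := by
          apply mul_le_mul_of_nonneg_left _ hC
          apply mul_le_mul_of_nonneg_right _ h5.le
          nlinarith
      _ = C * (2 + Real.exp U) * ((1 + X) *
          Real.exp (-c * X ^ (2 / (Module.finrank ℚ K : ℝ)))) := by ring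
      _ ≤ η := hX₀ X h3

end Pool.Agent.HZ
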