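import Pool.Agent.Lib_helper41.HZF.Fin4

namespace Pool.Agent.HZ

open NumberField NumberField.InfinitePlace NumberField.Units Complex MeasureTheory Filter Topology

variable {K : Type} [Field K] [NumberField K]

/-- second term, pure real version -/
theorem bm_second {c : ℝ} (hc : 0 < c) {A : ℝ} (hA : 0 ≤ A) {NB d U η : ℝ} (hNB : 1 ≤ NB)
    (hd : 1 ≤ d) (hη : 0 < η) {p : ℝ} (hp : 0 < p) : ∃ Q : ℝ, ∀ N u v : ℝ, Q ≤ N → 1 ≤ N →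
      -U ≤ u → u ≤ U → v = u - Real.log NB - Real.log (d * N) / 2 →
      A * (Real.exp v * (1 + Real.exp (-v)) ^ 2 * Real.exp (-c * (Real.exp v * N) ^ p)) ≤ η := by
  have hNB0 : 0 < NB := by linarith
  have hd0 : 0 < d := by linarith
  have hM : 0 ≤ A * (2 + Real.exp (2 * U) * NB ^ 2 * d) := by
    have := Real.exp_pos (2 * U)
    positivity
  obtain ⟨X₀, hX₀⟩ := tiny_ev hc hp hM hη
  refine ⟨(|X₀| * Real.exp U * NB * d) ^ 2, fun N u v hQ hN hu1 hu2 hv => ?_⟩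
  have hN0 : 0 < N := by linarith
  have hcond : 0 < d * N := by positivity
  have hev : Real.exp v = Real.exp u / (NB * √(d * N)) := by
    rw [hv, Real.exp_sub, Real.exp_sub, Real.exp_log hNB0, Real.exp_half,
      Real.exp_log hcond, div_div]
  have hs0 : 0 < √(d * N) := Real.sqrt_pos.2 hcond
  have hss : √(d * N) * √(d * N) = d * N := Real.mul_self_sqrt hcond.le
  obtain ⟨X, hX⟩ : ∃ X, X = Real.exp v * N := ⟨_, rfl⟩
  obtain ⟨s, hs⟩ : ∃ s, s = √(d * N) := ⟨_, rfl⟩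
  rw [← hs] at hev hs0 hss
  have hX0 : 0 ≤ X := by rw [hX]; positivity
  have hXe : s = X * (NB * d) * Real.exp (-u) := by
    have e1 : X * (NB * d) * Real.exp (-u) =
        (Real.exp u * Real.exp (-u)) * (NB / NB) * ((d * N) / s) := by
      rw [hX, hev]
      field_simp
    rw [e1, ← Real.exp_add, add_neg_cancel, Real.exp_zero, div_self hNB0.ne', one_mul, one_mul,
      ← hss, mul_div_assoc, div_self hs0.ne', mul_one]
  have h1 : Real.exp v ≤ X := by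
    rw [hX]
    exact le_mul_of_one_le_right (Real.exp_pos v).le hN
  have e3 : Real.exp (-u) * Real.exp (-u) ≤ Real.exp (2 * U) := by
    rw [← Real.exp_add]
    exact Real.exp_le_exp.2 (by linarith)
  have h2 : Real.exp (-v) ≤ Real.exp (2 * U) * NB ^ 2 * d * X := by
    have e2 : Real.exp (-v) = Real.exp (-u) * (NB * s) := by
      rw [Real.exp_neg, hev, inv_div, Real.exp_neg]
      field_simp
    rw [e2, hXe]
    calc Real.exp (-u) * (NB * (X * (NB * d) * Real.exp (-u)))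
        = (Real.exp (-u) * Real.exp (-u)) * (NB ^ 2 * d * X) := by ring
      _ ≤ Real.exp (2 * U) * (NB ^ 2 * d * X) := by
          apply mul_le_mul_of_nonneg_right e3
          positivity
      _ = _ := by ring
  have h3 : X₀ ≤ X := by
    have e4 : |X₀| * Real.exp U * NB * d ≤ s := by
      rw [hs]
      apply Real.le_sqrt_of_sq_le
      refine hQ.trans ?_
      exact le_mul_of_one_le_left hN0.le hd
    rw [hXe] at e4
    have e5 : Real.exp (-u) ≤ Real.exp U := Real.exp_le_exp.2 (by linarith)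
    have e6 : X * (NB * d) * Real.exp (-u) ≤ X * (NB * d) * Real.exp U :=
      mul_le_mul_of_nonneg_left e5 (by positivity)
    have e7 : |X₀| * (Real.exp U * NB * d) ≤ X * (Real.exp U * NB * d) := by
      calc |X₀| * (Real.exp U * NB * d) = |X₀| * Real.exp U * NB * d := by ring
        _ ≤ X * (NB * d) * Real.exp U := e4.trans e6
        _ = _ := by ring
    have e8 := le_of_mul_le_mul_right e7 (by positivity)
    exact (le_abs_self _).trans e8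
  rw [← hX, expsq]
  have h5 := Real.exp_pos (-c * X ^ p)
  have h6 := Real.exp_pos (2 * U)
  have hkey := hX₀ X h3
  have h7 : Real.exp v + 2 + Real.exp (-v) ≤ (2 + Real.exp (2 * U) * NB ^ 2 * d) * (1 + X) := by
    have h8 : 0 ≤ Real.exp (2 * U) * NB ^ 2 * d := by positivity
    nlinarith
  calc A * ((Real.exp v + 2 + Real.exp (-v)) * Real.exp (-c * X ^ p))
      ≤ A * (((2 + Real.exp (2 * U) * NB ^ 2 * d) * (1 + X)) * Real.exp (-c * X ^ p)) := by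
        apply mul_le_mul_of_nonneg_left _ hA
        exact mul_le_mul_of_nonneg_right h7 h5.le
    _ = A * (2 + Real.exp (2 * U) * NB ^ 2 * d) * ((1 + X) * Real.exp (-c * X ^ p)) := by ring
    _ ≤ η := hkey

theorem dens_nonneg {S : Finset (Ideal (𝓞 K))} (hS : ∀ 𝔭 ∈ S, 𝔭.IsPrime ∧ 𝔭 ≠ ⊥) : 0 ≤ dens S := by
  unfold dens
  refine Finset.prod_nonneg fun 𝔭 h𝔭 => ?_
  have := one_le_absNorm (hS 𝔭 h𝔭).2
  have h2 := inv_le_one_of_one_le₀ this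
  linarith

theorem bm_first {S : Finset (Ideal (𝓞 K))} (hS : ∀ 𝔭 ∈ S, 𝔭.IsPrime ∧ 𝔭 ≠ ⊥)
    {ι : Finset (Ideal (𝓞 K))}
    (hι : ∀ n ∈ ι, n ≠ ⊥ ∧ ∀ 𝔭 : Ideal (𝓞 K), 𝔭.IsPrime → 𝔭 ∣ n → 𝔭 ∈ S)
    {cf : Ideal (𝓞 K) → ℂ} (hcf : ∑ n ∈ ι, ‖cf n‖ ^ 2 ≤ 9 / 4) {Cd δ V : ℝ} (hCd : 0 ≤ Cd)
    (hδ : 0 ≤ δ) (hV : ∀ u ≤ V, Real.exp u * ∑' 𝔠 : Ideal (𝓞 K), ‖cop S 𝔠‖ *
      kg K Real.pi (u + Real.log (Ideal.absNorm 𝔠)) ≤ Cd * dens S + δ) {v : ℝ}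
    (hv : ∀ n ∈ ι, v + Real.log (Ideal.absNorm n) ≤ V) :
    Real.exp v * ∑' 𝔠 : Ideal (𝓞 K), ‖bm S ι cf 𝔠‖ ^ 2 *
      kg K Real.pi (v + Real.log (Ideal.absNorm 𝔠)) ≤ 9 / 4 * (Cd * dens S + δ) := by
  have h0 := dens_nonneg hS
  have h1 := bm_diag (K := K) Real.pi_pos S ι hι cf v
  have h3 : ∑ n ∈ ι, ‖cf n‖ ^ 2 * (Real.exp (v + Real.log (Ideal.absNorm n)) *
      ∑' 𝔠 : Ideal (𝓞 K), ‖cop S 𝔠‖ *
        kg K Real.pi (v + Real.log (Ideal.absNorm n) + Real.log (Ideal.absNorm 𝔠))) ≤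
      ∑ n ∈ ι, ‖cf n‖ ^ 2 * (Cd * dens S + δ) := by
    refine Finset.sum_le_sum fun n hn => ?_
    exact mul_le_mul_of_nonneg_left (hV _ (hv n hn)) (by positivity)
  rw [← Finset.sum_mul] at h3
  exact h1.trans (h3.trans (mul_le_mul_of_nonneg_right hcf (by positivity)))

theorem le_V {ι : Finset (Ideal (𝓞 K))} {U V u : ℝ} {B 𝔮 : Ideal (𝓞 K)} (hB : B ≠ ⊥)
    (h𝔮 : 𝔮 ≠ ⊥) (hu : u ≤ U)
    (hQ : Real.exp (2 * (U + ∑ n ∈ ι, |Real.log (Ideal.absNorm n)| - V)) ≤ Ideal.absNorm 𝔮)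
    {n : Ideal (𝓞 K)} (hn : n ∈ ι) :
    u - Real.log (Ideal.absNorm B) - Real.log (cond 𝔮) / 2 + Real.log (Ideal.absNorm n) ≤ V := by
  have hN := one_le_absNorm h𝔮
  have hd := one_le_discr (K := K)
  have hlogN : Real.log (Ideal.absNorm 𝔮) ≤ Real.log (cond 𝔮) := by
    apply Real.log_le_log (by linarith)
    unfold cond
    exact le_mul_of_one_le_left (by linarith) hd
  have h3 : Real.log (Ideal.absNorm n) ≤ ∑ n ∈ ι, |Real.log (Ideal.absNorm n)| :=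
    (le_abs_self _).trans (Finset.single_le_sum
      (f := fun n : Ideal (𝓞 K) => |Real.log (Ideal.absNorm n)|) (fun _ _ => abs_nonneg _) hn)
  have h4 : 2 * (U + ∑ n ∈ ι, |Real.log (Ideal.absNorm n)| - V) ≤ Real.log (Ideal.absNorm 𝔮) := by
    rw [← Real.log_exp (2 * (U + ∑ n ∈ ι, |Real.log (Ideal.absNorm n)| - V))]
    exact Real.log_le_log (Real.exp_pos _) hQ
  have h5 : 0 ≤ Real.log (Ideal.absNorm B) := Real.log_nonneg (one_le_absNorm hB)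
  linarith

theorem bm_mean (κ : InfinitePlace K → ℤ) : ∃ C : ℝ, 0 ≤ C ∧ ∀ (S : Finset (Ideal (𝓞 K)))
    (_ : ∀ 𝔭 ∈ S, 𝔭.IsPrime ∧ 𝔭 ≠ ⊥) (ι : Finset (Ideal (𝓞 K)))
    (_ : ∀ n ∈ ι, n ≠ ⊥ ∧ ∀ 𝔭 : Ideal (𝓞 K), 𝔭.IsPrime → 𝔭 ∣ n → 𝔭 ∈ S)
    (cf : Ideal (𝓞 K) → ℂ) (_ : ∑ n ∈ ι, ‖cf n‖ ^ 2 ≤ 9 / 4) (B : Ideal (𝓞 K)) (_ : B ≠ ⊥)
    (U η : ℝ), 0 < η → ∃ Q : ℝ,
    ∀ (𝔮 : Ideal (𝓞 K)) (_ : 𝔮 ≠ ⊥) (_ : Q ≤ Ideal.absNorm 𝔮)
      (E : Finset (MulChar (𝓞 K ⧸ 𝔮) ℂ)) (lam : MulChar (𝓞 K ⧸ 𝔮) ℂ → InfinitePlace K → ℝ)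
      (ψ : MulChar (𝓞 K ⧸ 𝔮) ℂ → (Ideal (𝓞 K) →* ℂ))
      (_ : ∀ χ ∈ E, IsHecke 𝔮 κ (lam χ) χ (ψ χ)) (u : ℝ), -U ≤ u → u ≤ U →
      ∑ χ ∈ E, ‖Dser (fun 𝔠 => bm S ι cf 𝔠 * ψ χ 𝔠) (Gf κ (lam χ))
        (u - Real.log (Ideal.absNorm B) - Real.log (cond 𝔮) / 2)‖ ^ 2 ≤
        (Nat.card (𝓞 K ⧸ 𝔮)ˣ : ℝ) * (C * dens S + η) := by
  obtain ⟨C, c, hC, hc, hms⟩ := mean_sq κ
  obtain ⟨Cd, hCd0, hCd⟩ := diag_limit (K := K) Real.pi_pos
  have hCC : 0 ≤ C * (9 / 4) := by positivity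
  refine ⟨C * (9 / 4) * Cd, by positivity, fun S hS ι hι cf hcf B hB U η hη => ?_⟩
  obtain ⟨δ, hδ⟩ : ∃ δ, δ = η / (2 * (C * (9 / 4) + 1)) := ⟨_, rfl⟩
  have hδ0 : 0 < δ := by rw [hδ]; positivity
  have hδ1 : C * (9 / 4) * δ ≤ η / 2 := by
    rw [hδ, mul_div_assoc', div_le_div_iff₀ (by positivity) (by positivity)]
    nlinarith
  obtain ⟨V, hV⟩ := hCd S hS δ hδ0
  have hp : 0 < 2 / (Module.finrank ℚ K : ℝ) := by
    have hn : (0 : ℝ) < Module.finrank ℚ K := by exact_mod_cast Module.finrank_pos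
    positivity
  have hη2 : 0 < η / 2 := by positivity
  have hA : 0 ≤ C * (∑ n ∈ ι, ‖cf n‖ * √(Ideal.absNorm n : ℝ)) ^ 2 := by positivity
  obtain ⟨Q2, hQ2⟩ := bm_second hc hA (U := U) (one_le_absNorm hB) (one_le_discr (K := K)) hη2 hp
  refine ⟨max (Real.exp (2 * (U + ∑ n ∈ ι, |Real.log (Ideal.absNorm n)| - V))) Q2,
    fun 𝔮 h𝔮 hQ E lam ψ hE u hu1 hu2 => ?_⟩
  refine (hms 𝔮 h𝔮 (bm S ι cf) (∑ n ∈ ι, ‖cf n‖ * √(Ideal.absNorm n : ℝ)) (bm_le S ι cf)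
    (bm_bot S ι (fun n hn => (hι n hn).1) cf) E lam ψ hE _).trans ?_
  apply mul_le_mul_of_nonneg_left _ (Nat.cast_nonneg _)
  have t1 := mul_le_mul_of_nonneg_left (bm_first hS hι hcf hCd0 hδ0.le hV
    (v := u - Real.log (Ideal.absNorm B) - Real.log (cond 𝔮) / 2)
    (fun n hn => le_V hB h𝔮 hu2 ((le_max_left _ _).trans hQ) hn)) hC
  have t2 := hQ2 (Ideal.absNorm 𝔮) u (u - Real.log (Ideal.absNorm B) - Real.log (cond 𝔮) / 2)
    ((le_max_right _ _).trans hQ) (one_le_absNorm h𝔮) hu1 hu2 rfl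
  refine (add_le_add t1 t2).trans ?_
  calc C * (9 / 4 * (Cd * dens S + δ)) + η / 2
      = C * (9 / 4) * Cd * dens S + C * (9 / 4) * δ + η / 2 := by ring
    _ ≤ _ := by linarith

end Pool.Agent.HZ
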