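import Pool.Agent.Lib_helper41.HZF.Fin5

namespace Pool.Agent.HZ

open NumberField NumberField.InfinitePlace NumberField.Units Complex MeasureTheory Filter Topology

variable {K : Type} [Field K] [NumberField K]

theorem cs {F W : ℝ → ℝ} (hW0 : ∀ u, 0 ≤ W u) (hF0 : ∀ u, 0 ≤ F u) (hW : Integrable W)
    (hFW : Integrable (fun u => F u * W u)) (hF2W : Integrable (fun u => F u ^ 2 * W u)) :
    (∫ u, F u * W u) ^ 2 ≤ (∫ u, W u) * ∫ u, F u ^ 2 * W u := by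
  set A := ∫ u, W u with hAdef
  set Bf := ∫ u, F u * W u with hBdef
  set D := ∫ u, F u ^ 2 * W u with hDdef
  have hA : 0 ≤ A := integral_nonneg hW0
  have hBf : 0 ≤ Bf := integral_nonneg fun u => mul_nonneg (hF0 u) (hW0 u)
  have hD : 0 ≤ D := integral_nonneg fun u => mul_nonneg (sq_nonneg _) (hW0 u)
  have key : ∀ c : ℝ, 2 * c * Bf ≤ D + c ^ 2 * A := by
    intro c
    have : ∫ u, 2 * c * (F u * W u) ≤ ∫ u, (F u ^ 2 * W u + c ^ 2 * W u) := by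
      refine integral_mono (hFW.const_mul _) (hF2W.add (hW.const_mul _)) fun u => ?_
      have := mul_nonneg (sq_nonneg (F u - c)) (hW0 u)
      simp only
      nlinarith
    rw [integral_const_mul, integral_add hF2W (hW.const_mul _), integral_const_mul] at this
    exact this
  rcases hA.eq_or_lt with h0 | h0
  · have : Bf = 0 := by
      by_contra hne
      have hpos : 0 < Bf := lt_of_le_of_ne hBf (Ne.symm hne)
      have h1 := key ((D + 1) / Bf)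
      rw [← h0] at h1
      have h2 : 2 * ((D + 1) / Bf) * Bf = 2 * (D + 1) := by field_simp
      rw [h2] at h1
      linarith
    rw [this, ← h0]; simp
  · have h1 := key (Bf / A)
    have h2 : 2 * (Bf / A) * Bf = 2 * (Bf ^ 2 / A) := by ring
    have h3 : (Bf / A) ^ 2 * A = Bf ^ 2 / A := by field_simp
    rw [h2, h3] at h1
    have h4 : Bf ^ 2 / A ≤ D := by linarith
    rw [div_le_iff₀ h0] at h4
    linarith

theorem cs' {g h : ℝ → ℂ} (hg : Measurable g) {C : ℝ} (hgb : ∀ u, ‖g u‖ ≤ C)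
    (hh : Integrable h) :
    ‖∫ u, g u * h u‖ ^ 2 ≤ (∫ u, ‖h u‖) * ∫ u, ‖g u‖ ^ 2 * ‖h u‖ := by
  have h1 : Integrable (fun u => ‖g u‖ * ‖h u‖) := by
    refine hh.norm.bdd_mul (c := C) hg.norm.aestronglyMeasurable (Eventually.of_forall fun u => ?_)
    simpa using hgb u
  have h2 : Integrable (fun u => ‖g u‖ ^ 2 * ‖h u‖) := by
    refine hh.norm.bdd_mul (c := C ^ 2) (hg.norm.pow_const 2).aestronglyMeasurable
      (Eventually.of_forall fun u => ?_)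
    have := hgb u
    simp only [norm_pow, norm_norm]
    gcongr
  have h3 := cs (fun u => norm_nonneg (h u)) (fun u => norm_nonneg (g u)) hh.norm h1 h2
  refine le_trans ?_ h3
  have h4 : ‖∫ u, g u * h u‖ ≤ ∫ u, ‖g u‖ * ‖h u‖ := by
    refine (norm_integral_le_integral_norm _).trans (le_of_eq ?_)
    simp
  gcongr

/-! ### The tail of the diagonal -/

theorem qn_continuous : Continuous (qn : (InfinitePlace K → ℝ) → ℝ) := by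
  unfold qn
  fun_prop

theorem gauss_good {c : ℝ} (hc : 0 < c) :
    GoodF (fun y : InfinitePlace K → ℝ => ((Real.exp (-c * qn y) : ℝ) : ℂ)) 1 c := by
  refine ⟨zero_le_one, hc, ?_, fun y _ => ?_⟩
  · refine Continuous.continuousOn ?_
    have := qn_continuous (K := K)
    fun_prop
  · rw [Complex.norm_real, Real.norm_of_nonneg (Real.exp_pos _).le, one_mul]

theorem kint_gauss (c u : ℝ) :
    kint K (fun y : InfinitePlace K → ℝ => ((Real.exp (-c * qn y) : ℝ) : ℂ)) u =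
      ((kg K c u : ℝ) : ℂ) := by
  unfold kint kg
  exact integral_ofReal

theorem ell_summable (P : ℕ) (u : ℝ) : Summable (fun 𝔠 : Ideal (𝓞 K) =>
      (if P < Ideal.absNorm 𝔠 then kg K Real.pi (u + Real.log (Ideal.absNorm 𝔠)) else 0)) := by
  classical
  obtain ⟨C, hC0, hC⟩ := sum_kg_le (K := K) Real.pi_pos (A := 2) (by norm_num)
  have s2 := (hC (fun 𝔠 => if P < Ideal.absNorm 𝔠 then 1 else 0) 1
    (fun 𝔠 => by split_ifs <;> norm_num) (fun 𝔠 => by split_ifs <;> norm_num) (by simp) u).1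
  refine s2.congr fun 𝔠 => ?_
  split_ifs <;> ring

theorem ell_nonneg (P : ℕ) (u : ℝ) : 0 ≤ ell K P u := by
  unfold ell
  refine mul_nonneg (Real.exp_pos _).le (tsum_nonneg fun 𝔠 => ?_)
  have := kg_nonneg (K := K) Real.pi (u + Real.log (Ideal.absNorm 𝔠))
  split_ifs <;> simp [this]

theorem ell_bdd : ∃ M : ℝ, 0 ≤ M ∧ ∀ (P : ℕ) (u : ℝ), ell K P u ≤ M := by
  classical
  obtain ⟨C, hC0, hC⟩ := diag_bdd (K := K) Real.pi_pos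
  obtain ⟨C', hC'0, hC'⟩ := sum_kg_le (K := K) Real.pi_pos (A := 2) (by norm_num)
  refine ⟨C, hC0, fun P u => le_trans ?_ (hC u)⟩
  unfold ell
  apply mul_le_mul_of_nonneg_left _ (Real.exp_pos u).le
  have s1 := (hC' (fun 𝔠 => ‖cop ∅ 𝔠‖) 1 (fun 𝔠 => by positivity)
    (fun 𝔠 => cop_norm_le _ 𝔠) (by simp [cop_bot]) u).1
  refine (ell_summable P u).tsum_le_tsum (fun 𝔠 => ?_) s1
  have h0 := kg_nonneg (K := K) Real.pi (u + Real.log (Ideal.absNorm 𝔠))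
  split_ifs with h
  · have h1 : 𝔠 ≠ ⊥ := by
      rintro rfl
      simp at h
    have h2 : cop ∅ 𝔠 = 1 := by simp [cop, h1]
    rw [h2, norm_one, one_mul]
  · positivity

theorem ell_continuous (P : ℕ) : Continuous (ell K P) := by
  classical
  have hF := gauss_good (K := K) Real.pi_pos
  have h1 := Dser_continuous (b := fun 𝔠 : Ideal (𝓞 K) => if P < Ideal.absNorm 𝔠 then (1 : ℂ) else 0)
    (β := 1) hF (fun 𝔠 => by split_ifs <;> simp) (by simp)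
  have h2 : ell K P = fun u => Real.exp (u / 2) * (Dser (fun 𝔠 : Ideal (𝓞 K) =>
      if P < Ideal.absNorm 𝔠 then (1 : ℂ) else 0)
      (fun y : InfinitePlace K → ℝ => ((Real.exp (-Real.pi * qn y) : ℝ) : ℂ)) u).re := by
    funext u
    unfold ell Dser
    have h3 : (∑' 𝔠 : Ideal (𝓞 K), (if P < Ideal.absNorm 𝔠 then (1 : ℂ) else 0) *
        kint K (fun y : InfinitePlace K → ℝ => ((Real.exp (-Real.pi * qn y) : ℝ) : ℂ))
          (u + Real.log (Ideal.absNorm 𝔠))) =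
        ((∑' 𝔠 : Ideal (𝓞 K),
      (if P < Ideal.absNorm 𝔠 then kg K Real.pi (u + Real.log (Ideal.absNorm 𝔠)) else 0) : ℝ) : ℂ) := by
      rw [Complex.ofReal_tsum]
      refine tsum_congr fun 𝔠 => ?_
      rw [kint_gauss]
      split_ifs <;> simp
    rw [h3, ← Complex.ofReal_mul, Complex.ofReal_re, ← mul_assoc, ← Real.exp_add]
    congr 2
    ring
  rw [h2]
  have h4 := Complex.continuous_re.comp h1
  exact (Real.continuous_exp.comp (continuous_id.div_const 2)).mul h4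

/-! ### The sum over the bad characters -/

/-- the quadratic quantity attached to one character -/
noncomputable def Phi (S ι : Finset (Ideal (𝓞 K))) (cf : Ideal (𝓞 K) → ℂ) (B 𝔮 : Ideal (𝓞 K))
    (κ : InfinitePlace K → ℤ) (lam : InfinitePlace K → ℝ) (ψ : Ideal (𝓞 K) →* ℂ) (u : ℝ) : ℝ :=
  2 * ‖Dser (fun 𝔠 => rg S 𝔠 * ψ 𝔠) (Gf κ lam) u‖ ^ 2 +
    8 * ‖Dser (fun 𝔠 => bm S ι cf 𝔠 * ψ 𝔠) (Gf κ lam)
        (u - Real.log (Ideal.absNorm B) - Real.log (cond 𝔮) / 2)‖ ^ 2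

theorem Phi_nonneg (S ι : Finset (Ideal (𝓞 K))) (cf : Ideal (𝓞 K) → ℂ) (B 𝔮 : Ideal (𝓞 K))
    (κ : InfinitePlace K → ℤ) (lam : InfinitePlace K → ℝ) (ψ : Ideal (𝓞 K) →* ℂ) (u : ℝ) :
    0 ≤ Phi S ι cf B 𝔮 κ lam ψ u := by
  unfold Phi
  positivity

variable {𝔮 : Ideal (𝓞 K)} {κ : InfinitePlace K → ℤ} {lam : InfinitePlace K → ℝ}
  {χ : MulChar (𝓞 K ⧸ 𝔮) ℂ} {ψ : Ideal (𝓞 K) →* ℂ}

theorem HD.rg_continuous (h : HD 𝔮 κ lam χ ψ) (S : Finset (Ideal (𝓞 K))) :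
    Continuous (Dser (fun 𝔠 => rg S 𝔠 * ψ 𝔠) (Gf κ lam)) := by
  obtain ⟨C₁, hG⟩ := h.good
  exact Dser_continuous hG (fun 𝔠 => rg_mul_norm_le (fun 𝔞 => h.hecke.norm_le 𝔞) S 𝔠)
    (rg_mul_bot ψ S)

theorem HD.bm_continuous (h : HD 𝔮 κ lam χ ψ) (S : Finset (Ideal (𝓞 K)))
    {ι : Finset (Ideal (𝓞 K))} (hι : ∀ n ∈ ι, n ≠ ⊥) (cf : Ideal (𝓞 K) → ℂ) :
    Continuous (Dser (fun 𝔠 => bm S ι cf 𝔠 * ψ 𝔠) (Gf κ lam)) := by
  obtain ⟨C₁, hG⟩ := h.good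
  refine Dser_continuous (β := ∑ n ∈ ι, ‖cf n‖ * √(Ideal.absNorm n : ℝ)) hG (fun 𝔠 => ?_) ?_
  · rw [norm_mul]
    exact (mul_le_of_le_one_right (norm_nonneg _) (h.hecke.norm_le 𝔠)).trans (bm_le S ι cf 𝔠)
  · rw [bm_bot S ι hι cf, zero_mul]

theorem HD.Phi_continuous (h : HD 𝔮 κ lam χ ψ) (S : Finset (Ideal (𝓞 K)))
    {ι : Finset (Ideal (𝓞 K))} (hι : ∀ n ∈ ι, n ≠ ⊥) (cf : Ideal (𝓞 K) → ℂ) (B : Ideal (𝓞 K)) :
    Continuous (Phi S ι cf B 𝔮 κ lam ψ) := by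
  unfold Phi
  have h1 := h.rg_continuous S
  have h2 : Continuous (fun u => Dser (fun 𝔠 => bm S ι cf 𝔠 * ψ 𝔠) (Gf κ lam)
        (u - Real.log (Ideal.absNorm B) - Real.log (cond 𝔮) / 2)) :=
    (h.bm_continuous S hι cf).comp (by fun_prop)
  exact ((h1.norm.pow 2).const_mul 2).add ((h2.norm.pow 2).const_mul 8)

theorem Phi_sum_le (κ : InfinitePlace K → ℤ) {S : Finset (Ideal (𝓞 K))}
    (hS : ∀ 𝔭 ∈ S, 𝔭.IsPrime ∧ 𝔭 ≠ ⊥) {ι : Finset (Ideal (𝓞 K))} (hι : ∀ n ∈ ι, n ≠ ⊥)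
    (cf : Ideal (𝓞 K) → ℂ) : ∃ C : ℝ, 0 ≤ C ∧ ∀ (B 𝔮 : Ideal (𝓞 K))
      (E : Finset (MulChar (𝓞 K ⧸ 𝔮) ℂ)) (lam : MulChar (𝓞 K ⧸ 𝔮) ℂ → InfinitePlace K → ℝ)
      (ψ : MulChar (𝓞 K ⧸ 𝔮) ℂ → (Ideal (𝓞 K) →* ℂ))
      (_ : ∀ χ ∈ E, HD 𝔮 κ (lam χ) χ (ψ χ)) (u : ℝ),
      ∑ χ ∈ E, Phi S ι cf B 𝔮 κ (lam χ) (ψ χ) u ≤ C * (Nat.card (𝓞 K ⧸ 𝔮)ˣ : ℝ) := by
  obtain ⟨C1, hC10, hC1⟩ := uni_rg κ S hS
  obtain ⟨C2, hC20, hC2⟩ := uni_bm κ S hS ι hι cf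
  refine ⟨2 * C1 + 8 * C2, by positivity, fun B 𝔮 E lam ψ hE u => ?_⟩
  unfold Phi
  rw [Finset.sum_add_distrib, ← Finset.mul_sum, ← Finset.mul_sum]
  have h1 := hC1 𝔮 E lam ψ hE u
  have h2 := hC2 𝔮 E lam ψ hE (u - Real.log (Ideal.absNorm B) - Real.log (cond 𝔮) / 2)
  linarith

theorem bad_sq (h : HD 𝔮 κ lam χ ψ) {S : Finset (Ideal (𝓞 K))}
    (hS : ∀ 𝔭 ∈ S, 𝔭.IsPrime ∧ 𝔭 ≠ ⊥) {a b : ℝ}
    (hz : ∀ t ∈ Set.Ioo a b, ¬ Odd (analyticOrderNatAt (LamD κ lam ψ) (1 / 2 + t * I)))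
    (W : Wt a b) {S' : Finset (Ideal (𝓞 K))} (hS' : ∀ 𝔭, 𝔭 ∈ S' ↔ 𝔭 ∈ S ∧ IsCoprime 𝔭 𝔮)
    {B : Ideal (𝓞 K)} {ι : Finset (Ideal (𝓞 K))} (hι : ∀ n ∈ ι, n ≠ ⊥) {cf : Ideal (𝓞 K) → ℂ}
    (happ : ∀ x : Ideal (𝓞 K) →* ℂ, (∀ 𝔭 ∈ S', ‖x 𝔭‖ = 1) →
        ‖starRingEnd ℂ (x B) * ∑ n ∈ ι, cf n * x n -
          ∏ 𝔭 ∈ S', (starRingEnd ℂ (1 - (((√(Ideal.absNorm 𝔭 : ℝ))⁻¹ : ℝ) : ℂ) * x 𝔭) /
            (‖1 - (((√(Ideal.absNorm 𝔭 : ℝ))⁻¹ : ℝ) : ℂ) * x 𝔭‖ : ℂ))‖ ≤ 1 / 2)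
    {M : ℝ} (hM0 : 0 ≤ M) (hM : ∀ u, Phi S ι cf B 𝔮 κ lam ψ u ≤ M) :
    ‖∫ u : ℝ, ((Real.exp (u / 2) : ℂ) * kint K (Gf κ lam) u) * hatw W.w u‖ ^ 2 ≤
      (∫ u, ‖hatw W.w u‖) * ∫ u, Phi S ι cf B 𝔮 κ lam ψ u * ‖hatw W.w u‖ := by
  have hkey := h.bad_ineq hS hz W hS' hι happ
  set f1 : ℝ → ℂ := Dser (fun 𝔠 => rg S 𝔠 * ψ 𝔠) (Gf κ lam) with hf1
  set f2 : ℝ → ℂ := fun u => Dser (fun 𝔠 => bm S ι cf 𝔠 * ψ 𝔠) (Gf κ lam)
        (u - Real.log (Ideal.absNorm B) - Real.log (cond 𝔮) / 2) with hf2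
  have hPhi : ∀ u, Phi S ι cf B 𝔮 κ lam ψ u = 2 * ‖f1 u‖ ^ 2 + 8 * ‖f2 u‖ ^ 2 := fun u => rfl
  have hb1 : ∀ u, ‖f1 u‖ ≤ √M := by
    intro u
    apply Real.le_sqrt_of_sq_le
    have := hM u
    rw [hPhi] at this
    nlinarith [sq_nonneg ‖f1 u‖, sq_nonneg ‖f2 u‖]
  have hb2 : ∀ u, ‖f2 u‖ ≤ √M := by
    intro u
    apply Real.le_sqrt_of_sq_le
    have := hM u
    rw [hPhi] at this
    nlinarith [sq_nonneg ‖f1 u‖, sq_nonneg ‖f2 u‖]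
  have hc1 : Continuous f1 := h.rg_continuous S
  have hc2 : Continuous f2 := (h.bm_continuous S hι cf).comp (by fun_prop)
  have i1 := cs' hc1.measurable hb1 W.hint
  have i2 := cs' hc2.measurable hb2 W.hint
  have hWn : Integrable (fun u => ‖hatw W.w u‖) := W.hint.norm
  have k1 : Integrable (fun u => ‖f1 u‖ ^ 2 * ‖hatw W.w u‖) := by
    refine hWn.bdd_mul (c := M) (hc1.norm.pow 2).aestronglyMeasurable
      (Eventually.of_forall fun u => ?_)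
    have := hb1 u
    simp only [norm_pow, norm_norm]
    calc ‖f1 u‖ ^ 2 ≤ (√M) ^ 2 := by gcongr
      _ = M := Real.sq_sqrt hM0
  have k2 : Integrable (fun u => ‖f2 u‖ ^ 2 * ‖hatw W.w u‖) := by
    refine hWn.bdd_mul (c := M) (hc2.norm.pow 2).aestronglyMeasurable
      (Eventually.of_forall fun u => ?_)
    have := hb2 u
    simp only [norm_pow, norm_norm]
    calc ‖f2 u‖ ^ 2 ≤ (√M) ^ 2 := by gcongr
      _ = M := Real.sq_sqrt hM0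
  have hPi : ∫ u, Phi S ι cf B 𝔮 κ lam ψ u * ‖hatw W.w u‖ =
      2 * (∫ u, ‖f1 u‖ ^ 2 * ‖hatw W.w u‖) + 8 * ∫ u, ‖f2 u‖ ^ 2 * ‖hatw W.w u‖ := by
    rw [← integral_const_mul, ← integral_const_mul, ← integral_add (k1.const_mul _)
      (k2.const_mul _)]
    congr 1
    funext u
    rw [hPhi]
    ring
  rw [hPi]
  set a1 := ‖∫ u : ℝ, f2 u * hatw W.w u‖
  set a2 := ‖∫ u : ℝ, f1 u * hatw W.w u‖
  have n2 : ‖∫ u : ℝ, ((Real.exp (u / 2) : ℂ) * kint K (Gf κ lam) u) * hatw W.w u‖ ^ 2 ≤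
      (2 * a1 + a2) ^ 2 := pow_le_pow_left₀ (norm_nonneg _) hkey 2
  have n3 : (2 * a1 + a2) ^ 2 ≤ 2 * a2 ^ 2 + 8 * a1 ^ 2 := by nlinarith [sq_nonneg (2 * a1 - a2)]
  calc _ ≤ 2 * a2 ^ 2 + 8 * a1 ^ 2 := n2.trans n3
    _ ≤ 2 * ((∫ u, ‖hatw W.w u‖) * ∫ u, ‖f1 u‖ ^ 2 * ‖hatw W.w u‖) +
        8 * ((∫ u, ‖hatw W.w u‖) * ∫ u, ‖f2 u‖ ^ 2 * ‖hatw W.w u‖) := by
        gcongr
    _ = _ := by ring

end Pool.Agent.HZ
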