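import Pool.Agent.Lib_helper41.HZF.Fin6

namespace Pool.Agent.HZ

open NumberField NumberField.InfinitePlace NumberField.Units Complex MeasureTheory Filter Topology

variable {K : Type} [Field K] [NumberField K]

theorem exists_moll (K : Type) [Field K] [NumberField K] :
    ∃ (B : Finset (Ideal (𝓞 K)) → Ideal (𝓞 K))
    (ι : Finset (Ideal (𝓞 K)) → Finset (Ideal (𝓞 K)))
    (c : Finset (Ideal (𝓞 K)) → Ideal (𝓞 K) → ℂ), ∀ S : Finset (Ideal (𝓞 K)),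
    (∀ 𝔭 ∈ S, 𝔭.IsPrime ∧ 𝔭 ≠ ⊥) → B S ≠ ⊥ ∧
      (∀ n ∈ ι S, n ≠ ⊥ ∧ ∀ 𝔭 : Ideal (𝓞 K), 𝔭.IsPrime → 𝔭 ∣ n → 𝔭 ∈ S) ∧
      ∑ n ∈ ι S, ‖c S n‖ ^ 2 ≤ 9 / 4 ∧
      ∀ x : Ideal (𝓞 K) →* ℂ, (∀ 𝔭 ∈ S, ‖x 𝔭‖ = 1) →
        ‖starRingEnd ℂ (x (B S)) * ∑ n ∈ ι S, c S n * x n -
          ∏ 𝔭 ∈ S, (starRingEnd ℂ (1 - (((√(Ideal.absNorm 𝔭 : ℝ))⁻¹ : ℝ) : ℂ) * x 𝔭) /
            (‖1 - (((√(Ideal.absNorm 𝔭 : ℝ))⁻¹ : ℝ) : ℂ) * x 𝔭‖ : ℂ))‖ ≤ 1 / 2 := by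
  have h : ∀ S : Finset (Ideal (𝓞 K)), ∃ (B : Ideal (𝓞 K)) (ι : Finset (Ideal (𝓞 K)))
      (c : Ideal (𝓞 K) → ℂ), (∀ 𝔭 ∈ S, 𝔭.IsPrime ∧ 𝔭 ≠ ⊥) → B ≠ ⊥ ∧
      (∀ n ∈ ι, n ≠ ⊥ ∧ ∀ 𝔭 : Ideal (𝓞 K), 𝔭.IsPrime → 𝔭 ∣ n → 𝔭 ∈ S) ∧
      ∑ n ∈ ι, ‖c n‖ ^ 2 ≤ 9 / 4 ∧
      ∀ x : Ideal (𝓞 K) →* ℂ, (∀ 𝔭 ∈ S, ‖x 𝔭‖ = 1) →
        ‖starRingEnd ℂ (x B) * ∑ n ∈ ι, c n * x n -
          ∏ 𝔭 ∈ S, (starRingEnd ℂ (1 - (((√(Ideal.absNorm 𝔭 : ℝ))⁻¹ : ℝ) : ℂ) * x 𝔭) /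
            (‖1 - (((√(Ideal.absNorm 𝔭 : ℝ))⁻¹ : ℝ) : ℂ) * x 𝔭‖ : ℂ))‖ ≤ 1 / 2 := by
    intro S
    by_cases hS : ∀ 𝔭 ∈ S, 𝔭.IsPrime ∧ 𝔭 ≠ ⊥
    · obtain ⟨B, ι, c, h1, h2, h3, h4⟩ := approxI S hS
      exact ⟨B, ι, c, fun _ => ⟨h1, h2, h3, h4⟩⟩
    · exact ⟨⊥, ∅, 0, fun h => absurd h hS⟩
  choose B ι c h using h
  exact ⟨B, ι, c, h⟩

theorem primesLe_prime {P : ℕ} : ∀ 𝔭 ∈ primesLe K P, 𝔭.IsPrime ∧ 𝔭 ≠ ⊥ := by
  classical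
  intro 𝔭 h𝔭
  unfold primesLe at h𝔭
  exact (Finset.mem_filter.1 h𝔭).2

theorem tail_W {g : ℝ → ℝ} (hg : Integrable g) {δ : ℝ} (hδ : 0 < δ) :
    ∃ U : ℝ, ∫ u, (if U < |u| then g u else 0) ≤ δ := by
  have h : Tendsto (fun n : ℕ => ∫ u, (if (n : ℝ) < |u| then g u else 0)) atTop
      (𝓝 (∫ _u : ℝ, (0 : ℝ))) := by
    refine tendsto_integral_of_dominated_convergence (fun u => ‖g u‖) ?_ hg.norm ?_ ?_
    · intro n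
      have h1 : MeasurableSet {u : ℝ | (n : ℝ) < |u|} :=
        measurableSet_lt measurable_const (by fun_prop)
      have h2 := hg.1.indicator h1
      refine h2.congr (Eventually.of_forall fun u => ?_)
      simp only [Set.indicator_apply, Set.mem_setOf_eq]
    · intro n
      refine Eventually.of_forall fun u => ?_
      split_ifs
      · exact le_rfl
      · simp
    · refine Eventually.of_forall fun u => ?_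
      refine tendsto_const_nhds.congr' ?_
      filter_upwards [eventually_ge_atTop ⌈|u|⌉₊] with n hn
      have : ¬ ((n : ℝ) < |u|) := by
        push Not
        exact (Nat.le_ceil _).trans (by exact_mod_cast hn)
      rw [if_neg this]
  rw [integral_zero] at h
  obtain ⟨n, hn⟩ := (h.eventually (gt_mem_nhds hδ)).exists
  exact ⟨n, hn.le⟩

/-- the majorant -/
noncomputable def Gmaj (K : Type) [Field K] [NumberField K] (C1 C2 D η M U : ℝ) (P : ℕ) (u : ℝ) : ℝ :=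
  (2 * (C1 * ell K P u + η) + 8 * (C2 * D + η)) + (if U < |u| then M else 0)

theorem Gmaj_integral {C1 C2 D η M U : ℝ} {P : ℕ} {g : ℝ → ℝ} (hg : Integrable g) :
    Integrable (fun u => Gmaj K C1 C2 D η M U P u * g u) ∧
    ∫ u, Gmaj K C1 C2 D η M U P u * g u = (8 * C2 * D + 10 * η) * (∫ u, g u) +
      2 * C1 * (∫ u, ell K P u * g u) + M * ∫ u, (if U < |u| then g u else 0) := by
  obtain ⟨Me, hMe0, hMe⟩ := ell_bdd (K := K)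
  have i1 : Integrable (fun u => ell K P u * g u) := by
    refine hg.bdd_mul (c := Me) (ell_continuous P).aestronglyMeasurable
      (Eventually.of_forall fun u => ?_)
    rw [Real.norm_of_nonneg (ell_nonneg P u)]
    exact hMe P u
  have i2 : Integrable (fun u => (if U < |u| then g u else 0)) := by
    have h1 : MeasurableSet {u : ℝ | U < |u|} :=
      measurableSet_lt measurable_const (by fun_prop)
    have h2 := hg.indicator h1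
    refine h2.congr (Eventually.of_forall fun u => ?_)
    simp only [Set.indicator_apply, Set.mem_setOf_eq]
  have e : ∀ u, Gmaj K C1 C2 D η M U P u * g u = (8 * C2 * D + 10 * η) * g u +
      2 * C1 * (ell K P u * g u) + M * (if U < |u| then g u else 0) := by
    intro u
    unfold Gmaj
    split_ifs <;> ring
  simp_rw [e]
  have j1 : Integrable (fun u => (8 * C2 * D + 10 * η) * g u) := hg.const_mul _
  have j2 : Integrable (fun u => 2 * C1 * (ell K P u * g u)) := i1.const_mul _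
  have j3 : Integrable (fun u => M * (if U < |u| then g u else 0)) := i2.const_mul _
  have j12 : Integrable (fun u => (8 * C2 * D + 10 * η) * g u + 2 * C1 * (ell K P u * g u)) :=
    j1.add j2
  refine ⟨j12.add j3, ?_⟩
  rw [integral_add j12 j3, integral_add j1 j2, integral_const_mul, integral_const_mul,
    integral_const_mul]

/-- The integral attached to a weight. -/
noncomputable def Jw (κ : InfinitePlace K → ℤ) (w : ℝ → ℝ) (lam : InfinitePlace K → ℝ) : ℂ :=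
  ∫ u : ℝ, ((Real.exp (u / 2) : ℂ) * kint K (Gf κ lam) u) * hatw w u

theorem limit_P (κ : InfinitePlace K → ℤ) : ∃ C : ℝ, 0 ≤ C ∧ ∀ {a b : ℝ} (W : Wt a b)
    (P : ℕ) (δ : ℝ), 0 < δ → ∃ Q : ℝ,
    ∀ (𝔮 : Ideal (𝓞 K)) (_ : 𝔮 ≠ ⊥) (_ : Q ≤ Ideal.absNorm 𝔮)
      (E : Finset (MulChar (𝓞 K ⧸ 𝔮) ℂ)) (lam : MulChar (𝓞 K ⧸ 𝔮) ℂ → InfinitePlace K → ℝ)
      (ψ : MulChar (𝓞 K ⧸ 𝔮) ℂ → (Ideal (𝓞 K) →* ℂ))
      (_ : ∀ χ ∈ E, HD 𝔮 κ (lam χ) χ (ψ χ))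
      (_ : ∀ χ ∈ E, ∀ t ∈ Set.Ioo a b,
        ¬ Odd (analyticOrderNatAt (LamD κ (lam χ) (ψ χ)) (1 / 2 + t * I))),
      ∑ χ ∈ E, ‖Jw κ W.w (lam χ)‖ ^ 2 ≤ (Nat.card (𝓞 K ⧸ 𝔮)ˣ : ℝ) *
        ((∫ u, ‖hatw W.w u‖) * (C * dens (primesLe K P) * (∫ u, ‖hatw W.w u‖) +
          C * ∫ u, ell K P u * ‖hatw W.w u‖) + δ) := by
  classical
  obtain ⟨C1, hC10, hC1⟩ := rg_mean κ
  obtain ⟨C2, hC20, hC2⟩ := bm_mean κ
  obtain ⟨B, ι, cf, hmoll⟩ := exists_moll K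
  refine ⟨2 * C1 + 8 * C2, by positivity, fun {a b} W P δ hδ => ?_⟩
  obtain ⟨S, hSdef⟩ : ∃ S, S = primesLe K P := ⟨_, rfl⟩
  have hS : ∀ 𝔭 ∈ S, 𝔭.IsPrime ∧ 𝔭 ≠ ⊥ := by rw [hSdef]; exact primesLe_prime
  obtain ⟨D, hD⟩ : ∃ D, D = dens S := ⟨_, rfl⟩
  have hD0 : 0 ≤ D := by rw [hD]; exact dens_nonneg hS
  obtain ⟨A, hA⟩ : ∃ A, A = ∫ u, ‖hatw W.w u‖ := ⟨_, rfl⟩
  have hA0 : 0 ≤ A := by rw [hA]; exact integral_nonneg fun u => norm_nonneg _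
  have hWn : Integrable (fun u => ‖hatw W.w u‖) := W.hint.norm
  -- uniform constants
  have hU : ∀ S' : Finset (Ideal (𝓞 K)), ∃ C : ℝ, 0 ≤ C ∧ (S' ⊆ S → ∀ (B 𝔮 : Ideal (𝓞 K))
      (E : Finset (MulChar (𝓞 K ⧸ 𝔮) ℂ)) (lam : MulChar (𝓞 K ⧸ 𝔮) ℂ → InfinitePlace K → ℝ)
      (ψ : MulChar (𝓞 K ⧸ 𝔮) ℂ → (Ideal (𝓞 K) →* ℂ))
      (_ : ∀ χ ∈ E, HD 𝔮 κ (lam χ) χ (ψ χ)) (u : ℝ),
      ∑ χ ∈ E, Phi S (ι S') (cf S') B 𝔮 κ (lam χ) (ψ χ) u ≤ C * (Nat.card (𝓞 K ⧸ 𝔮)ˣ : ℝ)) := by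
    intro S'
    by_cases h : S' ⊆ S
    · have hS' : ∀ 𝔭 ∈ S', 𝔭.IsPrime ∧ 𝔭 ≠ ⊥ := fun 𝔭 h𝔭 => hS 𝔭 (h h𝔭)
      obtain ⟨C, h0, h1⟩ := Phi_sum_le κ hS (fun n hn => ((hmoll S' hS').2.1 n hn).1) (cf S')
      exact ⟨C, h0, fun _ => h1⟩
    · exact ⟨0, le_rfl, fun h' => absurd h' h⟩
  choose CS hCS0 hCS using hU
  obtain ⟨M, hM⟩ : ∃ M, M = ∑ S' ∈ S.powerset, CS S' := ⟨_, rfl⟩
  have hM0 : 0 ≤ M := by rw [hM]; exact Finset.sum_nonneg fun _ _ => hCS0 _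
  obtain ⟨U, hU⟩ := tail_W hWn (δ := δ / (2 * (A * M + 1))) (by positivity)
  obtain ⟨η, hη⟩ : ∃ η, η = δ / (20 * (A ^ 2 + 1)) := ⟨_, rfl⟩
  have hη0 : 0 < η := by rw [hη]; positivity
  have hη1 : 10 * η * A ^ 2 ≤ δ / 2 := by
    rw [hη, show 10 * (δ / (20 * (A ^ 2 + 1))) * A ^ 2 = (10 * δ * A ^ 2) / (20 * (A ^ 2 + 1)) by
      ring, div_le_div_iff₀ (by positivity) (by positivity)]
    nlinarith
  obtain ⟨T, hT⟩ : ∃ T, T = ∫ u, (if U < |u| then ‖hatw W.w u‖ else 0) := ⟨_, rfl⟩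
  rw [← hT] at hU
  have hT1 : A * M * T ≤ δ / 2 := by
    have h1 : A * M * T ≤ A * M * (δ / (2 * (A * M + 1))) :=
      mul_le_mul_of_nonneg_left hU (by positivity)
    refine h1.trans ?_
    rw [mul_div_assoc', div_le_div_iff₀ (by positivity) (by positivity)]
    have : 0 ≤ A * M := by positivity
    nlinarith
  -- the threshold
  obtain ⟨Q1, hQ1⟩ := hC1 U η hη0
  have hb : ∀ S' : Finset (Ideal (𝓞 K)), ∃ Q : ℝ, S' ⊆ S →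
    ∀ (𝔮 : Ideal (𝓞 K)) (_ : 𝔮 ≠ ⊥) (_ : Q ≤ Ideal.absNorm 𝔮)
      (E : Finset (MulChar (𝓞 K ⧸ 𝔮) ℂ)) (lam : MulChar (𝓞 K ⧸ 𝔮) ℂ → InfinitePlace K → ℝ)
      (ψ : MulChar (𝓞 K ⧸ 𝔮) ℂ → (Ideal (𝓞 K) →* ℂ))
      (_ : ∀ χ ∈ E, IsHecke 𝔮 κ (lam χ) χ (ψ χ)) (u : ℝ), -U ≤ u → u ≤ U →
      ∑ χ ∈ E, ‖Dser (fun 𝔠 => bm S (ι S') (cf S') 𝔠 * ψ χ 𝔠) (Gf κ (lam χ))
        (u - Real.log (Ideal.absNorm (B S')) - Real.log (cond 𝔮) / 2)‖ ^ 2 ≤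
        (Nat.card (𝓞 K ⧸ 𝔮)ˣ : ℝ) * (C2 * dens S + η) := by
    intro S'
    by_cases h : S' ⊆ S
    · have hS' : ∀ 𝔭 ∈ S', 𝔭.IsPrime ∧ 𝔭 ≠ ⊥ := fun 𝔭 h𝔭 => hS 𝔭 (h h𝔭)
      obtain ⟨m1, m2, m3, m4⟩ := hmoll S' hS'
      obtain ⟨Q, hQ⟩ := hC2 S hS (ι S')
        (fun n hn => ⟨(m2 n hn).1, fun 𝔭 hp hd => h ((m2 n hn).2 𝔭 hp hd)⟩) (cf S') m3 (B S') m1
        U η hη0
      exact ⟨Q, fun _ => hQ⟩
    · exact ⟨0, fun h' => absurd h' h⟩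
  choose Q2 hQ2 using hb
  refine ⟨max Q1 (∑ S' ∈ S.powerset, |Q2 S'|), fun 𝔮 h𝔮 hQ E lam ψ hE hz => ?_⟩
  obtain ⟨S', hS'⟩ : ∃ S' : Finset (Ideal (𝓞 K)), S' = S.filter (fun 𝔭 => IsCoprime 𝔭 𝔮) := ⟨_, rfl⟩
  have hS'S : S' ⊆ S := by rw [hS']; exact Finset.filter_subset _ _
  have hS'p : ∀ 𝔭 ∈ S', 𝔭.IsPrime ∧ 𝔭 ≠ ⊥ := fun 𝔭 h𝔭 => hS 𝔭 (hS'S h𝔭)
  have hS'i : ∀ 𝔭, 𝔭 ∈ S' ↔ 𝔭 ∈ S ∧ IsCoprime 𝔭 𝔮 := fun 𝔭 => by rw [hS', Finset.mem_filter]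
  obtain ⟨m1, m2, m3, m4⟩ := hmoll S' hS'p
  have hpow : S' ∈ S.powerset := Finset.mem_powerset.2 hS'S
  have hQ2' : Q2 S' ≤ Ideal.absNorm 𝔮 := by
    refine (le_abs_self _).trans (le_trans ?_ ((le_max_right _ _).trans hQ))
    exact Finset.single_le_sum (f := fun S' => |Q2 S'|) (fun _ _ => abs_nonneg _) hpow
  have hQ1' : Q1 ≤ Ideal.absNorm 𝔮 := (le_max_left _ _).trans hQ
  obtain ⟨φ, hφ⟩ : ∃ φ : ℝ, φ = (Nat.card (𝓞 K ⧸ 𝔮)ˣ : ℝ) := ⟨_, rfl⟩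
  have hφ0 : 0 ≤ φ := by rw [hφ]; positivity
  have hCM : CS S' ≤ M := by
    rw [hM]
    exact Finset.single_le_sum (f := CS) (fun _ _ => hCS0 _) hpow
  -- the bounds
  have hall : ∀ u, ∑ χ ∈ E, Phi S (ι S') (cf S') (B S') 𝔮 κ (lam χ) (ψ χ) u ≤ M * φ := by
    intro u
    refine (hCS S' hS'S (B S') 𝔮 E lam ψ hE u).trans ?_
    rw [← hφ]
    exact mul_le_mul_of_nonneg_right hCM hφ0
  have hsmall : ∀ u, ∑ χ ∈ E, Phi S (ι S') (cf S') (B S') 𝔮 κ (lam χ) (ψ χ) u ≤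
      φ * Gmaj K C1 C2 D η M U P u := by
    intro u
    have hell := ell_nonneg (K := K) P u
    by_cases hu : U < |u|
    · refine (hall u).trans ?_
      unfold Gmaj
      rw [if_pos hu, mul_comm]
      apply mul_le_mul_of_nonneg_left _ hφ0
      have : 0 ≤ 2 * (C1 * ell K P u + η) + 8 * (C2 * D + η) := by positivity
      linarith
    · push Not at hu
      obtain ⟨hu1, hu2⟩ := abs_le.1 hu
      have r1 := hQ1 P 𝔮 h𝔮 hQ1' E lam ψ (fun χ hχ => (hE χ hχ).hecke) u hu1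
      have r2 := hQ2 S' hS'S 𝔮 h𝔮 hQ2' E lam ψ (fun χ hχ => (hE χ hχ).hecke) u hu1 hu2
      rw [← hSdef, ← hφ] at r1
      rw [← hφ, ← hD] at r2
      unfold Gmaj Phi
      rw [if_neg (not_lt.2 hu), add_zero, Finset.sum_add_distrib, ← Finset.mul_sum,
        ← Finset.mul_sum]
      linarith
  have hPhii : ∀ χ ∈ E, Integrable (fun u =>
      Phi S (ι S') (cf S') (B S') 𝔮 κ (lam χ) (ψ χ) u * ‖hatw W.w u‖) := by
    intro χ hχ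
    refine hWn.bdd_mul (c := M * φ) ((hE χ hχ).Phi_continuous S (fun n hn => (m2 n hn).1) (cf S')
      (B S')).aestronglyMeasurable (Eventually.of_forall fun u => ?_)
    rw [Real.norm_of_nonneg (Phi_nonneg _ _ _ _ _ _ _ _ _)]
    exact (Finset.single_le_sum
      (f := fun χ => Phi S (ι S') (cf S') (B S') 𝔮 κ (lam χ) (ψ χ) u)
      (fun _ _ => Phi_nonneg _ _ _ _ _ _ _ _ _) hχ).trans (hall u)
  obtain ⟨hGi, hGe⟩ := Gmaj_integral (K := K) (C1 := C1) (C2 := C2) (D := D) (η := η) (M := M)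
    (U := U) (P := P) hWn
  rw [← hφ, ← hA, ← hSdef, ← hD]
  rw [← hA, ← hT] at hGe
  calc ∑ χ ∈ E, ‖Jw κ W.w (lam χ)‖ ^ 2
      ≤ ∑ χ ∈ E, A * ∫ u, Phi S (ι S') (cf S') (B S') 𝔮 κ (lam χ) (ψ χ) u * ‖hatw W.w u‖ := by
        refine Finset.sum_le_sum fun χ hχ => ?_
        rw [hA]
        refine bad_sq (hE χ hχ) hS (hz χ hχ) W hS'i (fun n hn => (m2 n hn).1) m4
          (M := M * φ) (by positivity) (fun u => ?_)
        exact (Finset.single_le_sum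
          (f := fun χ => Phi S (ι S') (cf S') (B S') 𝔮 κ (lam χ) (ψ χ) u)
          (fun _ _ => Phi_nonneg _ _ _ _ _ _ _ _ _) hχ).trans (hall u)
    _ = A * ∫ u, (∑ χ ∈ E, Phi S (ι S') (cf S') (B S') 𝔮 κ (lam χ) (ψ χ) u) * ‖hatw W.w u‖ := by
        rw [← Finset.mul_sum, ← integral_finsetSum _ hPhii]
        simp_rw [Finset.sum_mul]
    _ ≤ A * ∫ u, φ * (Gmaj K C1 C2 D η M U P u * ‖hatw W.w u‖) := by
        apply mul_le_mul_of_nonneg_left _ hA0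
        refine integral_mono ?_ (hGi.const_mul φ) fun u => ?_
        · have := integrable_finsetSum E hPhii
          refine this.congr (Eventually.of_forall fun u => ?_)
          simp only [Finset.sum_mul]
        · simp only
          rw [← mul_assoc]
          exact mul_le_mul_of_nonneg_right (hsmall u) (norm_nonneg _)
    _ = φ * (A * ((8 * C2 * D + 10 * η) * A + 2 * C1 * (∫ u, ell K P u * ‖hatw W.w u‖) +
          M * T)) := by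
        rw [integral_const_mul, hGe]
        ring
    _ ≤ _ := by
        apply mul_le_mul_of_nonneg_left _ hφ0
        have hell : 0 ≤ ∫ u, ell K P u * ‖hatw W.w u‖ :=
          integral_nonneg fun u => mul_nonneg (ell_nonneg P u) (norm_nonneg _)
        have q1 : 0 ≤ 2 * C1 * D * A ^ 2 := by positivity
        have q2 : 0 ≤ 8 * C2 * A * ∫ u, ell K P u * ‖hatw W.w u‖ := by positivity
        nlinarith

end Pool.Agent.HZ
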