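import Pool.Agent.Lib_helper41.HZF.Fin7

namespace Pool.Agent.HZ

open NumberField NumberField.InfinitePlace NumberField.Units Complex MeasureTheory Filter Topology

variable {K : Type} [Field K] [NumberField K]

theorem bad_small (κ : InfinitePlace K → ℤ) {a b : ℝ} (W : Wt a b) {δ : ℝ} (hδ : 0 < δ) :
    ∃ Q : ℝ, ∀ (𝔮 : Ideal (𝓞 K)) (_ : 𝔮 ≠ ⊥) (_ : Q ≤ Ideal.absNorm 𝔮)
      (E : Finset (MulChar (𝓞 K ⧸ 𝔮) ℂ)) (lam : MulChar (𝓞 K ⧸ 𝔮) ℂ → InfinitePlace K → ℝ)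
      (ψ : MulChar (𝓞 K ⧸ 𝔮) ℂ → (Ideal (𝓞 K) →* ℂ))
      (_ : ∀ χ ∈ E, HD 𝔮 κ (lam χ) χ (ψ χ))
      (_ : ∀ χ ∈ E, ∀ t ∈ Set.Ioo a b,
        ¬ Odd (analyticOrderNatAt (LamD κ (lam χ) (ψ χ)) (1 / 2 + t * I))),
      ∑ χ ∈ E, ‖Jw κ W.w (lam χ)‖ ^ 2 ≤ (Nat.card (𝓞 K ⧸ 𝔮)ˣ : ℝ) * δ := by
  obtain ⟨C, hC0, hC⟩ := limit_P κ
  have h1 : Tendsto (fun P : ℕ => (∫ u, ‖hatw W.w u‖) *
      (C * dens (primesLe K P) * (∫ u, ‖hatw W.w u‖) +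
          C * ∫ u, ell K P u * ‖hatw W.w u‖)) atTop (𝓝 ((∫ u, ‖hatw W.w u‖) *
      (C * 0 * (∫ u, ‖hatw W.w u‖) + C * 0))) := by
    refine Tendsto.const_mul _ (Tendsto.add ?_ ?_)
    · exact (dens_tendsto.const_mul C).mul_const _
    · exact (tail_tendsto (K := K) Real.pi_pos (fun u => ‖hatw W.w u‖) W.hint.norm
        (fun u => norm_nonneg _)).const_mul C
  have h2 : (∫ u, ‖hatw W.w u‖) * (C * 0 * (∫ u, ‖hatw W.w u‖) + C * 0) = 0 := by ring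
  rw [h2] at h1
  obtain ⟨P, hP⟩ := (h1.eventually (gt_mem_nhds (show (0 : ℝ) < δ / 2 by positivity))).exists
  obtain ⟨Q, hQ⟩ := hC W P (δ / 2) (by positivity)
  refine ⟨Q, fun 𝔮 h𝔮 hN E lam ψ hE hz => (hQ 𝔮 h𝔮 hN E lam ψ hE hz).trans ?_⟩
  apply mul_le_mul_of_nonneg_left _ (Nat.cast_nonneg _)
  linarith

/-! ### The Mellin transform of the Gaussian -/

theorem Jw_eq : ∃ C₀ : ℝ, 0 < C₀ ∧ ∀ (κ : InfinitePlace K → ℤ) {a b : ℝ} (W : Wt a b)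
    (lam : InfinitePlace K → ℝ),
    Jw κ W.w lam = C₀ * ∫ t : ℝ, (W.w t : ℂ) * gam κ lam (1 / 2 + t * I) := by
  obtain ⟨C₀, hC₀, hm⟩ := mellin_kint (K := K)
  refine ⟨C₀, hC₀, fun κ a b W lam => ?_⟩
  have hcast : ∀ u : ℝ, ((Real.exp (u / 2) : ℝ) : ℂ) = cexp ((1 / 2 : ℂ) * u) := by
    intro u
    rw [Complex.ofReal_exp]
    congr 1
    push_cast
    ring
  have hi : Integrable (fun u : ℝ => (Real.exp (u / 2) : ℂ) * kint K (Gf κ lam) u) := by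
    have h := (hm κ lam (1 / 2) (by norm_num)).1
    refine h.congr (Eventually.of_forall fun u => ?_)
    simp only
    rw [hcast]
    ring
  have hr : ∀ t : ℝ, ∫ u : ℝ, ((Real.exp (u / 2) : ℂ) * kint K (Gf κ lam) u) *
      cexp (t * u * I) = C₀ * gam κ lam (1 / 2 + t * I) := by
    intro t
    rw [← (hm κ lam (1 / 2 + t * I) (by simp)).2]
    congr 1
    funext u
    rw [hcast, show (1 / 2 + (t : ℂ) * I) * u = (1 / 2 : ℂ) * u + t * u * I by ring,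
      Complex.exp_add]
    ring
  unfold Jw
  rw [← flip W.w W.hwc W.hcs _ hi, ← integral_const_mul]
  congr 1
  funext t
  rw [hr t]
  ring

theorem Jg_continuous (κ : InfinitePlace K → ℤ) {a b : ℝ} (W : Wt a b) :
    Continuous (fun lam : InfinitePlace K → ℝ =>
      ∫ t : ℝ, (W.w t : ℂ) * gam κ lam (1 / 2 + t * I)) := by
  have h1 : (fun lam : InfinitePlace K → ℝ =>
      ∫ t : ℝ, (W.w t : ℂ) * gam κ lam (1 / 2 + t * I)) =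
      fun lam : InfinitePlace K → ℝ =>
        ∫ t in tsupport W.w, (W.w t : ℂ) * gam κ lam (1 / 2 + t * I) := by
    funext lam
    symm
    apply setIntegral_eq_integral_of_forall_compl_eq_zero
    intro t ht
    rw [image_eq_zero_of_notMem_tsupport ht]
    simp
  rw [h1]
  refine continuous_parametric_integral_of_continuous ?_ W.hcs
  have h2 := gam_continuous κ
  have h3 := W.hwc
  exact (Complex.continuous_ofReal.comp (h3.comp continuous_snd)).mul h2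

theorem exists_Wt (κ : InfinitePlace K → ℤ) {a b : ℝ} (hab : a < b) (lam : InfinitePlace K → ℝ) :
    ∃ W : Wt a b, (∫ t : ℝ, (W.w t : ℂ) * gam κ lam (1 / 2 + t * I)) ≠ 0 := by
  have hg : Continuous (fun t : ℝ => gam κ lam (1 / 2 + t * I)) :=
    (gam_continuous κ).comp (f := fun t : ℝ => (lam, t)) (by fun_prop)
  obtain ⟨w, h1, h2, h3, h4, h5, h6⟩ := exists_weight (fun t : ℝ => gam κ lam (1 / 2 + t * I)) hg hab
    (gam_ne_zero κ lam)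
  exact ⟨⟨w, h1, h2, h3, h4, h6⟩, h5⟩

theorem box_compact (B : ℝ) : IsCompact {lam : InfinitePlace K → ℝ | ∀ w, |lam w| ≤ B} := by
  have : {lam : InfinitePlace K → ℝ | ∀ w, |lam w| ≤ B} = Set.pi Set.univ (fun _ => Set.Icc (-B) B) := by
    ext lam
    exact ⟨fun h w _ => abs_le.1 (h w), fun h w => abs_le.2 (h w (Set.mem_univ _))⟩
  rw [this]
  exact isCompact_univ_pi fun _ => isCompact_Icc

theorem bad_card (κ : InfinitePlace K → ℤ) {a b : ℝ} (hab : a < b) (B : ℝ) {ε : ℝ} (hε : 0 < ε) :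
    ∃ Q : ℝ, ∀ (𝔮 : Ideal (𝓞 K)) (_ : 𝔮 ≠ ⊥) (_ : Q ≤ Ideal.absNorm 𝔮)
      (E : Finset (MulChar (𝓞 K ⧸ 𝔮) ℂ)) (lam : MulChar (𝓞 K ⧸ 𝔮) ℂ → InfinitePlace K → ℝ)
      (ψ : MulChar (𝓞 K ⧸ 𝔮) ℂ → (Ideal (𝓞 K) →* ℂ))
      (_ : ∀ χ ∈ E, HD 𝔮 κ (lam χ) χ (ψ χ))
      (_ : ∀ χ ∈ E, ∀ t ∈ Set.Ioo a b,
        ¬ Odd (analyticOrderNatAt (LamD κ (lam χ) (ψ χ)) (1 / 2 + t * I)))
      (_ : ∀ χ ∈ E, ∀ w, |lam χ w| ≤ B),
      (E.card : ℝ) ≤ ε * (Nat.card (𝓞 K ⧸ 𝔮)ˣ : ℝ) := by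
  classical
  obtain ⟨C₀, hC₀, hJ⟩ := Jw_eq (K := K)
  choose W hW using fun lam : InfinitePlace K → ℝ => exists_Wt κ hab lam
  set G : (InfinitePlace K → ℝ) → (InfinitePlace K → ℝ) → ℂ :=
    fun l lam => ∫ t : ℝ, ((W l).w t : ℂ) * gam κ lam (1 / 2 + t * I) with hG
  have hGc : ∀ l, Continuous (G l) := fun l => Jg_continuous κ (W l)
  have hG0 : ∀ l, 0 < ‖G l l‖ := fun l => norm_pos_iff.2 (hW l)
  obtain ⟨t, _, hcov⟩ := (box_compact (K := K) B).elim_nhds_subcover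
    (fun l => {lam | ‖G l l‖ / 2 < ‖G l lam‖}) (fun l _ => by
      have h1 : IsOpen {lam | ‖G l l‖ / 2 < ‖G l lam‖} := isOpen_lt continuous_const (hGc l).norm
      exact h1.mem_nhds (by
        show ‖G l l‖ / 2 < ‖G l l‖
        linarith [hG0 l]))
  have hQ : ∀ l : InfinitePlace K → ℝ, ∃ Q : ℝ,
      ∀ (𝔮 : Ideal (𝓞 K)) (_ : 𝔮 ≠ ⊥) (_ : Q ≤ Ideal.absNorm 𝔮)
      (E : Finset (MulChar (𝓞 K ⧸ 𝔮) ℂ)) (lam : MulChar (𝓞 K ⧸ 𝔮) ℂ → InfinitePlace K → ℝ)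
      (ψ : MulChar (𝓞 K ⧸ 𝔮) ℂ → (Ideal (𝓞 K) →* ℂ))
      (_ : ∀ χ ∈ E, HD 𝔮 κ (lam χ) χ (ψ χ))
      (_ : ∀ χ ∈ E, ∀ t ∈ Set.Ioo a b,
        ¬ Odd (analyticOrderNatAt (LamD κ (lam χ) (ψ χ)) (1 / 2 + t * I))),
      ∑ χ ∈ E, ‖Jw κ (W l).w (lam χ)‖ ^ 2 ≤ (Nat.card (𝓞 K ⧸ 𝔮)ˣ : ℝ) *
        (ε / (t.card + 1) * (C₀ * (‖G l l‖ / 2)) ^ 2) := fun l => by
    have := hG0 l
    exact bad_small κ (W l) (by positivity)
  choose Q hQ using hQ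
  refine ⟨∑ l ∈ t, |Q l|, fun 𝔮 h𝔮 hN E lam ψ hE hz hB => ?_⟩
  have hQle : ∀ l ∈ t, Q l ≤ Ideal.absNorm 𝔮 := fun l hl =>
    (le_abs_self _).trans ((Finset.single_le_sum (f := fun l => |Q l|) (fun _ _ => abs_nonneg _)
      hl).trans hN)
  have hsub : E ⊆ t.biUnion fun l => E.filter (fun χ => ‖G l l‖ / 2 < ‖G l (lam χ)‖) := by
    intro χ hχ
    have h1 := hcov (hB χ hχ)
    simp only [Set.mem_iUnion] at h1
    obtain ⟨l, hl, h2⟩ := h1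
    exact Finset.mem_biUnion.2 ⟨l, hl, Finset.mem_filter.2 ⟨hχ, h2⟩⟩
  have hl : ∀ l ∈ t, ((E.filter (fun χ => ‖G l l‖ / 2 < ‖G l (lam χ)‖)).card : ℝ) ≤
      ε / (t.card + 1) * (Nat.card (𝓞 K ⧸ 𝔮)ˣ : ℝ) := by
    intro l hl
    have hsubE : E.filter (fun χ => ‖G l l‖ / 2 < ‖G l (lam χ)‖) ⊆ E := Finset.filter_subset _ _
    have h1 := hQ l 𝔮 h𝔮 (hQle l hl) (E.filter (fun χ => ‖G l l‖ / 2 < ‖G l (lam χ)‖)) lam ψ
      (fun χ hχ => hE χ (hsubE hχ)) (fun χ hχ => hz χ (hsubE hχ))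
    have h2 : ∑ χ ∈ E.filter (fun χ => ‖G l l‖ / 2 < ‖G l (lam χ)‖), (C₀ * (‖G l l‖ / 2)) ^ 2 ≤
        ∑ χ ∈ E.filter (fun χ => ‖G l l‖ / 2 < ‖G l (lam χ)‖), ‖Jw κ (W l).w (lam χ)‖ ^ 2 := by
      refine Finset.sum_le_sum fun χ hχ => ?_
      have h3 := (Finset.mem_filter.1 hχ).2
      rw [hJ κ (W l) (lam χ), norm_mul, Complex.norm_real, Real.norm_of_nonneg hC₀.le]
      have := hG0 l
      exact pow_le_pow_left₀ (by positivity) (mul_le_mul_of_nonneg_left h3.le hC₀.le) 2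
    rw [Finset.sum_const, nsmul_eq_mul] at h2
    have h4 : 0 < (C₀ * (‖G l l‖ / 2)) ^ 2 := by
      have := hG0 l
      positivity
    refine le_of_mul_le_mul_right ((h2.trans h1).trans (le_of_eq ?_)) h4
    ring
  calc (E.card : ℝ) ≤ ((t.biUnion fun l =>
        E.filter (fun χ => ‖G l l‖ / 2 < ‖G l (lam χ)‖)).card : ℝ) := by
        exact_mod_cast Finset.card_le_card hsub
    _ ≤ ∑ l ∈ t, ((E.filter (fun χ => ‖G l l‖ / 2 < ‖G l (lam χ)‖)).card : ℝ) := by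
        exact_mod_cast Finset.card_biUnion_le
    _ ≤ ∑ l ∈ t, ε / (t.card + 1) * (Nat.card (𝓞 K ⧸ 𝔮)ˣ : ℝ) := Finset.sum_le_sum hl
    _ = (t.card / (t.card + 1)) * (ε * (Nat.card (𝓞 K ⧸ 𝔮)ˣ : ℝ)) := by
        rw [Finset.sum_const, nsmul_eq_mul]
        ring
    _ ≤ 1 * (ε * (Nat.card (𝓞 K ⧸ 𝔮)ˣ : ℝ)) := by
        apply mul_le_mul_of_nonneg_right _ (by positivity)
        rw [div_le_one (by positivity)]
        linarith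
    _ = _ := one_mul _

end Pool.Agent.HZ
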