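import Pool.Agent.Lib_helper41.HZF.Fin8

namespace Pool.Agent.HZ

open NumberField NumberField.InfinitePlace NumberField.Units Complex MeasureTheory Filter Topology

variable {K : Type} [Field K] [NumberField K]

/-- The bad characters for one interval. -/
def IsBad (𝔮 : Ideal (𝓞 K)) (κ : InfinitePlace K → ℤ) (B a b : ℝ) (χ : MulChar (𝓞 K ⧸ 𝔮) ℂ) : Prop :=
  ∃ (lam : InfinitePlace K → ℝ) (ψ : Ideal (𝓞 K) →* ℂ), (∀ w, |lam w| ≤ B) ∧ HD 𝔮 κ lam χ ψ ∧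
    ∀ t ∈ Set.Ioo a b, ¬ Odd (analyticOrderNatAt (LamD κ lam ψ) (1 / 2 + t * I))

theorem isBad_card (κ : InfinitePlace K → ℤ) (B : ℝ) {a b : ℝ} (hab : a < b) {ε : ℝ} (hε : 0 < ε) :
    ∃ Q : ℝ, ∀ (𝔮 : Ideal (𝓞 K)) (_ : 𝔮 ≠ ⊥) (_ : Q ≤ Ideal.absNorm 𝔮)
      (E : Finset (MulChar (𝓞 K ⧸ 𝔮) ℂ)), (∀ χ ∈ E, IsBad 𝔮 κ B a b χ) →
      (E.card : ℝ) ≤ ε * (Nat.card (𝓞 K ⧸ 𝔮)ˣ : ℝ) := by
  classical
  obtain ⟨Q, hQ⟩ := bad_card κ hab B hε
  refine ⟨Q, fun 𝔮 h𝔮 hN E hE => ?_⟩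
  choose! lam ψ h1 h2 h3 using hE
  exact hQ 𝔮 h𝔮 hN E lam ψ h2 h3 h1

/-- If the number of odd zeros in `(a, b)` is `< k`, some subinterval has none. -/
theorem exists_sub {Z : Set ℝ} {a b : ℝ} (hab : a < b) {k : ℕ} (hk : 0 < k)
    (hlt : (Z ∩ Set.Ioo a b).encard < k) :
    ∃ j ∈ Finset.range k, ∀ t ∈ Set.Ioo (a + j * ((b - a) / k)) (a + (j + 1) * ((b - a) / k)),
      t ∉ Z := by
  have hk' : (0 : ℝ) < k := by exact_mod_cast hk
  obtain ⟨h, hh⟩ : ∃ h, h = (b - a) / k := ⟨_, rfl⟩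
  have hh0 : 0 < h := by rw [hh]; exact div_pos (by linarith) hk'
  have hkh : k * h = b - a := by rw [hh]; field_simp
  rw [← hh]
  by_contra hcon
  push Not at hcon
  choose! t ht hz using hcon
  have hmono : ∀ i ∈ Finset.range k, ∀ j ∈ Finset.range k, i < j → t i < t j := by
    intro i hi j hj hij
    have h1 := (ht i hi).2
    have h2 := (ht j hj).1
    have h3 : ((i : ℝ) + 1) * h ≤ j * h := by
      have : (i : ℝ) + 1 ≤ j := by exact_mod_cast hij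
      gcongr
    linarith
  have hinj : Set.InjOn t (Finset.range k : Set ℕ) := by
    intro i hi j hj hij
    rcases lt_trichotomy i j with h1 | h1 | h1
    · exact absurd hij (hmono i hi j hj h1).ne
    · exact h1
    · exact absurd hij (hmono j hj i hi h1).ne'
  have hsubset : t '' (Finset.range k : Set ℕ) ⊆ Z ∩ Set.Ioo a b := by
    rintro _ ⟨j, hj, rfl⟩
    refine ⟨hz j hj, ⟨?_, ?_⟩⟩
    · have := (ht j hj).1
      have h1 : (0 : ℝ) ≤ j * h := by positivity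
      linarith
    · have := (ht j hj).2
      have h1 : ((j : ℝ) + 1) * h ≤ k * h := by
        have : (j : ℝ) + 1 ≤ k := by
          have := Finset.mem_range.mp (Finset.mem_coe.mp hj)
          exact_mod_cast this
        gcongr
      linarith
  have hcard : (k : ℕ∞) ≤ (Z ∩ Set.Ioo a b).encard := by
    have h1 := Set.encard_le_encard hsubset
    rw [hinj.encard_image, Set.encard_coe_eq_coe_finsetCard, Finset.card_range] at h1
    exact h1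
  exact absurd hlt (not_lt.mpr hcard)

/-- The windows. -/
theorem exists_window {T h x : ℝ} (hh : 0 < h) (hx1 : -T ≤ x) (hx2 : x + h ≤ T) :
    ∃ j ∈ Finset.range (⌈2 * T / (h / 2)⌉₊ + 1),
      Set.Ioo (-T + j * (h / 2)) (-T + j * (h / 2) + h / 2) ⊆ Set.Ioo x (x + h) := by
  obtain ⟨g, hg⟩ : ∃ g, g = h / 2 := ⟨_, rfl⟩
  have hg0 : 0 < g := by rw [hg]; positivity
  rw [← hg]
  refine ⟨⌈(x + T) / g⌉₊, ?_, ?_⟩
  · rw [Finset.mem_range, Nat.lt_succ_iff]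
    apply Nat.ceil_mono
    gcongr
    linarith
  · have h1 : (x + T) / g ≤ ⌈(x + T) / g⌉₊ := Nat.le_ceil _
    have h2 : (⌈(x + T) / g⌉₊ : ℝ) < (x + T) / g + 1 :=
      Nat.ceil_lt_add_one (div_nonneg (by linarith) hg0.le)
    rw [div_le_iff₀ hg0] at h1
    have h3 : (⌈(x + T) / g⌉₊ : ℝ) * g < x + T + g := by
      have := mul_lt_mul_of_pos_right h2 hg0
      have h4 : ((x + T) / g + 1) * g = x + T + g := by field_simp
      linarith
    intro t ht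
    constructor
    · linarith [ht.1]
    · have := ht.2
      have h5 : g + g = h := by rw [hg]; ring
      linarith

theorem LamD_completed : ∃ C₀ : ℝ, 0 < C₀ ∧ ∀ {𝔮 : Ideal (𝓞 K)} {κ : InfinitePlace K → ℤ}
    {lam : InfinitePlace K → ℝ} {χ : MulChar (𝓞 K ⧸ 𝔮) ℂ} {ψ : Ideal (𝓞 K) →* ℂ},
    HD 𝔮 κ lam χ ψ → IsCompleted κ lam ψ (fun s => (C₀ : ℂ)⁻¹ * LamD κ lam ψ s) := by
  obtain ⟨C₀, hC₀, hm⟩ := mellin_kint (K := K)
  refine ⟨C₀, hC₀, fun {𝔮 κ lam χ ψ} h => ⟨h.differentiable.const_mul _, fun s hs => ?_⟩⟩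
  have hC : (C₀ : ℂ) ≠ 0 := by exact_mod_cast hC₀.ne'
  unfold LamD
  simp only
  rw [mellin_Dser (fun 𝔞 => h.hecke.norm_le 𝔞) h.psi_bot hs, (hm κ lam s (by linarith)).2]
  field_simp

theorem order_const_mul {f : ℂ → ℂ} (hf : Differentiable ℂ f) {c : ℂ} (hc : c ≠ 0) (z : ℂ) :
    analyticOrderNatAt (fun s => c * f s) z = analyticOrderNatAt f z := by
  have h1 : AnalyticAt ℂ (fun _ : ℂ => c) z := analyticAt_const
  have h2 : AnalyticAt ℂ f z := hf.analyticAt z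
  unfold analyticOrderNatAt
  congr 1
  have h3 : (fun s => c * f s) = (fun _ : ℂ => c) * f := rfl
  rw [h3, analyticOrderAt_mul h1 h2]
  have h4 : analyticOrderAt (fun _ : ℂ => c) z = 0 := h1.analyticOrderAt_eq_zero.2 hc
  rw [h4, zero_add]

theorem hz_main (κ : InfinitePlace K → ℤ) (hκ : ∀ w : InfinitePlace K, w.IsReal → κ w = 0 ∨ κ w = 1)
    (B T : ℝ) {h : ℝ} (hh : 0 < h) (k : ℕ) {ε : ℝ} (hε : 0 < ε) :
    ∃ Q : ℝ, ∀ 𝔮 : Ideal (𝓞 K), Q ≤ Ideal.absNorm 𝔮 →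
      ∃ E : Finset (MulChar (𝓞 K ⧸ 𝔮) ℂ), (E.card : ℝ) ≤ ε * (Nat.card (𝓞 K ⧸ 𝔮)ˣ : ℝ) ∧
        ∀ χ : MulChar (𝓞 K ⧸ 𝔮) ℂ, χ ∉ E → IsPrim 𝔮 χ →
        ∀ lam : InfinitePlace K → ℝ, (∀ w, |lam w| ≤ B) → ∑ w, lam w = 0 →
        ∀ ψ : Ideal (𝓞 K) →* ℂ, IsHecke 𝔮 κ lam χ ψ →
        ∃ Λ : ℂ → ℂ, IsCompleted κ lam ψ Λ ∧ ∀ x : ℝ, -T ≤ x → x + h ≤ T →
          (k : ℕ∞) ≤ {t : ℝ | x < t ∧ t < x + h ∧
            Odd (analyticOrderNatAt Λ (1 / 2 + t * I))}.encard := by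
  classical
  obtain ⟨C₀, hC₀, hcomp⟩ := LamD_completed (K := K)
  have hCne : (C₀ : ℂ)⁻¹ ≠ 0 := inv_ne_zero (by exact_mod_cast hC₀.ne')
  obtain ⟨J, hJ⟩ : ∃ J : ℕ, J = ⌈2 * T / (h / 2)⌉₊ + 1 := ⟨_, rfl⟩
  have hJ0 : (0 : ℝ) < J := by rw [hJ]; positivity
  -- the case `k = 0`
  rcases Nat.eq_zero_or_pos k with rfl | hk
  · refine ⟨2, fun 𝔮 hN => ⟨∅, by simp; positivity, fun χ _ hprim lam _ hlam ψ hψ => ?_⟩⟩
    have htop : 𝔮 ≠ ⊤ := by
      rintro rfl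
      rw [Ideal.absNorm_top] at hN
      norm_num at hN
    have hbot : 𝔮 ≠ ⊥ := by
      rintro rfl
      rw [Ideal.absNorm_bot] at hN
      norm_num at hN
    exact ⟨_, hcomp ⟨hκ, hlam, hbot, htop, hprim, hψ⟩, fun x _ _ => by simp⟩
  have hk' : (0 : ℝ) < k := by exact_mod_cast hk
  set av : ℕ → ℕ → ℝ := fun j i => -T + j * (h / 2) + i * (h / 2 / k) with hav
  set bv : ℕ → ℕ → ℝ := fun j i => -T + j * (h / 2) + (i + 1) * (h / 2 / k) with hbv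
  have hab : ∀ j i, av j i < bv j i := by
    intro j i
    rw [hav, hbv]
    have : 0 < h / 2 / k := by positivity
    simp only
    linarith
  have hQ : ∀ j i : ℕ, ∃ Q : ℝ, ∀ (𝔮 : Ideal (𝓞 K)) (_ : 𝔮 ≠ ⊥) (_ : Q ≤ Ideal.absNorm 𝔮)
      (E : Finset (MulChar (𝓞 K ⧸ 𝔮) ℂ)), (∀ χ ∈ E, IsBad 𝔮 κ B (av j i) (bv j i) χ) →
      (E.card : ℝ) ≤ ε / (J * k) * (Nat.card (𝓞 K ⧸ 𝔮)ˣ : ℝ) :=
    fun j i => isBad_card κ B (hab j i) (by positivity)
  choose Q hQ using hQ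
  refine ⟨2 + ∑ j ∈ Finset.range J, ∑ i ∈ Finset.range k, |Q j i|, fun 𝔮 hN => ?_⟩
  have hsum0 : 0 ≤ ∑ j ∈ Finset.range J, ∑ i ∈ Finset.range k, |Q j i| :=
    Finset.sum_nonneg fun _ _ => Finset.sum_nonneg fun _ _ => abs_nonneg _
  have htop : 𝔮 ≠ ⊤ := by
    rintro rfl
    rw [Ideal.absNorm_top] at hN
    norm_num at hN
    linarith
  have hbot : 𝔮 ≠ ⊥ := by
    rintro rfl
    rw [Ideal.absNorm_bot] at hN
    norm_num at hN
    linarith
  have hQle : ∀ j ∈ Finset.range J, ∀ i ∈ Finset.range k, Q j i ≤ Ideal.absNorm 𝔮 := by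
    intro j hj i hi
    have h1 : |Q j i| ≤ ∑ i ∈ Finset.range k, |Q j i| :=
      Finset.single_le_sum (f := fun i => |Q j i|) (fun _ _ => abs_nonneg _) hi
    have h2 : ∑ i ∈ Finset.range k, |Q j i| ≤
        ∑ j ∈ Finset.range J, ∑ i ∈ Finset.range k, |Q j i| :=
      Finset.single_le_sum (f := fun j => ∑ i ∈ Finset.range k, |Q j i|)
        (fun _ _ => Finset.sum_nonneg fun _ _ => abs_nonneg _) hj
    have h3 := le_abs_self (Q j i)
    linarith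
  have hfin : Finite (𝓞 K ⧸ 𝔮) := Ideal.finiteQuotientOfFreeOfNeBot 𝔮 hbot
  have hfin2 : Fintype (MulChar (𝓞 K ⧸ 𝔮) ℂ) := Fintype.ofFinite _
  refine ⟨(Finset.range J).biUnion fun j => (Finset.range k).biUnion fun i =>
    Finset.univ.filter (fun χ => IsBad 𝔮 κ B (av j i) (bv j i) χ), ?_, ?_⟩
  · calc (((Finset.range J).biUnion fun j => (Finset.range k).biUnion fun i =>
        Finset.univ.filter (fun χ => IsBad 𝔮 κ B (av j i) (bv j i) χ)).card : ℝ)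
        ≤ ∑ j ∈ Finset.range J, ∑ i ∈ Finset.range k, ((Finset.univ.filter
          (fun χ => IsBad 𝔮 κ B (av j i) (bv j i) χ)).card : ℝ) := by
          have := (Finset.card_biUnion_le (s := Finset.range J) (t := fun j =>
            (Finset.range k).biUnion fun i => Finset.univ.filter
              (fun χ => IsBad 𝔮 κ B (av j i) (bv j i) χ))).trans
            (Finset.sum_le_sum fun j _ => Finset.card_biUnion_le)
          exact_mod_cast this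
      _ ≤ ∑ j ∈ Finset.range J, ∑ i ∈ Finset.range k,
          ε / (J * k) * (Nat.card (𝓞 K ⧸ 𝔮)ˣ : ℝ) := by
          refine Finset.sum_le_sum fun j hj => Finset.sum_le_sum fun i hi => ?_
          exact hQ j i 𝔮 hbot (hQle j hj i hi) _ (fun χ hχ => (Finset.mem_filter.1 hχ).2)
      _ = ε * (Nat.card (𝓞 K ⧸ 𝔮)ˣ : ℝ) := by
          rw [Finset.sum_const, Finset.sum_const, Finset.card_range, Finset.card_range]
          simp only [nsmul_eq_mul]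
          field_simp
  · intro χ hχ hprim lam hB hlam ψ hψ
    have hHD : HD 𝔮 κ lam χ ψ := ⟨hκ, hlam, hbot, htop, hprim, hψ⟩
    refine ⟨_, hcomp hHD, fun x hx1 hx2 => ?_⟩
    by_contra hcon
    push Not at hcon
    obtain ⟨j, hj, hsub⟩ := exists_window hh hx1 hx2
    rw [← hJ] at hj
    set Z : Set ℝ := {t : ℝ | Odd (analyticOrderNatAt (LamD κ lam ψ) (1 / 2 + t * I))} with hZ
    have hle : Z ∩ Set.Ioo (-T + j * (h / 2)) (-T + j * (h / 2) + h / 2) ⊆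
        {t : ℝ | x < t ∧ t < x + h ∧ Odd (analyticOrderNatAt
          (fun s => (C₀ : ℂ)⁻¹ * LamD κ lam ψ s) (1 / 2 + t * I))} := by
      rintro t ⟨ht1, ht2⟩
      have ht3 := hsub ht2
      refine ⟨ht3.1, ht3.2, ?_⟩
      rw [order_const_mul hHD.differentiable hCne]
      exact ht1
    have hlt := lt_of_le_of_lt (Set.encard_le_encard hle) hcon
    obtain ⟨i, hi, hzi⟩ := exists_sub (by linarith) hk hlt
    apply hχ
    refine Finset.mem_biUnion.2 ⟨j, hj, Finset.mem_biUnion.2 ⟨i, hi, ?_⟩⟩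
    refine Finset.mem_filter.2 ⟨Finset.mem_univ _, lam, ψ, hB, hHD, fun t ht => ?_⟩
    apply hzi t
    rw [show -T + (j : ℝ) * (h / 2) + h / 2 - (-T + j * (h / 2)) = h / 2 by ring]
    exact ht

end Pool.Agent.HZ
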